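import Pool.Agent.Lib.PosProp.PosDens
import Pool.Agent.Lib.MP_5b0a7e_nt.Wtrick

/-!
# Application to primes in progressions: one class
-/

open Finset Pool.Agent.GapSieve

namespace Pool.Agent.PosProp

lemma card_dvd_shift (q m : ℕ) (hq : 0 < q) :
    ((range q).filter fun t => q ∣ m + t).card = 1 := by
  have hper : Function.Periodic (fun x => q ∣ x) q := fun x => by
    simp only [eq_iff_iff]
    exact Nat.dvd_add_left (dvd_refl q)
  have h1 := Nat.filter_Ico_card_eq_of_periodic m q (fun x => q ∣ x) hper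
  rw [Nat.count_eq_card_filter_range] at h1
  have h2 : (range q).filter (fun x => q ∣ x) = {0} := by
    ext x
    rw [mem_filter, mem_range, mem_singleton]
    constructor
    · rintro ⟨h3, h4⟩
      exact Nat.eq_zero_of_dvd_of_lt h4 h3
    · rintro rfl
      exact ⟨hq, dvd_zero q⟩
  rw [h2, card_singleton, card_filter, sum_Ico_eq_sum_range, ← card_filter] at h1
  simpa using h1

/-- the primes used by the sieve -/
noncomputable def Qa (a Z : ℕ) (y : ℝ) : Finset ℕ :=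
  (Ioc Z ⌊Real.exp y⌋₊).filter (fun q => q.Prime ∧ ¬ q ∣ a)

lemma mem_Qa {a Z : ℕ} {y : ℝ} {q : ℕ} :
    q ∈ Qa a Z y ↔ Z < q ∧ (q : ℝ) ≤ Real.exp y ∧ q.Prime ∧ ¬ q ∣ a := by
  unfold Qa
  rw [mem_filter, mem_Ioc, Nat.le_floor_iff (Real.exp_pos _).le, and_assoc]

lemma hitSys_forms {a Z U : ℕ} {y : ℝ} (hUZ : U ≤ Z) {N : ℕ} (hN : N ≤ Z) (n : Fin N → ℕ)
    (hinj : Function.Injective n) (hn : ∀ i, n i < U) :
    HitSys (Qa a Z y) (fun _ => 1) (fun q (i : Fin N) t => q ∣ a * n i + t) := by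
  refine ⟨?_, ?_, ?_, ?_, ?_, ?_⟩
  · intro q hq
    exact (mem_Qa.1 hq).2.2.1.pos
  · intro q hq q' hq' hne
    exact (Nat.coprime_primes (mem_Qa.1 hq).2.2.1 (mem_Qa.1 hq').2.2.1).2 hne
  · intro q _ i t
    rw [← Nat.add_assoc]
    exact Nat.dvd_add_left (dvd_refl q)
  · intro q hq i
    unfold hitCount
    have h1 := card_dvd_shift q (a * n i) (mem_Qa.1 hq).2.2.1.pos
    rw [← h1]
    congr
  · intro q hq i j t h1 h2
    obtain ⟨hZ, _, hp, hqa⟩ := mem_Qa.1 hq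
    apply hinj
    have key : ∀ x y : ℕ, x < U → y < U → x ≤ y → q ∣ a * x + t → q ∣ a * y + t → x = y := by
      intro x y _ hy hxy hx1 hy1
      have h3 : q ∣ (a * y + t) - (a * x + t) := Nat.dvd_sub hy1 hx1
      have h4 : (a * y + t) - (a * x + t) = a * (y - x) := by
        rw [Nat.add_sub_add_right, Nat.mul_sub]
      rw [h4] at h3
      have h5 : q ∣ y - x := ((Nat.Prime.dvd_mul hp).1 h3).resolve_left hqa
      have h6 : y - x = 0 := Nat.eq_zero_of_dvd_of_lt h5 (by omega)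
      omega
    rcases le_total (n i) (n j) with h | h
    · exact key _ _ (hn i) (hn j) h h1 h2
    · exact (key _ _ (hn j) (hn i) h h2 h1).symm
  · intro q hq
    have := (mem_Qa.1 hq).1
    show N * 1 < q
    omega

lemma pp_one (N q : ℕ) : pp N (fun _ => 1) q = 1 / ((q : ℝ) - (N - 1)) := by
  unfold pp
  simp

lemma pp_one_ge {N q : ℕ} (hN : 0 < N) (hq : N < q) : 1 / (q : ℝ) ≤ pp N (fun _ => 1) q := by
  rw [pp_one]
  have h1 : (1 : ℝ) ≤ N := by exact_mod_cast hN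
  have h2 : (N : ℝ) < q := by exact_mod_cast hq
  exact one_div_le_one_div_of_le (by linarith) (by linarith)

lemma pp_one_le {N q : ℕ} (hN : 0 < N) (hq : 2 * N < q) : pp N (fun _ => 1) q ≤ 2 / (q : ℝ) := by
  rw [pp_one]
  have h1 : (1 : ℝ) ≤ N := by exact_mod_cast hN
  have h2 : 2 * (N : ℝ) < q := by exact_mod_cast hq
  rw [div_le_div_iff₀ (by linarith) (by linarith)]
  linarith

lemma Qa_inv_sq {a Z : ℕ} {y : ℝ} (hZ : Z ≠ 0) : ∑ q ∈ Qa a Z y, ((q : ℝ) ^ 2)⁻¹ ≤ 1 / Z := by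
  rcases le_or_gt Z ⌊Real.exp y⌋₊ with h | h
  · calc ∑ q ∈ Qa a Z y, ((q : ℝ) ^ 2)⁻¹ ≤ ∑ q ∈ Ioc Z ⌊Real.exp y⌋₊, ((q : ℝ) ^ 2)⁻¹ :=
          sum_le_sum_of_subset_of_nonneg (filter_subset _ _) fun q _ _ => by positivity
      _ ≤ (Z : ℝ)⁻¹ - (⌊Real.exp y⌋₊ : ℝ)⁻¹ := sum_Ioc_inv_sq_le_sub (α := ℝ) hZ h
      _ ≤ 1 / Z := by
          have : (0 : ℝ) ≤ (⌊Real.exp y⌋₊ : ℝ)⁻¹ := by positivity
          rw [one_div]
          linarith
  · have h1 : Qa a Z y = ∅ := by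
      unfold Qa
      rw [Ioc_eq_empty (by omega), filter_empty]
    rw [h1, sum_empty]
    positivity

lemma Qa_pp_sq {a Z : ℕ} {y : ℝ} (hZ : Z ≠ 0) {N : ℕ} (hN : 0 < N) (hNZ : 2 * N ≤ Z) :
    ∑ q ∈ Qa a Z y, pp N (fun _ => 1) q ^ 2 ≤ 4 / Z := by
  calc ∑ q ∈ Qa a Z y, pp N (fun _ => 1) q ^ 2 ≤ ∑ q ∈ Qa a Z y, 4 * ((q : ℝ) ^ 2)⁻¹ := by
        refine sum_le_sum fun q hq => ?_
        have hq1 := (mem_Qa.1 hq).1
        have h1 := pp_one_le (N := N) (q := q) hN (by omega)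
        have h2 := pp_one_ge (N := N) (q := q) hN (by omega)
        have h3 : (0 : ℝ) ≤ 1 / q := by positivity
        calc pp N (fun _ => 1) q ^ 2 ≤ (2 / (q : ℝ)) ^ 2 := pow_le_pow_left₀ (h3.trans h2) h1 2
          _ = _ := by rw [div_pow]; norm_num; rfl
    _ = 4 * ∑ q ∈ Qa a Z y, ((q : ℝ) ^ 2)⁻¹ := by rw [mul_sum]
    _ ≤ 4 * (1 / Z) := mul_le_mul_of_nonneg_left (Qa_inv_sq hZ) (by norm_num)
    _ = _ := by ring

lemma Qa_H1 {a Z : ℕ} {y : ℝ} (ha : a ≠ 0) (hZ : 3 ≤ Z) (hω : a.primeFactors.card ≤ Z) {N : ℕ}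
    (hN : 0 < N) (hNZ : 2 * N ≤ Z) (u v : ℝ) (hu : Real.log Z ≤ u) (huv : u ≤ v) (hv : v ≤ y) :
    ∏ q ∈ Qa a Z y with u < Real.log (q : ℕ) ∧ Real.log (q : ℕ) ≤ v,
      (1 - pp N (fun _ => 1) q) ≤ 2 * Real.exp 9 * u / v := by
  have hZR : (3 : ℝ) ≤ Z := by exact_mod_cast hZ
  have hlZ : 1 ≤ Real.log Z := by
    rw [Real.le_log_iff_exp_le (by linarith)]
    have := Real.exp_one_lt_d9
    linarith
  have hu1 : 1 ≤ u := hlZ.trans hu
  have hZu : (Z : ℝ) ≤ Real.exp u := (Real.log_le_iff_le_exp (by linarith)).1 hu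
  have hZx : Z ≤ ⌊Real.exp u⌋₊ := Nat.le_floor hZu
  have hxy : ⌊Real.exp u⌋₊ ≤ ⌊Real.exp v⌋₊ := Nat.floor_le_floor (Real.exp_le_exp.2 huv)
  have hset : (Qa a Z y).filter (fun q : ℕ => u < Real.log (q : ℕ) ∧ Real.log (q : ℕ) ≤ v) =
      (Ioc ⌊Real.exp u⌋₊ ⌊Real.exp v⌋₊).filter (fun q => q.Prime ∧ ¬ q ∣ a) := by
    ext q
    rw [mem_filter, mem_Qa, mem_filter, mem_Ioc, Nat.le_floor_iff (Real.exp_pos _).le,
      Nat.floor_lt (Real.exp_pos _).le]
    constructor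
    · rintro ⟨⟨_, _, h3, h4⟩, h5, h6⟩
      have hq0 : (0 : ℝ) < q := by exact_mod_cast h3.pos
      exact ⟨⟨(Real.lt_log_iff_exp_lt hq0).1 h5, (Real.log_le_iff_le_exp hq0).1 h6⟩, h3, h4⟩
    · rintro ⟨⟨h1, h2⟩, h3, h4⟩
      have hq0 : (0 : ℝ) < q := by exact_mod_cast h3.pos
      refine ⟨⟨?_, h2.trans (Real.exp_le_exp.2 hv), h3, h4⟩, (Real.lt_log_iff_exp_lt hq0).2 h1,
        (Real.log_le_iff_le_exp hq0).2 h2⟩
      have : (Z : ℝ) < q := hZu.trans_lt h1
      exact_mod_cast this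
  rw [hset]
  calc ∏ q ∈ (Ioc ⌊Real.exp u⌋₊ ⌊Real.exp v⌋₊).filter (fun q => q.Prime ∧ ¬ q ∣ a),
        (1 - pp N (fun _ => 1) q)
      ≤ ∏ q ∈ (Ioc ⌊Real.exp u⌋₊ ⌊Real.exp v⌋₊).filter (fun q => q.Prime ∧ ¬ q ∣ a),
        (1 - (1 : ℝ) / q) := by
        refine prod_le_prod (fun q hq => ?_) fun q hq => ?_
        · have h1 := (mem_Ioc.1 (mem_filter.1 hq).1).1
          have h2 := pp_one_le (N := N) (q := q) hN (by omega)
          have h3 : (2 : ℝ) / q ≤ 1 := by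
            have h4 : 2 ≤ q := by omega
            have h5 : (2 : ℝ) ≤ q := by exact_mod_cast h4
            rw [div_le_one (by linarith)]
            exact h5
          linarith
        · have h1 := (mem_Ioc.1 (mem_filter.1 hq).1).1
          have h2 := pp_one_ge (N := N) (q := q) hN (by omega)
          linarith
    _ ≤ Real.exp 9 * Real.log ((⌊Real.exp u⌋₊ : ℕ) + 1) /
          Real.log ((⌊Real.exp v⌋₊ : ℕ) + 1) :=
        LPAP.prod_range_le (by omega) hxy ha (by omega)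
    _ ≤ Real.exp 9 * (2 * u) / v := by
        have h1 : Real.log ((⌊Real.exp u⌋₊ : ℕ) + 1) ≤ 2 * u := by
          have h2 : ((⌊Real.exp u⌋₊ : ℕ) : ℝ) + 1 ≤ Real.exp (2 * u) := by
            have h3 : ((⌊Real.exp u⌋₊ : ℕ) : ℝ) ≤ Real.exp u := Nat.floor_le (Real.exp_pos _).le
            have h4 : Real.exp (2 * u) = Real.exp u * Real.exp u := by
              rw [← Real.exp_add]; ring_nf
            have h5 : 2 ≤ Real.exp u := by
              have := Real.add_one_le_exp u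
              linarith
            nlinarith
          calc Real.log ((⌊Real.exp u⌋₊ : ℕ) + 1) ≤ Real.log (Real.exp (2 * u)) :=
                Real.log_le_log (by positivity) h2
            _ = 2 * u := Real.log_exp _
        have h2 : v ≤ Real.log ((⌊Real.exp v⌋₊ : ℕ) + 1) := by
          rw [Real.le_log_iff_exp_le (by positivity)]
          exact (Nat.lt_floor_add_one _).le
        have hv0 : 0 < v := by linarith
        gcongr
    _ = _ := by ring

lemma Qa_H2 {a Z : ℕ} {y : ℝ} {N : ℕ} (hN : 0 < N) (hNZ : 2 * N ≤ Z) (v : ℝ) (hv0 : 0 ≤ v) :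
    ∑ q ∈ Qa a Z y with Real.log (q : ℕ) ≤ v, pp N (fun _ => 1) q * Real.log q ≤ 6 * v := by
  rcases lt_or_ge v (Real.log 2) with hv | hv
  · have h1 : (Qa a Z y).filter (fun q : ℕ => Real.log (q : ℕ) ≤ v) = ∅ := by
      rw [filter_eq_empty_iff]
      intro q hq
      have h2 := (mem_Qa.1 hq).2.2.1.two_le
      have h3 : (2 : ℝ) ≤ q := by exact_mod_cast h2
      have h4 := Real.log_le_log (by norm_num) h3
      rw [not_le]
      linarith
    rw [h1, sum_empty]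
    linarith
  · calc ∑ q ∈ Qa a Z y with Real.log (q : ℕ) ≤ v, pp N (fun _ => 1) q * Real.log q
        ≤ ∑ q ∈ Qa a Z y with Real.log (q : ℕ) ≤ v, 2 * (Real.log q / q) := by
          refine sum_le_sum fun q hq => ?_
          have hq1 := (mem_Qa.1 (mem_filter.1 hq).1).1
          have h1 := pp_one_le (N := N) (q := q) hN (by omega)
          have h2 := mul_le_mul_of_nonneg_right h1 (Real.log_natCast_nonneg q)
          calc _ ≤ _ := h2
            _ = _ := by ring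
      _ ≤ ∑ q ∈ (Ioc 0 ⌊Real.exp v⌋₊).filter Nat.Prime, 2 * (Real.log q / q) := by
          refine sum_le_sum_of_subset_of_nonneg ?_ fun q _ _ => ?_
          · intro q hq
            obtain ⟨h1, h2⟩ := mem_filter.1 hq
            have h3 := (mem_Qa.1 h1).2.2.1
            have hq0 : (0 : ℝ) < q := by exact_mod_cast h3.pos
            exact mem_filter.2 ⟨mem_Ioc.2 ⟨h3.pos, Nat.le_floor
              ((Real.log_le_iff_le_exp hq0).1 h2)⟩, h3⟩
          · have := Real.log_natCast_nonneg q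
            positivity
      _ = 2 * ∑ q ∈ (Ioc 0 ⌊Real.exp v⌋₊).filter Nat.Prime, Real.log q / q := by rw [mul_sum]
      _ ≤ 2 * (Real.log (⌊Real.exp v⌋₊ : ℕ) + Real.log 4) := by
          refine mul_le_mul_of_nonneg_left (LPAP.sum_log_div_le _ ?_) (by norm_num)
          exact Nat.floor_pos.2 (Real.one_le_exp hv0)
      _ ≤ 2 * (v + 2 * v) := by
          have h1 : 0 < ⌊Real.exp v⌋₊ := Nat.floor_pos.2 (Real.one_le_exp hv0)
          have h2 : Real.log (⌊Real.exp v⌋₊ : ℕ) ≤ v := by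
            rw [Real.log_le_iff_le_exp (by exact_mod_cast h1)]
            exact Nat.floor_le (Real.exp_pos _).le
          have h3 : Real.log 4 = 2 * Real.log 2 := by
            rw [show (4 : ℝ) = 2 ^ 2 by norm_num, Real.log_pow]
            norm_num
          linarith
      _ = _ := by ring

lemma equiD_Bset {a : ℕ} (ha : a ≠ 0) {Y X : ℕ} (hYX : Y ≤ X) {m0 : ℕ} (c0 : ℕ) (hm0 : 0 < m0)
    (hma : m0.Coprime a) {P : ℕ} (hPa : P.Coprime a) (hPm : m0.Coprime P) :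
    EquiD P (LPAP.Bset Y X a m0 c0) (((X : ℝ) - Y) / m0 * (a.totient / a))
      (2 ^ a.primeFactors.card) := by
  intro m hm hm1 c hc
  have hco : m0.Coprime m := hPm.coprime_dvd_right hm
  have hma' : (m0 * m).Coprime a := Nat.Coprime.mul_left hma (hPa.coprime_dvd_left hm)
  have h1 : (LPAP.Bset Y X a m0 c0).filter (fun t => t % m = c) =
      LPAP.Bset Y X a (m0 * m) (Nat.chineseRemainder hco c0 c) := by
    ext b
    unfold LPAP.Bset
    rw [mem_filter, mem_filter, mem_filter]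
    have h2 : b % m = c ↔ b ≡ c [MOD m] := by
      unfold Nat.ModEq
      rw [Nat.mod_eq_of_lt hc]
    have h3 : b ≡ Nat.chineseRemainder hco c0 c [MOD m0 * m] ↔
        b ≡ c0 [MOD m0] ∧ b ≡ c [MOD m] := by
      have h4 := (Nat.chineseRemainder hco c0 c).2
      rw [← Nat.modEq_and_modEq_iff_modEq_mul hco]
      constructor
      · rintro ⟨h5, h6⟩
        exact ⟨h5.trans h4.1, h6.trans h4.2⟩
      · rintro ⟨h5, h6⟩
        exact ⟨h5.trans h4.1.symm, h6.trans h4.2.symm⟩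
    rw [h2, h3]
    tauto
  rw [h1]
  have h2 := LPAP.Bset_card ha Y X (m0 * m) (Nat.chineseRemainder hco c0 c)
    (Nat.mul_pos hm0 hm1) hma' hYX
  have h3 : ((X : ℝ) - Y) / ((m0 * m : ℕ) : ℝ) * (a.totient / a) =
      ((X : ℝ) - Y) / m0 * (a.totient / a) / m := by
    push_cast
    have : (m0 : ℝ) ≠ 0 := by exact_mod_cast hm0.ne'
    have : (m : ℝ) ≠ 0 := by exact_mod_cast hm1.ne'
    field_simp
  rw [h3] at h2
  exact h2

end Pool.Agent.PosProp
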