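import Pool.Agent.Lib.GapSieve.Product

/-!
# Truncated products of orthogonal one-site systems

One site: the probability space of subsets `ω` of `Q` with weight `mu p Q`.
A one-site system is a finite family `e s`, `s ∈ S`, of orthogonal functions, `e s0 = c0` constant.
`GG L` is the part of cost `≤ L` of `∏ i, ∑ s, e s (ω i)`.
-/

open Finset Pool.Agent.GapSieve

namespace Pool.Agent.PosProp

/-- one-site expectation -/
noncomputable def E1 (p : ℕ → ℝ) (Q : Finset ℕ) (f : Finset ℕ → ℝ) : ℝ :=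
  ∑ ω ∈ Q.powerset, mu p Q ω * f ω

lemma E1_mono {p : ℕ → ℝ} {Q : Finset ℕ} (h0 : ∀ q ∈ Q, 0 ≤ p q) (h1 : ∀ q ∈ Q, p q ≤ 1)
    {f g : Finset ℕ → ℝ} (h : ∀ ω ⊆ Q, f ω ≤ g ω) : E1 p Q f ≤ E1 p Q g :=
  sum_le_sum fun ω hω => mul_le_mul_of_nonneg_left (h ω (mem_powerset.1 hω))
    (mu_nonneg (mem_powerset.1 hω) h0 h1)

lemma E1_nonneg {p : ℕ → ℝ} {Q : Finset ℕ} (h0 : ∀ q ∈ Q, 0 ≤ p q) (h1 : ∀ q ∈ Q, p q ≤ 1)
    {f : Finset ℕ → ℝ} (h : ∀ ω ⊆ Q, 0 ≤ f ω) : 0 ≤ E1 p Q f :=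
  sum_nonneg fun ω hω => mul_nonneg (mu_nonneg (mem_powerset.1 hω) h0 h1)
    (h ω (mem_powerset.1 hω))

lemma E1_congr {p : ℕ → ℝ} {Q : Finset ℕ} {f g : Finset ℕ → ℝ} (h : ∀ ω ⊆ Q, f ω = g ω) :
    E1 p Q f = E1 p Q g :=
  sum_congr rfl fun ω hω => by rw [h ω (mem_powerset.1 hω)]

lemma E1_add (p : ℕ → ℝ) (Q : Finset ℕ) (f g : Finset ℕ → ℝ) :
    E1 p Q (fun ω => f ω + g ω) = E1 p Q f + E1 p Q g := by
  unfold E1; rw [← sum_add_distrib]; exact sum_congr rfl fun _ _ => by ring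

lemma E1_sub (p : ℕ → ℝ) (Q : Finset ℕ) (f g : Finset ℕ → ℝ) :
    E1 p Q (fun ω => f ω - g ω) = E1 p Q f - E1 p Q g := by
  unfold E1; rw [← sum_sub_distrib]; exact sum_congr rfl fun _ _ => by ring

lemma E1_mul_left (p : ℕ → ℝ) (Q : Finset ℕ) (c : ℝ) (f : Finset ℕ → ℝ) :
    E1 p Q (fun ω => c * f ω) = c * E1 p Q f := by
  unfold E1; rw [mul_sum]; exact sum_congr rfl fun _ _ => by ring

lemma E1_const (p : ℕ → ℝ) (Q : Finset ℕ) (c : ℝ) : E1 p Q (fun _ => c) = c := by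
  unfold E1; rw [← sum_mul, E_one, one_mul]

lemma EN_one {N : ℕ} (p : ℕ → ℝ) (Q : Finset ℕ) : EN (N := N) p Q (fun _ => 1) = 1 := by
  have h := EN_prod (N := N) p Q (fun _ _ => 1)
  simp only [prod_const_one] at h
  rw [h]
  refine prod_eq_one fun i _ => ?_
  have := E1_const p Q 1
  unfold E1 at this
  exact this

lemma EN_const {N : ℕ} (p : ℕ → ℝ) (Q : Finset ℕ) (c : ℝ) :
    EN (N := N) p Q (fun _ => c) = c := by
  have h := EN_smul (N := N) p Q c (fun _ => 1)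
  simp only [mul_one] at h
  rw [h, EN_one, mul_one]

lemma EN_nonneg {N : ℕ} {p : ℕ → ℝ} {Q : Finset ℕ} (h0 : ∀ q ∈ Q, 0 ≤ p q)
    (h1 : ∀ q ∈ Q, p q ≤ 1) {Φ : (Fin N → Finset ℕ) → ℝ} (h : ∀ ω ∈ Om N Q, 0 ≤ Φ ω) :
    0 ≤ EN p Q Φ :=
  sum_nonneg fun ω hω => mul_nonneg (muN_nonneg hω h0 h1) (h ω hω)

section system

variable {S : Type*} [DecidableEq S] {N : ℕ}

/-- squared norm of a component -/
noncomputable def nn (p : ℕ → ℝ) (Q : Finset ℕ) (e : S → Finset ℕ → ℝ) (s : S) : ℝ :=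
  E1 p Q (fun ω => e s ω ^ 2)

/-- cost of a multi-index -/
def cost (d : S → ℝ) (σ : Fin N → S) : ℝ := ∑ i, d (σ i)

/-- product component -/
def ePi (e : S → Finset ℕ → ℝ) (σ : Fin N → S) (ω : Fin N → Finset ℕ) : ℝ :=
  ∏ i, e (σ i) (ω i)

/-- all multi-indices -/
def Pi (N : ℕ) (T : Finset S) : Finset (Fin N → S) := Fintype.piFinset fun _ => T

omit [DecidableEq S] in
lemma mem_Pi {T : Finset S} {σ : Fin N → S} : σ ∈ Pi N T ↔ ∀ i, σ i ∈ T := by
  simp [Pi, Fintype.mem_piFinset]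

open Classical in
/-- the part of cost at most `L` -/
noncomputable def GG (T : Finset S) (e : S → Finset ℕ → ℝ) (d : S → ℝ) (L : ℝ)
    (ω : Fin N → Finset ℕ) : ℝ :=
  ∑ σ ∈ (Pi N T).filter (fun σ => cost d σ ≤ L), ePi e σ ω

lemma EN_ePi {p : ℕ → ℝ} {Q : Finset ℕ} {T : Finset S} {e : S → Finset ℕ → ℝ}
    (horth : ∀ s ∈ T, ∀ t ∈ T, s ≠ t → E1 p Q (fun ω => e s ω * e t ω) = 0)
    {σ τ : Fin N → S} (hσ : σ ∈ Pi N T) (hτ : τ ∈ Pi N T) :
    EN p Q (fun ω => ePi e σ ω * ePi e τ ω) = if σ = τ then ∏ i, nn p Q e (σ i) else 0 := by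
  have h1 : (fun ω : Fin N → Finset ℕ => ePi e σ ω * ePi e τ ω) =
      fun ω => ∏ i, (e (σ i) (ω i) * e (τ i) (ω i)) := by
    funext ω
    unfold ePi
    rw [prod_mul_distrib]
  rw [h1, EN_prod p Q (fun i ω => e (σ i) ω * e (τ i) ω)]
  split_ifs with h
  · subst h
    refine prod_congr rfl fun i _ => ?_
    unfold nn E1
    exact sum_congr rfl fun ω _ => by ring
  · obtain ⟨i, hi⟩ : ∃ i, σ i ≠ τ i := by
      by_contra hne
      push Not at hne
      exact h (funext hne)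
    refine prod_eq_zero (mem_univ i) ?_
    exact horth _ (mem_Pi.1 hσ i) _ (mem_Pi.1 hτ i) hi

lemma parsevalS {p : ℕ → ℝ} {Q : Finset ℕ} {T : Finset S} {e : S → Finset ℕ → ℝ}
    (horth : ∀ s ∈ T, ∀ t ∈ T, s ≠ t → E1 p Q (fun ω => e s ω * e t ω) = 0)
    (D : Finset (Fin N → S)) (hD : D ⊆ Pi N T) (a : (Fin N → S) → ℝ) :
    EN p Q (fun ω => (∑ σ ∈ D, a σ * ePi e σ ω) ^ 2) =
      ∑ σ ∈ D, a σ ^ 2 * ∏ i, nn p Q e (σ i) := by
  have h1 : (fun ω : Fin N → Finset ℕ => (∑ σ ∈ D, a σ * ePi e σ ω) ^ 2) =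
      fun ω => ∑ σ ∈ D, ∑ τ ∈ D, (a σ * a τ) * (ePi e σ ω * ePi e τ ω) := by
    funext ω
    rw [pow_two, sum_mul_sum]
    exact sum_congr rfl fun σ _ => sum_congr rfl fun τ _ => by ring
  rw [h1, EN_sum]
  refine sum_congr rfl fun σ hσ => ?_
  rw [EN_sum]
  have h2 : ∀ τ ∈ D, EN p Q (fun ω => (a σ * a τ) * (ePi e σ ω * ePi e τ ω)) =
      if σ = τ then a σ ^ 2 * ∏ i, nn p Q e (σ i) else 0 := by
    intro τ hτ
    rw [EN_smul, EN_ePi horth (hD hσ) (hD hτ)]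
    split_ifs with h
    · subst h; ring
    · ring
  rw [sum_congr rfl h2, sum_ite_eq]
  simp [hσ]

omit [DecidableEq S] in
lemma sum_Pi_prod (T : Finset S) (f : S → ℝ) :
    ∑ σ ∈ Pi N T, ∏ i, f (σ i) = (∑ s ∈ T, f s) ^ N := by
  have h : ∏ _i : Fin N, ∑ s ∈ T, f s = ∑ σ ∈ Pi N T, ∏ i, f (σ i) := by
    rw [prod_univ_sum]
    rfl
  rw [← h]
  simp

omit [DecidableEq S] in
lemma exp_cost (θ : ℝ) (d : S → ℝ) (σ : Fin N → S) :
    Real.exp (θ * cost d σ) = ∏ i, Real.exp (θ * d (σ i)) := by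
  unfold cost
  rw [mul_sum, Real.exp_sum]

omit [DecidableEq S] in
open Classical in
/-- exponential Markov inequality for the cost -/
lemma tailS (T : Finset S) (f : S → ℝ) (hf : ∀ s ∈ T, 0 ≤ f s) (d : S → ℝ) (L θ : ℝ)
    (hθ : 0 ≤ θ) :
    ∑ σ ∈ (Pi N T).filter (fun σ => L < cost d σ), ∏ i, f (σ i) ≤
      Real.exp (-(θ * L)) * (∑ s ∈ T, f s * Real.exp (θ * d s)) ^ N := by
  rw [← sum_Pi_prod, mul_sum]
  have hnn : ∀ σ ∈ Pi N T, 0 ≤ ∏ i, f (σ i) := fun σ hσ =>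
    prod_nonneg fun i _ => hf _ (mem_Pi.1 hσ i)
  calc ∑ σ ∈ (Pi N T).filter (fun σ => L < cost d σ), ∏ i, f (σ i)
      ≤ ∑ σ ∈ (Pi N T).filter (fun σ => L < cost d σ),
        Real.exp (-(θ * L)) * ∏ i, (f (σ i) * Real.exp (θ * d (σ i))) := by
        refine sum_le_sum fun σ hσ => ?_
        obtain ⟨h1, h2⟩ := mem_filter.1 hσ
        rw [prod_mul_distrib, ← exp_cost]
        have h3 : 1 ≤ Real.exp (-(θ * L)) * Real.exp (θ * cost d σ) := by
          rw [← Real.exp_add]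
          apply Real.one_le_exp
          nlinarith
        have h4 := hnn σ h1
        calc ∏ i, f (σ i) = (∏ i, f (σ i)) * 1 := (mul_one _).symm
          _ ≤ (∏ i, f (σ i)) * (Real.exp (-(θ * L)) * Real.exp (θ * cost d σ)) :=
              mul_le_mul_of_nonneg_left h3 h4
          _ = _ := by ring
    _ ≤ _ := by
        refine sum_le_sum_of_subset_of_nonneg (filter_subset _ _) fun σ hσ _ => ?_
        refine mul_nonneg (Real.exp_pos _).le (prod_nonneg fun i _ => ?_)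
        exact mul_nonneg (hf _ (mem_Pi.1 hσ i)) (Real.exp_pos _).le

/-- lower bound for the second moment of the truncated product -/
lemma GG_sq_lower {p : ℕ → ℝ} {Q : Finset ℕ} (h0 : ∀ q ∈ Q, 0 ≤ p q) (h1 : ∀ q ∈ Q, p q ≤ 1)
    {T : Finset S} {e : S → Finset ℕ → ℝ}
    (horth : ∀ s ∈ T, ∀ t ∈ T, s ≠ t → E1 p Q (fun ω => e s ω * e t ω) = 0)
    (d : S → ℝ) (L θ : ℝ) (hθ : 0 ≤ θ) :
    (∑ s ∈ T, nn p Q e s) ^ N -
      Real.exp (-(θ * L)) * (∑ s ∈ T, nn p Q e s * Real.exp (θ * d s)) ^ N ≤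
      EN p Q (fun ω : Fin N → Finset ℕ => GG T e d L ω ^ 2) := by
  classical
  have hP := parsevalS (N := N) horth ((Pi N T).filter (fun σ => cost d σ ≤ L))
    (filter_subset _ _) (fun _ => 1)
  simp only [one_mul, one_pow] at hP
  unfold GG
  rw [hP]
  have hnn : ∀ s ∈ T, 0 ≤ nn p Q e s := fun s _ => E1_nonneg h0 h1 fun _ _ => sq_nonneg _
  have ht := tailS (N := N) T (nn p Q e) hnn d L θ hθ
  have hs := sum_filter_add_sum_filter_not (Pi N T) (fun σ => cost d σ ≤ L)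
    (fun σ => ∏ i, nn p Q e (σ i))
  rw [sum_Pi_prod] at hs
  have h5 : ∑ σ ∈ (Pi N T).filter (fun σ => ¬ cost d σ ≤ L), ∏ i, nn p Q e (σ i) =
      ∑ σ ∈ (Pi N T).filter (fun σ => L < cost d σ), ∏ i, nn p Q e (σ i) := by
    refine sum_congr ?_ fun _ _ => rfl
    ext σ
    simp [not_le]
  rw [h5] at hs
  linarith

omit [DecidableEq S] in
/-- fourth (any even) moment bound by the product of absolute sums -/
lemma GG_pow_le {p : ℕ → ℝ} {Q : Finset ℕ} (h0 : ∀ q ∈ Q, 0 ≤ p q) (h1 : ∀ q ∈ Q, p q ≤ 1)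
    (T : Finset S) (e : S → Finset ℕ → ℝ) (d : S → ℝ) (L : ℝ) :
    EN p Q (fun ω : Fin N → Finset ℕ => GG T e d L ω ^ 4) ≤
      (E1 p Q (fun ω => (∑ s ∈ T, |e s ω|) ^ 4)) ^ N := by
  classical
  have h2 : ∀ ω : Fin N → Finset ℕ, GG T e d L ω ^ 4 ≤ ∏ i, (∑ s ∈ T, |e s (ω i)|) ^ 4 := by
    intro ω
    have h3 : |GG T e d L ω| ≤ ∏ i, ∑ s ∈ T, |e s (ω i)| := by
      rw [prod_univ_sum]
      unfold GG
      calc |∑ σ ∈ (Pi N T).filter (fun σ => cost d σ ≤ L), ePi e σ ω|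
          ≤ ∑ σ ∈ (Pi N T).filter (fun σ => cost d σ ≤ L), |ePi e σ ω| := abs_sum_le_sum_abs _ _
        _ ≤ ∑ σ ∈ Pi N T, |ePi e σ ω| :=
            sum_le_sum_of_subset_of_nonneg (filter_subset _ _) fun _ _ _ => abs_nonneg _
        _ = _ := by
            refine sum_congr rfl fun σ _ => ?_
            unfold ePi
            rw [abs_prod]
    rw [prod_pow, ← Even.pow_abs (n := 4) (by decide) (GG T e d L ω)]
    exact pow_le_pow_left₀ (abs_nonneg _) h3 4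
  calc EN p Q (fun ω : Fin N → Finset ℕ => GG T e d L ω ^ 4)
      ≤ EN p Q (fun ω : Fin N → Finset ℕ => ∏ i, (∑ s ∈ T, |e s (ω i)|) ^ 4) :=
        EN_mono h0 h1 fun ω _ => h2 ω
    _ = _ := by
        rw [EN_prod p Q (fun _ ω => (∑ s ∈ T, |e s ω|) ^ 4)]
        unfold E1
        simp

/-- partial sums at the empty configuration -/
noncomputable def rr (T : Finset S) (e : S → Finset ℕ → ℝ) (d : S → ℝ) (h : ℝ) : ℝ :=
  ∑ s ∈ T with d s ≤ h, e s ∅

omit [DecidableEq S] in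
lemma rr_neg {T : Finset S} {e : S → Finset ℕ → ℝ} {d : S → ℝ} (hd : ∀ s ∈ T, 0 ≤ d s) {h : ℝ}
    (hh : h < 0) : rr T e d h = 0 := by
  unfold rr
  refine sum_eq_zero fun s hs => ?_
  obtain ⟨h1, h2⟩ := mem_filter.1 hs
  have := hd s h1
  linarith

omit [DecidableEq S] in
lemma rr_eq_tail {T : Finset S} {e : S → Finset ℕ → ℝ} {d : S → ℝ}
    (hsum : ∑ s ∈ T, e s ∅ = 0) (h : ℝ) :
    rr T e d h = ∑ s ∈ T with h < d s, - e s ∅ := by
  unfold rr
  have h1 := sum_filter_add_sum_filter_not T (fun s => d s ≤ h) (fun s => e s ∅)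
  rw [hsum] at h1
  have h5 : T.filter (fun s => ¬ d s ≤ h) = T.filter (fun s => h < d s) := by
    ext s; simp [not_le]
  rw [h5] at h1
  rw [sum_neg_distrib]
  linarith

lemma rr_bounds {T : Finset S} {s0 : S} {e : S → Finset ℕ → ℝ} {d : S → ℝ}
    (hd : ∀ s ∈ T, 0 ≤ d s) (hd0 : d s0 = 0) (hneg : ∀ s ∈ T, s ≠ s0 → e s ∅ ≤ 0)
    (hsum : ∑ s ∈ T, e s ∅ = 0) (hs0 : s0 ∈ T) (hc1 : e s0 ∅ ≤ 1)
    {θ : ℝ} (hθ : 0 ≤ θ) (h : ℝ) :
    rr T e d h ^ 2 ≤ 1 ∧
    (0 ≤ h → rr T e d h ^ 2 ≤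
      (Real.exp (-(θ * h)) * ∑ s ∈ T.erase s0, |e s ∅| * Real.exp (θ * d s)) ^ 2) := by
  rcases lt_or_ge h 0 with hh | hh
  · rw [rr_neg hd hh]
    constructor
    · norm_num
    · intro h'; exact absurd h' (by linarith)
  · have hnot : ∀ s ∈ T.filter (fun s => h < d s), s ∈ T.erase s0 := by
      intro s hs
      obtain ⟨h1, h2⟩ := mem_filter.1 hs
      refine mem_erase.2 ⟨?_, h1⟩
      rintro rfl
      rw [hd0] at h2
      linarith
    have hr := rr_eq_tail (d := d) hsum h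
    have hr0 : 0 ≤ rr T e d h := by
      rw [hr]
      refine sum_nonneg fun s hs => ?_
      have h1 := mem_erase.1 (hnot s hs)
      have := hneg s h1.2 h1.1
      linarith
    have hr1 : rr T e d h ≤ 1 := by
      have h1 : ∑ s ∈ T with h < d s, - e s ∅ ≤ ∑ s ∈ T.erase s0, - e s ∅ := by
        refine sum_le_sum_of_subset_of_nonneg hnot fun s hs _ => ?_
        have h1 := mem_erase.1 hs
        have := hneg s h1.2 h1.1
        linarith
      have h2 : ∑ s ∈ T.erase s0, - e s ∅ = e s0 ∅ := by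
        have := add_sum_erase T (fun s => e s ∅) hs0
        rw [hsum] at this
        rw [sum_neg_distrib]
        linarith
      rw [hr]; linarith
    constructor
    · nlinarith
    · intro _
      have h3 : rr T e d h ≤ Real.exp (-(θ * h)) * ∑ s ∈ T.erase s0, |e s ∅| *
          Real.exp (θ * d s) := by
        rw [hr, mul_sum]
        calc ∑ s ∈ T with h < d s, - e s ∅
            ≤ ∑ s ∈ T with h < d s, Real.exp (-(θ * h)) * (|e s ∅| * Real.exp (θ * d s)) := by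
              refine sum_le_sum fun s hs => ?_
              have h4 := (mem_filter.1 hs).2
              have h5 : 1 ≤ Real.exp (-(θ * h)) * Real.exp (θ * d s) := by
                rw [← Real.exp_add]
                apply Real.one_le_exp
                nlinarith
              calc - e s ∅ ≤ |e s ∅| := neg_le_abs _
                _ = |e s ∅| * 1 := (mul_one _).symm
                _ ≤ |e s ∅| * (Real.exp (-(θ * h)) * Real.exp (θ * d s)) :=
                    mul_le_mul_of_nonneg_left h5 (abs_nonneg _)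
                _ = _ := by ring
          _ ≤ _ := by
              refine sum_le_sum_of_subset_of_nonneg hnot fun s _ _ => ?_
              positivity
      exact pow_le_pow_left₀ hr0 h3 2

end system

end Pool.Agent.PosProp
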