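import Pool.Agent.Lib.PosProp.App1

/-!
# Application to primes in progressions: counting in one class
-/

open Finset Pool.Agent.GapSieve

namespace Pool.Agent.PosProp

open Classical in
lemma class_count {lam ε c η : ℝ} (hη : 0 < η) (hPD : PD (2 * Real.exp 9) 6 lam ε c η)
    {a : ℕ} (ha : a ≠ 0) {LX : ℝ} (hLX : 1 / η ≤ LX) {Z U Y : ℕ} (hZ : 3 ≤ Z)
    (hlZ : Real.log Z ≤ η * LX) (hω : a.primeFactors.card ≤ Z) (hUZ : U ≤ Z)
    (S : Finset ℕ) (hS : S ⊆ range U) (hS0 : S.Nonempty) (hN1 : 2 * S.card ≤ Z)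
    (hN2 : S.card * Real.log Z ≤ lam * LX) (hN3 : (S.card : ℝ) ^ 2 * (4 / Z) ≤ η)
    {W : ℕ} (hW : 0 < W) (hWa : W.Coprime a) (hWq : ∀ q, q.Prime → Z < q → W.Coprime q)
    (hYa : Y ≤ a)
    (hE : 2 ^ a.primeFactors.card * Real.exp (LX / 2) ≤ ((a : ℝ) - Y) / W * (a.totient / a))
    (b0 : ℕ) :
    c * (((a : ℝ) - Y) / W * (a.totient / a)) ≤
      (((LPAP.Bset Y a a W b0).filter (fun b => ∀ n ∈ S, ∃ q : ℕ, q.Prime ∧
        (q : ℝ) ≤ Real.exp (ε * LX) ∧ q ∣ a * n + b)).card : ℝ) := by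
  classical
  set N := S.card with hN
  have hN0 : 0 < N := card_pos.2 hS0
  set n : Fin N → ℕ := fun i => S.orderEmbOfFin rfl i with hn
  have hnS : ∀ i, n i ∈ S := fun i => orderEmbOfFin_mem S rfl i
  have hinj : Function.Injective n := (S.orderEmbOfFin rfl).injective
  have hZR : (3 : ℝ) ≤ Z := by exact_mod_cast hZ
  have hlZ1 : 1 ≤ Real.log Z := by
    rw [Real.le_log_iff_exp_le (by linarith)]
    have := Real.exp_one_lt_d9
    linarith
  have hLX0 : 0 < LX := lt_of_lt_of_le (by positivity) hLX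
  have hsys := hitSys_forms (a := a) (Z := Z) (U := U) (y := ε * LX) hUZ (N := N) (by omega) n hinj
    (fun i => mem_range.1 (hS (hnS i)))
  have key := hPD N (Qa a Z (ε * LX)) (fun _ => 1) (fun q (i : Fin N) t => q ∣ a * n i + t) LX
    (Real.log Z) hsys hN0 hLX hlZ1 hlZ hN2 ?_ ?_ ?_ ?_ ?_ ?_ ?_
    (LPAP.Bset Y a a W b0) (((a : ℝ) - Y) / W * (a.totient / a)) (2 ^ a.primeFactors.card)
    ?_ (by positivity) ?_ hE
  · refine key.trans ?_
    refine Nat.cast_le.2 (card_le_card ?_)
    intro b hb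
    simp only [mem_filter] at hb ⊢
    obtain ⟨h1, h2⟩ := hb
    refine ⟨h1, fun m hm => ?_⟩
    obtain ⟨i, hi⟩ : ∃ i, n i = m := by
      have h3 : m ∈ Set.range (S.orderEmbOfFin rfl) := by
        rw [range_orderEmbOfFin]
        exact hm
      exact h3
    obtain ⟨q, hq, hqd⟩ := h2 i
    obtain ⟨_, hq2, hq3, _⟩ := mem_Qa.1 hq
    rw [hi] at hqd
    exact ⟨q, hq3, hq2, hqd⟩
  · intro q hq
    exact Real.log_lt_log (by linarith) (by exact_mod_cast (mem_Qa.1 hq).1)
  · intro q hq
    obtain ⟨_, h2, h3, _⟩ := mem_Qa.1 hq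
    rw [Real.log_le_iff_le_exp (by exact_mod_cast h3.pos)]
    exact h2
  · intro q hq
    have h1 := (mem_Qa.1 hq).1
    have h2 := pp_one_le (N := N) (q := q) hN0 (by omega)
    refine h2.trans ?_
    have h4 : 4 ≤ q := by omega
    have h5 : (4 : ℝ) ≤ q := by exact_mod_cast h4
    rw [div_le_div_iff₀ (by linarith) (by norm_num)]
    linarith
  · intro u v hu huv hv
    exact Qa_H1 ha hZ hω hN0 hN1 u v hu huv hv
  · intro v hv _
    exact Qa_H2 hN0 hN1 v hv
  · refine (Qa_inv_sq (by omega)).trans ?_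
    rw [div_le_one (by linarith)]
    linarith
  · have h1 := Qa_pp_sq (a := a) (Z := Z) (y := ε * LX) (by omega) hN0 hN1
    exact (mul_le_mul_of_nonneg_left h1 (by positivity)).trans hN3
  · have h1 : (Y : ℝ) ≤ a := by exact_mod_cast hYa
    have h2 : 0 ≤ (a : ℝ) - Y := by linarith
    positivity
  · refine equiD_Bset ha hYa b0 hW hWa ?_ ?_
    · refine Nat.Coprime.prod_left fun q hq => ?_
      obtain ⟨_, _, h3, h4⟩ := mem_Qa.1 hq
      exact (Nat.Prime.coprime_iff_not_dvd h3).2 h4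
    · refine Nat.Coprime.prod_right fun q hq => ?_
      obtain ⟨h1, _, h3, _⟩ := mem_Qa.1 hq
      exact hWq q h3 h1

/-- half of the classes have few surviving sites -/
lemma half_classes (a U W : ℕ) (hW : 0 < W) :
    W ≤ 2 * ((range W).filter (fun b0 =>
      ((range U).filter (fun n => W.Coprime (a * n + b0))).card * W ≤ 2 * (U * W.totient))).card := by
  classical
  rcases Nat.eq_zero_or_pos U with hU | hU
  · subst hU
    have h1 : (range W).filter (fun b0 =>
      ((range 0).filter (fun n => W.Coprime (a * n + b0))).card * W ≤ 2 * (0 * W.totient)) =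
      range W := filter_true_of_mem fun b0 _ => by simp
    rw [h1, card_range]
    omega
  have hφ : 0 < W.totient := Nat.totient_pos.2 hW
  have h1 : ∑ b0 ∈ range W, ((range U).filter
      (fun n => W.Coprime (a * n + b0))).card = U * W.totient := by
    simp only [card_filter]
    rw [sum_comm]
    have h2 : ∀ n ∈ range U, ∑ b0 ∈ range W,
        (if W.Coprime (a * n + b0) then 1 else 0) = W.totient := by
      intro n _
      rw [← Nat.filter_coprime_Ico_eq_totient W (a * n), card_filter]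
      rw [sum_Ico_eq_sum_range]
      simp only [Nat.add_sub_cancel_left]
    rw [sum_congr rfl h2, sum_const, card_range, smul_eq_mul]
  set f : ℕ → ℕ := fun b0 => ((range U).filter (fun n => W.Coprime (a * n + b0))).card with hf
  set bad := (range W).filter (fun b0 => ¬ f b0 * W ≤ 2 * (U * W.totient)) with hbad
  have h2 : 2 * (U * W.totient) * bad.card ≤ (U * W.totient) * W := by
    calc 2 * (U * W.totient) * bad.card = ∑ _b0 ∈ bad, 2 * (U * W.totient) := by
          rw [sum_const, smul_eq_mul]; ring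
      _ ≤ ∑ b0 ∈ bad, f b0 * W := sum_le_sum fun b0 hb0 => (not_le.1 (mem_filter.1 hb0).2).le
      _ ≤ ∑ b0 ∈ range W, f b0 * W := sum_le_sum_of_subset (filter_subset _ _)
      _ = _ := by rw [← sum_mul, h1]
  have h3 : 0 < U * W.totient := Nat.mul_pos hU hφ
  have h4 : 2 * bad.card ≤ W := by
    have h5 : (U * W.totient) * (2 * bad.card) ≤ (U * W.totient) * W := by
      calc _ = 2 * (U * W.totient) * bad.card := by ring
        _ ≤ _ := h2
    exact Nat.le_of_mul_le_mul_left h5 h3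
  have h6 := card_filter_add_card_filter_not (s := range W)
    (fun b0 => f b0 * W ≤ 2 * (U * W.totient))
  rw [card_range] at h6
  show W ≤ 2 * ((range W).filter (fun b0 => f b0 * W ≤ 2 * (U * W.totient))).card
  have h7 : ((range W).filter (fun b0 => ¬ f b0 * W ≤ 2 * (U * W.totient))).card = bad.card := rfl
  omega

/-- The count over all classes: if every class with few surviving sites has many good `b`,
then there are many good `b`. -/
lemma total_count {a U w Y : ℕ} (P : ℕ → Prop) [DecidablePred P] {K : ℝ}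
    (h : ∀ b0 < LPAP.Wp w a, ((range U).filter (fun n => (LPAP.Wp w a).Coprime (a * n + b0))).card *
      LPAP.Wp w a ≤ 2 * (U * (LPAP.Wp w a).totient) →
      K / LPAP.Wp w a ≤ (((LPAP.Bset Y a a (LPAP.Wp w a) b0).filter P).card : ℝ)) (hK : 0 ≤ K) :
    K / 2 ≤ (((Ioc Y a).filter (fun b => b.Coprime a ∧ P b)).card : ℝ) := by
  classical
  set W := LPAP.Wp w a with hWdef
  have hW : 0 < W := LPAP.Wp_pos w a
  set G := (range W).filter (fun b0 =>
      ((range U).filter (fun n => W.Coprime (a * n + b0))).card * W ≤ 2 * (U * W.totient)) with hG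
  have hhalf : W ≤ 2 * G.card := half_classes a U W hW
  have hdisj : Set.PairwiseDisjoint (G : Set ℕ) (fun b0 => (LPAP.Bset Y a a W b0).filter P) := by
    intro x hx y hy hxy
    rw [Function.onFun, disjoint_left]
    intro b hb hb'
    have h1 : b ≡ x [MOD W] := (mem_filter.1 (mem_filter.1 hb).1).2.1
    have h2 : b ≡ y [MOD W] := (mem_filter.1 (mem_filter.1 hb').1).2.1
    have hx' : x < W := mem_range.1 (mem_filter.1 hx).1
    have hy' : y < W := mem_range.1 (mem_filter.1 hy).1
    have h3 : x ≡ y [MOD W] := h1.symm.trans h2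
    unfold Nat.ModEq at h3
    rw [Nat.mod_eq_of_lt hx', Nat.mod_eq_of_lt hy'] at h3
    exact hxy h3
  have hsub : G.biUnion (fun b0 => (LPAP.Bset Y a a W b0).filter P) ⊆
      (Ioc Y a).filter (fun b => b.Coprime a ∧ P b) := by
    intro b hb
    rw [mem_biUnion] at hb
    obtain ⟨b0, _, hb0⟩ := hb
    obtain ⟨h1, h2⟩ := mem_filter.1 hb0
    obtain ⟨h3, _, h4⟩ := mem_filter.1 h1
    exact mem_filter.2 ⟨h3, h4, h2⟩
  have h1 := card_le_card hsub
  rw [card_biUnion hdisj] at h1
  have h2 : (G.card : ℝ) * (K / W) ≤ ∑ b0 ∈ G, (((LPAP.Bset Y a a W b0).filter P).card : ℝ) := by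
    rw [← nsmul_eq_mul, ← sum_const]
    refine sum_le_sum fun b0 hb0 => ?_
    obtain ⟨h3, h4⟩ := mem_filter.1 hb0
    exact h b0 (mem_range.1 h3) h4
  have hWR : (0 : ℝ) < W := by exact_mod_cast hW
  have h3 : K / 2 ≤ (G.card : ℝ) * (K / W) := by
    have h4 : (W : ℝ) ≤ 2 * G.card := by exact_mod_cast hhalf
    rw [← mul_div_assoc, div_le_div_iff₀ (by norm_num) hWR]
    nlinarith
  calc K / 2 ≤ _ := h3
    _ ≤ _ := h2
    _ ≤ _ := by exact_mod_cast h1

end Pool.Agent.PosProp
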