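import Pool.Agent.Lib.PosProp.Unif3
import Pool.Agent.Lib.PosProp.App3

/-!
# Application to primes in progressions, uniform version
-/

open Finset Pool.Agent.GapSieve

namespace Pool.Agent.PosProp

open Classical in
lemma class_count2 {lam K0 K : ℝ} (hUD : UD (2 * Real.exp 9) 6 K0 K) (hlam : 1 ≤ lam)
    {a : ℕ} (ha : a ≠ 0) {LX : ℝ} {Z U Y : ℕ} (hZ : 3 ≤ Z)
    (hlZ : Real.exp (K * lam) * Real.log Z ≤ LX) (hω : a.primeFactors.card ≤ Z) (hUZ : U ≤ Z)
    (S : Finset ℕ) (hS : S ⊆ range U) (hS0 : S.Nonempty) (hN1 : 2 * S.card ≤ Z)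
    (hN2 : S.card * Real.log Z ≤ lam * LX) (hN3 : (S.card : ℝ) ^ 2 * (4 / Z) ≤ 1 / 80000)
    {W : ℕ} (hW : 0 < W) (hWa : W.Coprime a) (hWq : ∀ q, q.Prime → Z < q → W.Coprime q)
    (hYa : Y ≤ a)
    (hE : 2 ^ a.primeFactors.card * Real.exp (LX / 2) ≤ ((a : ℝ) - Y) / W * (a.totient / a))
    (b0 : ℕ) :
    Real.exp (-Real.exp (K * lam)) * (((a : ℝ) - Y) / W * (a.totient / a)) ≤
      (((LPAP.Bset Y a a W b0).filter (fun b => ∀ n ∈ S, ∃ q : ℕ, q.Prime ∧
        (q : ℝ) ≤ Real.exp (LX / (K0 * lam)) ∧ q ∣ a * n + b)).card : ℝ) := by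
  classical
  set N := S.card with hN
  have hN0 : 0 < N := card_pos.2 hS0
  set n : Fin N → ℕ := fun i => S.orderEmbOfFin rfl i with hn
  have hnS : ∀ i, n i ∈ S := fun i => orderEmbOfFin_mem S rfl i
  have hinj : Function.Injective n := (S.orderEmbOfFin rfl).injective
  have hZR : (3 : ℝ) ≤ Z := by exact_mod_cast hZ
  have hlZ1 : 1 ≤ Real.log Z := by
    rw [Real.le_log_iff_exp_le (by linarith)]
    have := Real.exp_one_lt_d9
    linarith
  have hsys := hitSys_forms (a := a) (Z := Z) (U := U) (y := LX / (K0 * lam)) hUZ (N := N) (by omega) n hinj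
    (fun i => mem_range.1 (hS (hnS i)))
  have key := hUD lam hlam N (Qa a Z (LX / (K0 * lam))) (fun _ => 1) (fun q (i : Fin N) t => q ∣ a * n i + t) LX
    (Real.log Z) hsys hN0 hlZ1 hlZ hN2 ?_ ?_ ?_ ?_ ?_ ?_ ?_
    (LPAP.Bset Y a a W b0) (((a : ℝ) - Y) / W * (a.totient / a)) (2 ^ a.primeFactors.card)
    ?_ (by positivity) ?_ hE
  · refine key.trans ?_
    refine Nat.cast_le.2 (card_le_card ?_)
    intro b hb
    simp only [mem_filter] at hb ⊢
    obtain ⟨h1, h2⟩ := hb
    refine ⟨h1, fun m hm => ?_⟩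
    obtain ⟨i, hi⟩ : ∃ i, n i = m := by
      have h3 : m ∈ Set.range (S.orderEmbOfFin rfl) := by
        rw [range_orderEmbOfFin]
        exact hm
      exact h3
    obtain ⟨q, hq, hqd⟩ := h2 i
    obtain ⟨_, hq2, hq3, _⟩ := mem_Qa.1 hq
    rw [hi] at hqd
    exact ⟨q, hq3, hq2, hqd⟩
  · intro q hq
    exact Real.log_lt_log (by linarith) (by exact_mod_cast (mem_Qa.1 hq).1)
  · intro q hq
    obtain ⟨_, h2, h3, _⟩ := mem_Qa.1 hq
    rw [Real.log_le_iff_le_exp (by exact_mod_cast h3.pos)]
    exact h2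
  · intro q hq
    have h1 := (mem_Qa.1 hq).1
    have h2 := pp_one_le (N := N) (q := q) hN0 (by omega)
    refine h2.trans ?_
    have h4 : 4 ≤ q := by omega
    have h5 : (4 : ℝ) ≤ q := by exact_mod_cast h4
    rw [div_le_div_iff₀ (by linarith) (by norm_num)]
    linarith
  · intro u v hu huv hv
    exact Qa_H1 ha hZ hω hN0 hN1 u v hu huv hv
  · intro v hv _
    exact Qa_H2 hN0 hN1 v hv
  · refine (Qa_inv_sq (by omega)).trans ?_
    rw [div_le_one (by linarith)]
    linarith
  · have h1 := Qa_pp_sq (a := a) (Z := Z) (y := LX / (K0 * lam)) (by omega) hN0 hN1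
    exact (mul_le_mul_of_nonneg_left h1 (by positivity)).trans hN3
  · have h1 : (Y : ℝ) ≤ a := by exact_mod_cast hYa
    have h2 : 0 ≤ (a : ℝ) - Y := by linarith
    positivity
  · refine equiD_Bset ha hYa b0 hW hWa ?_ ?_
    · refine Nat.Coprime.prod_left fun q hq => ?_
      obtain ⟨_, _, h3, h4⟩ := mem_Qa.1 hq
      exact (Nat.Prime.coprime_iff_not_dvd h3).2 h4
    · refine Nat.Coprime.prod_right fun q hq => ?_
      obtain ⟨h1, _, h3, _⟩ := mem_Qa.1 hq
      exact hWq q h3 h1

/-- the numeric facts for large `a` -/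
lemma exists_largeL : ∃ L0 : ℝ, ∀ L, L0 ≤ L → 10000 ≤ L ∧ Real.log L ≤ Real.sqrt L / 24 ∧
    15680000 * Real.log L ^ 2 ≤ L := by
  have h1 : ∀ L : ℝ, 1 ≤ L → Real.log L ≤ 4 * L ^ (1 / 4 : ℝ) := by
    intro L hL
    have := Real.log_le_rpow_div (x := L) (ε := 1 / 4) (by linarith) (by norm_num)
    linarith
  refine ⟨10 ^ 40, fun L hL => ?_⟩
  have hL1 : (1 : ℝ) ≤ L := by
    have : (1 : ℝ) ≤ 10 ^ 40 := by norm_num
    linarith
  have hL0 : 0 < L := by linarith
  have hlog := h1 L hL1
  have hlog0 : 0 ≤ Real.log L := Real.log_nonneg hL1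
  set r := L ^ (1 / 4 : ℝ) with hr
  have hr0 : 0 < r := Real.rpow_pos_of_pos hL0 _
  have hr4 : r ^ 4 = L := by
    rw [hr, ← Real.rpow_natCast, ← Real.rpow_mul hL0.le]
    norm_num
  have hrbig : 10 ^ 10 ≤ r := by
    by_contra hcon
    push Not at hcon
    have h2 : r ^ 4 < (10 ^ 10) ^ 4 := pow_lt_pow_left₀ hcon hr0.le (by norm_num)
    rw [hr4] at h2
    norm_num at h2 hL
    linarith
  have hsq : Real.sqrt L = r ^ 2 := by
    rw [← hr4, show r ^ 4 = (r ^ 2) ^ 2 by ring, Real.sqrt_sq (by positivity)]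
  refine ⟨?_, ?_, ?_⟩
  · have : (10000 : ℝ) ≤ 10 ^ 40 := by norm_num
    linarith
  · rw [hsq]
    have h3 : 10 ^ 10 * r ≤ r ^ 2 := by rw [pow_two]; exact mul_le_mul_of_nonneg_right hrbig hr0.le
    norm_num at h3
    linarith
  · have h3 : Real.log L ^ 2 ≤ (4 * r) ^ 2 := pow_le_pow_left₀ hlog0 hlog 2
    have h4 : 10 ^ 10 * r ^ 2 ≤ r ^ 4 := by
      have h5 : 10 ^ 10 ≤ r ^ 2 := by
        have h6 : r * 1 ≤ r * r := mul_le_mul_of_nonneg_left (by norm_num at hrbig; linarith) hr0.le
        rw [pow_two]; linarith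
      calc 10 ^ 10 * r ^ 2 ≤ r ^ 2 * r ^ 2 := mul_le_mul_of_nonneg_right h5 (by positivity)
        _ = r ^ 4 := by ring
    rw [hr4] at h4
    norm_num at h4
    nlinarith

open Classical in
theorem many_classes_unif : ∃ c : ℝ, 0 < c ∧ ∃ C : ℝ, ∃ A₀ : ℕ, ∀ a : ℕ, A₀ ≤ a →
    ∀ lam : ℝ, 1 ≤ lam → lam ≤ c * Real.log (Real.log a) →
    Real.exp (-Real.exp (C * lam)) * (a.totient : ℝ) ≤
      (((Ioc (Nat.sqrt a) a).filter (fun b => b.Coprime a ∧
      ∀ n < ⌊lam * ((a.totient : ℝ) / a) * Real.log a⌋₊ + 1, ¬ (a * n + b).Prime)).card : ℝ) := by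
  have hC1 : 1 ≤ 2 * Real.exp 9 := by
    have := Real.one_le_exp (show (0 : ℝ) ≤ 9 by norm_num)
    linarith
  obtain ⟨K0, K, hK0, hK1, hUD⟩ := exists_UD (C1 := 2 * Real.exp 9) (C2 := 6) hC1 (by norm_num)
  obtain ⟨L0, hL0⟩ := exists_largeL
  refine ⟨1 / (336 * K), by positivity, 168 * K + 3, ⌈Real.exp L0⌉₊ + 4,
    fun a ha lam hlam hlamu => ?_⟩
  have ha4 : 4 ≤ a := by omega
  have haR4 : (4 : ℝ) ≤ a := by exact_mod_cast ha4
  have ha0 : a ≠ 0 := by omega
  have haR : (0 : ℝ) < a := by linarith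
  have hL : L0 ≤ Real.log a := by
    rw [Real.le_log_iff_exp_le haR]
    have h1 : ⌈Real.exp L0⌉₊ ≤ a := by omega
    exact (Nat.le_ceil _).trans (by exact_mod_cast h1)
  obtain ⟨n1, n4, n5⟩ := hL0 _ hL
  set L := Real.log a with hLdef
  have hLa : Real.exp L = a := Real.exp_log haR
  have hLpos : 0 < L := by linarith
  set ll := Real.log L with hll
  have hll1 : 1 ≤ ll := by
    rw [hll, Real.le_log_iff_exp_le hLpos]
    have := Real.exp_one_lt_d9
    linarith
  have hllL : ll ≤ L := by
    have := Real.log_le_sub_one_of_pos hLpos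
    linarith
  have hll0 : 0 < ll := by linarith
  have hexpll : Real.exp ll = L := Real.exp_log hLpos
  have hlamll : 336 * K * lam ≤ ll := by
    have h1 := mul_le_mul_of_nonneg_left hlamu (show 0 ≤ 336 * K by linarith)
    have h2 : 336 * K * (1 / (336 * K) * ll) = ll := by field_simp
    linarith
  have hKlam : lam ≤ K * lam := le_mul_of_one_le_left (by linarith) hK1
  have hlamll' : lam ≤ ll := by linarith
  have n2 : 14 * lam ≤ L := by
    have h1 : 336 * lam ≤ 336 * (K * lam) := by linarith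
    linarith
  set w := ⌊L / 100⌋₊ with hw
  set W := LPAP.Wp w a with hWdef
  have hW : 0 < W := LPAP.Wp_pos w a
  have hWR : (0 : ℝ) < W := by exact_mod_cast hW
  set Z := ⌈L⌉₊ ^ 3 with hZdef
  have hceil : L ≤ (⌈L⌉₊ : ℝ) := Nat.le_ceil _
  have hceil' : (⌈L⌉₊ : ℝ) ≤ L + 1 := (Nat.ceil_lt_add_one hLpos.le).le
  have hZL : L ^ 3 ≤ Z := by
    rw [hZdef]; push_cast
    exact pow_le_pow_left₀ hLpos.le hceil 3
  have hZbig : 1000 * L ≤ Z := by
    refine le_trans ?_ hZL
    have h1 : 1000 ≤ L ^ 2 := by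
      have : 100 * 100 ≤ L * L := mul_le_mul (by linarith) (by linarith) (by norm_num) hLpos.le
      rw [pow_two]; linarith
    calc 1000 * L ≤ L ^ 2 * L := mul_le_mul_of_nonneg_right h1 hLpos.le
      _ = L ^ 3 := by ring
  have hZ3 : 3 ≤ Z := by
    have : (3 : ℝ) ≤ Z := by linarith
    exact_mod_cast this
  have hlZ : Real.log Z ≤ 6 * ll := by
    have h1 : (⌈L⌉₊ : ℝ) ≤ L ^ 2 := by
      have : 2 * L ≤ L * L := mul_le_mul_of_nonneg_right (by linarith) hLpos.le
      rw [pow_two]; linarith
    have h2 : (Z : ℝ) ≤ (L ^ 2) ^ 3 := by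
      rw [hZdef]; push_cast
      exact pow_le_pow_left₀ (by positivity) h1 3
    calc Real.log Z ≤ Real.log ((L ^ 2) ^ 3) := Real.log_le_log (by positivity) h2
      _ = 6 * ll := by
          rw [← pow_mul, Real.log_pow]
          norm_num
          rfl
  set U := ⌊lam * ((a.totient : ℝ) / a) * L⌋₊ + 1 with hU
  have hφa : (a.totient : ℝ) / a ≤ 1 := by
    rw [div_le_one haR]
    exact_mod_cast Nat.totient_le a
  have hφa0 : 0 ≤ (a.totient : ℝ) / a := by positivity
  have hUle : (U : ℝ) ≤ lam * ((a.totient : ℝ) / a) * L + 1 := by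
    rw [hU]; push_cast
    have := Nat.floor_le (show 0 ≤ lam * ((a.totient : ℝ) / a) * L by positivity)
    linarith
  have hUle' : (U : ℝ) ≤ lam * L + 1 := by
    refine hUle.trans ?_
    have h1 : lam * ((a.totient : ℝ) / a) ≤ lam * 1 := mul_le_mul_of_nonneg_left hφa (by linarith)
    have h2 := mul_le_mul_of_nonneg_right h1 hLpos.le
    linarith
  have hUZ : U ≤ Z := by
    have h1 : (U : ℝ) ≤ Z := by
      refine hUle'.trans (le_trans ?_ hZL)
      have h2 : lam * L + 1 ≤ L * L := by
        have : 14 * lam * L ≤ L * L := mul_le_mul_of_nonneg_right n2 hLpos.le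
        have : 1 * 1 ≤ lam * L := mul_le_mul hlam (by linarith) zero_le_one (by linarith)
        linarith
      have h3 : L * L ≤ L ^ 3 := by
        calc L * L = L * L * 1 := by ring
          _ ≤ L * L * L := mul_le_mul_of_nonneg_left (by linarith) (by positivity)
          _ = L ^ 3 := by ring
      linarith
    exact_mod_cast h1
  have hUpos : 0 < U := by omega
  -- number of prime factors
  have hω2 : (a.primeFactors.card : ℝ) ≤ 2 * L := by
    have h1 : (2 : ℝ) ^ a.primeFactors.card ≤ a := by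
      exact_mod_cast LPAP.two_pow_card_primeFactors_le ha0
    have h2 : (a.primeFactors.card : ℝ) * Real.log 2 ≤ L := by
      rw [← Real.log_pow]
      exact Real.log_le_log (by positivity) h1
    have h3 : (1 : ℝ) / 2 ≤ Real.log 2 := by
      have := Real.log_two_gt_d9
      linarith
    have h4 : (0 : ℝ) ≤ a.primeFactors.card := Nat.cast_nonneg _
    have h5 := mul_le_mul_of_nonneg_left h3 h4
    linarith
  have hω : a.primeFactors.card ≤ Z := by
    have : (a.primeFactors.card : ℝ) ≤ Z := by linarith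
    exact_mod_cast this
  -- size of W
  have hwL : (w : ℝ) ≤ L / 100 := Nat.floor_le (by positivity)
  have hw1 : 1 ≤ w := by
    rw [hw]
    exact Nat.le_floor (by push_cast; linarith)
  have hWle : (W : ℝ) ≤ Real.exp (L / 50) := by
    have h1 : (W : ℝ) ≤ 4 ^ w := by exact_mod_cast LPAP.Wp_le w a
    refine h1.trans ?_
    calc (4 : ℝ) ^ w ≤ Real.exp 2 ^ w := by
          refine pow_le_pow_left₀ (by norm_num) ?_ w
          have h2 : Real.exp 2 = Real.exp 1 * Real.exp 1 := by rw [← Real.exp_add]; norm_num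
          have h3 := Real.exp_one_gt_d9
          have h4 : 2 * 2 ≤ Real.exp 1 * Real.exp 1 :=
            mul_le_mul (by linarith) (by linarith) (by norm_num) (Real.exp_pos _).le
          linarith
      _ = Real.exp (w * 2) := by rw [← Real.exp_nat_mul]
      _ ≤ Real.exp (L / 50) := Real.exp_le_exp.2 (by linarith)
  have hsq : ∀ q : ℕ, (q : ℝ) ≤ Real.exp (L / 4) → q ≤ Nat.sqrt a := by
    intro q hq
    rw [Nat.le_sqrt']
    have h1 : (q : ℝ) ^ 2 ≤ a := by
      calc (q : ℝ) ^ 2 ≤ Real.exp (L / 4) ^ 2 := pow_le_pow_left₀ (Nat.cast_nonneg q) hq 2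
        _ = Real.exp (L / 2) := by rw [← Real.exp_nat_mul]; congr 1; push_cast; ring
        _ ≤ Real.exp L := Real.exp_le_exp.2 (by linarith)
        _ = a := hLa
    exact_mod_cast h1
  have hYa : Nat.sqrt a ≤ a := Nat.sqrt_le_self a
  have hYhalf : (a : ℝ) / 2 ≤ (a : ℝ) - Nat.sqrt a := by
    have h1 : 2 * Nat.sqrt a ≤ a := by
      have h2 : 2 ≤ Nat.sqrt a := by rw [Nat.le_sqrt']; omega
      have h3 := Nat.sqrt_le' a
      have h5 := Nat.mul_le_mul_right (Nat.sqrt a) h2
      rw [pow_two] at h3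
      exact h5.trans h3
    have h4 : 2 * ((Nat.sqrt a : ℕ) : ℝ) ≤ a := by exact_mod_cast h1
    linarith
  have hE : 2 ^ a.primeFactors.card * Real.exp (L / 4 / 2) ≤
      ((a : ℝ) - Nat.sqrt a) / W * (a.totient / a) := by
    have h1 : (2 : ℝ) ^ a.primeFactors.card ≤ 4 * Real.exp (L / 2) := by
      have h2 : ((2 : ℝ) ^ a.primeFactors.card) ^ 2 ≤ (4 * Real.exp (L / 2)) ^ 2 := by
        have h3 : ((2 : ℝ) ^ a.primeFactors.card) ^ 2 = 4 ^ a.primeFactors.card := by
          rw [← pow_mul, mul_comm, pow_mul]; norm_num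
        have h4 : (4 * Real.exp (L / 2)) ^ 2 = 16 * a := by
          rw [mul_pow, ← Real.exp_nat_mul, ← hLa]
          norm_num
          ring_nf
        rw [h3, h4]
        exact_mod_cast LPAP.four_pow_card_le ha0
      exact (pow_le_pow_iff_left₀ (by positivity) (by positivity) two_ne_zero).1 h2
    have h5 : 1 / (2 * L + 1) ≤ (a.totient : ℝ) / a := by
      have h6 := LPAP.prod_one_sub_ge_card a.primeFactors fun p hp =>
        (Nat.prime_of_mem_primeFactors hp).two_le
      rw [← LPAP.totient_div a ha0] at h6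
      refine le_trans ?_ h6
      exact one_div_le_one_div_of_le (by positivity) (by linarith)
    have h7 : Real.exp L / 2 * Real.exp (-(L / 50)) * (1 / (2 * L + 1)) ≤
        ((a : ℝ) - Nat.sqrt a) / W * (a.totient / a) := by
      refine mul_le_mul ?_ h5 (by positivity) ?_
      · rw [Real.exp_neg, ← div_eq_mul_inv, hLa]
        exact div_le_div₀ (by linarith) hYhalf hWR hWle
      · exact div_nonneg (by linarith) hWR.le
    refine le_trans ?_ h7
    have h8 : 8 * (2 * L + 1) ≤ Real.exp (71 / 200 * L) := by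
      have h9 : 1 + 71 / 200 * L + (71 / 200 * L) ^ 2 / 2 ≤ Real.exp (71 / 200 * L) :=
        Real.quadratic_le_exp_of_nonneg (by positivity)
      have h10 : 10000 * L ≤ L * L := mul_le_mul_of_nonneg_right n1 hLpos.le
      have h11 : (71 / 200 * L) ^ 2 / 2 = 5041 / 80000 * (L * L) := by ring
      rw [h11] at h9
      linarith
    calc 2 ^ a.primeFactors.card * Real.exp (L / 4 / 2)
        ≤ 4 * Real.exp (L / 2) * Real.exp (L / 4 / 2) :=
          mul_le_mul_of_nonneg_right h1 (Real.exp_pos _).le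
      _ = 8 * (2 * L + 1) * (Real.exp (5 / 8 * L) * (1 / (2 * L + 1)) / 2) := by
          have h10 : Real.exp (L / 2) * Real.exp (L / 4 / 2) = Real.exp (5 / 8 * L) := by
            rw [← Real.exp_add]; congr 1; ring
          rw [mul_assoc, h10]
          field_simp
          norm_num
      _ ≤ Real.exp (71 / 200 * L) * (Real.exp (5 / 8 * L) * (1 / (2 * L + 1)) / 2) :=
          mul_le_mul_of_nonneg_right h8 (by positivity)
      _ = Real.exp L / 2 * Real.exp (-(L / 50)) * (1 / (2 * L + 1)) := by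
          have h11 : Real.exp (71 / 200 * L) * Real.exp (5 / 8 * L) =
              Real.exp L * Real.exp (-(L / 50)) := by
            rw [← Real.exp_add, ← Real.exp_add]; congr 1; ring
          calc _ = (Real.exp (71 / 200 * L) * Real.exp (5 / 8 * L)) *
                (1 / (2 * L + 1)) / 2 := by ring
            _ = _ := by rw [h11]; ring
  -- the count
  have htot := total_count (a := a) (U := U) (w := w) (Y := Nat.sqrt a)
    (fun b => ∀ n < U, ¬ (a * n + b).Prime)
    (K := Real.exp (-Real.exp (K * (168 * lam))) * (((a : ℝ) - Nat.sqrt a) * (a.totient / a)))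
    ?_ ?_
  · refine le_trans ?_ htot
    have h1 : (a : ℝ) / 2 * (a.totient / a) ≤ ((a : ℝ) - Nat.sqrt a) * (a.totient / a) :=
      mul_le_mul_of_nonneg_right hYhalf hφa0
    have h2 : (a : ℝ) / 2 * (a.totient / a) = a.totient / 2 := by field_simp
    rw [h2] at h1
    have h3 := mul_le_mul_of_nonneg_left h1 (Real.exp_pos (-Real.exp (K * (168 * lam)))).le
    have h4 : Real.exp (-Real.exp ((168 * K + 3) * lam)) ≤
        Real.exp (-Real.exp (K * (168 * lam))) / 4 := by
      have h5 : Real.exp (K * (168 * lam)) + 2 ≤ Real.exp ((168 * K + 3) * lam) := by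
        have h6 : Real.exp ((168 * K + 3) * lam) =
            Real.exp (3 * lam) * Real.exp (K * (168 * lam)) := by
          rw [← Real.exp_add]; ring_nf
        have h7 : 3 ≤ Real.exp (3 * lam) := by
          have := Real.add_one_le_exp (3 * lam); linarith
        have h8 : 1 ≤ Real.exp (K * (168 * lam)) := Real.one_le_exp (by positivity)
        rw [h6]
        have h9 := mul_le_mul_of_nonneg_right h7 (Real.exp_pos (K * (168 * lam))).le
        linarith
      calc Real.exp (-Real.exp ((168 * K + 3) * lam))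
          ≤ Real.exp (-Real.exp (K * (168 * lam)) + -2) := Real.exp_le_exp.2 (by linarith)
        _ = Real.exp (-Real.exp (K * (168 * lam))) * Real.exp (-2) := Real.exp_add _ _
        _ ≤ Real.exp (-Real.exp (K * (168 * lam))) * (1 / 4) := by
            refine mul_le_mul_of_nonneg_left ?_ (Real.exp_pos _).le
            rw [Real.exp_neg, inv_eq_one_div]
            refine one_div_le_one_div_of_le (by norm_num) ?_
            have h10 : Real.exp 2 = Real.exp 1 * Real.exp 1 := by rw [← Real.exp_add]; norm_num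
            have h11 := Real.exp_one_gt_d9
            have h12 : 2 * 2 ≤ Real.exp 1 * Real.exp 1 :=
              mul_le_mul (by linarith) (by linarith) (by norm_num) (Real.exp_pos _).le
            linarith
        _ = _ := by ring
    have h13 := mul_le_mul_of_nonneg_right h4 (Nat.cast_nonneg (α := ℝ) a.totient)
    linarith
  · intro b0 _ hb0
    set S := insert 0 ((range U).filter (fun n => W.Coprime (a * n + b0))) with hSdef
    have hSsub : S ⊆ range U := by
      rw [hSdef, insert_subset_iff]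
      exact ⟨mem_range.2 hUpos, filter_subset _ _⟩
    have hcard : (S.card : ℝ) ≤ 2 * (lam * L / Real.log (w + 1)) + 3 := by
      have h1 : S.card ≤ ((range U).filter (fun n => W.Coprime (a * n + b0))).card + 1 :=
        card_insert_le _ _
      have h2 : (S.card : ℝ) ≤
          (((range U).filter (fun n => W.Coprime (a * n + b0))).card : ℝ) + 1 := by
        exact_mod_cast h1
      have h3 : (((range U).filter (fun n => W.Coprime (a * n + b0))).card : ℝ) * W ≤
          2 * (U * W.totient) := by exact_mod_cast hb0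
      have h4 : (((range U).filter (fun n => W.Coprime (a * n + b0))).card : ℝ) ≤
          2 * (U * (W.totient / W)) := by
        rw [← mul_div_assoc, ← mul_div_assoc, le_div_iff₀ hWR]
        exact h3
      have h5 := LPAP.totient_Wp_le (w := w) (a := a) hw1 ha0
      have h6 : ((W.totient : ℕ) : ℝ) / W ≤ 1 := by
        rw [div_le_one hWR]
        exact_mod_cast Nat.totient_le W
      have h6' : 0 ≤ ((W.totient : ℕ) : ℝ) / W := by positivity
      have h7 : (U : ℝ) * (W.totient / W) ≤ lam * L / Real.log (w + 1) + 1 := by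
        calc (U : ℝ) * (W.totient / W)
            ≤ (lam * ((a.totient : ℝ) / a) * L + 1) * (W.totient / W) :=
              mul_le_mul_of_nonneg_right hUle h6'
          _ = lam * L * (W.totient / W * (a.totient / a)) + W.totient / W := by ring
          _ ≤ lam * L * (1 / Real.log (w + 1)) + 1 :=
              add_le_add (mul_le_mul_of_nonneg_left h5 (by positivity)) h6
          _ = _ := by ring
      linarith
    have hlw : ll / 2 ≤ Real.log (w + 1) := by
      refine (half_log_le n1).trans (Real.log_le_log (by positivity) ?_)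
      exact (Nat.lt_floor_add_one _).le
    have hcard2 : (S.card : ℝ) ≤ 4 * lam * L / ll + 3 := by
      refine hcard.trans ?_
      have h1 : lam * L / Real.log (w + 1) ≤ lam * L / (ll / 2) :=
        div_le_div_of_nonneg_left (by positivity) (by linarith) hlw
      have h2 : 2 * (lam * L / (ll / 2)) = 4 * lam * L / ll := by field_simp; ring
      linarith
    have hcard3 : (S.card : ℝ) ≤ 7 * lam * L := by
      refine hcard2.trans ?_
      have h1 : 4 * lam * L / ll ≤ 4 * lam * L := div_le_self (by positivity) hll1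
      have h2 : 1 * 1 ≤ lam * L := mul_le_mul hlam (by linarith) zero_le_one (by linarith)
      linarith
    have hmain := class_count2 hUD (lam := 168 * lam) (by linarith) ha0 (LX := L / 4) (Z := Z)
      (U := U) (Y := Nat.sqrt a) hZ3 ?_ hω hUZ S hSsub (insert_nonempty _ _)
      ?_ ?_ ?_ hW (LPAP.Wp_coprime w a) ?_ hYa hE b0
    · have h1 : Real.exp (-Real.exp (K * (168 * lam))) *
          (((a : ℝ) - Nat.sqrt a) * (a.totient / a)) / W =
          Real.exp (-Real.exp (K * (168 * lam))) *
            (((a : ℝ) - Nat.sqrt a) / W * (a.totient / a)) := by ring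
      rw [h1]
      refine hmain.trans (Nat.cast_le.2 (card_le_card ?_))
      intro b hb
      simp only [mem_filter] at hb ⊢
      obtain ⟨hb1, hb2⟩ := hb
      refine ⟨hb1, fun n hn => ?_⟩
      obtain ⟨hb3, hb4, _⟩ := mem_filter.1 hb1
      have hYb : Nat.sqrt a < b := (mem_Ioc.1 hb3).1
      by_cases hnS : n ∈ S
      · obtain ⟨q, hq, hq2, hqd⟩ := hb2 n hnS
        refine not_prime_of_small hq (hsq q (hq2.trans (Real.exp_le_exp.2 ?_))) hYb hqd
        refine div_le_self (by linarith) ?_
        exact one_le_mul_of_one_le_of_one_le hK0 (by linarith)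
      · have h2 : ¬ W.Coprime (a * n + b0) := by
          intro hco
          exact hnS (mem_insert_of_mem (mem_filter.2 ⟨mem_range.2 hn, hco⟩))
        obtain ⟨p, hp, hpW, hpn⟩ := Nat.Prime.not_coprime_iff_dvd.1 h2
        have hpw : p ≤ w := (LPAP.mem_sp.1 ((LPAP.prime_dvd_Wp hp).1 hpW)).1
        have hpb : p ∣ a * n + b := by
          have h3 : b ≡ b0 [MOD p] := hb4.of_dvd hpW
          have h4 : a * n + b ≡ a * n + b0 [MOD p] := h3.add_left _
          exact (h4.dvd_iff (dvd_refl p)).2 hpn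
        refine not_prime_of_small hp (hsq p ?_) hYb hpb
        have h5 : (p : ℝ) ≤ w := by exact_mod_cast hpw
        have h6 := Real.add_one_le_exp (L / 4)
        linarith
    · -- exp * log Z ≤ LX
      have h1 : Real.exp (K * (168 * lam)) ≤ Real.sqrt L := by
        have h2 : Real.sqrt L = Real.exp (ll / 2) := by
          rw [← hexpll, Real.exp_half]
        rw [h2]
        exact Real.exp_le_exp.2 (by linarith)
      have h3 : Real.sqrt L * Real.sqrt L = L := Real.mul_self_sqrt hLpos.le
      have h4 : 0 ≤ Real.sqrt L := Real.sqrt_nonneg L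
      calc Real.exp (K * (168 * lam)) * Real.log Z ≤ Real.sqrt L * (6 * ll) :=
            mul_le_mul h1 hlZ (Real.log_natCast_nonneg Z) h4
        _ = 6 * (Real.sqrt L * ll) := by ring
        _ ≤ 6 * (Real.sqrt L * (Real.sqrt L / 24)) := by
            have h5 : ll ≤ Real.sqrt L / 24 := n4
            have h6 := mul_le_mul_of_nonneg_left h5 h4
            linarith
        _ = L / 4 := by
            have h7 : 6 * (Real.sqrt L * (Real.sqrt L / 24)) =
              (Real.sqrt L * Real.sqrt L) / 4 := by ring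
            rw [h7, h3]
    · -- 2 card ≤ Z
      have h1 : (2 : ℝ) * S.card ≤ Z := by
        refine le_trans ?_ hZL
        have h2 : 14 * lam * L ≤ L * L := mul_le_mul_of_nonneg_right n2 hLpos.le
        have h3 : L * L ≤ L ^ 3 := by
          calc L * L = L * L * 1 := by ring
            _ ≤ L * L * L := mul_le_mul_of_nonneg_left (by linarith) (by positivity)
            _ = L ^ 3 := by ring
        linarith
      exact_mod_cast h1
    · -- card * log Z
      have hlZ0 : 0 ≤ Real.log Z := Real.log_natCast_nonneg Z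
      calc (S.card : ℝ) * Real.log Z ≤ (4 * lam * L / ll + 3) * (6 * ll) :=
            mul_le_mul hcard2 hlZ hlZ0 (by positivity)
        _ = 24 * lam * L + 18 * ll := by field_simp; ring
        _ ≤ 168 * lam * (L / 4) := by
          have h1 : 1 * L ≤ lam * L := mul_le_mul_of_nonneg_right hlam hLpos.le
          linarith
    · -- card ^ 2
      have h1 : (S.card : ℝ) ^ 2 ≤ (7 * lam * L) ^ 2 :=
        pow_le_pow_left₀ (Nat.cast_nonneg _) hcard3 2
      have hL3 : 0 < L ^ 3 := by positivity
      have h2 : (4 : ℝ) / Z ≤ 4 / L ^ 3 := div_le_div_of_nonneg_left (by norm_num) hL3 hZL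
      calc (S.card : ℝ) ^ 2 * (4 / Z) ≤ (7 * lam * L) ^ 2 * (4 / L ^ 3) :=
            mul_le_mul h1 h2 (by positivity) (by positivity)
        _ = 196 * lam ^ 2 / L := by field_simp; ring
        _ ≤ 1 / 80000 := by
            rw [div_le_div_iff₀ hLpos (by norm_num)]
            have h3 : lam ^ 2 ≤ ll ^ 2 := pow_le_pow_left₀ (by linarith) hlamll' 2
            have h4 : 15680000 * ll ^ 2 ≤ L := n5
            linarith
    · intro q hq hZq
      rw [Nat.coprime_comm, Nat.Prime.coprime_iff_not_dvd hq]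
      intro hd
      have h1 : q ≤ w := (LPAP.mem_sp.1 ((LPAP.prime_dvd_Wp hq).1 hd)).1
      have h2 : (w : ℝ) ≤ Z := by linarith
      have h3 : w ≤ Z := by exact_mod_cast h2
      omega
  · refine mul_nonneg (Real.exp_pos _).le (mul_nonneg ?_ hφa0)
    linarith

end Pool.Agent.PosProp
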