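import Mathlib

/-!
# Combinations of periodic functions and equidistribution
-/

open Finset

namespace Pool.Agent.PosProp

/-- `PRep P f W`: `f` is a combination `∑ c g` of functions `g`, `|g| ≤ 1`, periodic mod `m ∣ P`,
with `∑ |c| m ≤ W`. -/
inductive PRep (P : ℕ) : (ℕ → ℝ) → ℝ → Prop
  | zero : PRep P (fun _ => 0) 0
  | cons (c : ℝ) (g : ℕ → ℝ) (m : ℕ) (hm : m ∣ P) (hper : ∀ t, g (t + m) = g t)
      (hb : ∀ t, |g t| ≤ 1) (f : ℕ → ℝ) (W : ℝ) (h : PRep P f W) :
      PRep P (fun t => c * g t + f t) (|c| * m + W)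
  | mono (f : ℕ → ℝ) (W W' : ℝ) (h : PRep P f W) (hW : W ≤ W') : PRep P f W'

variable {P : ℕ}

lemma PRep.nonneg {f : ℕ → ℝ} {W : ℝ} (h : PRep P f W) : 0 ≤ W := by
  induction h with
  | zero => exact le_refl 0
  | cons c g m _ _ _ f W _ ih => positivity
  | mono f W W' _ hW ih => exact ih.trans hW

lemma PRep.congr {f f' : ℕ → ℝ} {W : ℝ} (h : PRep P f W) (hf : ∀ t, f t = f' t) :
    PRep P f' W := by
  have : f = f' := funext hf
  rwa [← this]

lemma PRep.weaken {f : ℕ → ℝ} {W W' : ℝ} (h : PRep P f W) (hW : W ≤ W') : PRep P f W' :=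
  PRep.mono f W W' h hW

lemma PRep.add {f f' : ℕ → ℝ} {W W' : ℝ} (h : PRep P f W) (h' : PRep P f' W') :
    PRep P (fun t => f t + f' t) (W + W') := by
  induction h with
  | zero =>
    have h2 := h'
    simpa using h2
  | cons c g m hm hper hb f W _ ih =>
    have h2 := PRep.cons c g m hm hper hb _ _ ih
    refine (h2.congr fun t => ?_).weaken ?_
    · ring
    · linarith
  | mono f W W'' _ hW ih => exact ih.weaken (by linarith)

lemma PRep.atom (g : ℕ → ℝ) (m : ℕ) (hm : m ∣ P) (hper : ∀ t, g (t + m) = g t)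
    (hb : ∀ t, |g t| ≤ 1) : PRep P g m := by
  have h := PRep.cons 1 g m hm hper hb _ _ PRep.zero
  refine (h.congr fun t => ?_).weaken ?_
  · ring
  · simp

lemma PRep.smul {f : ℕ → ℝ} {W : ℝ} (h : PRep P f W) (x : ℝ) :
    PRep P (fun t => x * f t) (|x| * W) := by
  induction h with
  | zero =>
    refine (PRep.zero.congr fun t => ?_).weaken ?_
    · simp
    · simp
  | cons c g m hm hper hb f W _ ih =>
    have h2 := PRep.cons (x * c) g m hm hper hb _ _ ih
    refine (h2.congr fun t => ?_).weaken ?_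
    · ring
    · rw [abs_mul]
      exact le_of_eq (by ring)
  | mono f W W'' _ hW ih => exact ih.weaken (mul_le_mul_of_nonneg_left hW (abs_nonneg x))

lemma PRep.const (x : ℝ) : PRep P (fun _ => x) |x| := by
  have h := (PRep.atom (P := P) (fun _ => (1 : ℝ)) 1 (one_dvd _) (fun _ => rfl)
    (fun _ => by simp)).smul x
  refine (h.congr fun t => ?_).weaken ?_
  · simp
  · simp

lemma PRep.sub {f f' : ℕ → ℝ} {W W' : ℝ} (h : PRep P f W) (h' : PRep P f' W') :
    PRep P (fun t => f t - f' t) (W + W') := by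
  have h2 := h.add (h'.smul (-1))
  refine (h2.congr fun t => ?_).weaken ?_
  · ring
  · simp

lemma per_mul {g : ℕ → ℝ} {m : ℕ} (hper : ∀ t, g (t + m) = g t) (k t : ℕ) :
    g (t + m * k) = g t := by
  induction k with
  | zero => simp
  | succ k ih => rw [Nat.mul_succ, ← Nat.add_assoc, hper, ih]

lemma PRep.atom_mul {g : ℕ → ℝ} {m : ℕ} (hm : m ∣ P) (hper : ∀ t, g (t + m) = g t)
    (hb : ∀ t, |g t| ≤ 1) {f : ℕ → ℝ} {W : ℝ} (h : PRep P f W) :
    PRep P (fun t => g t * f t) (m * W) := by
  induction h with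
  | zero =>
    refine (PRep.zero.congr fun t => ?_).weaken ?_
    · simp
    · simp
  | cons c g' m' hm' hper' hb' f W _ ih =>
    have hdvd : Nat.lcm m m' ∣ P := Nat.lcm_dvd hm hm'
    have h2 := PRep.cons c (fun t => g t * g' t) (Nat.lcm m m') hdvd ?_ ?_ _ _ ih
    · refine (h2.congr fun t => ?_).weaken ?_
      · ring
      · have h3 : ((Nat.lcm m m' : ℕ) : ℝ) ≤ m * m' := by
          rcases Nat.eq_zero_or_pos (m * m') with h0 | h0
          · rcases Nat.mul_eq_zero.1 h0 with h1 | h1 <;> simp [h1]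
          · exact_mod_cast Nat.le_of_dvd h0 (Nat.lcm_dvd_mul m m')
        nlinarith [abs_nonneg c, mul_le_mul_of_nonneg_left h3 (abs_nonneg c)]
    · intro t
      obtain ⟨k, hk⟩ := Nat.dvd_lcm_left m m'
      obtain ⟨k', hk'⟩ := Nat.dvd_lcm_right m m'
      have e1 : g (t + Nat.lcm m m') = g t := by rw [hk]; exact per_mul hper k t
      have e2 : g' (t + Nat.lcm m m') = g' t := by rw [hk']; exact per_mul hper' k' t
      simp only [e1, e2]
    · intro t
      rw [abs_mul]
      exact mul_le_one₀ (hb t) (abs_nonneg _) (hb' t)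
  | mono f W W'' _ hW ih => exact ih.weaken (mul_le_mul_of_nonneg_left hW (Nat.cast_nonneg m))

lemma PRep.mul {f f' : ℕ → ℝ} {W W' : ℝ} (h : PRep P f W) (h' : PRep P f' W') :
    PRep P (fun t => f t * f' t) (W * W') := by
  have hW' := h'.nonneg
  induction h with
  | zero =>
    refine (PRep.zero.congr fun t => ?_).weaken ?_
    · simp
    · simp
  | cons c g m hm hper hb f W _ ih =>
    have h2 := ((PRep.atom_mul hm hper hb h').smul c).add ih
    refine (h2.congr fun t => ?_).weaken ?_
    · ring
    · exact le_of_eq (by ring)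
  | mono f W W'' _ hW ih => exact ih.weaken (mul_le_mul_of_nonneg_right hW hW')

lemma PRep.sum {κ : Type*} (s : Finset κ) (f : κ → ℕ → ℝ) (W : κ → ℝ)
    (h : ∀ x ∈ s, PRep P (f x) (W x)) :
    PRep P (fun t => ∑ x ∈ s, f x t) (∑ x ∈ s, W x) := by
  classical
  induction s using Finset.induction_on with
  | empty =>
    refine (PRep.zero.congr fun t => ?_).weaken ?_ <;> simp
  | insert a s ha ih =>
    have h2 := (h a (mem_insert_self a s)).add (ih fun x hx => h x (mem_insert_of_mem hx))
    refine (h2.congr fun t => ?_).weaken ?_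
    · rw [sum_insert ha]
    · rw [sum_insert ha]

lemma PRep.prod {κ : Type*} (s : Finset κ) (f : κ → ℕ → ℝ) (W : κ → ℝ)
    (h : ∀ x ∈ s, PRep P (f x) (W x)) :
    PRep P (fun t => ∏ x ∈ s, f x t) (∏ x ∈ s, W x) := by
  classical
  induction s using Finset.induction_on with
  | empty =>
    refine ((PRep.const 1).congr fun t => ?_).weaken ?_ <;> simp
  | insert a s ha ih =>
    have h2 := (h a (mem_insert_self a s)).mul (ih fun x hx => h x (mem_insert_of_mem hx))
    refine (h2.congr fun t => ?_).weaken ?_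
    · rw [prod_insert ha]
    · rw [prod_insert ha]

lemma PRep.pow {f : ℕ → ℝ} {W : ℝ} (h : PRep P f W) (n : ℕ) :
    PRep P (fun t => f t ^ n) (W ^ n) := by
  have h2 := PRep.prod (range n) (fun _ => f) (fun _ => W) (fun _ _ => h)
  simpa using h2

/-- equidistribution of `B` in the classes modulo the divisors of `P` -/
def EquiD (P : ℕ) (B : Finset ℕ) (M E : ℝ) : Prop :=
  ∀ m, m ∣ P → 0 < m → ∀ c < m, |((B.filter fun t => t % m = c).card : ℝ) - M / m| ≤ E

lemma sum_periodic {g : ℕ → ℝ} {m : ℕ} (hm : 0 < m) (hper : ∀ t, g (t + m) = g t)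
    (B : Finset ℕ) :
    ∑ t ∈ B, g t = ∑ c ∈ range m, g c * ((B.filter fun t => t % m = c).card : ℝ) := by
  have hg : ∀ t, g t = g (t % m) := fun t =>
    ((show Function.Periodic g m from hper).map_mod_nat t).symm
  rw [← sum_fiberwise_of_maps_to (t := range m) (g := fun t => t % m)]
  · refine sum_congr rfl fun c _ => ?_
    rw [mul_comm, ← nsmul_eq_mul, ← sum_const]
    refine sum_congr rfl fun t ht => ?_
    rw [hg t, (mem_filter.1 ht).2]
  · intro t _
    exact mem_range.2 (Nat.mod_lt _ hm)

theorem PRep.equi (hP : 0 < P) {B : Finset ℕ} {M E : ℝ} (hE : 0 ≤ E) (hB : EquiD P B M E)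
    {f : ℕ → ℝ} {W : ℝ} (h : PRep P f W) :
    |∑ t ∈ B, f t - M * ((∑ a ∈ range P, f a) / P)| ≤ E * W := by
  induction h with
  | zero => simp
  | cons c g m hm hper hb f W _ ih =>
    have hm0 : 0 < m := Nat.pos_of_dvd_of_pos hm hP
    have hmR : (0 : ℝ) < m := by exact_mod_cast hm0
    have hPR : (0 : ℝ) < P := by exact_mod_cast hP
    have h1 : |∑ t ∈ B, g t - M * ((∑ a ∈ range P, g a) / P)| ≤ E * m := by
      have h2 : (∑ a ∈ range P, g a) / P = (∑ a ∈ range m, g a) / m := by
        rw [sum_periodic hm0 hper (range P)]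
        obtain ⟨k, hk⟩ := hm
        have h3 : ∀ c ∈ range m, g c * (((range P).filter fun t => t % m = c).card : ℝ) =
            g c * k := by
          intro c hc
          rw [mem_range] at hc
          congr 1
          norm_cast
          have h4 := Nat.count_modEq_card_eq_ceil P hm0 c
          rw [Nat.count_eq_card_filter_range] at h4
          have h5 : (range P).filter (fun t => t % m = c) =
              (range P).filter (fun t => t ≡ c [MOD m]) := by
            ext t
            simp [Nat.ModEq, Nat.mod_eq_of_lt hc]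
          rw [h5]
          have h6 : (((range P).filter (fun t => t ≡ c [MOD m])).card : ℤ) = (k : ℤ) := by
            rw [h4, Nat.mod_eq_of_lt hc, hk, Int.ceil_eq_iff]
            have hmQ : (0 : ℚ) < m := by exact_mod_cast hm0
            have hcQ : (c : ℚ) < m := by exact_mod_cast hc
            have hc0 : (0 : ℚ) ≤ c := Nat.cast_nonneg c
            push_cast
            constructor
            · rw [lt_div_iff₀ hmQ]; nlinarith
            · rw [div_le_iff₀ hmQ]; nlinarith
          exact_mod_cast h6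
        rw [sum_congr rfl h3, ← sum_mul, hk]
        have hk0 : (k : ℝ) ≠ 0 := by
          intro h0
          have : k = 0 := by exact_mod_cast h0
          rw [this, mul_zero] at hk
          omega
        push_cast
        field_simp
      rw [h2, sum_periodic hm0 hper B]
      have h3 : M * ((∑ a ∈ range m, g a) / m) = ∑ c ∈ range m, g c * (M / m) := by
        rw [← sum_mul]; ring
      rw [h3, ← sum_sub_distrib]
      calc |∑ c ∈ range m, (g c * ((B.filter fun t => t % m = c).card : ℝ) - g c * (M / m))|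
          ≤ ∑ c ∈ range m, |g c * ((B.filter fun t => t % m = c).card : ℝ) - g c * (M / m)| :=
            abs_sum_le_sum_abs _ _
        _ ≤ ∑ _c ∈ range m, E := by
            refine sum_le_sum fun c hc => ?_
            rw [← mul_sub, abs_mul]
            have h5 := hB m hm hm0 c (mem_range.1 hc)
            calc |g c| * |((B.filter fun t => t % m = c).card : ℝ) - M / m|
                ≤ 1 * E := mul_le_mul (hb c) h5 (abs_nonneg _) (by norm_num)
              _ = E := one_mul E
        _ = E * m := by rw [sum_const, card_range, nsmul_eq_mul]; ring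
    have h2 : ∑ t ∈ B, (c * g t + f t) - M * ((∑ a ∈ range P, (c * g a + f a)) / P) =
        c * (∑ t ∈ B, g t - M * ((∑ a ∈ range P, g a) / P)) +
        (∑ t ∈ B, f t - M * ((∑ a ∈ range P, f a) / P)) := by
      rw [sum_add_distrib, sum_add_distrib, ← mul_sum, ← mul_sum]
      ring
    rw [h2]
    calc |c * (∑ t ∈ B, g t - M * ((∑ a ∈ range P, g a) / P)) +
        (∑ t ∈ B, f t - M * ((∑ a ∈ range P, f a) / P))|
        ≤ |c| * |∑ t ∈ B, g t - M * ((∑ a ∈ range P, g a) / P)| +
          |∑ t ∈ B, f t - M * ((∑ a ∈ range P, f a) / P)| := by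
          rw [← abs_mul]; exact abs_add_le _ _
      _ ≤ |c| * (E * m) + E * W := add_le_add (mul_le_mul_of_nonneg_left h1 (abs_nonneg c)) ih
      _ = E * (|c| * m + W) := by ring
  | mono f W W'' _ hW ih => exact ih.trans (mul_le_mul_of_nonneg_left hW hE)

end Pool.Agent.PosProp
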