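import Pool.Agent.Lib.PosProp.Fac
import Pool.Agent.Lib.PosProp.Rep
import Pool.Agent.Lib.GapSieve.Law

/-!
# Brun–Hooley polynomials for the small primes
-/

open Finset Pool.Agent.GapSieve

namespace Pool.Agent.PosProp

/-- truncated inclusion-exclusion for `w` hits -/
noncomputable def bon (b w : ℕ) : ℝ := ∑ i ∈ range (2 * b + 1), (-1) ^ i * (w.choose i : ℝ)

lemma bon_zero (b : ℕ) : bon b 0 = 1 := by
  unfold bon
  rw [sum_range_succ']
  simp

lemma bon_eq (b : ℕ) {w : ℕ} (hw : w ≠ 0) : bon b w = ((w - 1).choose (2 * b) : ℝ) := by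
  have h := Int.alternating_sum_range_choose_eq_choose (n := w - 1) (m := 2 * b)
  rw [Nat.sub_add_cancel (Nat.one_le_iff_ne_zero.2 hw)] at h
  have h2 := congrArg (fun z : ℤ => (z : ℝ)) h
  push_cast at h2
  unfold bon
  rw [h2]
  simp

lemma bon_nonneg (b w : ℕ) : 0 ≤ bon b w := by
  rcases Nat.eq_zero_or_pos w with h | h
  · subst h; rw [bon_zero]; norm_num
  · rw [bon_eq b h.ne']; positivity

lemma bon_pow_le (b w : ℕ) {r : ℕ} (hr : 1 ≤ r) :
    bon b w ^ r ≤ (if w = 0 then 1 else 0) + (1 / 4) ^ b * ((2 : ℝ) ^ (r + 1)) ^ w := by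
  rcases Nat.eq_zero_or_pos w with h | h
  · subst h
    rw [bon_zero, if_pos rfl, one_pow]
    have : (0 : ℝ) ≤ (1 / 4) ^ b * ((2 : ℝ) ^ (r + 1)) ^ 0 := by positivity
    linarith
  · rw [bon_eq b h.ne', if_neg h.ne', zero_add]
    rcases le_or_gt w (2 * b) with hw | hw
    · rw [Nat.choose_eq_zero_of_lt (by omega)]
      rw [Nat.cast_zero, zero_pow (by omega)]
      positivity
    · have h1 : (((w - 1).choose (2 * b) : ℕ) : ℝ) ≤ 2 ^ w := by
        have h2 : (w - 1).choose (2 * b) ≤ 2 ^ (w - 1) := Nat.choose_le_two_pow _ _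
        have h3 : 2 ^ (w - 1) ≤ 2 ^ w := Nat.pow_le_pow_right (by norm_num) (by omega)
        exact_mod_cast h2.trans h3
      calc (((w - 1).choose (2 * b) : ℕ) : ℝ) ^ r ≤ (2 ^ w) ^ r :=
            pow_le_pow_left₀ (Nat.cast_nonneg _) h1 r
        _ = (2 : ℝ) ^ (w * r) := by rw [← pow_mul]
        _ = (1 / 4) ^ b * (2 : ℝ) ^ (2 * b + w * r) := by
            rw [pow_add, pow_mul 2 2 b, ← mul_assoc, ← mul_pow]
            norm_num
        _ ≤ (1 / 4) ^ b * (2 : ℝ) ^ ((r + 1) * w) := by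
            refine mul_le_mul_of_nonneg_left ?_ (by positivity)
            refine pow_le_pow_right₀ (by norm_num) ?_
            nlinarith
        _ = _ := by rw [pow_mul]

/-- the Brun–Hooley polynomial -/
noncomputable def bet (I : ℕ → Finset ℕ) (b : ℕ → ℕ) (n : ℕ) (ω : Finset ℕ) : ℝ :=
  ∏ j ∈ range n, bon (b j) (ω ∩ I j).card

lemma bet_empty (I : ℕ → Finset ℕ) (b : ℕ → ℕ) (n : ℕ) : bet I b n ∅ = 1 := by
  unfold bet
  refine prod_eq_one fun j _ => ?_
  rw [empty_inter, card_empty, bon_zero]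

lemma bet_nonneg (I : ℕ → Finset ℕ) (b : ℕ → ℕ) (n : ℕ) (ω : Finset ℕ) : 0 ≤ bet I b n ω :=
  prod_nonneg fun _ _ => bon_nonneg _ _

lemma bet_inter {I : ℕ → Finset ℕ} (b : ℕ → ℕ) (n : ℕ) (ω : Finset ℕ) {Q1 : Finset ℕ}
    (hI : ∀ j < n, I j ⊆ Q1) : bet I b n (ω ∩ Q1) = bet I b n ω := by
  unfold bet
  refine prod_congr rfl fun j hj => ?_
  rw [inter_assoc, inter_eq_right.2 (hI j (mem_range.1 hj))]

lemma exp_neg_two_mul_le {x : ℝ} (h0 : 0 ≤ x) (h1 : x ≤ 1 / 2) : Real.exp (-(2 * x)) ≤ 1 - x := by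
  rw [Real.exp_neg, inv_eq_one_div, div_le_iff₀ (Real.exp_pos _)]
  have h2 : 1 + 2 * x + (2 * x) ^ 2 / 2 ≤ Real.exp (2 * x) :=
    Real.quadratic_le_exp_of_nonneg (by positivity)
  have h3 : 0 ≤ 1 - x := by linarith
  have h4 : 1 ≤ (1 - x) * (1 + 2 * x + (2 * x) ^ 2 / 2) := by nlinarith
  exact h4.trans (mul_le_mul_of_nonneg_left h2 h3)

lemma exp_neg_sum_le {s : Finset ℕ} {p : ℕ → ℝ} (h0 : ∀ q ∈ s, 0 ≤ p q)
    (h1 : ∀ q ∈ s, p q ≤ 1 / 2) : Real.exp (-(2 * ∑ q ∈ s, p q)) ≤ ∏ q ∈ s, (1 - p q) := by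
  rw [mul_sum, ← sum_neg_distrib, Real.exp_sum]
  exact prod_le_prod (fun _ _ => (Real.exp_pos _).le) fun q hq =>
    exp_neg_two_mul_le (h0 q hq) (h1 q hq)

lemma prod_one_add_mul_le_exp {s : Finset ℕ} {p : ℕ → ℝ} (h0 : ∀ q ∈ s, 0 ≤ p q) {y : ℝ}
    (hy : 0 ≤ y) : ∏ q ∈ s, (1 + y * p q) ≤ Real.exp (y * ∑ q ∈ s, p q) := by
  rw [mul_sum, Real.exp_sum]
  refine prod_le_prod (fun q hq => ?_) fun q _ => ?_
  · have := mul_nonneg hy (h0 q hq); linarith
  · have := Real.add_one_le_exp (y * p q); linarith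

lemma prod_quarter_le (n : ℕ) : ∏ j ∈ range n, (1 + (1 / 4 : ℝ) ^ j) ≤ 4 := by
  have h1 : ∏ j ∈ range n, (1 + (1 / 4 : ℝ) ^ j) ≤ Real.exp (∑ j ∈ range n, (1 / 4 : ℝ) ^ j) := by
    rw [Real.exp_sum]
    refine prod_le_prod (fun q _ => by positivity) fun q _ => ?_
    have := Real.add_one_le_exp ((1 / 4 : ℝ) ^ q); linarith
  refine h1.trans ?_
  have h2 : ∑ j ∈ range n, (1 / 4 : ℝ) ^ j ≤ 4 / 3 := by
    rw [geom_sum_eq (by norm_num)]
    have : (0 : ℝ) < (1 / 4) ^ n := by positivity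
    rw [div_le_iff_of_neg (by norm_num)]
    linarith
  refine (Real.exp_le_exp.2 h2).trans ?_
  have h3 : Real.exp (4 / 3) = Real.exp 1 * Real.exp (1 / 3) := by
    rw [← Real.exp_add]; norm_num
  have h4 := Real.exp_one_lt_d9
  have h5 : Real.exp (1 / 3) ≤ 1.41 := by
    have h6 : Real.exp (1 / 3) ^ 3 = Real.exp 1 := by
      rw [← Real.exp_nat_mul]; norm_num
    by_contra hcon
    push Not at hcon
    have h7 : (1.41 : ℝ) ^ 3 < Real.exp (1 / 3) ^ 3 :=
      pow_lt_pow_left₀ hcon (by norm_num) (by norm_num)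
    rw [h6] at h7
    norm_num at h7
    linarith
  rw [h3]
  nlinarith [Real.exp_pos (1 / 3), Real.exp_pos 1]

/-- moments of the Brun–Hooley polynomial -/
lemma bet_moment {p : ℕ → ℝ} {I : ℕ → Finset ℕ} {n bs : ℕ} {C2 : ℝ}
    (hd : ∀ i < n, ∀ j < n, i ≠ j → Disjoint (I i) (I j))
    (h0 : ∀ j < n, ∀ q ∈ I j, 0 ≤ p q) (h1 : ∀ j < n, ∀ q ∈ I j, p q ≤ 1 / 2)
    (hS : ∀ j < n, ∑ q ∈ I j, p q ≤ 2 * C2) (hbs : Real.exp (66 * C2) ≤ 4 ^ bs)
    {r : ℕ} (hr : 1 ≤ r) (hr4 : r ≤ 4) :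
    E1 p ((range n).biUnion I) (fun ω => bet I (fun j => bs + j) n ω ^ r) ≤
      4 * ∏ q ∈ (range n).biUnion I, (1 - p q) := by
  have hE := E1_blocks p I (fun j ω => bon (bs + j) ω.card ^ r) n hd
  have hE' : E1 p ((range n).biUnion I) (fun ω => bet I (fun j => bs + j) n ω ^ r) =
      ∏ j ∈ range n, E1 p (I j) (fun ω => bon (bs + j) ω.card ^ r) := by
    rw [← hE]
    refine E1_congr fun ω _ => ?_
    unfold bet
    rw [prod_pow]
  rw [hE']
  have hblock : ∀ j ∈ range n, E1 p (I j) (fun ω => bon (bs + j) ω.card ^ r) ≤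
      (∏ q ∈ I j, (1 - p q)) * (1 + (1 / 4 : ℝ) ^ j) := by
    intro j hj
    rw [mem_range] at hj
    have h0' := h0 j hj
    have h1' := h1 j hj
    have h11 : ∀ q ∈ I j, p q ≤ 1 := fun q hq => (h1' q hq).trans (by norm_num)
    have hV := exp_neg_sum_le h0' h1'
    have hVpos : 0 < ∏ q ∈ I j, (1 - p q) := lt_of_lt_of_le (Real.exp_pos _) hV
    have a1 : E1 p (I j) (fun ω => bon (bs + j) ω.card ^ r) ≤
        E1 p (I j) (fun ω => (if ω = ∅ then 1 else 0) +
          (1 / 4) ^ (bs + j) * ((2 : ℝ) ^ (r + 1)) ^ ω.card) := by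
      refine E1_mono h0' h11 fun ω _ => ?_
      have := bon_pow_le (bs + j) ω.card hr
      simp only [card_eq_zero] at this
      exact this
    rw [E1_add, E1_empty, E1_mul_left, E1_pow_card] at a1
    refine a1.trans ?_
    have a2 : ∏ q ∈ I j, (1 + ((2 : ℝ) ^ (r + 1) - 1) * p q) ≤ Real.exp (31 * (2 * C2)) := by
      calc ∏ q ∈ I j, (1 + ((2 : ℝ) ^ (r + 1) - 1) * p q)
          ≤ ∏ q ∈ I j, (1 + 31 * p q) := by
            refine prod_le_prod (fun q hq => ?_) fun q hq => ?_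
            · have : (1 : ℝ) ≤ 2 ^ (r + 1) := one_le_pow₀ (by norm_num)
              have := mul_nonneg (sub_nonneg.2 this) (h0' q hq)
              linarith
            · have h5 : (2 : ℝ) ^ (r + 1) ≤ 2 ^ 5 := pow_le_pow_right₀ (by norm_num) (by omega)
              have := mul_le_mul_of_nonneg_right (by linarith : (2 : ℝ) ^ (r + 1) - 1 ≤ 31)
                (h0' q hq)
              linarith
        _ ≤ Real.exp (31 * ∑ q ∈ I j, p q) := prod_one_add_mul_le_exp h0' (by norm_num)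
        _ ≤ _ := Real.exp_le_exp.2 (by have := hS j hj; linarith)
    have a3 : Real.exp (-(4 * C2)) ≤ ∏ q ∈ I j, (1 - p q) := by
      refine le_trans (Real.exp_le_exp.2 ?_) hV
      have := hS j hj
      linarith
    have a4 : (1 / 4 : ℝ) ^ (bs + j) * ∏ q ∈ I j, (1 + ((2 : ℝ) ^ (r + 1) - 1) * p q) ≤
        (∏ q ∈ I j, (1 - p q)) * (1 / 4 : ℝ) ^ j := by
      calc (1 / 4 : ℝ) ^ (bs + j) * ∏ q ∈ I j, (1 + ((2 : ℝ) ^ (r + 1) - 1) * p q)
          ≤ (1 / 4 : ℝ) ^ (bs + j) * Real.exp (31 * (2 * C2)) :=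
            mul_le_mul_of_nonneg_left a2 (by positivity)
        _ = Real.exp (-(4 * C2)) * ((1 / 4 : ℝ) ^ j * ((1 / 4 : ℝ) ^ bs * Real.exp (66 * C2))) := by
            have : Real.exp (31 * (2 * C2)) = Real.exp (-(4 * C2)) * Real.exp (66 * C2) := by
              rw [← Real.exp_add]; ring_nf
            rw [this, pow_add]; ring
        _ ≤ Real.exp (-(4 * C2)) * ((1 / 4 : ℝ) ^ j * ((1 / 4 : ℝ) ^ bs * 4 ^ bs)) := by
            gcongr
        _ = Real.exp (-(4 * C2)) * (1 / 4 : ℝ) ^ j := by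
            rw [← mul_pow]; norm_num
        _ ≤ _ := mul_le_mul_of_nonneg_right a3 (by positivity)
    linarith
  calc ∏ j ∈ range n, E1 p (I j) (fun ω => bon (bs + j) ω.card ^ r)
      ≤ ∏ j ∈ range n, ((∏ q ∈ I j, (1 - p q)) * (1 + (1 / 4 : ℝ) ^ j)) := by
        refine prod_le_prod (fun j hj => ?_) hblock
        rw [mem_range] at hj
        exact E1_nonneg (h0 j hj) (fun q hq => (h1 j hj q hq).trans (by norm_num))
          fun ω _ => pow_nonneg (bon_nonneg _ _) r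
    _ = (∏ q ∈ (range n).biUnion I, (1 - p q)) * ∏ j ∈ range n, (1 + (1 / 4 : ℝ) ^ j) := by
        rw [prod_mul_distrib, prod_biUnion]
        intro i hi j hj hij
        rw [mem_coe, mem_range] at hi hj
        exact hd i hi j hj hij
    _ ≤ (∏ q ∈ (range n).biUnion I, (1 - p q)) * 4 := by
        refine mul_le_mul_of_nonneg_left (prod_quarter_le n) ?_
        refine prod_nonneg fun q hq => ?_
        rw [mem_biUnion] at hq
        obtain ⟨j, hj, hq⟩ := hq
        have := h1 j (mem_range.1 hj) q hq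
        linarith
    _ = _ := by ring

section rep

variable {N : ℕ} {Q : Finset ℕ} {k : ℕ → ℕ} {hit : ℕ → Fin N → ℕ → Prop}

lemma rep_mem (h : HitSys Q k hit) {q : ℕ} (hq : q ∈ Q) (i : Fin N) (φ : ℕ → ℝ)
    (h0 : |φ 0| ≤ 1) (h1 : |φ 1| ≤ 1) :
    PRep (∏ q ∈ Q, q) (fun t => φ (if q ∈ conf Q hit t i then 1 else 0)) q := by
  classical
  refine PRep.atom _ q (dvd_prod_of_mem (fun q => q) hq) (fun t => ?_) fun t => ?_
  · have h2 : q ∈ conf Q hit (t + q) i ↔ q ∈ conf Q hit t i := by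
      unfold conf
      rw [mem_filter, mem_filter, h.per q hq i t]
    simp only [h2]
  · split_ifs
    · exact h1
    · exact h0

lemma rep_subset (h : HitSys Q k hit) {D : Finset ℕ} (hD : D ⊆ Q) (i : Fin N) :
    PRep (∏ q ∈ Q, q) (fun t => if D ⊆ conf Q hit t i then 1 else 0) (∏ q ∈ D, (q : ℝ)) := by
  classical
  have h2 := PRep.prod D (fun q t => (fun n : ℕ => (n : ℝ)) (if q ∈ conf Q hit t i then 1 else 0))
    (fun q => (q : ℝ)) (fun q hq => rep_mem h (hD hq) i (fun n : ℕ => (n : ℝ)) (by simp) (by simp))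
  refine h2.congr fun t => ?_
  split_ifs with hc
  · refine prod_eq_one fun q hq => ?_
    rw [if_pos (hc hq)]; simp
  · rw [not_subset] at hc
    obtain ⟨q, hq, hq'⟩ := hc
    refine prod_eq_zero hq ?_
    rw [if_neg hq']; simp

lemma rep_chi (h : HitSys Q k hit) {p : ℕ → ℝ} (h0 : ∀ q ∈ Q, 0 ≤ p q) (h1 : ∀ q ∈ Q, p q ≤ 1)
    {A : Finset ℕ} (hA : A ⊆ Q) (i : Fin N) :
    PRep (∏ q ∈ Q, q) (fun t => chi p A (conf Q hit t i)) (∏ q ∈ A, (q : ℝ)) := by
  classical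
  have h2 := PRep.prod A (fun q t => (fun n : ℕ => (n : ℝ) - p q)
    (if q ∈ conf Q hit t i then 1 else 0))
    (fun q => (q : ℝ)) (fun q hq => rep_mem h (hA hq) i (fun n : ℕ => (n : ℝ) - p q) ?_ ?_)
  · refine h2.congr fun t => ?_
    unfold chi
    refine prod_congr rfl fun q _ => ?_
    split_ifs <;> simp
  · have := h0 q (hA hq)
    have := h1 q (hA hq)
    simp only [Nat.cast_zero, zero_sub, abs_neg]
    rw [abs_of_nonneg (by assumption)]
    assumption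
  · have := h0 q (hA hq)
    have := h1 q (hA hq)
    rw [abs_le]
    constructor <;> push_cast <;> linarith

lemma bon_card_eq (b : ℕ) (I ω : Finset ℕ) :
    bon b (ω ∩ I).card = ∑ i ∈ range (2 * b + 1), ∑ D ∈ powersetCard i I,
      (-1) ^ i * (if D ⊆ ω then (1 : ℝ) else 0) := by
  unfold bon
  refine sum_congr rfl fun i _ => ?_
  rw [← mul_sum]
  congr 1
  rw [← card_powersetCard, sum_boole]
  congr 2
  ext D
  simp only [mem_powersetCard, mem_filter, subset_inter_iff]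
  tauto

lemma rep_bon (h : HitSys Q k hit) {I : Finset ℕ} (hI : I ⊆ Q) (b : ℕ) {Y : ℝ} (hY : 1 ≤ Y)
    (hIY : ∀ q ∈ I, (q : ℝ) ≤ Y) (i : Fin N) :
    PRep (∏ q ∈ Q, q) (fun t => bon b (conf Q hit t i ∩ I).card)
      (Y ^ (6 * b) * ∏ q ∈ I, (1 + ((q : ℝ) ^ 2)⁻¹)) := by
  classical
  have h1 : PRep (∏ q ∈ Q, q) (fun t => bon b (conf Q hit t i ∩ I).card)
      (∑ j ∈ range (2 * b + 1), ∑ D ∈ powersetCard j I, |(-1 : ℝ) ^ j| * ∏ q ∈ D, (q : ℝ)) := by
    refine (PRep.sum (range (2 * b + 1)) (fun j t => ∑ D ∈ powersetCard j I,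
      (-1) ^ j * (if D ⊆ conf Q hit t i then (1 : ℝ) else 0)) _ fun j _ => ?_).congr fun t => ?_
    · exact PRep.sum (powersetCard j I) (fun D t =>
        (-1) ^ j * (if D ⊆ conf Q hit t i then (1 : ℝ) else 0)) _ fun D hD =>
        (rep_subset h ((mem_powersetCard.1 hD).1.trans hI) i).smul _
    · rw [bon_card_eq]
  refine h1.weaken ?_
  have hpos : ∀ q ∈ I, (0 : ℝ) < q := fun q hq => by exact_mod_cast h.pos q (hI hq)
  have h2 : ∏ q ∈ I, (1 + ((q : ℝ) ^ 2)⁻¹) = ∑ D ∈ I.powerset, ∏ q ∈ D, ((q : ℝ) ^ 2)⁻¹ := by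
    rw [prod_congr rfl fun q _ => add_comm (1 : ℝ) _, prod_add]
    refine sum_congr rfl fun D _ => ?_
    simp
  rw [h2, mul_sum]
  have h3 : ∑ j ∈ range (2 * b + 1), ∑ D ∈ powersetCard j I, |(-1 : ℝ) ^ j| * ∏ q ∈ D, (q : ℝ) =
      ∑ D ∈ I.powerset with D.card ∈ range (2 * b + 1), ∏ q ∈ D, (q : ℝ) := by
    rw [← sum_fiberwise_eq_sum_filter]
    refine sum_congr rfl fun j _ => ?_
    rw [powersetCard_eq_filter]
    refine sum_congr rfl fun D _ => ?_
    rw [abs_pow, abs_neg, abs_one, one_pow, one_mul]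
  rw [h3]
  calc ∑ D ∈ I.powerset with D.card ∈ range (2 * b + 1), ∏ q ∈ D, (q : ℝ)
      ≤ ∑ D ∈ I.powerset with D.card ∈ range (2 * b + 1),
        Y ^ (6 * b) * ∏ q ∈ D, ((q : ℝ) ^ 2)⁻¹ := by
        refine sum_le_sum fun D hD => ?_
        rw [mem_filter, mem_powerset, mem_range] at hD
        obtain ⟨hD1, hD2⟩ := hD
        calc ∏ q ∈ D, (q : ℝ) ≤ ∏ q ∈ D, (Y ^ 3 * ((q : ℝ) ^ 2)⁻¹) := by
              refine prod_le_prod (fun q hq => (hpos q (hD1 hq)).le) fun q hq => ?_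
              have hq0 := hpos q (hD1 hq)
              rw [← div_eq_mul_inv, le_div_iff₀ (by positivity)]
              calc (q : ℝ) * q ^ 2 = q ^ 3 := by ring
                _ ≤ Y ^ 3 := pow_le_pow_left₀ hq0.le (hIY q (hD1 hq)) 3
          _ = (Y ^ 3) ^ D.card * ∏ q ∈ D, ((q : ℝ) ^ 2)⁻¹ := by
              rw [prod_mul_distrib, prod_const]
          _ ≤ Y ^ (6 * b) * ∏ q ∈ D, ((q : ℝ) ^ 2)⁻¹ := by
              refine mul_le_mul_of_nonneg_right ?_ (prod_nonneg fun q _ => by positivity)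
              rw [← pow_mul]
              exact pow_le_pow_right₀ hY (by omega)
    _ ≤ _ := by
        refine sum_le_sum_of_subset_of_nonneg (filter_subset _ _) fun D _ _ => ?_
        exact mul_nonneg (by positivity) (prod_nonneg fun q _ => by positivity)

lemma sum_levels (c : ℝ) (n : ℕ) :
    ∑ j ∈ range n, (c + j) * (1 / 2 : ℝ) ^ j = 2 * c + 2 - (2 * c + 2 + 2 * n) * (1 / 2 : ℝ) ^ n := by
  induction n with
  | zero => simp
  | succ n ih =>
    rw [sum_range_succ, ih, pow_succ]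
    push_cast
    ring

/-- norm of the Brun–Hooley polynomial -/
lemma rep_bet (h : HitSys Q k hit) {I : ℕ → Finset ℕ} {n bs : ℕ} {l0 : ℝ} (hl0 : 0 ≤ l0)
    (hI : ∀ j < n, I j ⊆ Q) (hd : ∀ i < n, ∀ j < n, i ≠ j → Disjoint (I i) (I j))
    (hIY : ∀ j < n, ∀ q ∈ I j, Real.log q ≤ (1 / 2) ^ j * l0)
    (hQ : ∑ q ∈ Q, ((q : ℝ) ^ 2)⁻¹ ≤ 1) (i : Fin N) :
    PRep (∏ q ∈ Q, q) (fun t => bet I (fun j => bs + j) n (conf Q hit t i))
      (Real.exp (12 * (bs + 1) * l0 + 1)) := by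
  classical
  have h1 : PRep (∏ q ∈ Q, q) (fun t => bet I (fun j => bs + j) n (conf Q hit t i))
      (∏ j ∈ range n, (Real.exp ((1 / 2) ^ j * l0) ^ (6 * (bs + j)) *
        ∏ q ∈ I j, (1 + ((q : ℝ) ^ 2)⁻¹))) := by
    unfold bet
    refine PRep.prod (range n) (fun j t => bon (bs + j) (conf Q hit t i ∩ I j).card) _
      fun j hj => ?_
    rw [mem_range] at hj
    refine rep_bon h (hI j hj) (bs + j) ?_ ?_ i
    · exact Real.one_le_exp (by positivity)
    · intro q hq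
      have hq0 : (0 : ℝ) < q := by exact_mod_cast h.pos q (hI j hj hq)
      rw [← Real.log_le_iff_le_exp hq0]
      exact hIY j hj q hq
  refine h1.weaken ?_
  rw [prod_mul_distrib, Real.exp_add]
  refine mul_le_mul ?_ ?_ (prod_nonneg fun j _ => prod_nonneg fun q _ => by positivity)
    (Real.exp_pos _).le
  · calc ∏ j ∈ range n, Real.exp ((1 / 2) ^ j * l0) ^ (6 * (bs + j))
        = Real.exp (∑ j ∈ range n, 6 * l0 * (((bs : ℝ) + j) * (1 / 2) ^ j)) := by
          rw [Real.exp_sum]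
          refine prod_congr rfl fun j _ => ?_
          rw [← Real.exp_nat_mul]
          congr 1
          push_cast
          ring
      _ ≤ _ := by
          refine Real.exp_le_exp.2 ?_
          rw [← mul_sum, sum_levels]
          have h5 : (0 : ℝ) ≤ (2 * bs + 2 + 2 * n) * (1 / 2 : ℝ) ^ n := by positivity
          have h6 : 6 * l0 * (2 * bs + 2 - (2 * bs + 2 + 2 * n) * (1 / 2 : ℝ) ^ n) ≤
              6 * l0 * (2 * bs + 2) := mul_le_mul_of_nonneg_left (by linarith) (by positivity)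
          calc _ ≤ _ := h6
            _ = _ := by ring
  · rw [← prod_biUnion (by
      intro i hi j hj hij
      rw [mem_coe, mem_range] at hi hj
      exact hd i hi j hj hij)]
    have hsub : (range n).biUnion I ⊆ Q := by
      rw [biUnion_subset]
      intro j hj
      exact hI j (mem_range.1 hj)
    calc ∏ q ∈ (range n).biUnion I, (1 + ((q : ℝ) ^ 2)⁻¹)
        ≤ ∏ q ∈ (range n).biUnion I, Real.exp (((q : ℝ) ^ 2)⁻¹) := by
          refine prod_le_prod (fun q _ => by positivity) fun q _ => ?_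
          have := Real.add_one_le_exp (((q : ℝ) ^ 2)⁻¹); linarith
      _ = Real.exp (∑ q ∈ (range n).biUnion I, ((q : ℝ) ^ 2)⁻¹) := by rw [Real.exp_sum]
      _ ≤ Real.exp 1 := by
          refine Real.exp_le_exp.2 (le_trans ?_ hQ)
          exact sum_le_sum_of_subset_of_nonneg hsub fun q _ _ => by positivity

end rep

end Pool.Agent.PosProp
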