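import Pool.Agent.Lib.PosProp.Beta

/-!
# The Brun–Hooley polynomial at configurations containing a given prime
-/

open Finset Pool.Agent.GapSieve

namespace Pool.Agent.PosProp

lemma bon_block {p : ℕ → ℝ} {I : Finset ℕ} {bs j : ℕ} {C2 : ℝ}
    (h0 : ∀ q ∈ I, 0 ≤ p q) (h1 : ∀ q ∈ I, p q ≤ 1 / 2)
    (hS : ∑ q ∈ I, p q ≤ 2 * C2) (hbs : Real.exp (66 * C2) ≤ 4 ^ bs) :
    E1 p I (fun ω => bon (bs + j) ω.card ^ 2) ≤ 1 + (1 / 4 : ℝ) ^ j := by
  have h11 : ∀ q ∈ I, p q ≤ 1 := fun q hq => (h1 q hq).trans (by norm_num)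
  have a1 : E1 p I (fun ω => bon (bs + j) ω.card ^ 2) ≤
      E1 p I (fun ω => 1 + (1 / 4) ^ (bs + j) * ((2 : ℝ) ^ (2 + 1)) ^ ω.card) := by
    refine E1_mono h0 h11 fun ω _ => ?_
    have h2 := bon_pow_le (bs + j) ω.card (r := 2) (by norm_num)
    have h3 : (if ω.card = 0 then (1 : ℝ) else 0) ≤ 1 := by split_ifs <;> norm_num
    linarith
  rw [E1_add, E1_const, E1_mul_left, E1_pow_card] at a1
  refine a1.trans ?_
  have a2 : ∏ q ∈ I, (1 + ((2 : ℝ) ^ (2 + 1) - 1) * p q) ≤ Real.exp (66 * C2) := by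
    refine (prod_one_add_mul_le_exp h0 (by norm_num)).trans (Real.exp_le_exp.2 ?_)
    have hs0 : 0 ≤ ∑ q ∈ I, p q := sum_nonneg h0
    norm_num
    linarith
  have a4 : (1 / 4 : ℝ) ^ (bs + j) * ∏ q ∈ I, (1 + ((2 : ℝ) ^ (2 + 1) - 1) * p q) ≤
      (1 / 4 : ℝ) ^ j := by
    calc (1 / 4 : ℝ) ^ (bs + j) * ∏ q ∈ I, (1 + ((2 : ℝ) ^ (2 + 1) - 1) * p q)
        ≤ (1 / 4 : ℝ) ^ (bs + j) * 4 ^ bs :=
          mul_le_mul_of_nonneg_left (a2.trans hbs) (by positivity)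
      _ = (1 / 4 : ℝ) ^ j := by
          rw [pow_add, mul_comm ((1 / 4 : ℝ) ^ bs), mul_assoc, ← mul_pow]
          norm_num
  linarith

lemma E1_pow_mem (p : ℕ → ℝ) {I : Finset ℕ} {q : ℕ} (hq : q ∈ I) (y : ℝ) :
    E1 p I (fun ω => y ^ ω.card * (if q ∈ ω then 1 else 0)) =
      y * p q * ∏ x ∈ I.erase q, (1 + (y - 1) * p x) := by
  have h := E_prod p (fun _ => y) (fun x => if x = q then 0 else 1) I
  have h2 : E1 p I (fun ω => y ^ ω.card * (if q ∈ ω then 1 else 0)) =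
      ∑ ω ∈ I.powerset, mu p I ω * ((∏ _x ∈ ω, y) * ∏ x ∈ I \ ω, (if x = q then 0 else 1)) := by
    unfold E1
    refine sum_congr rfl fun ω hω => ?_
    rw [prod_const]
    show mu p I ω * (y ^ ω.card * (if q ∈ ω then 1 else 0)) = _
    congr 2
    by_cases hqω : q ∈ ω
    · rw [if_pos hqω]
      symm
      refine prod_eq_one fun x hx => ?_
      rw [if_neg]
      rintro rfl
      exact (mem_sdiff.1 hx).2 hqω
    · rw [if_neg hqω]
      symm
      exact prod_eq_zero (mem_sdiff.2 ⟨hq, hqω⟩) (by simp)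
  rw [h2, h, ← mul_prod_erase I _ hq]
  congr 1
  · simp; ring
  · refine prod_congr rfl fun x hx => ?_
    rw [if_neg (mem_erase.1 hx).1]
    ring

lemma bon_block_mem {p : ℕ → ℝ} {I : Finset ℕ} {bs j : ℕ} {C2 : ℝ}
    (h0 : ∀ q ∈ I, 0 ≤ p q) (h1 : ∀ q ∈ I, p q ≤ 1 / 2)
    (hS : ∑ q ∈ I, p q ≤ 2 * C2) (hbs : Real.exp (66 * C2) ≤ 4 ^ bs) {q : ℕ} (hq : q ∈ I) :
    E1 p I (fun ω => bon (bs + j) ω.card ^ 2 * (if q ∈ ω then 1 else 0)) ≤ 8 * p q := by
  have h11 : ∀ q ∈ I, p q ≤ 1 := fun q hq => (h1 q hq).trans (by norm_num)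
  have a1 : E1 p I (fun ω => bon (bs + j) ω.card ^ 2 * (if q ∈ ω then 1 else 0)) ≤
      E1 p I (fun ω => (1 / 4) ^ (bs + j) * ((8 : ℝ) ^ ω.card * (if q ∈ ω then 1 else 0))) := by
    refine E1_mono h0 h11 fun ω _ => ?_
    by_cases hqω : q ∈ ω
    · rw [if_pos hqω, mul_one, mul_one]
      have h2 := bon_pow_le (bs + j) ω.card (r := 2) (by norm_num)
      have h3 : ω.card ≠ 0 := card_ne_zero_of_mem hqω
      rw [if_neg h3, zero_add] at h2
      norm_num at h2 ⊢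
      exact h2
    · rw [if_neg hqω, mul_zero, mul_zero, mul_zero]
  refine a1.trans ?_
  rw [E1_mul_left, E1_pow_mem p hq]
  have hpq := h0 q hq
  have a2 : ∏ x ∈ I.erase q, (1 + ((8 : ℝ) - 1) * p x) ≤ Real.exp (66 * C2) := by
    have hsub : I.erase q ⊆ I := erase_subset _ _
    refine (prod_one_add_mul_le_exp (fun x hx => h0 x (hsub hx)) (by norm_num)).trans
      (Real.exp_le_exp.2 ?_)
    have hs0 : 0 ≤ ∑ q ∈ I, p q := sum_nonneg h0
    have hs1 : ∑ x ∈ I.erase q, p x ≤ ∑ x ∈ I, p x :=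
      sum_le_sum_of_subset_of_nonneg hsub fun x hx _ => h0 x hx
    norm_num
    linarith
  have a3 : (1 / 4 : ℝ) ^ (bs + j) * Real.exp (66 * C2) ≤ 1 := by
    calc (1 / 4 : ℝ) ^ (bs + j) * Real.exp (66 * C2) ≤ (1 / 4 : ℝ) ^ (bs + j) * 4 ^ bs :=
          mul_le_mul_of_nonneg_left hbs (by positivity)
      _ = (1 / 4 : ℝ) ^ j := by
          rw [pow_add, mul_comm ((1 / 4 : ℝ) ^ bs), mul_assoc, ← mul_pow]
          norm_num
      _ ≤ 1 := pow_le_one₀ (by norm_num) (by norm_num)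
  calc (1 / 4 : ℝ) ^ (bs + j) * (8 * p q * ∏ x ∈ I.erase q, (1 + ((8 : ℝ) - 1) * p x))
      ≤ (1 / 4 : ℝ) ^ (bs + j) * (8 * p q * Real.exp (66 * C2)) := by gcongr
    _ = ((1 / 4 : ℝ) ^ (bs + j) * Real.exp (66 * C2)) * (8 * p q) := by ring
    _ ≤ 1 * (8 * p q) := mul_le_mul_of_nonneg_right a3 (by positivity)
    _ = _ := one_mul _

/-- second moment of the Brun–Hooley polynomial at configurations containing `q` -/
lemma bet_mem {p : ℕ → ℝ} {I : ℕ → Finset ℕ} {n bs : ℕ} {C2 : ℝ}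
    (hd : ∀ i < n, ∀ j < n, i ≠ j → Disjoint (I i) (I j))
    (h0 : ∀ j < n, ∀ q ∈ I j, 0 ≤ p q) (h1 : ∀ j < n, ∀ q ∈ I j, p q ≤ 1 / 2)
    (hS : ∀ j < n, ∑ q ∈ I j, p q ≤ 2 * C2) (hbs : Real.exp (66 * C2) ≤ 4 ^ bs)
    {q : ℕ} (hq : q ∈ (range n).biUnion I) :
    E1 p ((range n).biUnion I) (fun ω => bet I (fun j => bs + j) n ω ^ 2 *
      (if q ∈ ω then 1 else 0)) ≤ 32 * p q := by
  rw [mem_biUnion] at hq
  obtain ⟨j0, hj0, hq⟩ := hq
  rw [mem_range] at hj0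
  have hpq := h0 j0 hj0 q hq
  have hE := E1_blocks p I (fun j ω => bon (bs + j) ω.card ^ 2 *
    (if j = j0 then (if q ∈ ω then 1 else 0) else 1)) n hd
  have hE' : E1 p ((range n).biUnion I) (fun ω => bet I (fun j => bs + j) n ω ^ 2 *
      (if q ∈ ω then 1 else 0)) =
      ∏ j ∈ range n, E1 p (I j) (fun ω => bon (bs + j) ω.card ^ 2 *
        (if j = j0 then (if q ∈ ω then 1 else 0) else 1)) := by
    rw [← hE]
    refine E1_congr fun ω _ => ?_
    unfold bet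
    rw [prod_mul_distrib, prod_pow]
    congr 1
    rw [prod_ite_eq', if_pos (mem_range.2 hj0)]
    simp [hq]
  rw [hE']
  calc ∏ j ∈ range n, E1 p (I j) (fun ω => bon (bs + j) ω.card ^ 2 *
        (if j = j0 then (if q ∈ ω then 1 else 0) else 1))
      ≤ ∏ j ∈ range n, ((1 + (1 / 4 : ℝ) ^ j) * (if j = j0 then 8 * p q else 1)) := by
        refine prod_le_prod (fun j hj => ?_) fun j hj => ?_
        · rw [mem_range] at hj
          refine E1_nonneg (h0 j hj) (fun q hq => (h1 j hj q hq).trans (by norm_num))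
            fun ω _ => mul_nonneg (sq_nonneg _) ?_
          split_ifs <;> norm_num
        · rw [mem_range] at hj
          by_cases hjj : j = j0
          · subst hjj
            simp only [if_true]
            have h2 := bon_block_mem (j := j) (h0 j hj) (h1 j hj) (hS j hj) hbs hq
            refine h2.trans ?_
            have h3 : (0 : ℝ) ≤ (1 / 4) ^ j := by positivity
            nlinarith
          · simp only [if_neg hjj, mul_one]
            exact bon_block (h0 j hj) (h1 j hj) (hS j hj) hbs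
    _ = (∏ j ∈ range n, (1 + (1 / 4 : ℝ) ^ j)) * (8 * p q) := by
        rw [prod_mul_distrib, prod_ite_eq', if_pos (mem_range.2 hj0)]
    _ ≤ 4 * (8 * p q) := mul_le_mul_of_nonneg_right (prod_quarter_le n) (by positivity)
    _ = _ := by ring

end Pool.Agent.PosProp
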