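import Pool.Agent.Lib.PosProp.Par4

/-!
# The counting theorem with all parameters, uniform version
-/

open Finset Pool.Agent.GapSieve

namespace Pool.Agent.PosProp

section

variable {N : ℕ} {Q1 Q2 : Finset ℕ} {k : ℕ → ℕ} {hit : ℕ → Fin N → ℕ → Prop}
  {C1 C2 lam LX lq ε δ0 : ℝ} {J bs : ℕ}

open Classical in
theorem posdens_core2 (h : Par Q1 Q2 k hit C1 C2 lam LX lq ε δ0 J bs) {Λ K4 : ℝ} {D : ℕ}
    (hΛ : Λ = 16 * (C1 ^ 2 * lam / ε * 2 ^ (J - 1)))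
    (hD : ε ≤ δ0 * 2 ^ D)
    (hK4 : K4 = Real.exp (120 * (C1 * lam / δ0 * Real.exp (15 * (2 * C2 * D)))))
    (hε1 : 655360000 * (C1 ^ 2 * lam * (Real.exp (8 * C2) + 1)) * ε ≤ 1)
    (hη1 : (N : ℝ) ^ 2 * ∑ q ∈ Q1 ∪ Q2, pp N k q ^ 2 ≤ 1 / 80000)
    (hN2 : N * (2 * Real.exp (1 - 2 * hz δ0 LX bs)) ≤ 1)
    (hbig : Real.exp (6 * (LX / 100) + 2) * (1 + N * (4 * (Real.exp (hz δ0 LX bs) ^ 2 *
      Real.exp (3 * ((2 * C2 + 1) * (ε * LX)) + 1) ^ 2))) ≤ Real.exp (LX / 2) *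
      (Real.exp (-Λ) / 32))
    (hbig4 : Real.exp (3 * (LX / 100) + 1) ^ 4 ≤ Real.exp (LX / 2))
    {B : Finset ℕ} {M E : ℝ} (hM : 0 ≤ M) (hE : 0 ≤ E) (hB : EquiD (∏ q ∈ Q1 ∪ Q2, q) B M E)
    (hME : E * Real.exp (LX / 2) ≤ M) :
    (Real.exp (-Λ) / 4) ^ 2 / (16 * 3 * K4) * M ≤
      ((B.filter fun t => ∀ i : Fin N, ∃ q ∈ Q1 ∪ Q2, hit q i t).card : ℝ) := by
  obtain ⟨n, hn⟩ := Ib_union (Q1 := Q1) (l0 := δ0 * LX) (lq := lq) (by linarith [h.hlq]) h.lo1 h.hi1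
  have hsd := h.sd hn
  set β := be Q1 (δ0 * LX) bs n with hβ
  have hl := h.l
  have hl0 := h.l0
  have hLX := h.hLX
  have hεp := h.hε
  have hC1 := h.hC1
  have hC2 := h.hC2
  have hlam := h.hlam
  have hδ := h.hδ
  have hK41 : 1 ≤ K4 := by
    rw [hK4]
    apply Real.one_le_exp
    positivity
  have hK40 : 0 < K4 := by linarith
  have hh0 : 1 ≤ hz δ0 LX bs := by
    unfold hz
    have : 0 ≤ 12 * ((bs : ℝ) + 1) * (δ0 * LX) := by positivity
    linarith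
  have hpos : ∀ q ∈ Q2, 0 < q := fun q hq => h.sys.pos q (mem_union_right _ hq)
  have hinv2 : ∑ q ∈ Q2, ((q : ℝ) ^ 2)⁻¹ ≤ 1 :=
    (sum_le_sum_of_subset_of_nonneg subset_union_right fun q _ _ => by positivity).trans h.inv
  have hWb : (1 : ℝ) ≤ Real.exp (hz δ0 LX bs) := Real.one_le_exp (by linarith)
  have hrb : ∀ i : Fin N, PRep (∏ q ∈ Q1 ∪ Q2, q) (fun t => β (conf (Q1 ∪ Q2) hit t i))
      (Real.exp (hz δ0 LX bs)) := by
    intro i
    exact rep_bet h.sys hl0.le (fun j _ => (filter_subset _ _).trans subset_union_left)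
      (fun i _ j _ hij => Ib_disj hl0.le hij) (fun j _ q hq => (mem_filter.1 hq).2.2) h.inv i
  have hA1 := A0N_ge h hsd
  rw [← hΛ] at hA1
  have h2nd := second_ge2 h hsd (h.bq hn) (by
    have h1 : 1 ≤ C1 ^ 2 * lam * (Real.exp (8 * C2) + 1) := by
      have e1 : 1 ≤ C1 ^ 2 := one_le_pow₀ hC1
      have e2 : 1 ≤ Real.exp (8 * C2) + 1 := by
        have := Real.exp_pos (8 * C2)
        linarith
      have e3 := one_le_mul_of_one_le_of_one_le e1 hlam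
      exact one_le_mul_of_one_le_of_one_le e3 e2
    nlinarith) hη1
  set A := (∑ s ∈ TT Q2, nn (pp N k) (Q1 ∪ Q2)
    (ee (pp N k) Q1 β (Bm Q2 (ε * LX) J) J) s) ^ N with hA
  have hApos : 0 < A := (Real.exp_pos _).trans_le hA1
  have h4 : EN (pp N k) (Q1 ∪ Q2) (fun ω : Fin N → Finset ℕ => GG (TT Q2)
      (ee (pp N k) Q1 β (Bm Q2 (ε * LX) J) J) (dd (hz δ0 LX bs)) (LX / 100) ω ^ 4) ≤ K4 := by
    refine (GG_pow_le h.p0 h.p1 _ _ _ _).trans ?_
    rw [hK4]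
    exact fourth_le2 h hsd hD
  have hU : ∀ i : Fin N, N * (E1 (pp N k) (Q1 ∪ Q2)
      (uu (pp N k) Q2 β ((2 * C2 + 1) * (ε * LX))) *
      EN (pp N k) (Q1 ∪ Q2) (fun ω : Fin N → Finset ℕ => GG (TT Q2)
      (ee (pp N k) Q1 β (Bm Q2 (ε * LX) J) J) (dd (hz δ0 LX bs)) (LX / 100)
      (Function.update ω i ∅) ^ 2)) ≤ A / 4 / 8 := by
    intro i
    have e1 := Eu_le h hsd ((2 * C2 + 1) * (ε * LX))
    have e2 := upd_le h hsd i
    rw [← hA] at e2
    have e3 : 0 ≤ EN (pp N k) (Q1 ∪ Q2) (fun ω : Fin N → Finset ℕ => GG (TT Q2)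
      (ee (pp N k) Q1 β (Bm Q2 (ε * LX) J) J) (dd (hz δ0 LX bs)) (LX / 100)
      (Function.update ω i ∅) ^ 2) := EN_nonneg h.p0 h.p1 fun _ _ => sq_nonneg _
    have e4 : Real.exp (-(1 / (400 * ε))) ≤ 320000 * ε ^ 2 := by
      have f1 : 1 + 1 / (400 * ε) + (1 / (400 * ε)) ^ 2 / 2 ≤ Real.exp (1 / (400 * ε)) :=
        Real.quadratic_le_exp_of_nonneg (by positivity)
      have f2 : (1 / (400 * ε)) ^ 2 / 2 ≤ Real.exp (1 / (400 * ε)) := by
        have : 0 < 1 / (400 * ε) := by positivity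
        linarith
      rw [Real.exp_neg, inv_eq_one_div, div_le_iff₀ (Real.exp_pos _)]
      have f3 := mul_le_mul_of_nonneg_left f2 (show 0 ≤ 320000 * ε ^ 2 by positivity)
      have f4 : 320000 * ε ^ 2 * ((1 / (400 * ε)) ^ 2 / 2) = 1 := by
        field_simp
        norm_num
      linarith
    calc N * (E1 (pp N k) (Q1 ∪ Q2)
          (uu (pp N k) Q2 β ((2 * C2 + 1) * (ε * LX))) *
          EN (pp N k) (Q1 ∪ Q2) (fun ω : Fin N → Finset ℕ => GG (TT Q2)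
          (ee (pp N k) Q1 β (Bm Q2 (ε * LX) J) J) (dd (hz δ0 LX bs)) (LX / 100)
          (Function.update ω i ∅) ^ 2))
        = (N * E1 (pp N k) (Q1 ∪ Q2)
          (uu (pp N k) Q2 β ((2 * C2 + 1) * (ε * LX)))) *
          EN (pp N k) (Q1 ∪ Q2) (fun ω : Fin N → Finset ℕ => GG (TT Q2)
          (ee (pp N k) Q1 β (Bm Q2 (ε * LX) J) J) (dd (hz δ0 LX bs)) (LX / 100)
          (Function.update ω i ∅) ^ 2) := by ring
      _ ≤ (16 * (C1 ^ 2 * lam / ε)) *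
          (4 * ((Real.exp (8 * C2) + 1) * Real.exp (-(1 / (400 * ε)))) * A) :=
          mul_le_mul e1 e2 e3 (by positivity)
      _ ≤ (16 * (C1 ^ 2 * lam / ε)) *
          (4 * ((Real.exp (8 * C2) + 1) * (320000 * ε ^ 2)) * A) := by gcongr
      _ = (655360000 * (C1 ^ 2 * lam * (Real.exp (8 * C2) + 1)) * ε) * (A / 32) := by
          field_simp
          ring
      _ ≤ 1 * (A / 32) := mul_le_mul_of_nonneg_right hε1 (by positivity)
      _ = A / 4 / 8 := by ring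
  have hWG : Real.exp (3 * (LX / 100)) * (∑ s ∈ TT Q2, ww (Real.exp (hz δ0 LX bs)) s *
      Real.exp (-(3 * dd (hz δ0 LX bs) s))) ^ N ≤ Real.exp (3 * (LX / 100) + 1) := by
    rw [Real.exp_add]
    refine mul_le_mul_of_nonneg_left ?_ (Real.exp_pos _).le
    have f1 := sum_ww (Q2 := Q2) hpos hinv2 (Wb := Real.exp (hz δ0 LX bs)) (h0 := hz δ0 LX bs)
      (Real.exp_pos _).le
    have f2 : 1 + 2 * Real.exp (hz δ0 LX bs) * Real.exp (1 - 3 * hz δ0 LX bs) ≤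
        Real.exp (2 * Real.exp (1 - 2 * hz δ0 LX bs)) := by
      have f3 : 2 * Real.exp (hz δ0 LX bs) * Real.exp (1 - 3 * hz δ0 LX bs) =
          2 * Real.exp (1 - 2 * hz δ0 LX bs) := by
        rw [mul_assoc, ← Real.exp_add]
        ring_nf
      rw [f3, add_comm]
      exact Real.add_one_le_exp _
    have f4 : 0 ≤ ∑ s ∈ TT Q2, ww (Real.exp (hz δ0 LX bs)) s *
        Real.exp (-(3 * dd (hz δ0 LX bs) s)) := sum_nonneg fun s hs =>
      mul_nonneg (ww_nonneg (Real.exp_pos _).le s hs) (Real.exp_pos _).le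
    refine (pow_le_pow_left₀ f4 (f1.trans f2) N).trans ?_
    rw [← Real.exp_nat_mul]
    exact Real.exp_le_exp.2 hN2
  have hsm' : (N : ℝ) ^ 2 * ∑ q ∈ Q1 ∪ Q2, pp N k q ^ 2 ≤ 1 / 2 := hη1.trans (by norm_num)
  have key := count_good2 (N := N) (Q := Q1 ∪ Q2) (S := Option (Finset ℕ)) h.sys h.N0 (T := TT Q2)
    (e := ee (pp N k) Q1 β (Bm Q2 (ε * LX) J) J) (d := dd (hz δ0 LX bs))
    (w := ww (Real.exp (hz δ0 LX bs))) (ww_nonneg (Real.exp_pos _).le) (η := 3) (L := LX / 100)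
    (by norm_num) (rep_ee hsd h.sys hWb hrb) (rep_ee_empty hsd hpos hWb)
    (u := uu (pp N k) Q2 β ((2 * C2 + 1) * (ε * LX))) (fun ω _ => uu_nonneg _ ω)
    (uu_one h hsd) (rep_uu hsd h.sys hinv2 hrb _) (WG := Real.exp (3 * (LX / 100) + 1)) hWG
    (B := B) hM hE hB (a := A / 4) (K4 := K4) (by positivity) hK40 h2nd h4 hU
    hsm' ?_ ?_
  · refine le_trans ?_ key
    refine mul_le_mul_of_nonneg_right ?_ hM
    refine div_le_div_of_nonneg_right ?_ (by positivity)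
    exact pow_le_pow_left₀ (by positivity) (by linarith) 2
  · have f1 : Real.exp (3 * (LX / 100) + 1) ^ 2 = Real.exp (6 * (LX / 100) + 2) := by
      rw [← Real.exp_nat_mul]
      norm_num
      ring
    rw [f1]
    have f2 := mul_le_mul_of_nonneg_left hbig hE
    have f3 : E * (Real.exp (LX / 2) * (Real.exp (-Λ) / 32)) ≤ M * (A / 4 / 8) := by
      calc E * (Real.exp (LX / 2) * (Real.exp (-Λ) / 32))
          = (E * Real.exp (LX / 2)) * (Real.exp (-Λ) / 32) := by ring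
        _ ≤ M * (Real.exp (-Λ) / 32) := mul_le_mul_of_nonneg_right hME (by positivity)
        _ ≤ M * (A / 4 / 8) := mul_le_mul_of_nonneg_left (by linarith) hM
    exact f2.trans f3
  · calc E * Real.exp (3 * (LX / 100) + 1) ^ 4 ≤ E * Real.exp (LX / 2) :=
          mul_le_mul_of_nonneg_left hbig4 hE
      _ ≤ M := hME
      _ = M * 1 := (mul_one _).symm
      _ ≤ M * K4 := mul_le_mul_of_nonneg_left hK41 hM

end

end Pool.Agent.PosProp
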