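import Pool.Agent.Lib.PosProp.Model

/-!
# The counting theorem for an abstract one-site system
-/

open Finset Pool.Agent.GapSieve

namespace Pool.Agent.PosProp

variable {N : ℕ} {Q : Finset ℕ} {k : ℕ → ℕ} {hit : ℕ → Fin N → ℕ → Prop}
variable {S : Type*}

/-- norm bound for the truncated product -/
lemma GG_rep {P : ℕ} {T : Finset S} {e : S → Finset ℕ → ℝ} {d w : S → ℝ}
    (hw : ∀ s ∈ T, 0 ≤ w s) {η L : ℝ} (hη : 0 ≤ η) (F : Fin N → ℕ → Finset ℕ)
    (hrep : ∀ i, ∀ s ∈ T, PRep P (fun t => e s (F i t)) (w s)) :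
    PRep P (fun t => GG T e d L (fun i => F i t))
      (Real.exp (η * L) * (∑ s ∈ T, w s * Real.exp (-(η * d s))) ^ N) := by
  classical
  have h1 : PRep P (fun t => GG T e d L (fun i => F i t))
      (∑ σ ∈ (Pi N T).filter (fun σ => cost d σ ≤ L), ∏ i, w (σ i)) := by
    unfold GG ePi
    refine PRep.sum _ (fun (σ : Fin N → S) t => ∏ i, e (σ i) (F i t)) _ fun σ hσ => ?_
    exact PRep.prod univ (fun i t => e (σ i) (F i t)) _ fun i _ =>
      hrep i _ (mem_Pi.1 (mem_filter.1 hσ).1 i)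
  refine h1.weaken ?_
  rw [← sum_Pi_prod, mul_sum]
  calc ∑ σ ∈ (Pi N T).filter (fun σ => cost d σ ≤ L), ∏ i, w (σ i)
      ≤ ∑ σ ∈ (Pi N T).filter (fun σ => cost d σ ≤ L),
        Real.exp (η * L) * ∏ i, (w (σ i) * Real.exp (-(η * d (σ i)))) := by
        refine sum_le_sum fun σ hσ => ?_
        obtain ⟨h1, h2⟩ := mem_filter.1 hσ
        have h5 : ∏ i, Real.exp (-(η * d (σ i))) = Real.exp (-(η * cost d σ)) := by
          have := exp_cost (-η) d σ
          simp only [neg_mul] at this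
          rw [this]
        rw [prod_mul_distrib, h5]
        have h3 : 1 ≤ Real.exp (η * L) * Real.exp (-(η * cost d σ)) := by
          rw [← Real.exp_add]
          apply Real.one_le_exp
          nlinarith
        have h4 : 0 ≤ ∏ i, w (σ i) := prod_nonneg fun i _ => hw _ (mem_Pi.1 h1 i)
        calc ∏ i, w (σ i) = (∏ i, w (σ i)) * 1 := (mul_one _).symm
          _ ≤ (∏ i, w (σ i)) * (Real.exp (η * L) * Real.exp (-(η * cost d σ))) :=
              mul_le_mul_of_nonneg_left h3 h4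
          _ = _ := by ring
    _ ≤ _ := by
        refine sum_le_sum_of_subset_of_nonneg (filter_subset _ _) fun σ hσ _ => ?_
        refine mul_nonneg (Real.exp_pos _).le (prod_nonneg fun i _ => ?_)
        exact mul_nonneg (hw _ (mem_Pi.1 hσ i)) (Real.exp_pos _).le

open Classical in
/-- The counting theorem, with the arithmetic second moment as a hypothesis. -/
theorem count_good2 (h : HitSys Q k hit) (hN : 0 < N)
    {T : Finset S} {e : S → Finset ℕ → ℝ} {d w : S → ℝ}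
    (hw : ∀ s ∈ T, 0 ≤ w s) {η L : ℝ} (hη : 0 ≤ η)
    (hrep : ∀ i, ∀ s ∈ T, PRep (∏ q ∈ Q, q) (fun t => e s (conf Q hit t i)) (w s))
    (hrep0 : ∀ s ∈ T, |e s ∅| ≤ w s)
    {u : Finset ℕ → ℝ} (hu0 : ∀ ω ⊆ Q, 0 ≤ u ω) (hu1 : 1 ≤ u ∅) {Wu : ℝ}
    (hurep : ∀ i, PRep (∏ q ∈ Q, q) (fun t => u (conf Q hit t i)) Wu)
    {WG : ℝ} (hWG : Real.exp (η * L) * (∑ s ∈ T, w s * Real.exp (-(η * d s))) ^ N ≤ WG)
    {B : Finset ℕ} {M E : ℝ} (hM : 0 ≤ M) (hE : 0 ≤ E) (hB : EquiD (∏ q ∈ Q, q) B M E)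
    {a K4 : ℝ} (ha : 0 < a) (hK4 : 0 < K4)
    (r1' : a * (3 / 4) ≤ ER Q hit (fun ω => GG T e d L ω ^ 2))
    (h4 : EN (pp N k) Q (fun ω : Fin N → Finset ℕ => GG T e d L ω ^ 4) ≤ K4)
    (hU : ∀ i : Fin N, N * (E1 (pp N k) Q u *
      EN (pp N k) Q (fun ω : Fin N → Finset ℕ => GG T e d L (Function.update ω i ∅) ^ 2)) ≤ a / 8)
    (hsm' : (N : ℝ) ^ 2 * ∑ q ∈ Q, pp N k q ^ 2 ≤ 1 / 2)
    (hE2 : E * (WG ^ 2 * (1 + N * Wu)) ≤ M * (a / 8)) (hE4 : E * WG ^ 4 ≤ M * K4) :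
    a ^ 2 / (16 * 3 * K4) * M ≤
      ((B.filter fun t => ∀ i : Fin N, ∃ q ∈ Q, hit q i t).card : ℝ) := by
  set P := ∏ q ∈ Q, q with hPdef
  have hPpos : 0 < P := prod_pos h.pos
  set f : ℕ → ℝ := fun t => GG T e d L (conf Q hit t) with hf
  set fi : Fin N → ℕ → ℝ := fun i t => GG T e d L (Function.update (conf Q hit t) i ∅) with hfi
  have hfrep : PRep P f WG := by
    have := GG_rep (N := N) (d := d) (L := L) hw hη (fun i t => conf Q hit t i) hrep
    exact this.weaken hWG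
  have hfirep : ∀ i, PRep P (fi i) WG := by
    intro i
    have hr : ∀ j, ∀ s ∈ T, PRep P (fun t => e s (Function.update (conf Q hit t) i ∅ j)) (w s) := by
      intro j s hs
      by_cases hj : j = i
      · subst hj
        refine ((PRep.const (e s ∅)).congr fun t => ?_).weaken (hrep0 s hs)
        simp
      · refine (hrep j s hs).congr fun t => ?_
        simp [Function.update_of_ne hj]
    exact (GG_rep (N := N) (d := d) (L := L) hw hη
      (fun j t => Function.update (conf Q hit t) i ∅ j) hr).weaken hWG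
  have hp0 : ∀ q ∈ Q, 0 ≤ pp N k q := fun q hq => pp_nonneg h hN hq
  have hp1 : ∀ q ∈ Q, pp N k q ≤ 1 := fun q hq => (pp_lt_one h hN hq).le
  have hWG0 := hfrep.nonneg
  -- second moment from below
  have e1 := (abs_le.1 ((hfrep.pow 2).equi hPpos hE hB)).1
  have e1' : (∑ t ∈ range P, f t ^ 2) / (P : ℝ) = ER Q hit (fun ω => GG T e d L ω ^ 2) := rfl
  rw [e1'] at e1
  -- fourth moment from above
  have e4 := (abs_le.1 ((hfrep.pow 4).equi hPpos hE hB)).2
  have e4' : (∑ t ∈ range P, f t ^ 4) / (P : ℝ) = ER Q hit (fun ω => GG T e d L ω ^ 4) := rfl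
  rw [e4'] at e4
  have r4 := ER_le h hN hsm' (Φ := fun ω => GG T e d L ω ^ 4) fun ω _ => by positivity
  have q4 : ∑ t ∈ B, f t ^ 4 ≤ M * (3 * K4) := by
    have : M * ER Q hit (fun ω => GG T e d L ω ^ 4) ≤ M * (2 * K4) :=
      mul_le_mul_of_nonneg_left (by linarith) hM
    linarith
  -- unhit sites
  have hui : ∀ i : Fin N, ∑ t ∈ B, fi i t ^ 2 * u (conf Q hit t i) ≤
      M * (2 * (E1 (pp N k) Q u * EN (pp N k) Q (fun ω : Fin N → Finset ℕ =>
        GG T e d L (Function.update ω i ∅) ^ 2))) + E * (WG ^ 2 * Wu) := by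
    intro i
    have hr := (((hfirep i).pow 2).mul (hurep i)).equi hPpos hE hB
    have e5 := (abs_le.1 hr).2
    have e5' : (∑ t ∈ range P, fi i t ^ 2 * u (conf Q hit t i)) / (P : ℝ) =
        ER Q hit (fun ω => GG T e d L (Function.update ω i ∅) ^ 2 * u (ω i)) := rfl
    rw [e5'] at e5
    have r5 := ER_le h hN hsm' (Φ := fun ω => GG T e d L (Function.update ω i ∅) ^ 2 * u (ω i))
      fun ω hω => mul_nonneg (sq_nonneg _) (hu0 _ (mem_Om.1 hω i))
    have r6 := EN_update_mul (Q := Q) (pp N k) (fun ω => GG T e d L ω ^ 2) u i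
    rw [r6] at r5
    have := mul_le_mul_of_nonneg_left r5 hM
    linarith
  -- pointwise inequality
  set good := B.filter fun t => ∀ i : Fin N, ∃ q ∈ Q, hit q i t with hgood
  have hpt : ∀ t ∈ B, f t ^ 2 ≤ (if ∀ i : Fin N, ∃ q ∈ Q, hit q i t then f t ^ 2 else 0) +
      ∑ i, fi i t ^ 2 * u (conf Q hit t i) := by
    intro t _
    have hnn : ∀ i ∈ (univ : Finset (Fin N)), 0 ≤ fi i t ^ 2 * u (conf Q hit t i) := fun i _ =>
      mul_nonneg (sq_nonneg _) (hu0 _ (mem_Om.1 (conf_mem t) i))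
    by_cases hc : ∀ i : Fin N, ∃ q ∈ Q, hit q i t
    · rw [if_pos hc]
      have := sum_nonneg hnn
      linarith
    · rw [if_neg hc]
      push Not at hc
      obtain ⟨i, hi⟩ := hc
      have hci : conf Q hit t i = ∅ := by
        unfold conf
        exact filter_eq_empty_iff.2 fun q hq => hi q hq
      have h5 : fi i t = f t := by
        simp only [hfi, hf]
        congr 1
        rw [← hci, Function.update_eq_self]
      have h6 := single_le_sum hnn (mem_univ i)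
      have h7 : f t ^ 2 ≤ fi i t ^ 2 * u (conf Q hit t i) := by
        rw [h5, hci]
        nlinarith [sq_nonneg (f t)]
      simpa using h7.trans h6
  have hsum : ∑ t ∈ B, f t ^ 2 ≤ ∑ t ∈ good, f t ^ 2 +
      ∑ i : Fin N, ∑ t ∈ B, fi i t ^ 2 * u (conf Q hit t i) := by
    calc ∑ t ∈ B, f t ^ 2 ≤ ∑ t ∈ B, ((if ∀ i : Fin N, ∃ q ∈ Q, hit q i t then f t ^ 2 else 0) +
          ∑ i, fi i t ^ 2 * u (conf Q hit t i)) := sum_le_sum hpt
      _ = _ := by
          rw [sum_add_distrib, sum_comm, hgood, sum_filter]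
  have hsumi : ∑ i : Fin N, ∑ t ∈ B, fi i t ^ 2 * u (conf Q hit t i) ≤
      M * (a / 4) + E * (WG ^ 2 * (N * Wu)) := by
    have hNR : (0 : ℝ) < N := by exact_mod_cast hN
    calc ∑ i : Fin N, ∑ t ∈ B, fi i t ^ 2 * u (conf Q hit t i)
        ≤ ∑ _i : Fin N, (M * (a / (4 * N)) + E * (WG ^ 2 * Wu)) := by
          refine sum_le_sum fun i _ => (hui i).trans ?_
          have h5 : 2 * (E1 (pp N k) Q u * EN (pp N k) Q (fun ω : Fin N → Finset ℕ =>
              GG T e d L (Function.update ω i ∅) ^ 2)) ≤ a / (4 * N) := by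
            rw [le_div_iff₀ (by positivity)]
            have := hU i
            linarith
          have := mul_le_mul_of_nonneg_left h5 hM
          linarith
      _ = _ := by
          rw [sum_const, card_univ, Fintype.card_fin, nsmul_eq_mul]
          field_simp
  have hlow : M * (a / 4) ≤ ∑ t ∈ good, f t ^ 2 := by
    have h5 : M * (a * (3 / 4)) ≤ M * ER Q hit (fun ω => GG T e d L ω ^ 2) :=
      mul_le_mul_of_nonneg_left r1' hM
    have h6 : E * (WG ^ 2 * (1 + N * Wu)) = E * WG ^ 2 + E * (WG ^ 2 * (N * Wu)) := by ring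
    nlinarith
  -- Cauchy-Schwarz
  have hCS : (∑ t ∈ good, f t ^ 2) ^ 2 ≤ (good.card : ℝ) * ∑ t ∈ good, f t ^ 4 := by
    have h5 := sum_mul_sq_le_sq_mul_sq good (fun _ => (1 : ℝ)) (fun t => f t ^ 2)
    simp only [one_mul, one_pow, sum_const, nsmul_eq_mul, mul_one] at h5
    calc _ ≤ _ := h5
      _ = _ := by
        congr 1
        exact sum_congr rfl fun t _ => by ring
  have hgB : ∑ t ∈ good, f t ^ 4 ≤ ∑ t ∈ B, f t ^ 4 :=
    sum_le_sum_of_subset_of_nonneg (filter_subset _ _) fun t _ _ => by positivity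
  have hfin : (M * (a / 4)) ^ 2 ≤ (good.card : ℝ) * (M * (3 * K4)) := by
    calc (M * (a / 4)) ^ 2 ≤ (∑ t ∈ good, f t ^ 2) ^ 2 :=
          pow_le_pow_left₀ (by positivity) hlow 2
      _ ≤ (good.card : ℝ) * ∑ t ∈ good, f t ^ 4 := hCS
      _ ≤ _ := mul_le_mul_of_nonneg_left (hgB.trans q4) (Nat.cast_nonneg _)
  rcases hM.eq_or_lt with hM0 | hM0
  · rw [← hM0, mul_zero]; exact Nat.cast_nonneg _
  · have h5 : M * (a / 4) ^ 2 ≤ (good.card : ℝ) * (3 * K4) := by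
      have h6 : M * (M * (a / 4) ^ 2) ≤ M * ((good.card : ℝ) * (3 * K4)) := by
        calc M * (M * (a / 4) ^ 2) = (M * (a / 4)) ^ 2 := by ring
          _ ≤ _ := hfin
          _ = _ := by ring
      exact le_of_mul_le_mul_left h6 hM0
    rw [div_mul_eq_mul_div, div_le_iff₀ (by positivity)]
    nlinarith

open Classical in
/-- The counting theorem. -/
theorem count_good (h : HitSys Q k hit) (hN : 0 < N)
    {T : Finset S} {e : S → Finset ℕ → ℝ} {d w : S → ℝ}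
    (hw : ∀ s ∈ T, 0 ≤ w s) {η L : ℝ} (hη : 0 ≤ η)
    (hrep : ∀ i, ∀ s ∈ T, PRep (∏ q ∈ Q, q) (fun t => e s (conf Q hit t i)) (w s))
    (hrep0 : ∀ s ∈ T, |e s ∅| ≤ w s)
    {u : Finset ℕ → ℝ} (hu0 : ∀ ω ⊆ Q, 0 ≤ u ω) (hu1 : 1 ≤ u ∅) {Wu : ℝ}
    (hurep : ∀ i, PRep (∏ q ∈ Q, q) (fun t => u (conf Q hit t i)) Wu)
    {WG : ℝ} (hWG : Real.exp (η * L) * (∑ s ∈ T, w s * Real.exp (-(η * d s))) ^ N ≤ WG)
    {B : Finset ℕ} {M E : ℝ} (hM : 0 ≤ M) (hE : 0 ≤ E) (hB : EquiD (∏ q ∈ Q, q) B M E)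
    {a K4 : ℝ} (ha : 0 < a) (hK4 : 0 < K4)
    (h2 : a ≤ EN (pp N k) Q (fun ω : Fin N → Finset ℕ => GG T e d L ω ^ 2))
    (h4 : EN (pp N k) Q (fun ω : Fin N → Finset ℕ => GG T e d L ω ^ 4) ≤ K4)
    (hU : ∀ i : Fin N, N * (E1 (pp N k) Q u *
      EN (pp N k) Q (fun ω : Fin N → Finset ℕ => GG T e d L (Function.update ω i ∅) ^ 2)) ≤ a / 8)
    (hsm : (N : ℝ) ^ 2 * ∑ q ∈ Q, pp N k q ^ 2 ≤ a ^ 2 / (64 * K4))
    (hsm' : (N : ℝ) ^ 2 * ∑ q ∈ Q, pp N k q ^ 2 ≤ 1 / 2)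
    (hE2 : E * (WG ^ 2 * (1 + N * Wu)) ≤ M * (a / 8)) (hE4 : E * WG ^ 4 ≤ M * K4) :
    a ^ 2 / (16 * 3 * K4) * M ≤
      ((B.filter fun t => ∀ i : Fin N, ∃ q ∈ Q, hit q i t).card : ℝ) := by
  have r1 := ER_sq_ge h hN (G := GG T e d L) (η := a / (8 * K4)) (by positivity)
  have r1' : a * (3 / 4) ≤ ER Q hit (fun ω => GG T e d L ω ^ 2) := by
    refine le_trans ?_ r1
    have hx : a / (8 * K4) * EN (pp N k) Q (fun ω : Fin N → Finset ℕ => GG T e d L ω ^ 4) ≤
        a / 8 := by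
      calc _ ≤ a / (8 * K4) * K4 := mul_le_mul_of_nonneg_left h4 (by positivity)
        _ = a / 8 := by field_simp
    have hy : 1 / (a / (8 * K4)) * ((N : ℝ) ^ 2 * ∑ q ∈ Q, pp N k q ^ 2) ≤ a / 8 := by
      calc _ ≤ 1 / (a / (8 * K4)) * (a ^ 2 / (64 * K4)) :=
            mul_le_mul_of_nonneg_left hsm (by positivity)
        _ = a / 8 := by field_simp; norm_num
    linarith
  exact count_good2 h hN hw hη hrep hrep0 hu0 hu1 hurep hWG hM hE hB ha hK4 r1' h4 hU hsm' hE2 hE4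

end Pool.Agent.PosProp
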