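import Pool.Agent.Lib.PosProp.Model

/-!
# Lower bound for the arithmetic second moment, relative form
-/

open Finset Pool.Agent.GapSieve

namespace Pool.Agent.PosProp

variable {N : ℕ} {Q : Finset ℕ} {k : ℕ → ℕ} {hit : ℕ → Fin N → ℕ → Prop}
variable {S : Type*} [DecidableEq S]

/-- one-site Parseval -/
lemma E1_sq_sum {p : ℕ → ℝ} {T : Finset S} {e : S → Finset ℕ → ℝ}
    (horth : ∀ s ∈ T, ∀ t ∈ T, s ≠ t → E1 p Q (fun ω => e s ω * e t ω) = 0) :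
    E1 p Q (fun ω => (∑ s ∈ T, e s ω) ^ 2) = ∑ s ∈ T, nn p Q e s := by
  have h1 : E1 p Q (fun ω => (∑ s ∈ T, e s ω) ^ 2) =
      ∑ s ∈ T, ∑ t ∈ T, E1 p Q (fun ω => e s ω * e t ω) := by
    unfold E1
    have h2 : ∀ ω ∈ Q.powerset, mu p Q ω * (∑ s ∈ T, e s ω) ^ 2 =
        ∑ s ∈ T, ∑ t ∈ T, mu p Q ω * (e s ω * e t ω) := by
      intro ω _
      rw [pow_two, sum_mul_sum, mul_sum]
      exact sum_congr rfl fun s _ => by rw [mul_sum]
    rw [sum_congr rfl h2, sum_comm]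
    refine sum_congr rfl fun s _ => ?_
    rw [sum_comm]
  rw [h1]
  refine sum_congr rfl fun s hs => ?_
  have h2 : ∀ t ∈ T, E1 p Q (fun ω => e s ω * e t ω) = if s = t then nn p Q e s else 0 := by
    intro t ht
    split_ifs with h
    · subst h
      unfold nn
      exact E1_congr fun ω _ => by ring
    · exact horth s hs t ht h
  rw [sum_congr rfl h2, sum_ite_eq, if_pos hs]

omit [DecidableEq S] in
lemma FF_expand (T : Finset S) (e : S → Finset ℕ → ℝ) (ω : Fin N → Finset ℕ) :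
    ∏ i, ∑ s ∈ T, e s (ω i) = ∑ σ ∈ Pi N T, ePi e σ ω := by
  rw [prod_univ_sum]
  rfl

lemma EN_FF_sq {p : ℕ → ℝ} {T : Finset S} {e : S → Finset ℕ → ℝ}
    (horth : ∀ s ∈ T, ∀ t ∈ T, s ≠ t → E1 p Q (fun ω => e s ω * e t ω) = 0) :
    EN p Q (fun ω : Fin N → Finset ℕ => (∏ i, ∑ s ∈ T, e s (ω i)) ^ 2) =
      (∑ s ∈ T, nn p Q e s) ^ N := by
  have h := parsevalS (N := N) horth (Pi N T) (subset_refl _) (fun _ => 1)
  simp only [one_mul, one_pow] at h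
  rw [sum_Pi_prod] at h
  rw [← h]
  unfold EN
  refine sum_congr rfl fun ω _ => ?_
  show muN p Q ω * (∏ i, ∑ s ∈ T, e s (ω i)) ^ 2 = _
  rw [FF_expand]

open Classical in
lemma EN_FG_sq {p : ℕ → ℝ} (h0 : ∀ q ∈ Q, 0 ≤ p q) (h1 : ∀ q ∈ Q, p q ≤ 1) {T : Finset S}
    {e : S → Finset ℕ → ℝ}
    (horth : ∀ s ∈ T, ∀ t ∈ T, s ≠ t → E1 p Q (fun ω => e s ω * e t ω) = 0)
    (d : S → ℝ) (L θ : ℝ) (hθ : 0 ≤ θ) :
    EN p Q (fun ω : Fin N → Finset ℕ => (∏ i, ∑ s ∈ T, e s (ω i) - GG T e d L ω) ^ 2) ≤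
      Real.exp (-(θ * L)) * (∑ s ∈ T, nn p Q e s * Real.exp (θ * d s)) ^ N := by
  have hnn : ∀ s ∈ T, 0 ≤ nn p Q e s := fun s _ => E1_nonneg h0 h1 fun _ _ => sq_nonneg _
  refine le_trans (le_of_eq ?_) (tailS (N := N) T (nn p Q e) hnn d L θ hθ)
  have h := parsevalS (N := N) horth ((Pi N T).filter (fun σ => L < cost d σ))
    (filter_subset _ _) (fun _ => 1)
  simp only [one_mul, one_pow] at h
  rw [← h]
  unfold EN
  refine sum_congr rfl fun ω _ => ?_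
  show muN p Q ω * (∏ i, ∑ s ∈ T, e s (ω i) - GG T e d L ω) ^ 2 = muN p Q ω * (_) ^ 2
  congr 2
  rw [FF_expand]
  unfold GG
  rw [← sum_filter_add_sum_filter_not (Pi N T) (fun σ => cost d σ ≤ L), add_sub_cancel_left]
  refine sum_congr ?_ fun _ _ => rfl
  ext σ
  simp [not_le]

lemma EN_double' {p : ℕ → ℝ} (h0 : ∀ q ∈ Q, 0 ≤ p q) (h1 : ∀ q ∈ Q, p q ≤ 1)
    {f : Finset ℕ → ℝ} {A C : ℝ} (hA : E1 p Q (fun ω => f ω ^ 2) = A) (hA2 : 1 / 2 ≤ A) {q : ℕ}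
    (hC : E1 p Q (fun ω => f ω ^ 2 * (if q ∈ ω then 1 else 0)) ≤ C * p q) {i j : Fin N}
    (hij : i ≠ j) :
    EN p Q (fun ω => (∏ x, f (ω x)) ^ 2 * ((if q ∈ ω i then 1 else 0) *
      (if q ∈ ω j then 1 else 0))) ≤ 4 * (C * p q) ^ 2 * A ^ N := by
  have h2 : (fun ω : Fin N → Finset ℕ => (∏ x, f (ω x)) ^ 2 *
      ((if q ∈ ω i then (1 : ℝ) else 0) * (if q ∈ ω j then 1 else 0))) =
      fun ω => ∏ x, (f (ω x) ^ 2 * (if x = i ∨ x = j then (if q ∈ ω x then 1 else 0)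
        else 1)) := by
    funext ω
    rw [prod_mul_distrib, prod_pow]
    congr 1
    rw [← prod_filter]
    have h3 : (univ : Finset (Fin N)).filter (fun x => x = i ∨ x = j) = {i, j} := by
      ext x; simp
    rw [h3, prod_pair hij]
  rw [h2, EN_prod p Q (fun x ω => f ω ^ 2 * (if x = i ∨ x = j then
    (if q ∈ ω then 1 else 0) else 1))]
  have hA0 : 0 < A := by linarith
  have hC0 : 0 ≤ C * p q := le_trans (E1_nonneg h0 h1 fun ω _ =>
    mul_nonneg (sq_nonneg _) (by split_ifs <;> norm_num)) hC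
  have h4 : ∀ x ∈ (univ : Finset (Fin N)), ∑ ω ∈ Q.powerset, mu p Q ω * (f ω ^ 2 *
      (if x = i ∨ x = j then (if q ∈ ω then 1 else 0) else 1)) ≤
      A * (if x = i ∨ x = j then 2 * (C * p q) else 1) := by
    intro x _
    split_ifs with hx
    · refine le_trans hC ?_
      nlinarith
    · simp only [mul_one]
      rw [← hA]
      exact le_refl _
  calc ∏ x, ∑ ω ∈ Q.powerset, mu p Q ω * (f ω ^ 2 *
      (if x = i ∨ x = j then (if q ∈ ω then 1 else 0) else 1))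
      ≤ ∏ x, (A * (if x = i ∨ x = j then 2 * (C * p q) else 1)) := by
        refine prod_le_prod (fun x _ => ?_) h4
        refine sum_nonneg fun ω hω => mul_nonneg (mu_nonneg (mem_powerset.1 hω) h0 h1) ?_
        refine mul_nonneg (sq_nonneg _) ?_
        split_ifs <;> norm_num
    _ = 4 * (C * p q) ^ 2 * A ^ N := by
        rw [prod_mul_distrib, prod_const, card_univ, Fintype.card_fin, ← prod_filter]
        have h3 : (univ : Finset (Fin N)).filter (fun x => x = i ∨ x = j) = {i, j} := by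
          ext x; simp
        rw [h3, prod_pair hij]
        ring

/-- relative lower bound for the arithmetic second moment -/
lemma ER_GG_lower (h : HitSys Q k hit) (hN : 0 < N) {T : Finset S} {e : S → Finset ℕ → ℝ}
    (horth : ∀ s ∈ T, ∀ t ∈ T, s ≠ t → E1 (pp N k) Q (fun ω => e s ω * e t ω) = 0)
    (d : S → ℝ) (L θ : ℝ) (hθ : 0 ≤ θ) (hA : 1 / 2 ≤ ∑ s ∈ T, nn (pp N k) Q e s) {C : ℝ}
    (hC : ∀ q ∈ Q, E1 (pp N k) Q (fun ω => (∑ s ∈ T, e s ω) ^ 2 * (if q ∈ ω then 1 else 0)) ≤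
      C * pp N k q)
    (hsm : 4 * C ^ 2 * ((N : ℝ) ^ 2 * ∑ q ∈ Q, pp N k q ^ 2) ≤ 1 / 4) :
    3 / 8 * (∑ s ∈ T, nn (pp N k) Q e s) ^ N -
      Real.exp (-(θ * L)) * (∑ s ∈ T, nn (pp N k) Q e s * Real.exp (θ * d s)) ^ N ≤
      ER Q hit (fun ω => GG T e d L ω ^ 2) := by
  classical
  have hp0 : ∀ q ∈ Q, 0 ≤ pp N k q := fun q hq => pp_nonneg h hN hq
  have hp1 : ∀ q ∈ Q, pp N k q ≤ 1 := fun q hq => (pp_lt_one h hN hq).le
  have hZ1 := ZZ_le_one h hN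
  set p := pp N k with hp
  set A := ∑ s ∈ T, nn p Q e s with hAdef
  set FF : (Fin N → Finset ℕ) → ℝ := fun ω => ∏ i, ∑ s ∈ T, e s (ω i) with hFF
  have g1 := ER_eq h hN (fun ω => GG T e d L ω ^ 2)
  have g3 : EN p Q (fun ω : Fin N → Finset ℕ => GG T e d L ω ^ 2 * excl Q ω) ≤
      ER Q hit (fun ω => GG T e d L ω ^ 2) := by
    rw [← g1]
    have h3 : 0 ≤ ER Q hit (fun ω => GG T e d L ω ^ 2) := ER_nonneg fun ω _ => sq_nonneg _
    exact mul_le_of_le_one_left h3 hZ1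
  have g4 : EN p Q (fun ω : Fin N → Finset ℕ => 1 / 2 * (FF ω ^ 2 - FF ω ^ 2 *
      ∑ q ∈ Q, ∑ x ∈ (univ : Finset (Fin N)).offDiag,
      ((if q ∈ ω x.1 then (1 : ℝ) else 0) * (if q ∈ ω x.2 then 1 else 0))) -
      (FF ω - GG T e d L ω) ^ 2) ≤ EN p Q (fun ω : Fin N → Finset ℕ => GG T e d L ω ^ 2 * excl Q ω) := by
    refine EN_mono hp0 hp1 fun ω _ => ?_
    have k1 := one_sub_excl_le (Q := Q) ω
    have k2 := excl_nonneg (Q := Q) ω
    have k3 := excl_le_one (Q := Q) ω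
    have k4 : FF ω ^ 2 * (1 - ∑ q ∈ Q, ∑ x ∈ (univ : Finset (Fin N)).offDiag,
      ((if q ∈ ω x.1 then (1 : ℝ) else 0) * (if q ∈ ω x.2 then 1 else 0))) ≤
      FF ω ^ 2 * excl Q ω := mul_le_mul_of_nonneg_left (by linarith) (sq_nonneg _)
    have k5 : (FF ω - GG T e d L ω) ^ 2 * excl Q ω ≤ (FF ω - GG T e d L ω) ^ 2 :=
      mul_le_of_le_one_right (sq_nonneg _) k3
    have k6 : 0 ≤ (FF ω - 2 * GG T e d L ω) ^ 2 * excl Q ω :=
      mul_nonneg (sq_nonneg _) k2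
    nlinarith
  have g5 : EN p Q (fun ω : Fin N → Finset ℕ => 1 / 2 * (FF ω ^ 2 - FF ω ^ 2 *
      ∑ q ∈ Q, ∑ x ∈ (univ : Finset (Fin N)).offDiag,
      ((if q ∈ ω x.1 then (1 : ℝ) else 0) * (if q ∈ ω x.2 then 1 else 0))) -
      (FF ω - GG T e d L ω) ^ 2) =
      1 / 2 * (A ^ N - ∑ q ∈ Q, ∑ x ∈ (univ : Finset (Fin N)).offDiag,
        EN p Q (fun ω : Fin N → Finset ℕ => FF ω ^ 2 * ((if q ∈ ω x.1 then 1 else 0) *
        (if q ∈ ω x.2 then 1 else 0)))) - EN p Q (fun ω : Fin N → Finset ℕ => (FF ω - GG T e d L ω) ^ 2) := by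
    rw [EN_sub, EN_smul, EN_sub]
    have e1 : EN p Q (fun ω : Fin N → Finset ℕ => FF ω ^ 2) = A ^ N := EN_FF_sq horth
    rw [e1]
    congr 3
    have : (fun ω : Fin N → Finset ℕ => FF ω ^ 2 *
      ∑ q ∈ Q, ∑ x ∈ (univ : Finset (Fin N)).offDiag,
      ((if q ∈ ω x.1 then (1 : ℝ) else 0) * (if q ∈ ω x.2 then 1 else 0))) =
      fun ω => ∑ q ∈ Q, ∑ x ∈ (univ : Finset (Fin N)).offDiag, (FF ω ^ 2 *
        ((if q ∈ ω x.1 then (1 : ℝ) else 0) * (if q ∈ ω x.2 then 1 else 0))) := by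
      funext ω
      rw [mul_sum]
      exact sum_congr rfl fun q _ => mul_sum _ _ _
    rw [this, EN_sum]
    refine sum_congr rfl fun q _ => ?_
    rw [EN_sum]
  have g6 : ∑ q ∈ Q, ∑ x ∈ (univ : Finset (Fin N)).offDiag,
        EN p Q (fun ω : Fin N → Finset ℕ => FF ω ^ 2 * ((if q ∈ ω x.1 then 1 else 0) *
        (if q ∈ ω x.2 then 1 else 0))) ≤ 1 / 4 * A ^ N := by
    have hAN : 0 ≤ A ^ N := pow_nonneg (by linarith) N
    calc ∑ q ∈ Q, ∑ x ∈ (univ : Finset (Fin N)).offDiag,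
        EN p Q (fun ω : Fin N → Finset ℕ => FF ω ^ 2 * ((if q ∈ ω x.1 then 1 else 0) *
        (if q ∈ ω x.2 then 1 else 0)))
        ≤ ∑ q ∈ Q, ∑ _x ∈ (univ : Finset (Fin N)).offDiag, 4 * (C * p q) ^ 2 * A ^ N := by
          refine sum_le_sum fun q hq => sum_le_sum fun x hx => ?_
          have hij := (mem_offDiag.1 hx).2.2
          exact EN_double' hp0 hp1 (f := fun ω => ∑ s ∈ T, e s ω) (E1_sq_sum horth) hA
            (hC q hq) hij
      _ ≤ ∑ q ∈ Q, (N : ℝ) ^ 2 * (4 * (C * p q) ^ 2 * A ^ N) := by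
          refine sum_le_sum fun q _ => ?_
          rw [sum_const, nsmul_eq_mul]
          refine mul_le_mul_of_nonneg_right ?_ (by positivity)
          have h7 : (univ : Finset (Fin N)).offDiag.card ≤ N ^ 2 := by
            rw [offDiag_card, card_univ, Fintype.card_fin, pow_two]
            exact Nat.sub_le _ _
          exact_mod_cast h7
      _ = (4 * C ^ 2 * ((N : ℝ) ^ 2 * ∑ q ∈ Q, p q ^ 2)) * A ^ N := by
          rw [mul_sum, mul_sum, sum_mul]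
          exact sum_congr rfl fun q _ => by ring
      _ ≤ 1 / 4 * A ^ N := mul_le_mul_of_nonneg_right hsm hAN
  have g7 := EN_FG_sq (N := N) hp0 hp1 horth d L θ hθ
  have g8 : EN p Q (fun ω : Fin N → Finset ℕ => (FF ω - GG T e d L ω) ^ 2) =
      EN p Q (fun ω : Fin N → Finset ℕ => (∏ i, ∑ s ∈ T, e s (ω i) - GG T e d L ω) ^ 2) := rfl
  rw [g5] at g4
  rw [← g8] at g7
  linarith

end Pool.Agent.PosProp
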