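import Pool.Agent.Lib.PosProp.Abs

/-!
# Independence of disjoint sets of primes at one site
-/

open Finset Pool.Agent.GapSieve

namespace Pool.Agent.PosProp

lemma mu_eq {p : ℕ → ℝ} {Q ω : Finset ℕ} (hω : ω ⊆ Q) :
    mu p Q ω = ∏ q ∈ Q, (if q ∈ ω then p q else 1 - p q) := by
  unfold mu
  rw [prod_split Q ω hω]
  congr 1
  · exact prod_congr rfl fun q hq => by rw [if_pos hq]
  · exact prod_congr rfl fun q hq => by rw [if_neg (mem_sdiff.1 hq).2]

lemma mu_union {p : ℕ → ℝ} {Q1 Q2 ω : Finset ℕ} (hd : Disjoint Q1 Q2) (hω : ω ⊆ Q1 ∪ Q2) :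
    mu p (Q1 ∪ Q2) ω = mu p Q1 (ω ∩ Q1) * mu p Q2 (ω ∩ Q2) := by
  rw [mu_eq hω, mu_eq inter_subset_right, mu_eq inter_subset_right, prod_union hd]
  congr 1
  · refine prod_congr rfl fun q hq => ?_
    simp [hq]
  · refine prod_congr rfl fun q hq => ?_
    simp [hq]

lemma E1_union (p : ℕ → ℝ) {Q1 Q2 : Finset ℕ} (hd : Disjoint Q1 Q2) (f g : Finset ℕ → ℝ) :
    E1 p (Q1 ∪ Q2) (fun ω => f (ω ∩ Q1) * g (ω ∩ Q2)) = E1 p Q1 f * E1 p Q2 g := by
  unfold E1
  rw [sum_mul_sum, ← sum_product']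
  refine sum_bij' (fun ω _ => (ω ∩ Q1, ω ∩ Q2)) (fun x _ => x.1 ∪ x.2) ?_ ?_ ?_ ?_ ?_
  · intro ω _
    rw [mem_product, mem_powerset, mem_powerset]
    exact ⟨inter_subset_right, inter_subset_right⟩
  · intro x hx
    rw [mem_product, mem_powerset, mem_powerset] at hx
    rw [mem_powerset]
    exact union_subset_union hx.1 hx.2
  · intro ω hω
    rw [mem_powerset] at hω
    show (ω ∩ Q1) ∪ (ω ∩ Q2) = ω
    rw [← inter_union_distrib_left, inter_eq_left.2 hω]
  · rintro ⟨x, y⟩ hx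
    rw [mem_product, mem_powerset, mem_powerset] at hx
    obtain ⟨h1, h2⟩ := hx
    simp only at h1 h2
    refine Prod.ext ?_ ?_
    · show (x ∪ y) ∩ Q1 = x
      rw [union_inter_distrib_right, inter_eq_left.2 h1,
        disjoint_iff_inter_eq_empty.1 (disjoint_of_subset_left h2 hd.symm), union_empty]
    · show (x ∪ y) ∩ Q2 = y
      rw [union_inter_distrib_right, inter_eq_left.2 h2,
        disjoint_iff_inter_eq_empty.1 (disjoint_of_subset_left h1 hd), empty_union]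
  · intro ω hω
    rw [mem_powerset] at hω
    rw [mu_union hd hω]
    ring

lemma E1_left (p : ℕ → ℝ) {Q1 Q2 : Finset ℕ} (hd : Disjoint Q1 Q2) (f : Finset ℕ → ℝ) :
    E1 p (Q1 ∪ Q2) (fun ω => f (ω ∩ Q1)) = E1 p Q1 f := by
  have h := E1_union p hd f (fun _ => 1)
  simp only [mul_one] at h
  rw [h, E1_const, mul_one]

lemma E1_right (p : ℕ → ℝ) {Q1 Q2 : Finset ℕ} (hd : Disjoint Q1 Q2) (g : Finset ℕ → ℝ) :
    E1 p (Q1 ∪ Q2) (fun ω => g (ω ∩ Q2)) = E1 p Q2 g := by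
  have h := E1_union p hd (fun _ => 1) g
  simp only [one_mul] at h
  rw [h, E1_const, one_mul]

/-- expectation of a product over disjoint blocks -/
lemma E1_blocks (p : ℕ → ℝ) (I : ℕ → Finset ℕ) (g : ℕ → Finset ℕ → ℝ) (n : ℕ)
    (hd : ∀ i < n, ∀ j < n, i ≠ j → Disjoint (I i) (I j)) :
    E1 p ((range n).biUnion I) (fun ω => ∏ j ∈ range n, g j (ω ∩ I j)) =
      ∏ j ∈ range n, E1 p (I j) (g j) := by
  induction n with
  | zero => simp [E1, mu]
  | succ n ih =>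
    have hd' : ∀ i < n, ∀ j < n, i ≠ j → Disjoint (I i) (I j) := fun i hi j hj =>
      hd i (by omega) j (by omega)
    have hdis : Disjoint ((range n).biUnion I) (I n) := by
      rw [disjoint_biUnion_left]
      intro i hi
      rw [mem_range] at hi
      exact hd i (by omega) n (by omega) (by omega)
    have hU : (range (n + 1)).biUnion I = (range n).biUnion I ∪ I n := by
      rw [range_add_one, biUnion_insert, union_comm]
    rw [prod_range_succ, ← ih hd', ← E1_union p hdis, hU]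
    refine E1_congr fun ω _ => ?_
    rw [prod_range_succ]
    congr 1
    refine prod_congr rfl fun j hj => ?_
    congr 1
    rw [inter_assoc, inter_eq_right.2 (subset_biUnion_of_mem I hj)]

lemma chi_inter {p : ℕ → ℝ} {A Q2 ω : Finset ℕ} (hA : A ⊆ Q2) :
    chi p A (ω ∩ Q2) = chi p A ω := by
  unfold chi
  refine prod_congr rfl fun q hq => ?_
  simp [hA hq]

lemma E1_chi_mul {p : ℕ → ℝ} {Q A A' : Finset ℕ} (hA : A ⊆ Q) (hA' : A' ⊆ Q) :
    E1 p Q (fun ω => chi p A ω * chi p A' ω) =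
      if A = A' then ∏ q ∈ A, (p q * (1 - p q)) else 0 := E_chi hA hA'

lemma E1_chi {p : ℕ → ℝ} {Q A : Finset ℕ} (hA : A ⊆ Q) (hne : A ≠ ∅) :
    E1 p Q (fun ω => chi p A ω) = 0 := by
  have h := E1_chi_mul (p := p) hA (empty_subset Q)
  rw [if_neg hne] at h
  rw [← h]
  exact E1_congr fun ω _ => by simp [chi]

/-- generating function of the number of hits -/
lemma E1_pow_card (p : ℕ → ℝ) (Q : Finset ℕ) (x : ℝ) :
    E1 p Q (fun ω => x ^ ω.card) = ∏ q ∈ Q, (1 + (x - 1) * p q) := by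
  have h := E_prod p (fun _ => x) (fun _ => 1) Q
  unfold E1
  calc ∑ ω ∈ Q.powerset, mu p Q ω * x ^ ω.card
      = ∑ ω ∈ Q.powerset, mu p Q ω * ((∏ _q ∈ ω, x) * ∏ _q ∈ Q \ ω, (1 : ℝ)) :=
        sum_congr rfl fun ω _ => by simp
    _ = _ := h
    _ = _ := prod_congr rfl fun q _ => by ring

lemma E1_empty (p : ℕ → ℝ) (Q : Finset ℕ) :
    E1 p Q (fun ω => if ω = ∅ then 1 else 0) = ∏ q ∈ Q, (1 - p q) := by
  unfold E1
  rw [sum_eq_single_of_mem ∅ (empty_mem_powerset Q)]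
  · simp [mu]
  · intro ω _ hω
    simp [hω]

end Pool.Agent.PosProp
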