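import Pool.Agent.Lib.PosProp.Upd
import Pool.Agent.Lib.PosProp.Rep
import Pool.Agent.Lib.GapSieve.Core

/-!
# Counting integers at which all sites are hit
-/

open Finset Pool.Agent.GapSieve

namespace Pool.Agent.PosProp

variable {N : ℕ} {Q : Finset ℕ} {k : ℕ → ℕ} {hit : ℕ → Fin N → ℕ → Prop}

open Classical in
lemma EN_split (p : ℕ → ℝ) (Φ : (Fin N → Finset ℕ) → ℝ) (u : Finset ℕ → ℝ) (i : Fin N) :
    EN p Q (fun ω => Φ (Function.update ω i ∅) * u (ω i)) =
      E1 p Q u * ∑ ω ∈ (Om N Q).filter (fun ω => ω i = ∅),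
        (∏ j ∈ univ.erase i, mu p Q (ω j)) * Φ ω := by
  unfold EN
  have h1 : ∑ ω ∈ Om N Q, muN p Q ω * (Φ (Function.update ω i ∅) * u (ω i)) =
      ∑ x ∈ Q.powerset ×ˢ (Om N Q).filter (fun ω => ω i = ∅),
        muN p Q (Function.update x.2 i x.1) * (Φ x.2 * u x.1) := by
    refine sum_bij' (fun ω _ => (ω i, Function.update ω i ∅))
      (fun x _ => Function.update x.2 i x.1) ?_ ?_ ?_ ?_ ?_
    · intro ω hω
      rw [mem_product, mem_filter, mem_powerset]
      rw [mem_Om] at hω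
      refine ⟨hω i, ?_, by simp⟩
      rw [mem_Om]
      intro j
      by_cases hj : j = i
      · subst hj; simp
      · show Function.update ω i ∅ j ⊆ Q
        rw [Function.update_of_ne hj]; exact hω j
    · intro x hx
      rw [mem_product, mem_filter, mem_powerset] at hx
      obtain ⟨h1, h2, h3⟩ := hx
      rw [mem_Om] at h2 ⊢
      intro j
      by_cases hj : j = i
      · subst hj; simpa using h1
      · rw [Function.update_of_ne hj]; exact h2 j
    · intro ω _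
      simp
    · intro x hx
      rw [mem_product, mem_filter, mem_powerset] at hx
      obtain ⟨h1, h2, h3⟩ := hx
      refine Prod.ext (by simp) ?_
      simp only [Function.update_idem]
      rw [← h3, Function.update_eq_self]
    · intro ω _
      simp
  have h2 : ∀ (ω : Fin N → Finset ℕ) (S : Finset ℕ), muN p Q (Function.update ω i S) =
      mu p Q S * ∏ j ∈ univ.erase i, mu p Q (ω j) := by
    intro ω S
    unfold muN
    rw [← mul_prod_erase univ _ (mem_univ i), Function.update_self]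
    congr 1
    refine prod_congr rfl fun j hj => ?_
    rw [Function.update_of_ne (ne_of_mem_erase hj)]
  rw [h1, sum_product_right]
  simp only [h2]
  unfold E1
  rw [mul_sum]
  refine sum_congr rfl fun ω _ => ?_
  rw [sum_mul]
  exact sum_congr rfl fun S _ => by ring

lemma EN_update_mul (p : ℕ → ℝ) (Φ : (Fin N → Finset ℕ) → ℝ) (u : Finset ℕ → ℝ) (i : Fin N) :
    EN p Q (fun ω => Φ (Function.update ω i ∅) * u (ω i)) =
      E1 p Q u * EN p Q (fun ω => Φ (Function.update ω i ∅)) := by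
  have h1 := EN_split (Q := Q) p Φ u i
  have h2 := EN_split (Q := Q) p Φ (fun _ => 1) i
  simp only [mul_one] at h2
  rw [E1_const, one_mul] at h2
  rw [h1, h2]

open Classical in
lemma EN_pair (p : ℕ → ℝ) {q : ℕ} (hq : q ∈ Q) {i j : Fin N} (hij : i ≠ j) :
    EN p Q (fun ω => (if q ∈ ω i then (1 : ℝ) else 0) * (if q ∈ ω j then 1 else 0)) =
      p q ^ 2 := by
  have h2 : (fun ω : Fin N → Finset ℕ =>
      ((if q ∈ ω i then (1 : ℝ) else 0) * (if q ∈ ω j then 1 else 0))) =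
      fun ω => ∏ x, (if x = i ∨ x = j then (if q ∈ ω x then (1 : ℝ) else 0) else 1) := by
    funext ω
    rw [← prod_filter]
    have h3 : (univ : Finset (Fin N)).filter (fun x => x = i ∨ x = j) = {i, j} := by
      ext x; simp
    rw [h3, prod_pair hij]
  rw [h2, EN_prod p Q (fun x ω => if x = i ∨ x = j then (if q ∈ ω then (1 : ℝ) else 0) else 1)]
  have h4 : ∀ x ∈ (univ : Finset (Fin N)), ∑ ω ∈ Q.powerset, mu p Q ω *
      (if x = i ∨ x = j then (if q ∈ ω then (1 : ℝ) else 0) else 1) =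
      if x = i ∨ x = j then p q else 1 := by
    intro x _
    split_ifs
    · exact E_mem hq
    · simp only [mul_one]; exact E_one p Q
  rw [prod_congr rfl h4, ← prod_filter]
  have h3 : (univ : Finset (Fin N)).filter (fun x => x = i ∨ x = j) = {i, j} := by
    ext x; simp
  rw [h3, prod_pair hij]
  ring

lemma EN_one_sub_excl {p : ℕ → ℝ} (h0 : ∀ q ∈ Q, 0 ≤ p q) (h1 : ∀ q ∈ Q, p q ≤ 1) :
    EN p Q (fun ω : Fin N → Finset ℕ => 1 - excl Q ω) ≤ (N : ℝ) ^ 2 * ∑ q ∈ Q, p q ^ 2 := by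
  classical
  calc EN p Q (fun ω : Fin N → Finset ℕ => 1 - excl Q ω)
      ≤ EN p Q (fun ω : Fin N → Finset ℕ => ∑ q ∈ Q, ∑ x ∈ (univ : Finset (Fin N)).offDiag,
        (if q ∈ ω x.1 then (1 : ℝ) else 0) * (if q ∈ ω x.2 then 1 else 0)) :=
        EN_mono h0 h1 fun ω _ => one_sub_excl_le ω
    _ = ∑ q ∈ Q, ∑ x ∈ (univ : Finset (Fin N)).offDiag, p q ^ 2 := by
        rw [EN_sum]
        refine sum_congr rfl fun q hq => ?_
        rw [EN_sum]
        refine sum_congr rfl fun x hx => ?_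
        exact EN_pair p hq (mem_offDiag.1 hx).2.2
    _ ≤ ∑ q ∈ Q, (N : ℝ) ^ 2 * p q ^ 2 := by
        refine sum_le_sum fun q _ => ?_
        rw [sum_const, nsmul_eq_mul]
        refine mul_le_mul_of_nonneg_right ?_ (sq_nonneg _)
        have h3 : ((univ : Finset (Fin N)).offDiag.card : ℝ) ≤ ((N * N : ℕ) : ℝ) := by
          have h4 := offDiag_card (univ : Finset (Fin N))
          rw [card_univ, Fintype.card_fin] at h4
          exact_mod_cast (by omega : (univ : Finset (Fin N)).offDiag.card ≤ N * N)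
        rw [pow_two]
        exact_mod_cast h3
    _ = _ := by rw [mul_sum]

lemma ER_nonneg {Φ : (Fin N → Finset ℕ) → ℝ} (h : ∀ ω ∈ Om N Q, 0 ≤ Φ ω) :
    0 ≤ ER Q hit Φ := by
  unfold ER
  exact div_nonneg (sum_nonneg fun t _ => h _ (conf_mem t)) (Nat.cast_nonneg _)

lemma ER_le (h : HitSys Q k hit) (hN : 0 < N)
    (hsm : (N : ℝ) ^ 2 * ∑ q ∈ Q, pp N k q ^ 2 ≤ 1 / 2) {Φ : (Fin N → Finset ℕ) → ℝ}
    (hΦ : ∀ ω ∈ Om N Q, 0 ≤ Φ ω) : ER Q hit Φ ≤ 2 * EN (pp N k) Q Φ := by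
  have h0 : ∀ q ∈ Q, 0 ≤ pp N k q := fun q hq => pp_nonneg h hN hq
  have h1 : ∀ q ∈ Q, pp N k q ≤ 1 := fun q hq => (pp_lt_one h hN hq).le
  have hZ := ZZ_ge h hN hsm
  have hE := ER_eq h hN Φ
  have hE0 := ER_nonneg (hit := hit) hΦ
  have h2 : EN (pp N k) Q (fun ω => Φ ω * excl Q ω) ≤ EN (pp N k) Q Φ := by
    refine EN_mono h0 h1 fun ω hω => ?_
    have := hΦ ω hω
    have h3 := excl_le_one (Q := Q) ω
    nlinarith
  nlinarith

/-- lower bound for the arithmetic second moment -/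
lemma ER_sq_ge (h : HitSys Q k hit) (hN : 0 < N) {G : (Fin N → Finset ℕ) → ℝ} {η : ℝ}
    (hη : 0 < η) :
    EN (pp N k) Q (fun ω => G ω ^ 2) - (η * EN (pp N k) Q (fun ω => G ω ^ 4) +
      (1 / η) * ((N : ℝ) ^ 2 * ∑ q ∈ Q, pp N k q ^ 2)) ≤ ER Q hit (fun ω => G ω ^ 2) := by
  have h0 : ∀ q ∈ Q, 0 ≤ pp N k q := fun q hq => pp_nonneg h hN hq
  have h1 : ∀ q ∈ Q, pp N k q ≤ 1 := fun q hq => (pp_lt_one h hN hq).le
  have hZ1 := ZZ_le_one h hN
  have hE := ER_eq h hN (fun ω => G ω ^ 2)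
  have hE0 := ER_nonneg (Q := Q) (hit := hit) (Φ := fun ω => G ω ^ 2) fun ω _ => sq_nonneg _
  have h2 : EN (pp N k) Q (fun ω => G ω ^ 2) - (η * EN (pp N k) Q (fun ω => G ω ^ 4) +
      (1 / η) * EN (pp N k) Q (fun ω : Fin N → Finset ℕ => 1 - excl Q ω)) ≤
      EN (pp N k) Q (fun ω => G ω ^ 2 * excl Q ω) := by
    rw [← EN_smul, ← EN_smul, ← EN_add, ← EN_sub]
    refine EN_mono h0 h1 fun ω _ => ?_
    have h3 := excl_le_one (Q := Q) ω
    have h4 := excl_nonneg (Q := Q) ω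
    set x := excl Q ω
    have h5 : G ω ^ 2 * (1 - x) ≤ η * G ω ^ 4 + (1 / η) * (1 - x) := by
      have h6 : 0 ≤ η * (G ω ^ 2 - (1 - x) / η) ^ 2 := by positivity
      have h7 : η * (G ω ^ 2 - (1 - x) / η) ^ 2 =
          η * G ω ^ 4 - 2 * (G ω ^ 2 * (1 - x)) + (1 - x) ^ 2 / η := by
        field_simp
        ring
      have h8 : (1 - x) ^ 2 / η ≤ (1 / η) * (1 - x) := by
        rw [one_div, inv_mul_eq_div]
        exact div_le_div_of_nonneg_right (by nlinarith) hη.le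
      have h9 : 0 ≤ G ω ^ 2 * (1 - x) := mul_nonneg (sq_nonneg _) (by linarith)
      have h10 : 0 ≤ (1 / η) * (1 - x) := by
        have : 0 < 1 / η := by positivity
        exact mul_nonneg this.le (by linarith)
      have h11 : 0 ≤ η * G ω ^ 4 := by positivity
      nlinarith
    linarith
  have h3 := EN_one_sub_excl (N := N) h0 h1
  have h4 : (1 / η) * EN (pp N k) Q (fun ω : Fin N → Finset ℕ => 1 - excl Q ω) ≤
      (1 / η) * ((N : ℝ) ^ 2 * ∑ q ∈ Q, pp N k q ^ 2) :=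
    mul_le_mul_of_nonneg_left h3 (by positivity)
  have h5 : ZZ N k Q * ER Q hit (fun ω => G ω ^ 2) ≤ ER Q hit (fun ω => G ω ^ 2) := by
    nlinarith
  linarith

end Pool.Agent.PosProp
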