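import Pool.Agent.Lib.PosProp.Sys2
import Pool.Agent.Lib.PosProp.Count

/-!
# The parameters
-/

open Finset Pool.Agent.GapSieve

namespace Pool.Agent.PosProp

/-- dyadic blocks of the small primes -/
noncomputable def Ib (Q1 : Finset ℕ) (l0 : ℝ) (j : ℕ) : Finset ℕ :=
  Q1.filter fun q : ℕ => (1 / 2 : ℝ) ^ (j + 1) * l0 < Real.log q ∧ Real.log q ≤ (1 / 2) ^ j * l0

/-- the nested sets of the large primes -/
noncomputable def Bm (Q2 : Finset ℕ) (l : ℝ) (J m : ℕ) : Finset ℕ :=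
  Q2.filter fun q : ℕ => Real.log q ≤ l * 2 ^ m / 2 ^ (J - 1)

lemma Ib_disj {Q1 : Finset ℕ} {l0 : ℝ} (hl0 : 0 ≤ l0) {i j : ℕ} (hij : i ≠ j) :
    Disjoint (Ib Q1 l0 i) (Ib Q1 l0 j) := by
  have key : ∀ i j : ℕ, i < j → Disjoint (Ib Q1 l0 i) (Ib Q1 l0 j) := by
    intro i j hij
    rw [disjoint_left]
    intro q hq hq'
    have h1 := (mem_filter.1 hq).2.1
    have h2 := (mem_filter.1 hq').2.2
    have h3 : (1 / 2 : ℝ) ^ j ≤ (1 / 2) ^ (i + 1) :=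
      pow_le_pow_of_le_one (by norm_num) (by norm_num) hij
    have := mul_le_mul_of_nonneg_right h3 hl0
    linarith
  rcases lt_or_gt_of_ne hij with h | h
  · exact key i j h
  · exact (key j i h).symm

lemma Ib_find {Q1 : Finset ℕ} {l0 : ℝ} {q : ℕ} (hq : q ∈ Q1) (hhi : Real.log q ≤ l0) (n : ℕ)
    (hn : (1 / 2 : ℝ) ^ n * l0 < Real.log q) : q ∈ (range n).biUnion (Ib Q1 l0) := by
  induction n with
  | zero => rw [pow_zero, one_mul] at hn; linarith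
  | succ n ih =>
    rcases lt_or_ge ((1 / 2 : ℝ) ^ n * l0) (Real.log q) with h | h
    · have := ih h
      rw [mem_biUnion] at this ⊢
      obtain ⟨j, hj, hqj⟩ := this
      rw [mem_range] at hj
      exact ⟨j, mem_range.2 (by omega), hqj⟩
    · rw [mem_biUnion]
      exact ⟨n, self_mem_range_succ n, mem_filter.2 ⟨hq, hn, h⟩⟩

lemma Ib_union {Q1 : Finset ℕ} {l0 lq : ℝ} (hlq : 0 < lq) (hlo : ∀ q ∈ Q1, lq < Real.log (q : ℕ))
    (hhi : ∀ q ∈ Q1, Real.log (q : ℕ) ≤ l0) : ∃ n, (range n).biUnion (Ib Q1 l0) = Q1 := by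
  obtain ⟨n, hn⟩ : ∃ n : ℕ, (1 / 2 : ℝ) ^ n * l0 ≤ lq := by
    rcases le_or_gt l0 0 with h | h
    · exact ⟨0, by rw [pow_zero, one_mul]; linarith⟩
    · obtain ⟨n, hn⟩ := exists_pow_lt_of_lt_one (div_pos hlq h) (by norm_num : (1 / 2 : ℝ) < 1)
      refine ⟨n, ?_⟩
      rw [lt_div_iff₀ h] at hn
      exact hn.le
  refine ⟨n, subset_antisymm ?_ ?_⟩
  · intro q hq
    rw [mem_biUnion] at hq
    obtain ⟨j, _, hqj⟩ := hq
    exact (mem_filter.1 hqj).1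
  · intro q hq
    exact Ib_find hq (hhi q hq) n (hn.trans_lt (hlo q hq))

lemma Bm_mono (Q2 : Finset ℕ) {l : ℝ} (hl : 0 ≤ l) (J : ℕ) : Monotone (Bm Q2 l J) := by
  intro m m' hm q hq
  obtain ⟨h1, h2⟩ := mem_filter.1 hq
  refine mem_filter.2 ⟨h1, h2.trans ?_⟩
  have h3 : (2 : ℝ) ^ m ≤ 2 ^ m' := pow_le_pow_right₀ (by norm_num) hm
  gcongr

/-- all hypotheses -/
structure Par {N : ℕ} (Q1 Q2 : Finset ℕ) (k : ℕ → ℕ) (hit : ℕ → Fin N → ℕ → Prop)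
    (C1 C2 lam LX lq ε δ0 : ℝ) (J bs : ℕ) : Prop where
  sys : HitSys (Q1 ∪ Q2) k hit
  N0 : 0 < N
  hC1 : 1 ≤ C1
  hC2 : 1 ≤ C2
  hlam : 1 ≤ lam
  hlq : 1 ≤ lq
  hLX : 0 < LX
  hε : 0 < ε
  hδ : 0 < δ0
  Nlq : N * lq ≤ lam * LX
  lo1 : ∀ q ∈ Q1, lq < Real.log (q : ℕ)
  hi1 : ∀ q ∈ Q1, Real.log (q : ℕ) ≤ δ0 * LX
  lo2 : ∀ q ∈ Q2, δ0 * LX < Real.log (q : ℕ)
  hi2 : ∀ q ∈ Q2, Real.log (q : ℕ) ≤ ε * LX
  ph : ∀ q ∈ Q1 ∪ Q2, pp N k q ≤ 1 / 2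
  V1 : ∏ q ∈ Q1, (1 - pp N k q) ≤ C1 * lq / (δ0 * LX)
  V2 : ∀ v, δ0 * LX ≤ v → v ≤ ε * LX →
    ∏ q ∈ Q2 with Real.log (q : ℕ) ≤ v, (1 - pp N k q) ≤ C1 * (δ0 * LX) / v
  S1 : ∀ v, 0 ≤ v → v ≤ ε * LX →
    ∑ q ∈ Q1 with Real.log (q : ℕ) ≤ v, pp N k q * Real.log q ≤ C2 * v
  S2 : ∀ v, 0 ≤ v → v ≤ ε * LX →
    ∑ q ∈ Q2 with Real.log (q : ℕ) ≤ v, pp N k q * Real.log q ≤ C2 * v
  inv : ∑ q ∈ Q1 ∪ Q2, ((q : ℝ) ^ 2)⁻¹ ≤ 1
  hbs : Real.exp (66 * C2) ≤ 4 ^ bs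
  hJ0 : 0 < J
  hJ : 51200 * (C1 ^ 2 * C2 * Real.exp (4 * C2) * lam) ≤ J
  hδJ : δ0 * 2 ^ (J - 1) ≤ ε
  hα : 4 * (C1 * lq / (δ0 * LX)) ≤ 1 / 4
  hh0 : 12 * (bs + 1) * (δ0 * LX) + 1 ≤ 2 * C2 * (ε * LX / 2 ^ (J - 1))

section

variable {N : ℕ} {Q1 Q2 : Finset ℕ} {k : ℕ → ℕ} {hit : ℕ → Fin N → ℕ → Prop}
  {C1 C2 lam LX lq ε δ0 : ℝ} {J bs : ℕ}

lemma Par.l0 (h : Par Q1 Q2 k hit C1 C2 lam LX lq ε δ0 J bs) : 0 < δ0 * LX := mul_pos h.hδ h.hLX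

lemma Par.l (h : Par Q1 Q2 k hit C1 C2 lam LX lq ε δ0 J bs) : 0 < ε * LX := mul_pos h.hε h.hLX

lemma Par.p0 (h : Par Q1 Q2 k hit C1 C2 lam LX lq ε δ0 J bs) : ∀ q ∈ Q1 ∪ Q2, 0 ≤ pp N k q :=
  fun _ hq => pp_nonneg h.sys h.N0 hq

lemma Par.p1 (h : Par Q1 Q2 k hit C1 C2 lam LX lq ε δ0 J bs) : ∀ q ∈ Q1 ∪ Q2, pp N k q ≤ 1 :=
  fun _ hq => (pp_lt_one h.sys h.N0 hq).le

lemma Par.disj (h : Par Q1 Q2 k hit C1 C2 lam LX lq ε δ0 J bs) : Disjoint Q1 Q2 := by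
  rw [disjoint_left]
  intro q hq hq'
  have := h.hi1 q hq
  have := h.lo2 q hq'
  linarith

/-- the small prime factor -/
noncomputable def be (Q1 : Finset ℕ) (l0 : ℝ) (bs n : ℕ) : Finset ℕ → ℝ :=
  bet (Ib Q1 l0) (fun j => bs + j) n

lemma l0_le_l (h : Par Q1 Q2 k hit C1 C2 lam LX lq ε δ0 J bs) : δ0 * LX ≤ ε * LX := by
  refine mul_le_mul_of_nonneg_right ?_ h.hLX.le
  have h1 : (1 : ℝ) ≤ 2 ^ (J - 1) := one_le_pow₀ (by norm_num)
  have h2 := h.hδ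
  have := h.hδJ
  nlinarith

lemma Par.sd (h : Par Q1 Q2 k hit C1 C2 lam LX lq ε δ0 J bs) {n : ℕ}
    (hn : (range n).biUnion (Ib Q1 (δ0 * LX)) = Q1) :
    SD (pp N k) Q1 Q2 (be Q1 (δ0 * LX) bs n) (Bm Q2 (ε * LX) J) J
      (4 * ∏ q ∈ Q1, (1 - pp N k q)) := by
  have hI : ∀ j, Ib Q1 (δ0 * LX) j ⊆ Q1 := fun j => filter_subset _ _
  have hl0 := h.l0
  have hS : ∀ j < n, ∑ q ∈ Ib Q1 (δ0 * LX) j, pp N k q ≤ 2 * C2 := by
    intro j _
    have hv : (0 : ℝ) < (1 / 2) ^ j * (δ0 * LX) := by positivity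
    have hv2 : (1 / 2 : ℝ) ^ j * (δ0 * LX) ≤ ε * LX := by
      have h1 : (1 / 2 : ℝ) ^ j ≤ 1 := pow_le_one₀ (by norm_num) (by norm_num)
      have := l0_le_l h
      nlinarith
    have h1 := h.S1 _ hv.le hv2
    have h2 : ((1 / 2 : ℝ) ^ (j + 1) * (δ0 * LX)) * ∑ q ∈ Ib Q1 (δ0 * LX) j, pp N k q ≤
        ∑ q ∈ Q1 with Real.log (q : ℕ) ≤ (1 / 2 : ℝ) ^ j * (δ0 * LX), pp N k q * Real.log q := by
      rw [mul_sum]
      calc ∑ q ∈ Ib Q1 (δ0 * LX) j, (1 / 2 : ℝ) ^ (j + 1) * (δ0 * LX) * pp N k q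
          ≤ ∑ q ∈ Ib Q1 (δ0 * LX) j, pp N k q * Real.log q := by
            refine sum_le_sum fun q hq => ?_
            obtain ⟨hq1, hq2, _⟩ := mem_filter.1 hq
            have := h.p0 q (mem_union_left _ hq1)
            nlinarith
        _ ≤ _ := by
            refine sum_le_sum_of_subset_of_nonneg ?_ fun q hq _ => ?_
            · intro q hq
              obtain ⟨hq1, _, hq3⟩ := mem_filter.1 hq
              exact mem_filter.2 ⟨hq1, hq3⟩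
            · have := h.p0 q (mem_union_left _ (mem_filter.1 hq).1)
              exact mul_nonneg this (Real.log_natCast_nonneg q)
    have h3 : (1 / 2 : ℝ) ^ (j + 1) * (δ0 * LX) = 1 / 2 * ((1 / 2) ^ j * (δ0 * LX)) := by
      rw [pow_succ]; ring
    rw [h3] at h2
    by_contra hcon
    push Not at hcon
    have h4 : 1 / 2 * ((1 / 2 : ℝ) ^ j * (δ0 * LX)) * (2 * C2) <
        1 / 2 * ((1 / 2) ^ j * (δ0 * LX)) * ∑ q ∈ Ib Q1 (δ0 * LX) j, pp N k q :=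
      mul_lt_mul_of_pos_left hcon (by positivity)
    linarith
  have hm : ∀ r, 1 ≤ r → r ≤ 4 → E1 (pp N k) Q1 (fun ω => be Q1 (δ0 * LX) bs n ω ^ r) ≤
      4 * ∏ q ∈ Q1, (1 - pp N k q) := by
    intro r hr hr4
    have h1 := bet_moment (p := pp N k) (I := Ib Q1 (δ0 * LX)) (n := n) (bs := bs) (C2 := C2)
      (fun i _ j _ hij => Ib_disj hl0.le hij)
      (fun j _ q hq => h.p0 q (mem_union_left _ (hI j hq)))
      (fun j _ q hq => h.ph q (mem_union_left _ (hI j hq))) hS h.hbs hr hr4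
    rw [hn] at h1
    exact h1
  refine ⟨h.disj, h.p0, h.p1, ?_, ?_, ?_, ?_, ?_, ?_, ?_, h.hJ0, Bm_mono Q2 h.l.le J,
    fun m _ => filter_subset _ _⟩
  · exact fun ω => bet_inter _ _ ω fun j _ => hI j
  · exact fun ω => bet_nonneg _ _ _ ω
  · exact bet_empty _ _ _
  · have := hm 1 (le_refl 1) (by norm_num)
    simpa using this
  · exact hm 2 (by norm_num) (by norm_num)
  · exact hm 4 (by norm_num) (le_refl 4)
  · have := h.V1
    have := h.hα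
    linarith

lemma Par.Nα (h : Par Q1 Q2 k hit C1 C2 lam LX lq ε δ0 J bs) :
    N * (4 * ∏ q ∈ Q1, (1 - pp N k q)) ≤ 4 * (C1 * lam / δ0) := by
  have h1 := h.V1
  have hN : (0 : ℝ) ≤ N := Nat.cast_nonneg N
  have hC1 := h.hC1
  have hδ := h.hδ
  have hLX := h.hLX
  calc N * (4 * ∏ q ∈ Q1, (1 - pp N k q)) ≤ N * (4 * (C1 * lq / (δ0 * LX))) := by gcongr
    _ = 4 * (C1 * (N * lq) / (δ0 * LX)) := by ring
    _ ≤ 4 * (C1 * (lam * LX) / (δ0 * LX)) := by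
        have := h.Nlq
        gcongr
    _ = _ := by field_simp

lemma Par.NαV (h : Par Q1 Q2 k hit C1 C2 lam LX lq ε δ0 J bs) {v : ℝ} (hv : δ0 * LX ≤ v)
    (hv' : v ≤ ε * LX) :
    N * ((4 * ∏ q ∈ Q1, (1 - pp N k q)) * ∏ q ∈ Q2 with Real.log (q : ℕ) ≤ v, (1 - pp N k q)) ≤
      4 * (C1 ^ 2 * lam * LX / v) := by
  have h1 := h.V1
  have h2 := h.V2 v hv hv'
  have hN : (0 : ℝ) ≤ N := Nat.cast_nonneg N
  have hC1 := h.hC1
  have hδ := h.hδ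
  have hLX := h.hLX
  have hl0 := h.l0
  have hv0 : 0 < v := hl0.trans_le hv
  have h3 : 0 ≤ ∏ q ∈ Q2 with Real.log (q : ℕ) ≤ v, (1 - pp N k q) :=
    prod_nonneg fun q hq => by
      have := h.p1 q (mem_union_right _ (mem_filter.1 hq).1)
      linarith
  have hlq := h.hlq
  calc N * ((4 * ∏ q ∈ Q1, (1 - pp N k q)) * ∏ q ∈ Q2 with Real.log (q : ℕ) ≤ v, (1 - pp N k q))
      ≤ N * ((4 * (C1 * lq / (δ0 * LX))) * (C1 * (δ0 * LX) / v)) := by gcongr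
    _ = 4 * (C1 ^ 2 * (N * lq) / v) := by field_simp
    _ ≤ 4 * (C1 ^ 2 * (lam * LX) / v) := by
        have := h.Nlq
        gcongr
    _ = _ := by ring

lemma exp_sub_one_le {x : ℝ} (h0 : 0 ≤ x) (h1 : x ≤ 1) : Real.exp x - 1 ≤ 2 * x := by
  have h2 := Real.abs_exp_sub_one_sub_id_le (x := x) (by rw [abs_of_nonneg h0]; exact h1)
  have h3 := (abs_le.1 h2).2
  nlinarith

lemma prod_w_le (h : Par Q1 Q2 k hit C1 C2 lam LX lq ε δ0 J bs) {v : ℝ} (hv0 : 0 ≤ v)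
    (hv : v ≤ ε * LX) :
    ∏ q ∈ Q2 with Real.log (q : ℕ) ≤ v,
      (1 + pp N k q * (Real.exp (1 / (ε * LX) * Real.log q) - 1)) ≤
      Real.exp (2 * C2 * (v / (ε * LX))) := by
  have hl := h.l
  calc ∏ q ∈ Q2 with Real.log (q : ℕ) ≤ v,
      (1 + pp N k q * (Real.exp (1 / (ε * LX) * Real.log q) - 1))
      ≤ ∏ q ∈ Q2 with Real.log (q : ℕ) ≤ v,
        Real.exp (2 / (ε * LX) * (pp N k q * Real.log q)) := by
        refine prod_le_prod (fun q hq => ?_) fun q hq => ?_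
        · have h1 := h.p0 q (mem_union_right _ (mem_filter.1 hq).1)
          have h2 : 1 ≤ Real.exp (1 / (ε * LX) * Real.log q) :=
            Real.one_le_exp (mul_nonneg (by positivity) (Real.log_natCast_nonneg q))
          have := mul_nonneg h1 (sub_nonneg.2 h2)
          linarith
        · have h1 := h.p0 q (mem_union_right _ (mem_filter.1 hq).1)
          have h2 := h.hi2 q (mem_filter.1 hq).1
          have h3 : Real.exp (1 / (ε * LX) * Real.log q) - 1 ≤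
              2 * (1 / (ε * LX) * Real.log q) := by
            refine exp_sub_one_le (mul_nonneg (by positivity) (Real.log_natCast_nonneg q)) ?_
            rw [one_div, inv_mul_le_iff₀ hl]
            linarith
          have h4 := mul_le_mul_of_nonneg_left h3 h1
          have h5 := Real.add_one_le_exp (2 / (ε * LX) * (pp N k q * Real.log q))
          have h6 : 2 / (ε * LX) * (pp N k q * Real.log q) =
              pp N k q * (2 * (1 / (ε * LX) * Real.log q)) := by ring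
          linarith
    _ = Real.exp (2 / (ε * LX) * ∑ q ∈ Q2 with Real.log (q : ℕ) ≤ v,
          pp N k q * Real.log q) := by
        rw [mul_sum, Real.exp_sum]
    _ ≤ _ := by
        apply Real.exp_le_exp.2
        calc 2 / (ε * LX) * ∑ q ∈ Q2 with Real.log (q : ℕ) ≤ v, pp N k q * Real.log q
            ≤ 2 / (ε * LX) * (C2 * v) :=
              mul_le_mul_of_nonneg_left (h.S2 v hv0 hv) (by positivity)
          _ = _ := by ring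

end

end Pool.Agent.PosProp
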