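import Pool.Agent.Lib.PosProp.Par

/-!
# Estimates of the parameters
-/

open Finset Pool.Agent.GapSieve

namespace Pool.Agent.PosProp

lemma sum_two_pow_le (m : ℕ) : ∑ i ∈ range (m + 1), (2 : ℝ) ^ i ≤ 2 * 2 ^ m := by
  induction m with
  | zero => norm_num
  | succ m ih => rw [sum_range_succ, pow_succ]; linarith

lemma sum_min_max (J : ℕ) :
    ∑ m ∈ range J, ∑ m' ∈ range J, (2 : ℝ) ^ (min m m') / 2 ^ (max m m') ≤ 4 * J := by
  have h1 : ∀ m m' : ℕ, (2 : ℝ) ^ (min m m') / 2 ^ (max m m') ≤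
      (if m' ≤ m then (2 : ℝ) ^ m' / 2 ^ m else 0) +
        (if m ≤ m' then (2 : ℝ) ^ m / 2 ^ m' else 0) := by
    intro m m'
    rcases le_total m m' with h | h
    · rw [min_eq_left h, max_eq_right h, if_pos h]
      have : (0 : ℝ) ≤ if m' ≤ m then (2 : ℝ) ^ m' / 2 ^ m else 0 := by
        split_ifs <;> positivity
      linarith
    · rw [min_eq_right h, max_eq_left h, if_pos h]
      have : (0 : ℝ) ≤ if m ≤ m' then (2 : ℝ) ^ m / 2 ^ m' else 0 := by
        split_ifs <;> positivity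
      linarith
  have h2 : ∀ m ∈ range J, ∑ m' ∈ range J, (if m' ≤ m then (2 : ℝ) ^ m' / 2 ^ m else 0) ≤ 2 := by
    intro m _
    rw [← sum_filter, ← sum_div, div_le_iff₀ (by positivity)]
    refine le_trans (sum_le_sum_of_subset_of_nonneg (t := range (m + 1)) ?_ ?_)
      (sum_two_pow_le m)
    · intro i hi
      have := (mem_filter.1 hi).2
      exact mem_range.2 (by omega)
    · intro i _ _
      positivity
  have h3 : ∑ m ∈ range J, ∑ m' ∈ range J, (if m' ≤ m then (2 : ℝ) ^ m' / 2 ^ m else 0) ≤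
      2 * J := by
    refine (sum_le_sum h2).trans ?_
    rw [sum_const, card_range, nsmul_eq_mul]
    linarith
  have h4 : ∑ m ∈ range J, ∑ m' ∈ range J, (if m ≤ m' then (2 : ℝ) ^ m / 2 ^ m' else 0) ≤
      2 * J := by
    rw [sum_comm]
    exact h3
  calc ∑ m ∈ range J, ∑ m' ∈ range J, (2 : ℝ) ^ (min m m') / 2 ^ (max m m')
      ≤ ∑ m ∈ range J, ∑ m' ∈ range J, ((if m' ≤ m then (2 : ℝ) ^ m' / 2 ^ m else 0) +
        (if m ≤ m' then (2 : ℝ) ^ m / 2 ^ m' else 0)) :=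
        sum_le_sum fun m _ => sum_le_sum fun m' _ => h1 m m'
    _ ≤ 4 * J := by
        simp only [sum_add_distrib]
        linarith

lemma exp_sub_one_le' (x : ℝ) : Real.exp x - 1 ≤ x * Real.exp x := by
  have h1 := Real.add_one_le_exp (-x)
  have h2 := mul_le_mul_of_nonneg_right h1 (Real.exp_pos x).le
  rw [← Real.exp_add] at h2
  simp only [neg_add_cancel, Real.exp_zero] at h2
  linarith

section

variable {N : ℕ} {Q1 Q2 : Finset ℕ} {k : ℕ → ℕ} {hit : ℕ → Fin N → ℕ → Prop}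
  {C1 C2 lam LX lq ε δ0 : ℝ} {J bs : ℕ}

/-- cost of an active site -/
noncomputable def hz (δ0 LX : ℝ) (bs : ℕ) : ℝ := 12 * (bs + 1) * (δ0 * LX) + 1

lemma vm_le (h : Par Q1 Q2 k hit C1 C2 lam LX lq ε δ0 J bs) {m : ℕ} (hm : m < J) :
    ε * LX * 2 ^ m / 2 ^ (J - 1) ≤ ε * LX := by
  have hl := h.l
  rw [div_le_iff₀ (by positivity)]
  have h1 : (2 : ℝ) ^ m ≤ 2 ^ (J - 1) := pow_le_pow_right₀ (by norm_num) (by omega)
  exact mul_le_mul_of_nonneg_left h1 hl.le

lemma le_vm (h : Par Q1 Q2 k hit C1 C2 lam LX lq ε δ0 J bs) (m : ℕ) :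
    δ0 * LX ≤ ε * LX * 2 ^ m / 2 ^ (J - 1) := by
  have hl := h.l
  rw [le_div_iff₀ (by positivity)]
  have h1 : (1 : ℝ) ≤ 2 ^ m := one_le_pow₀ (by norm_num)
  have h2 := mul_le_mul_of_nonneg_right h.hδJ h.hLX.le
  nlinarith

lemma NαVm (h : Par Q1 Q2 k hit C1 C2 lam LX lq ε δ0 J bs) {m : ℕ} (hm : m < J) :
    N * ((4 * ∏ q ∈ Q1, (1 - pp N k q)) * V (pp N k) (Bm Q2 (ε * LX) J) m) ≤
      4 * (C1 ^ 2 * lam / ε) * (2 ^ (J - 1) / 2 ^ m) := by
  have h1 := h.NαV (le_vm h m) (vm_le h hm)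
  refine h1.trans (le_of_eq ?_)
  have hε := h.hε.ne'
  have hLX := h.hLX.ne'
  field_simp

lemma exp_hz_le (h : Par Q1 Q2 k hit C1 C2 lam LX lq ε δ0 J bs) :
    Real.exp (1 / (ε * LX) * hz δ0 LX bs) ≤ Real.exp (2 * C2 * (1 / 2 ^ (J - 1))) := by
  apply Real.exp_le_exp.2
  have h1 := h.hh0
  have hl := h.l
  have hε := h.hε.ne'
  have hLX := h.hLX.ne'
  unfold hz
  calc 1 / (ε * LX) * (12 * (bs + 1) * (δ0 * LX) + 1)
      ≤ 1 / (ε * LX) * (2 * C2 * (ε * LX / 2 ^ (J - 1))) :=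
        mul_le_mul_of_nonneg_left h1 (by positivity)
    _ = _ := by field_simp

lemma prod_Bm_le (h : Par Q1 Q2 k hit C1 C2 lam LX lq ε δ0 J bs) {m : ℕ} (hm : m < J) :
    Real.exp (1 / (ε * LX) * hz δ0 LX bs) * ∏ q ∈ Bm Q2 (ε * LX) J m,
      (1 + pp N k q * (Real.exp (1 / (ε * LX) * Real.log q) - 1)) ≤
      Real.exp (4 * C2 * (2 ^ m / 2 ^ (J - 1))) := by
  have h1 := exp_hz_le h
  have hl := h.l
  have hε := h.hε.ne'
  have hLX := h.hLX.ne'
  have hv0 : 0 ≤ ε * LX * 2 ^ m / 2 ^ (J - 1) := by positivity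
  have h2 := prod_w_le h hv0 (vm_le h hm)
  have h3 : 2 * C2 * (ε * LX * 2 ^ m / 2 ^ (J - 1) / (ε * LX)) =
      2 * C2 * (2 ^ m / 2 ^ (J - 1)) := by field_simp
  rw [h3] at h2
  have hC2 := h.hC2
  have h4 : 2 * C2 * (1 / 2 ^ (J - 1)) ≤ 2 * C2 * (2 ^ m / 2 ^ (J - 1)) := by
    have : (1 : ℝ) ≤ 2 ^ m := one_le_pow₀ (by norm_num)
    gcongr
  have hnn : 0 ≤ ∏ q ∈ Bm Q2 (ε * LX) J m,
      (1 + pp N k q * (Real.exp (1 / (ε * LX) * Real.log q) - 1)) := by
    refine prod_nonneg fun q hq => ?_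
    have h1 := h.p0 q (mem_union_right _ (mem_filter.1 hq).1)
    have h2 : 1 ≤ Real.exp (1 / (ε * LX) * Real.log q) :=
      Real.one_le_exp (mul_nonneg (by positivity) (Real.log_natCast_nonneg q))
    have := mul_nonneg h1 (sub_nonneg.2 h2)
    linarith
  calc Real.exp (1 / (ε * LX) * hz δ0 LX bs) * ∏ q ∈ Bm Q2 (ε * LX) J m,
      (1 + pp N k q * (Real.exp (1 / (ε * LX) * Real.log q) - 1))
      ≤ Real.exp (2 * C2 * (2 ^ m / 2 ^ (J - 1))) * Real.exp (2 * C2 * (2 ^ m / 2 ^ (J - 1))) :=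
        mul_le_mul (h1.trans (Real.exp_le_exp.2 h4)) h2 hnn (Real.exp_pos _).le
    _ = _ := by rw [← Real.exp_add]; ring_nf

/-- the key estimate: the growth of the weighted mass -/
lemma growth (h : Par Q1 Q2 k hit C1 C2 lam LX lq ε δ0 J bs) :
    N * ((4 * ∏ q ∈ Q1, (1 - pp N k q)) * (Real.exp (1 / (ε * LX) * hz δ0 LX bs) *
      XX (pp N k) (fun q => Real.exp (1 / (ε * LX) * Real.log q)) (Bm Q2 (ε * LX) J) J Q2 -
      XX (pp N k) (fun _ => 1) (Bm Q2 (ε * LX) J) J Q2)) ≤ 1 / (800 * ε) := by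
  have hl := h.l
  have hmono := Bm_mono Q2 hl.le J
  have hsub : ∀ m < J, Bm Q2 (ε * LX) J m ⊆ Q2 := fun m _ => filter_subset _ _
  have hC1 := h.hC1
  have hC2 := h.hC2
  have hlam := h.hlam
  have hε := h.hε
  rw [XX_eq _ _ hmono hsub, XX_eq _ _ hmono hsub]
  have hJ0 : (0 : ℝ) < J := by exact_mod_cast h.hJ0
  set E := Real.exp (1 / (ε * LX) * hz δ0 LX bs) with hE
  set P : ℕ → ℝ := fun m => ∏ q ∈ Bm Q2 (ε * LX) J m,
      (1 + pp N k q * (Real.exp (1 / (ε * LX) * Real.log q) - 1)) with hP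
  set W : ℕ → ℝ := fun m => V (pp N k) (Bm Q2 (ε * LX) J) m with hW
  set α := 4 * ∏ q ∈ Q1, (1 - pp N k q) with hα
  have e1 : (E * ((∑ m ∈ range J, ∑ m' ∈ range J, W (max m m') * P (min m m')) / (J : ℝ) ^ 2) -
      (∑ m ∈ range J, ∑ m' ∈ range J, W (max m m') * ∏ q ∈ Bm Q2 (ε * LX) J (min m m'),
        (1 + pp N k q * (1 - 1))) / (J : ℝ) ^ 2) =
      (∑ m ∈ range J, ∑ m' ∈ range J, W (max m m') * (E * P (min m m') - 1)) / (J : ℝ) ^ 2 := by
    have e2 : ∀ m m' : ℕ, ∏ q ∈ Bm Q2 (ε * LX) J (min m m'), (1 + pp N k q * (1 - 1)) = 1 := by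
      intro m m'
      exact prod_eq_one fun q _ => by ring
    simp only [e2, mul_one]
    rw [← mul_div_assoc, ← sub_div, mul_sum, ← sum_sub_distrib]
    congr 1
    refine sum_congr rfl fun m _ => ?_
    rw [mul_sum, ← sum_sub_distrib]
    exact sum_congr rfl fun m' _ => by ring
  have e3 : ∀ m m' : ℕ, m < J → m' < J → N * (α * (W (max m m') * (E * P (min m m') - 1))) ≤
      (16 * (C1 ^ 2 * C2 * Real.exp (4 * C2) * lam) / ε) *
        ((2 : ℝ) ^ (min m m') / 2 ^ (max m m')) := by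
    intro m m' hm hm'
    have hmax : max m m' < J := max_lt hm hm'
    have hmin : min m m' < J := (min_le_left _ _).trans_lt hm
    have f1 := NαVm h hmax
    have f2 : E * P (min m m') - 1 ≤
        4 * C2 * (2 ^ (min m m') / 2 ^ (J - 1)) * Real.exp (4 * C2) := by
      have f3 := prod_Bm_le h hmin
      have f4 := exp_sub_one_le' (4 * C2 * (2 ^ (min m m') / 2 ^ (J - 1)))
      have f5 : Real.exp (4 * C2 * (2 ^ (min m m') / 2 ^ (J - 1))) ≤ Real.exp (4 * C2) := by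
        apply Real.exp_le_exp.2
        have f6 : (2 : ℝ) ^ (min m m') / 2 ^ (J - 1) ≤ 1 := by
          rw [div_le_one (by positivity)]
          exact pow_le_pow_right₀ (by norm_num) (by omega)
        nlinarith
      have f7 := mul_le_mul_of_nonneg_left f5
        (show 0 ≤ 4 * C2 * (2 ^ (min m m') / 2 ^ (J - 1) : ℝ) by positivity)
      show E * P (min m m') - 1 ≤ _
      have f8 : E * P (min m m') ≤ Real.exp (4 * C2 * (2 ^ (min m m') / 2 ^ (J - 1))) := f3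
      linarith
    have hα0 : 0 ≤ α := by
      rw [hα]
      refine mul_nonneg (by norm_num) (prod_nonneg fun q hq => ?_)
      have := h.p1 q (mem_union_left _ hq)
      linarith
    have hW0 : 0 ≤ W (max m m') := by
      show 0 ≤ V (pp N k) (Bm Q2 (ε * LX) J) (max m m')
      unfold V
      refine prod_nonneg fun q hq => ?_
      have := h.p1 q (mem_union_right _ (mem_filter.1 hq).1)
      linarith
    calc N * (α * (W (max m m') * (E * P (min m m') - 1)))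
        = (N * (α * W (max m m'))) * (E * P (min m m') - 1) := by ring
      _ ≤ (N * (α * W (max m m'))) *
          (4 * C2 * (2 ^ (min m m') / 2 ^ (J - 1)) * Real.exp (4 * C2)) :=
          mul_le_mul_of_nonneg_left f2 (by positivity)
      _ ≤ (4 * (C1 ^ 2 * lam / ε) * (2 ^ (J - 1) / 2 ^ (max m m'))) *
          (4 * C2 * (2 ^ (min m m') / 2 ^ (J - 1)) * Real.exp (4 * C2)) :=
          mul_le_mul_of_nonneg_right f1 (by positivity)
      _ = _ := by field_simp; ring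
  have e4 : N * (α * ((∑ m ∈ range J, ∑ m' ∈ range J,
      W (max m m') * (E * P (min m m') - 1)) / (J : ℝ) ^ 2)) =
      (∑ m ∈ range J, ∑ m' ∈ range J,
        N * (α * (W (max m m') * (E * P (min m m') - 1)))) / (J : ℝ) ^ 2 := by
    rw [← mul_div_assoc, ← mul_div_assoc]
    congr 1
    rw [mul_sum, mul_sum]
    refine sum_congr rfl fun m _ => ?_
    rw [mul_sum, mul_sum]
  rw [e1, e4]
  have e5 : ∑ m ∈ range J, ∑ m' ∈ range J,
        N * (α * (W (max m m') * (E * P (min m m') - 1))) ≤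
      (16 * (C1 ^ 2 * C2 * Real.exp (4 * C2) * lam) / ε) * (4 * J) := by
    calc ∑ m ∈ range J, ∑ m' ∈ range J,
        N * (α * (W (max m m') * (E * P (min m m') - 1)))
        ≤ ∑ m ∈ range J, ∑ m' ∈ range J,
          (16 * (C1 ^ 2 * C2 * Real.exp (4 * C2) * lam) / ε) *
            ((2 : ℝ) ^ (min m m') / 2 ^ (max m m')) :=
          sum_le_sum fun m hm => sum_le_sum fun m' hm' =>
            e3 m m' (mem_range.1 hm) (mem_range.1 hm')
      _ = (16 * (C1 ^ 2 * C2 * Real.exp (4 * C2) * lam) / ε) *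
          ∑ m ∈ range J, ∑ m' ∈ range J, (2 : ℝ) ^ (min m m') / 2 ^ (max m m') := by
          simp only [mul_sum]
      _ ≤ _ := mul_le_mul_of_nonneg_left (sum_min_max J) (by positivity)
  refine (div_le_div_of_nonneg_right e5 (by positivity)).trans ?_
  have hJ := h.hJ
  rw [div_le_div_iff₀ (by positivity) (by positivity)]
  have e6 : 16 * (C1 ^ 2 * C2 * Real.exp (4 * C2) * lam) / ε * (4 * J) * (800 * ε) =
      51200 * (C1 ^ 2 * C2 * Real.exp (4 * C2) * lam) * J := by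
    field_simp
    ring
  rw [e6, one_mul]
  have e7 : (J : ℝ) ^ 2 = J * J := pow_two _
  rw [e7]
  exact mul_le_mul_of_nonneg_right hJ hJ0.le

end

end Pool.Agent.PosProp
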