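import Pool.Agent.Lib.PosProp.Par2

/-!
# The counting theorem with all parameters
-/

open Finset Pool.Agent.GapSieve

namespace Pool.Agent.PosProp

section

variable {N : ℕ} {Q1 Q2 : Finset ℕ} {k : ℕ → ℕ} {hit : ℕ → Fin N → ℕ → Prop}
  {C1 C2 lam LX lq ε δ0 : ℝ} {J bs : ℕ} {β : Finset ℕ → ℝ}

lemma mass_le (h : Par Q1 Q2 k hit C1 C2 lam LX lq ε δ0 J bs)
    (hsd : SD (pp N k) Q1 Q2 β (Bm Q2 (ε * LX) J) J (4 * ∏ q ∈ Q1, (1 - pp N k q))) :
    (∑ s ∈ TT Q2, nn (pp N k) (Q1 ∪ Q2) (ee (pp N k) Q1 β (Bm Q2 (ε * LX) J) J) s *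
      Real.exp (1 / (ε * LX) * dd (hz δ0 LX bs) s)) ^ N ≤
    (∑ s ∈ TT Q2, nn (pp N k) (Q1 ∪ Q2) (ee (pp N k) Q1 β (Bm Q2 (ε * LX) J) J) s) ^ N *
      Real.exp (1 / (400 * ε)) := by
  have hl := h.l
  have hh0 : 0 ≤ hz δ0 LX bs := by
    have := h.l0
    unfold hz
    positivity
  have h1 := weighted_le hsd (θ := 1 / (ε * LX)) (by positivity) hh0
  have h2 := growth h
  have hnn : ∀ s ∈ TT Q2, 0 ≤ nn (pp N k) (Q1 ∪ Q2) (ee (pp N k) Q1 β (Bm Q2 (ε * LX) J) J) s *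
      Real.exp (1 / (ε * LX) * dd (hz δ0 LX bs) s) := fun s _ =>
    mul_nonneg (E1_nonneg h.p0 h.p1 fun _ _ => sq_nonneg _) (Real.exp_pos _).le
  have h3 := pow_le_pow_left₀ (sum_nonneg hnn) h1 N
  refine h3.trans ?_
  rw [mul_pow, ← Real.exp_nat_mul]
  refine mul_le_mul_of_nonneg_left (Real.exp_le_exp.2 ?_) ?_
  · have hε := h.hε.ne'
    have h4 : 1 / (400 * ε) = 2 * (1 / (800 * ε)) := by field_simp; norm_num
    rw [h4]
    linarith
  · refine pow_nonneg (sum_nonneg fun s _ => ?_) N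
    exact E1_nonneg h.p0 h.p1 fun _ _ => sq_nonneg _

lemma xh_empty (p : ℕ → ℝ) (B : ℕ → Finset ℕ) (J : ℕ) :
    xh p B J ∅ = (∑ m ∈ range J, V p B m) / J := by
  unfold xh
  congr 1
  refine sum_congr rfl fun m _ => ?_
  simp [dco, V]

lemma A0N_ge (h : Par Q1 Q2 k hit C1 C2 lam LX lq ε δ0 J bs)
    (hsd : SD (pp N k) Q1 Q2 β (Bm Q2 (ε * LX) J) J (4 * ∏ q ∈ Q1, (1 - pp N k q))) :
    Real.exp (-(16 * (C1 ^ 2 * lam / ε * 2 ^ (J - 1)))) ≤
    (∑ s ∈ TT Q2, nn (pp N k) (Q1 ∪ Q2) (ee (pp N k) Q1 β (Bm Q2 (ε * LX) J) J) s) ^ N := by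
  have h1 := pow_le_pow_left₀ (Real.exp_pos _).le (exp_le_A0 hsd) N
  refine le_trans ?_ h1
  rw [← Real.exp_nat_mul]
  apply Real.exp_le_exp.2
  have hJ0 : (0 : ℝ) < J := by exact_mod_cast h.hJ0
  have hC1 := h.hC1
  have hlam := h.hlam
  have hε := h.hε
  have h2 : N * ((4 * ∏ q ∈ Q1, (1 - pp N k q)) * xh (pp N k) (Bm Q2 (ε * LX) J) J ∅) ≤
      4 * (C1 ^ 2 * lam / ε) * 2 ^ (J - 1) := by
    rw [xh_empty]
    have e1 : N * ((4 * ∏ q ∈ Q1, (1 - pp N k q)) *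
        ((∑ m ∈ range J, V (pp N k) (Bm Q2 (ε * LX) J) m) / J)) =
        (∑ m ∈ range J, N * ((4 * ∏ q ∈ Q1, (1 - pp N k q)) *
          V (pp N k) (Bm Q2 (ε * LX) J) m)) / J := by
      rw [← mul_div_assoc, ← mul_div_assoc]
      congr 1
      rw [mul_sum, mul_sum]
    rw [e1, div_le_iff₀ hJ0]
    calc ∑ m ∈ range J, N * ((4 * ∏ q ∈ Q1, (1 - pp N k q)) *
          V (pp N k) (Bm Q2 (ε * LX) J) m)
        ≤ ∑ _m ∈ range J, 4 * (C1 ^ 2 * lam / ε) * 2 ^ (J - 1) := by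
          refine sum_le_sum fun m hm => (NαVm h (mem_range.1 hm)).trans ?_
          refine mul_le_mul_of_nonneg_left ?_ (by positivity)
          exact div_le_self (by positivity) (one_le_pow₀ (by norm_num))
      _ = _ := by rw [sum_const, card_range, nsmul_eq_mul]; ring
  linarith

lemma rho_le' (h : Par Q1 Q2 k hit C1 C2 lam LX lq ε δ0 J bs)
    (hsd : SD (pp N k) Q1 Q2 β (Bm Q2 (ε * LX) J) J (4 * ∏ q ∈ Q1, (1 - pp N k q))) :
    ∑ s ∈ (TT Q2).erase none, |ee (pp N k) Q1 β (Bm Q2 (ε * LX) J) J s ∅| *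
      Real.exp (1 / (ε * LX) * dd (hz δ0 LX bs) s) ≤ Real.exp (4 * C2) := by
  refine (rho_le hsd).trans ?_
  have hJ0 : (0 : ℝ) < J := by exact_mod_cast h.hJ0
  have hC2 := h.hC2
  rw [← mul_div_assoc, div_le_iff₀ hJ0, mul_sum]
  calc _ ≤ ∑ _m ∈ range J, Real.exp (4 * C2) := by
        refine sum_le_sum fun m hm => ?_
        have hm' := mem_range.1 hm
        refine (prod_Bm_le h hm').trans (Real.exp_le_exp.2 ?_)
        have f6 : (2 : ℝ) ^ m / 2 ^ (J - 1) ≤ 1 := by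
          rw [div_le_one (by positivity)]
          exact pow_le_pow_right₀ (by norm_num) (by omega)
        nlinarith
    _ = _ := by rw [sum_const, card_range, nsmul_eq_mul]; ring

lemma sum_p_Q2 (h : Par Q1 Q2 k hit C1 C2 lam LX lq ε δ0 J bs) :
    ∑ q ∈ Q2, pp N k q ≤ C2 * ε / δ0 := by
  have h1 := h.S2 (ε * LX) h.l.le (le_refl _)
  rw [filter_true_of_mem h.hi2] at h1
  have hl0 := h.l0
  have h2 : (δ0 * LX) * ∑ q ∈ Q2, pp N k q ≤ C2 * (ε * LX) := by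
    refine le_trans ?_ h1
    rw [mul_sum]
    refine sum_le_sum fun q hq => ?_
    have := h.lo2 q hq
    have := h.p0 q (mem_union_right _ hq)
    nlinarith
  have hδ := h.hδ
  have hLX := h.hLX
  rw [le_div_iff₀ hδ]
  have h3 : LX * ((∑ q ∈ Q2, pp N k q) * δ0) ≤ LX * (C2 * ε) := by linarith
  exact le_of_mul_le_mul_left h3 hLX

lemma fourth_le' (h : Par Q1 Q2 k hit C1 C2 lam LX lq ε δ0 J bs)
    (hsd : SD (pp N k) Q1 Q2 β (Bm Q2 (ε * LX) J) J (4 * ∏ q ∈ Q1, (1 - pp N k q))) :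
    (E1 (pp N k) (Q1 ∪ Q2) (fun ω => (∑ s ∈ TT Q2,
      |ee (pp N k) Q1 β (Bm Q2 (ε * LX) J) J s ω|) ^ 4)) ^ N ≤
    Real.exp (120 * (C1 * lam / δ0 * Real.exp (15 * (C2 * ε / δ0)))) := by
  have h1 := fourth_le hsd
  have h0 : 0 ≤ E1 (pp N k) (Q1 ∪ Q2) (fun ω => (∑ s ∈ TT Q2,
      |ee (pp N k) Q1 β (Bm Q2 (ε * LX) J) J s ω|) ^ 4) :=
    E1_nonneg h.p0 h.p1 fun _ _ => by positivity
  refine (pow_le_pow_left₀ h0 h1 N).trans ?_
  rw [← Real.exp_nat_mul]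
  apply Real.exp_le_exp.2
  have h2 := h.Nα
  have h3 : Real.exp (15 * ∑ q ∈ Q2, pp N k q) ≤ Real.exp (15 * (C2 * ε / δ0)) := by
    apply Real.exp_le_exp.2
    have := sum_p_Q2 h
    linarith
  have hα := hsd.al0
  have hN : (0 : ℝ) ≤ N := Nat.cast_nonneg N
  have h4 : N * (4 * ∏ q ∈ Q1, (1 - pp N k q)) * Real.exp (15 * ∑ q ∈ Q2, pp N k q) ≤
      4 * (C1 * lam / δ0) * Real.exp (15 * (C2 * ε / δ0)) :=
    mul_le_mul h2 h3 (Real.exp_pos _).le ((mul_nonneg hN hα).trans h2)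
  linarith

lemma Eu_le (h : Par Q1 Q2 k hit C1 C2 lam LX lq ε δ0 J bs)
    (hsd : SD (pp N k) Q1 Q2 β (Bm Q2 (ε * LX) J) J (4 * ∏ q ∈ Q1, (1 - pp N k q))) (hh : ℝ) :
    N * E1 (pp N k) (Q1 ∪ Q2) (uu (pp N k) Q2 β hh) ≤ 16 * (C1 ^ 2 * lam / ε) := by
  have h1 := E1_uu hsd hh
  have h2 := h.NαV (l0_le_l h) (le_refl (ε * LX))
  rw [filter_true_of_mem h.hi2] at h2
  have hN : (0 : ℝ) ≤ N := Nat.cast_nonneg N
  have h3 := mul_le_mul_of_nonneg_left h1 hN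
  have h4 : C1 ^ 2 * lam * LX / (ε * LX) = C1 ^ 2 * lam / ε := by
    have := h.hLX.ne'
    have := h.hε.ne'
    field_simp
  rw [h4] at h2
  linarith

lemma uu_one (h : Par Q1 Q2 k hit C1 C2 lam LX lq ε δ0 J bs)
    (hsd : SD (pp N k) Q1 Q2 β (Bm Q2 (ε * LX) J) J (4 * ∏ q ∈ Q1, (1 - pp N k q))) :
    1 ≤ uu (pp N k) Q2 β ((2 * C2 + 1) * (ε * LX)) ∅ := by
  have hl := h.l
  refine one_le_uu hsd (θ := 1 / (ε * LX)) (by positivity) ?_
  have h2 := prod_w_le h hl.le (le_refl (ε * LX))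
  rw [filter_true_of_mem h.hi2] at h2
  have h3 : 2 * C2 * (ε * LX / (ε * LX)) = 2 * C2 := by rw [div_self hl.ne', mul_one]
  rw [h3] at h2
  have h4 : -(1 / (ε * LX) * ((2 * C2 + 1) * (ε * LX))) = -(2 * C2 + 1) := by
    have := h.hLX.ne'
    have := h.hε.ne'
    field_simp
  rw [h4]
  calc Real.exp (-(2 * C2 + 1)) * ∏ q ∈ Q2,
        (1 + pp N k q * (Real.exp (1 / (ε * LX) * Real.log q) - 1))
      ≤ Real.exp (-(2 * C2 + 1)) * Real.exp (2 * C2) :=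
        mul_le_mul_of_nonneg_left h2 (Real.exp_pos _).le
    _ = Real.exp (-1) := by rw [← Real.exp_add]; ring_nf
    _ ≤ 1 / 2 := by
        rw [Real.exp_neg, inv_eq_one_div]
        refine one_div_le_one_div_of_le (by norm_num) ?_
        have := Real.add_one_le_exp 1
        linarith

lemma A0N_nn (h : Par Q1 Q2 k hit C1 C2 lam LX lq ε δ0 J bs) :
    0 ≤ (∑ s ∈ TT Q2, nn (pp N k) (Q1 ∪ Q2) (ee (pp N k) Q1 β (Bm Q2 (ε * LX) J) J) s) ^ N :=
  pow_nonneg (sum_nonneg fun _ _ => E1_nonneg h.p0 h.p1 fun _ _ => sq_nonneg _) N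

/-- second moment -/
lemma second_ge (h : Par Q1 Q2 k hit C1 C2 lam LX lq ε δ0 J bs)
    (hsd : SD (pp N k) Q1 Q2 β (Bm Q2 (ε * LX) J) J (4 * ∏ q ∈ Q1, (1 - pp N k q)))
    (hε : ε ≤ 3 / 400) :
    (∑ s ∈ TT Q2, nn (pp N k) (Q1 ∪ Q2) (ee (pp N k) Q1 β (Bm Q2 (ε * LX) J) J) s) ^ N / 2 ≤
    EN (pp N k) (Q1 ∪ Q2) (fun ω : Fin N → Finset ℕ =>
      GG (TT Q2) (ee (pp N k) Q1 β (Bm Q2 (ε * LX) J) J) (dd (hz δ0 LX bs)) (LX / 100) ω ^ 2) := by
  classical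
  have hl := h.l
  have h1 := GG_sq_lower (N := N) h.p0 h.p1 (ee_orth hsd) (dd (hz δ0 LX bs)) (LX / 100)
    (1 / (ε * LX)) (by positivity)
  refine le_trans ?_ h1
  have h2 := mass_le (bs := bs) h hsd
  have h0 := A0N_nn (β := β) h
  set A := (∑ s ∈ TT Q2, nn (pp N k) (Q1 ∪ Q2)
    (ee (pp N k) Q1 β (Bm Q2 (ε * LX) J) J) s) ^ N with hA
  have hεp := h.hε
  have h3 : Real.exp (-(1 / (ε * LX) * (LX / 100))) * Real.exp (1 / (400 * ε)) ≤ 1 / 2 := by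
    rw [← Real.exp_add]
    have e1 : -(1 / (ε * LX) * (LX / 100)) + 1 / (400 * ε) = -(3 / (400 * ε)) := by
      have := h.hLX.ne'
      have := h.hε.ne'
      field_simp
      norm_num
    rw [e1]
    have e2 : 1 ≤ 3 / (400 * ε) := by
      rw [le_div_iff₀ (by positivity)]
      linarith
    calc Real.exp (-(3 / (400 * ε))) ≤ Real.exp (-1) := Real.exp_le_exp.2 (by linarith)
      _ ≤ 1 / 2 := by
        rw [Real.exp_neg, inv_eq_one_div]
        refine one_div_le_one_div_of_le (by norm_num) ?_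
        have := Real.add_one_le_exp 1
        linarith
  have h4 := mul_le_mul_of_nonneg_left h2 (Real.exp_pos (-(1 / (ε * LX) * (LX / 100)))).le
  have h5 := mul_le_mul_of_nonneg_left h3 h0
  linarith

/-- the second moment after emptying one site -/
lemma upd_le (h : Par Q1 Q2 k hit C1 C2 lam LX lq ε δ0 J bs)
    (hsd : SD (pp N k) Q1 Q2 β (Bm Q2 (ε * LX) J) J (4 * ∏ q ∈ Q1, (1 - pp N k q)))
    (i : Fin N) :
    EN (pp N k) (Q1 ∪ Q2) (fun ω : Fin N → Finset ℕ =>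
      GG (TT Q2) (ee (pp N k) Q1 β (Bm Q2 (ε * LX) J) J) (dd (hz δ0 LX bs)) (LX / 100)
        (Function.update ω i ∅) ^ 2) ≤
    4 * ((Real.exp (8 * C2) + 1) * Real.exp (-(1 / (400 * ε)))) *
    (∑ s ∈ TT Q2, nn (pp N k) (Q1 ∪ Q2) (ee (pp N k) Q1 β (Bm Q2 (ε * LX) J) J) s) ^ N := by
  classical
  have hl := h.l
  have hl0 := h.l0
  have hLX := h.hLX
  have hεp := h.hε
  have hh0 : 0 ≤ hz δ0 LX bs := by
    unfold hz
    positivity
  have hdd : ∀ s ∈ TT Q2, 0 ≤ dd (hz δ0 LX bs) s := by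
    intro s _
    rcases s with _ | A
    · exact le_refl 0
    · show 0 ≤ hz δ0 LX bs + lw A
      have : 0 ≤ lw A := sum_nonneg fun q _ => Real.log_natCast_nonneg q
      linarith
  have hnone : none ∈ TT Q2 := by
    unfold TT
    exact none_mem_insertNone
  have hax1 := hsd.ax1
  have hax0 := hsd.ax0
  have h1 := GG_update_sq (N := N) (p := pp N k) (Q := Q1 ∪ Q2) h.p0 h.p1 (T := TT Q2)
    (e := ee (pp N k) Q1 β (Bm Q2 (ε * LX) J) J) (s0 := none) (d := dd (hz δ0 LX bs))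
    (ee_orth hsd) hnone hdd rfl
    (c0 := 1 - E1 (pp N k) Q1 β * xh (pp N k) (Bm Q2 (ε * LX) J) J ∅) (by linarith) (by linarith)
    (fun _ => rfl) (ee_empty_nonpos hsd) (sum_ee_empty hsd) (L := LX / 100)
    (θ := 1 / (ε * LX)) (by positivity) (by positivity) i
  refine h1.trans ?_
  have h2 := mass_le (bs := bs) h hsd
  have h0 := A0N_nn (β := β) h
  set A := (∑ s ∈ TT Q2, nn (pp N k) (Q1 ∪ Q2)
    (ee (pp N k) Q1 β (Bm Q2 (ε * LX) J) J) s) ^ N with hA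
  have hρ := rho_le' (bs := bs) h hsd
  set ρ := ∑ s ∈ (TT Q2).erase none, |ee (pp N k) Q1 β (Bm Q2 (ε * LX) J) J s ∅| *
      Real.exp (1 / (ε * LX) * dd (hz δ0 LX bs) s) with hρd
  have hρ0 : 0 ≤ ρ := sum_nonneg fun s _ => by positivity
  have e1 : -(1 / (ε * LX) * (LX / 100 / 2)) = -(1 / (200 * ε)) := by
    have := h.hLX.ne'
    have := h.hε.ne'
    field_simp
    norm_num
  rw [e1]
  have e2 : (Real.exp (-(1 / (200 * ε))) * ρ) ^ 2 ≤
      Real.exp (8 * C2) * Real.exp (-(1 / (400 * ε))) := by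
    calc (Real.exp (-(1 / (200 * ε))) * ρ) ^ 2
        ≤ (Real.exp (-(1 / (200 * ε))) * Real.exp (4 * C2)) ^ 2 :=
          pow_le_pow_left₀ (by positivity)
            (mul_le_mul_of_nonneg_left hρ (Real.exp_pos _).le) 2
      _ = Real.exp (2 * (-(1 / (200 * ε)) + 4 * C2)) := by
          rw [← Real.exp_add, ← Real.exp_nat_mul]
          norm_num
      _ ≤ Real.exp (8 * C2 + -(1 / (400 * ε))) := by
          apply Real.exp_le_exp.2
          have e3 : 1 / (400 * ε) ≤ 1 / (200 * ε) := by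
            refine one_div_le_one_div_of_le (by positivity) ?_
            nlinarith
          have e4 : 0 ≤ 1 / (200 * ε) := by positivity
          linarith
      _ = _ := by rw [Real.exp_add]
  have e5 : Real.exp (-(1 / (200 * ε))) * Real.exp (1 / (400 * ε)) =
      Real.exp (-(1 / (400 * ε))) := by
    rw [← Real.exp_add]
    congr 1
    field_simp
    norm_num
  have e6 := mul_le_mul_of_nonneg_left h2 (Real.exp_pos (-(1 / (200 * ε)))).le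
  have e7 := mul_le_mul_of_nonneg_right e2 h0
  have e8 : Real.exp (-(1 / (200 * ε))) * (A * Real.exp (1 / (400 * ε))) =
      A * Real.exp (-(1 / (400 * ε))) := by
    rw [← e5]; ring
  rw [e8] at e6
  linarith

end

end Pool.Agent.PosProp
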