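import Pool.Agent.Lib.PosProp.Par3
import Pool.Agent.Lib.PosProp.Excl
import Pool.Agent.Lib.PosProp.Beta2

/-!
# Estimates for the uniform version
-/

open Finset Pool.Agent.GapSieve

namespace Pool.Agent.PosProp

section sd

variable {p : ℕ → ℝ} {Q1 Q2 : Finset ℕ} {β : Finset ℕ → ℝ} {B : ℕ → Finset ℕ} {J : ℕ} {α : ℝ}

lemma xf_nonneg (B : ℕ → Finset ℕ) (J : ℕ) (ω : Finset ℕ) : 0 ≤ xf B J ω := by
  unfold xf
  refine div_nonneg (sum_nonneg fun m _ => ?_) (Nat.cast_nonneg _)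
  split_ifs <;> norm_num

lemma xf_le_one (B : ℕ → Finset ℕ) (J : ℕ) (ω : Finset ℕ) : xf B J ω ≤ 1 := by
  unfold xf
  refine div_le_one_of_le₀ ?_ (Nat.cast_nonneg _)
  calc (∑ m ∈ range J, if Disjoint ω (B m) then (1 : ℝ) else 0) ≤ ∑ _m ∈ range J, (1 : ℝ) :=
        sum_le_sum fun m _ => by split_ifs <;> norm_num
    _ = J := by simp

lemma Dq_le (h : SD p Q1 Q2 β B J α)
    (hbq : ∀ q ∈ Q1, E1 p Q1 (fun ω => β ω ^ 2 * (if q ∈ ω then 1 else 0)) ≤ 32 * p q) :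
    ∀ q ∈ Q1 ∪ Q2, E1 p (Q1 ∪ Q2) (fun ω => (∑ s ∈ TT Q2, ee p Q1 β B J s ω) ^ 2 *
      (if q ∈ ω then 1 else 0)) ≤ 70 * p q := by
  intro q hq
  have hpq := h.p0 q hq
  have h1 : E1 p (Q1 ∪ Q2) (fun ω => (∑ s ∈ TT Q2, ee p Q1 β B J s ω) ^ 2 *
      (if q ∈ ω then 1 else 0)) ≤
      E1 p (Q1 ∪ Q2) (fun ω => (2 + 2 * β ω ^ 2) * (if q ∈ ω then 1 else 0)) := by
    refine E1_mono h.p0 h.p1 fun ω _ => ?_
    have h2 : (∑ s ∈ TT Q2, ee p Q1 β B J s ω) ^ 2 ≤ 2 + 2 * β ω ^ 2 := by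
      rw [sum_ee h]
      have hx0 := xf_nonneg B J ω
      have hx1 := xf_le_one B J ω
      have hb0 := h.b0 ω
      have h3 : (β ω * xf B J ω) ^ 2 ≤ β ω ^ 2 :=
        pow_le_pow_left₀ (mul_nonneg hb0 hx0) (mul_le_of_le_one_right hb0 hx1) 2
      nlinarith [sq_nonneg (1 + β ω * xf B J ω)]
    have h4 : (0 : ℝ) ≤ if q ∈ ω then 1 else 0 := by split_ifs <;> norm_num
    exact mul_le_mul_of_nonneg_right h2 h4
  refine h1.trans ?_
  rcases mem_union.1 hq with hq1 | hq2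
  · have h2 : E1 p (Q1 ∪ Q2) (fun ω => (2 + 2 * β ω ^ 2) * (if q ∈ ω then 1 else 0)) =
        E1 p Q1 (fun ω => (2 + 2 * β ω ^ 2) * (if q ∈ ω then 1 else 0)) := by
      rw [← E1_left p h.disj]
      refine E1_congr fun ω _ => ?_
      rw [h.bint]
      simp [hq1]
    rw [h2]
    have h3 : E1 p Q1 (fun ω => (2 + 2 * β ω ^ 2) * (if q ∈ ω then 1 else 0)) =
        2 * E1 p Q1 (fun ω => if q ∈ ω then 1 else 0) +
        2 * E1 p Q1 (fun ω => β ω ^ 2 * (if q ∈ ω then 1 else 0)) := by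
      rw [← E1_mul_left, ← E1_mul_left, ← E1_add]
      exact E1_congr fun ω _ => by ring
    rw [h3]
    have h4 : E1 p Q1 (fun ω => if q ∈ ω then 1 else 0) = p q := E_mem hq1
    have h5 := hbq q hq1
    rw [h4]
    linarith
  · have h2 : E1 p (Q1 ∪ Q2) (fun ω => (2 + 2 * β ω ^ 2) * (if q ∈ ω then 1 else 0)) =
        E1 p Q1 (fun ω => 2 + 2 * β ω ^ 2) * E1 p Q2 (fun ω => if q ∈ ω then 1 else 0) := by
      refine E1_ind (f := fun ω => 2 + 2 * β ω ^ 2) (g := fun ω => if q ∈ ω then 1 else 0) h.disj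
        (fun ω => by rw [h.bint]) fun ω => ?_
      simp [hq2]
    have h4 : E1 p Q2 (fun ω => if q ∈ ω then 1 else 0) = p q := E_mem hq2
    rw [h2, h4, E1_add, E1_const, E1_mul_left]
    have h5 := h.m2.trans h.a1
    nlinarith

end sd

section

variable {N : ℕ} {Q1 Q2 : Finset ℕ} {k : ℕ → ℕ} {hit : ℕ → Fin N → ℕ → Prop}
  {C1 C2 lam LX lq ε δ0 : ℝ} {J bs : ℕ} {β : Finset ℕ → ℝ}

lemma Par.blockS (h : Par Q1 Q2 k hit C1 C2 lam LX lq ε δ0 J bs) (j : ℕ) :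
    ∑ q ∈ Ib Q1 (δ0 * LX) j, pp N k q ≤ 2 * C2 := by
  have hl0 := h.l0
  have hv : (0 : ℝ) < (1 / 2) ^ j * (δ0 * LX) := by positivity
  have hv2 : (1 / 2 : ℝ) ^ j * (δ0 * LX) ≤ ε * LX := by
    have h1 : (1 / 2 : ℝ) ^ j ≤ 1 := pow_le_one₀ (by norm_num) (by norm_num)
    have := l0_le_l h
    nlinarith
  have h1 := h.S1 _ hv.le hv2
  have h2 : ((1 / 2 : ℝ) ^ (j + 1) * (δ0 * LX)) * ∑ q ∈ Ib Q1 (δ0 * LX) j, pp N k q ≤
      ∑ q ∈ Q1 with Real.log (q : ℕ) ≤ (1 / 2 : ℝ) ^ j * (δ0 * LX), pp N k q * Real.log q := by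
    rw [mul_sum]
    calc ∑ q ∈ Ib Q1 (δ0 * LX) j, (1 / 2 : ℝ) ^ (j + 1) * (δ0 * LX) * pp N k q
        ≤ ∑ q ∈ Ib Q1 (δ0 * LX) j, pp N k q * Real.log q := by
          refine sum_le_sum fun q hq => ?_
          obtain ⟨hq1, hq2, _⟩ := mem_filter.1 hq
          have := h.p0 q (mem_union_left _ hq1)
          nlinarith
      _ ≤ _ := by
          refine sum_le_sum_of_subset_of_nonneg ?_ fun q hq _ => ?_
          · intro q hq
            obtain ⟨hq1, _, hq3⟩ := mem_filter.1 hq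
            exact mem_filter.2 ⟨hq1, hq3⟩
          · have := h.p0 q (mem_union_left _ (mem_filter.1 hq).1)
            exact mul_nonneg this (Real.log_natCast_nonneg q)
  have h3 : (1 / 2 : ℝ) ^ (j + 1) * (δ0 * LX) = 1 / 2 * ((1 / 2) ^ j * (δ0 * LX)) := by
    rw [pow_succ]; ring
  rw [h3] at h2
  by_contra hcon
  push Not at hcon
  have h4 : 1 / 2 * ((1 / 2 : ℝ) ^ j * (δ0 * LX)) * (2 * C2) <
      1 / 2 * ((1 / 2) ^ j * (δ0 * LX)) * ∑ q ∈ Ib Q1 (δ0 * LX) j, pp N k q :=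
    mul_lt_mul_of_pos_left hcon (by positivity)
  linarith

lemma Par.bq (h : Par Q1 Q2 k hit C1 C2 lam LX lq ε δ0 J bs) {n : ℕ}
    (hn : (range n).biUnion (Ib Q1 (δ0 * LX)) = Q1) :
    ∀ q ∈ Q1, E1 (pp N k) Q1 (fun ω => be Q1 (δ0 * LX) bs n ω ^ 2 * (if q ∈ ω then 1 else 0)) ≤
      32 * pp N k q := by
  intro q hq
  have hI : ∀ j, Ib Q1 (δ0 * LX) j ⊆ Q1 := fun j => filter_subset _ _
  have hq' : q ∈ (range n).biUnion (Ib Q1 (δ0 * LX)) := by rw [hn]; exact hq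
  have h1 := bet_mem (p := pp N k) (I := Ib Q1 (δ0 * LX)) (n := n) (bs := bs) (C2 := C2)
    (fun i _ j _ hij => Ib_disj h.l0.le hij)
    (fun j _ q hq => h.p0 q (mem_union_left _ (hI j hq)))
    (fun j _ q hq => h.ph q (mem_union_left _ (hI j hq))) (fun j _ => h.blockS j) h.hbs hq'
  rw [hn] at h1
  exact h1

lemma sum_dyadic (h : Par Q1 Q2 k hit C1 C2 lam LX lq ε δ0 J bs) (D : ℕ) :
    ∀ v, 0 ≤ v → v ≤ ε * LX → v ≤ δ0 * LX * 2 ^ D →
      ∑ q ∈ Q2 with Real.log (q : ℕ) ≤ v, pp N k q ≤ 2 * C2 * D := by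
  induction D with
  | zero =>
    intro v _ _ hv
    have h1 : Q2.filter (fun q : ℕ => Real.log (q : ℕ) ≤ v) = ∅ := by
      rw [filter_eq_empty_iff]
      intro q hq
      have := h.lo2 q hq
      rw [pow_zero, mul_one] at hv
      rw [not_le]
      linarith
    rw [h1, sum_empty]
    simp
  | succ D ih =>
    intro v hv0 hvl hv
    have hC2 := h.hC2
    have h1 := ih (v / 2) (by linarith) (by linarith) (by rw [pow_succ] at hv; linarith)
    have h2 : ∑ q ∈ Q2 with (v / 2 < Real.log (q : ℕ) ∧ Real.log (q : ℕ) ≤ v), pp N k q ≤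
        2 * C2 := by
      rcases hv0.eq_or_lt with hv00 | hv00
      · have h3 : Q2.filter (fun q : ℕ => v / 2 < Real.log (q : ℕ) ∧ Real.log (q : ℕ) ≤ v) = ∅ := by
          rw [filter_eq_empty_iff]
          intro q _ hq
          linarith [hq.1, hq.2]
        rw [h3, sum_empty]
        linarith
      · have h4 := h.S2 v hv0 hvl
        have h5 : v / 2 * ∑ q ∈ Q2 with (v / 2 < Real.log (q : ℕ) ∧ Real.log (q : ℕ) ≤ v),
            pp N k q ≤ C2 * v := by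
          refine le_trans ?_ h4
          rw [mul_sum]
          calc ∑ q ∈ Q2 with (v / 2 < Real.log (q : ℕ) ∧ Real.log (q : ℕ) ≤ v), v / 2 * pp N k q
              ≤ ∑ q ∈ Q2 with (v / 2 < Real.log (q : ℕ) ∧ Real.log (q : ℕ) ≤ v),
                pp N k q * Real.log q := by
                refine sum_le_sum fun q hq => ?_
                obtain ⟨hq1, hq2, _⟩ := mem_filter.1 hq
                have := h.p0 q (mem_union_right _ hq1)
                nlinarith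
            _ ≤ _ := by
                refine sum_le_sum_of_subset_of_nonneg ?_ fun q hq _ => ?_
                · intro q hq
                  obtain ⟨hq1, _, hq3⟩ := mem_filter.1 hq
                  exact mem_filter.2 ⟨hq1, hq3⟩
                · have := h.p0 q (mem_union_right _ (mem_filter.1 hq).1)
                  exact mul_nonneg this (Real.log_natCast_nonneg q)
        by_contra hcon
        push Not at hcon
        have h6 := mul_lt_mul_of_pos_left hcon (show 0 < v / 2 by linarith)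
        linarith
    have h7 : ∑ q ∈ Q2 with Real.log (q : ℕ) ≤ v, pp N k q =
        ∑ q ∈ Q2 with Real.log (q : ℕ) ≤ v / 2, pp N k q +
        ∑ q ∈ Q2 with (v / 2 < Real.log (q : ℕ) ∧ Real.log (q : ℕ) ≤ v), pp N k q := by
      rw [← sum_filter_add_sum_filter_not (Q2.filter fun q : ℕ => Real.log (q : ℕ) ≤ v)
        (fun q : ℕ => Real.log (q : ℕ) ≤ v / 2), filter_filter, filter_filter]
      congr 1
      · refine sum_congr (filter_congr fun q _ => ?_) fun _ _ => rfl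
        constructor
        · exact fun h => h.2
        · exact fun h => ⟨by linarith, h⟩
      · refine sum_congr (filter_congr fun q _ => ?_) fun _ _ => rfl
        rw [not_le]
        tauto
    rw [h7]
    push_cast
    linarith

lemma fourth_le2 (h : Par Q1 Q2 k hit C1 C2 lam LX lq ε δ0 J bs)
    (hsd : SD (pp N k) Q1 Q2 β (Bm Q2 (ε * LX) J) J (4 * ∏ q ∈ Q1, (1 - pp N k q))) {D : ℕ}
    (hD : ε ≤ δ0 * 2 ^ D) :
    (E1 (pp N k) (Q1 ∪ Q2) (fun ω => (∑ s ∈ TT Q2,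
      |ee (pp N k) Q1 β (Bm Q2 (ε * LX) J) J s ω|) ^ 4)) ^ N ≤
    Real.exp (120 * (C1 * lam / δ0 * Real.exp (15 * (2 * C2 * D)))) := by
  have h1 := fourth_le hsd
  have h0 : 0 ≤ E1 (pp N k) (Q1 ∪ Q2) (fun ω => (∑ s ∈ TT Q2,
      |ee (pp N k) Q1 β (Bm Q2 (ε * LX) J) J s ω|) ^ 4) :=
    E1_nonneg h.p0 h.p1 fun _ _ => by positivity
  refine (pow_le_pow_left₀ h0 h1 N).trans ?_
  rw [← Real.exp_nat_mul]
  apply Real.exp_le_exp.2
  have h2 := h.Nα
  have h3 : Real.exp (15 * ∑ q ∈ Q2, pp N k q) ≤ Real.exp (15 * (2 * C2 * D)) := by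
    apply Real.exp_le_exp.2
    have h5 := sum_dyadic h D (ε * LX) h.l.le (le_refl _)
      (by have := mul_le_mul_of_nonneg_right hD h.hLX.le; linarith)
    rw [filter_true_of_mem h.hi2] at h5
    linarith
  have hα := hsd.al0
  have hN : (0 : ℝ) ≤ N := Nat.cast_nonneg N
  have h4 : N * (4 * ∏ q ∈ Q1, (1 - pp N k q)) * Real.exp (15 * ∑ q ∈ Q2, pp N k q) ≤
      4 * (C1 * lam / δ0) * Real.exp (15 * (2 * C2 * D)) :=
    mul_le_mul h2 h3 (Real.exp_pos _).le ((mul_nonneg hN hα).trans h2)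
  linarith

/-- arithmetic second moment -/
lemma second_ge2 (h : Par Q1 Q2 k hit C1 C2 lam LX lq ε δ0 J bs)
    (hsd : SD (pp N k) Q1 Q2 β (Bm Q2 (ε * LX) J) J (4 * ∏ q ∈ Q1, (1 - pp N k q)))
    (hbq : ∀ q ∈ Q1, E1 (pp N k) Q1 (fun ω => β ω ^ 2 * (if q ∈ ω then 1 else 0)) ≤
      32 * pp N k q)
    (hε : ε ≤ 3 / 800) (hsm : (N : ℝ) ^ 2 * ∑ q ∈ Q1 ∪ Q2, pp N k q ^ 2 ≤ 1 / 80000) :
    (∑ s ∈ TT Q2, nn (pp N k) (Q1 ∪ Q2) (ee (pp N k) Q1 β (Bm Q2 (ε * LX) J) J) s) ^ N / 4 *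
      (3 / 4) ≤
    ER (Q1 ∪ Q2) hit (fun ω =>
      GG (TT Q2) (ee (pp N k) Q1 β (Bm Q2 (ε * LX) J) J) (dd (hz δ0 LX bs)) (LX / 100) ω ^ 2) := by
  classical
  have hl := h.l
  have h1 := ER_GG_lower h.sys h.N0 (ee_orth hsd) (dd (hz δ0 LX bs)) (LX / 100)
    (1 / (ε * LX)) (by positivity) (half_le_A0 hsd) (C := 70) (Dq_le hsd hbq) (by linarith)
  refine le_trans ?_ h1
  have h2 := mass_le (bs := bs) h hsd
  have h0 := A0N_nn (β := β) h
  set A := (∑ s ∈ TT Q2, nn (pp N k) (Q1 ∪ Q2)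
    (ee (pp N k) Q1 β (Bm Q2 (ε * LX) J) J) s) ^ N with hA
  have hεp := h.hε
  have h3 : Real.exp (-(1 / (ε * LX) * (LX / 100))) * Real.exp (1 / (400 * ε)) ≤ 3 / 16 := by
    rw [← Real.exp_add]
    have e1 : -(1 / (ε * LX) * (LX / 100)) + 1 / (400 * ε) = -(3 / (400 * ε)) := by
      have := h.hLX.ne'
      have := h.hε.ne'
      field_simp
      norm_num
    rw [e1]
    have e2 : 2 ≤ 3 / (400 * ε) := by
      rw [le_div_iff₀ (by positivity)]
      linarith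
    calc Real.exp (-(3 / (400 * ε))) ≤ Real.exp (-2) := Real.exp_le_exp.2 (by linarith)
      _ ≤ 3 / 16 := by
        have h5 : Real.exp 2 = Real.exp 1 * Real.exp 1 := by rw [← Real.exp_add]; norm_num
        have h6 := Real.exp_one_gt_d9
        have h7 : 16 / 3 ≤ Real.exp 2 := by rw [h5]; nlinarith
        rw [Real.exp_neg, inv_eq_one_div, div_le_div_iff₀ (Real.exp_pos _) (by norm_num)]
        linarith
  have h4 := mul_le_mul_of_nonneg_left h2 (Real.exp_pos (-(1 / (ε * LX) * (LX / 100)))).le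
  have h5 := mul_le_mul_of_nonneg_right h3 h0
  linarith

end

end Pool.Agent.PosProp
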