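import Pool.Agent.Lib.PosProp.Core

/-!
# Positive proportion: the final form
-/

open Finset Pool.Agent.GapSieve

namespace Pool.Agent.PosProp

lemma exp_neg_le_two_div {y : ℝ} (hy : 0 < y) : Real.exp (-y) ≤ 2 / y ^ 2 := by
  have f1 : 1 + y + y ^ 2 / 2 ≤ Real.exp y := Real.quadratic_le_exp_of_nonneg hy.le
  rw [Real.exp_neg, inv_eq_one_div, div_le_div_iff₀ (Real.exp_pos _) (by positivity)]
  nlinarith

lemma hbig_aux {N g ε C2 LX lam Λ : ℝ} (hLX0 : 0 < LX) (hgε : g ≤ ε) (hε100 : ε ≤ 1 / 100)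
    (hεC : (2 * C2 + 1) * ε ≤ 1 / 100) (hNR : 1 ≤ N) (hNLX : N ≤ lam * LX) (_hlam : 1 ≤ lam)
    (hLc : 1250 * lam * Real.exp (6 + Λ) ≤ LX) :
    Real.exp (6 * (LX / 100) + 2) * (1 + N * (4 * (Real.exp (g * LX + 1) ^ 2 *
      Real.exp (3 * ((2 * C2 + 1) * (ε * LX)) + 1) ^ 2))) ≤ Real.exp (LX / 2) *
      (Real.exp (-Λ) / 16) := by
  have e1 : Real.exp (g * LX + 1) ^ 2 * Real.exp (3 * ((2 * C2 + 1) * (ε * LX)) + 1) ^ 2 =
      Real.exp (2 * (g * LX) + 6 * ((2 * C2 + 1) * ε * LX) + 4) := by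
    rw [← mul_pow, ← Real.exp_add, ← Real.exp_nat_mul]
    congr 1
    push_cast
    ring
  rw [e1]
  set Z := Real.exp (2 * (g * LX) + 6 * ((2 * C2 + 1) * ε * LX) + 4) with hZ
  have hZ0 : 0 < Z := Real.exp_pos _
  set Y := Real.exp (8 / 100 * LX + 4) with hY
  have e2 : Z ≤ Y := by
    apply Real.exp_le_exp.2
    have h1 : g * LX ≤ 1 / 100 * LX := mul_le_mul_of_nonneg_right (hgε.trans hε100) hLX0.le
    have h2 : (2 * C2 + 1) * ε * LX ≤ 1 / 100 * LX := mul_le_mul_of_nonneg_right hεC hLX0.le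
    linarith
  have hY1 : 1 ≤ Y := Real.one_le_exp (by positivity)
  have hN0 : 0 ≤ N := by linarith
  have hlX1 : 1 ≤ lam * LX := hNR.trans hNLX
  have e3 : 1 + N * (4 * Z) ≤ 5 * (lam * LX) * Y := by
    have h2 : N * (4 * Z) ≤ (lam * LX) * (4 * Y) :=
      mul_le_mul hNLX (by linarith) (by positivity) (by linarith)
    have h3 : 1 * 1 ≤ (lam * LX) * Y := mul_le_mul hlX1 hY1 zero_le_one (by linarith)
    linarith
  set W := Real.exp (6 + Λ) with hW
  have hW0 : 0 < W := Real.exp_pos _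
  have e4 : 80 * lam * LX * W ≤ Real.exp (36 / 100 * LX) := by
    have h1 : 1 + 36 / 100 * LX + (36 / 100 * LX) ^ 2 / 2 ≤ Real.exp (36 / 100 * LX) :=
      Real.quadratic_le_exp_of_nonneg (by positivity)
    have h2 : LX * (1250 * lam * W) ≤ LX * LX :=
      mul_le_mul_of_nonneg_left hLc hLX0.le
    have h3 : 0 ≤ LX * LX := by positivity
    have h4 : 80 * lam * LX * W = 80 / 1250 * (LX * (1250 * lam * W)) := by ring
    have h5 : (36 / 100 * LX) ^ 2 / 2 = 648 / 10000 * (LX * LX) := by ring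
    rw [h4]
    rw [h5] at h1
    linarith
  calc Real.exp (6 * (LX / 100) + 2) * (1 + N * (4 * Z))
      ≤ Real.exp (6 * (LX / 100) + 2) * (5 * (lam * LX) * Y) :=
        mul_le_mul_of_nonneg_left e3 (Real.exp_pos _).le
    _ = (80 * lam * LX * W) * (Real.exp (14 / 100 * LX) * Real.exp (-Λ) / 16) := by
        have h1 : Real.exp (6 * (LX / 100) + 2) * Y =
            W * (Real.exp (14 / 100 * LX) * Real.exp (-Λ)) := by
          rw [hY, hW, ← Real.exp_add, ← Real.exp_add, ← Real.exp_add]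
          congr 1
          ring
        calc _ = 5 * (lam * LX) * (Real.exp (6 * (LX / 100) + 2) * Y) := by ring
          _ = _ := by rw [h1]; ring
    _ ≤ Real.exp (36 / 100 * LX) * (Real.exp (14 / 100 * LX) * Real.exp (-Λ) / 16) :=
        mul_le_mul_of_nonneg_right e4 (by positivity)
    _ = Real.exp (LX / 2) * (Real.exp (-Λ) / 16) := by
        have h1 : Real.exp (36 / 100 * LX) * Real.exp (14 / 100 * LX) = Real.exp (LX / 2) := by
          rw [← Real.exp_add]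
          congr 1
          ring
        rw [← h1]
        ring

open Classical in
/-- **Positive proportion theorem** for sieving systems. -/
theorem posdens {C1 C2 lam : ℝ} (hC1 : 1 ≤ C1) (hC2 : 1 ≤ C2) (hlam : 1 ≤ lam) :
    ∃ ε : ℝ, 0 < ε ∧ ε ≤ 1 / 100 ∧ ∃ c : ℝ, 0 < c ∧ ∃ η : ℝ, 0 < η ∧
    ∀ (N : ℕ) (Q : Finset ℕ) (k : ℕ → ℕ) (hit : ℕ → Fin N → ℕ → Prop) (LX lq : ℝ),
      HitSys Q k hit → 0 < N → 1 / η ≤ LX → 1 ≤ lq → lq ≤ η * LX → N * lq ≤ lam * LX →
      (∀ q ∈ Q, lq < Real.log (q : ℕ)) → (∀ q ∈ Q, Real.log (q : ℕ) ≤ ε * LX) →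
      (∀ q ∈ Q, pp N k q ≤ 1 / 2) →
      (∀ u v, lq ≤ u → u ≤ v → v ≤ ε * LX →
        ∏ q ∈ Q with u < Real.log (q : ℕ) ∧ Real.log (q : ℕ) ≤ v, (1 - pp N k q) ≤ C1 * u / v) →
      (∀ v, 0 ≤ v → v ≤ ε * LX →
        ∑ q ∈ Q with Real.log (q : ℕ) ≤ v, pp N k q * Real.log q ≤ C2 * v) →
      ∑ q ∈ Q, ((q : ℝ) ^ 2)⁻¹ ≤ 1 → (N : ℝ) ^ 2 * ∑ q ∈ Q, pp N k q ^ 2 ≤ η →
      ∀ (B : Finset ℕ) (M E : ℝ), 0 ≤ M → 0 ≤ E → EquiD (∏ q ∈ Q, q) B M E →
        E * Real.exp (LX / 2) ≤ M →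
        c * M ≤ ((B.filter fun t => ∀ i : Fin N, ∃ q ∈ Q, hit q i t).card : ℝ) := by
  -- parameters
  obtain ⟨J, hJdef⟩ : ∃ J : ℕ, J = ⌈51200 * (C1 ^ 2 * C2 * Real.exp (4 * C2) * lam)⌉₊ := ⟨_, rfl⟩
  have hJ : 51200 * (C1 ^ 2 * C2 * Real.exp (4 * C2) * lam) ≤ J := by
    rw [hJdef]; exact Nat.le_ceil _
  have hJ0 : 0 < J := by
    have h1 : (0 : ℝ) < 51200 * (C1 ^ 2 * C2 * Real.exp (4 * C2) * lam) := by positivity
    have h2 : (0 : ℝ) < J := h1.trans_le hJ
    exact_mod_cast h2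
  obtain ⟨bs, hbsdef⟩ : ∃ bs : ℕ, bs = ⌈66 * C2⌉₊ := ⟨_, rfl⟩
  have hbs : Real.exp (66 * C2) ≤ 4 ^ bs := by
    have h1 : 66 * C2 ≤ bs := by rw [hbsdef]; exact Nat.le_ceil _
    calc Real.exp (66 * C2) ≤ Real.exp bs := Real.exp_le_exp.2 h1
      _ = Real.exp 1 ^ bs := by rw [← Real.exp_nat_mul, mul_one]
      _ ≤ 4 ^ bs := by
          refine pow_le_pow_left₀ (Real.exp_pos _).le ?_ bs
          have := Real.exp_one_lt_d9
          linarith
  have hK : 1 ≤ C1 ^ 2 * lam := one_le_mul_of_one_le_of_one_le (one_le_pow₀ hC1) hlam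
  set D : ℝ := C1 ^ 2 * lam * (Real.exp (8 * C2) + 1) with hD
  have hD1 : 2 * C2 + 1 ≤ D := by
    have h1 := Real.add_one_le_exp (8 * C2)
    have h2 : 2 * C2 + 1 ≤ Real.exp (8 * C2) + 1 := by linarith
    have h3 : 0 ≤ Real.exp (8 * C2) + 1 := by positivity
    have h4 := mul_le_mul_of_nonneg_right hK h3
    linarith
  have hD0 : 0 < D := by linarith
  set ε : ℝ := 1 / (327680000 * D) with hεdef
  have hε0 : 0 < ε := by positivity
  have hε1 : 327680000 * D * ε ≤ 1 := by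
    rw [hεdef]
    rw [mul_one_div_cancel (by positivity)]
  have hεC : (2 * C2 + 1) * ε ≤ 1 / 100 := by
    have h1 : (2 * C2 + 1) * ε ≤ D * ε := mul_le_mul_of_nonneg_right hD1 hε0.le
    linarith
  have hε100 : ε ≤ 1 / 100 := by
    have h1 : 1 * ε ≤ (2 * C2 + 1) * ε := mul_le_mul_of_nonneg_right (by linarith) hε0.le
    linarith
  set g : ℝ := ε / 2 ^ (J - 1) with hg
  have hg0 : 0 < g := by positivity
  have hgε : g ≤ ε := div_le_self hε0.le (one_le_pow₀ (by norm_num))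
  set δ0 : ℝ := g / (12 * (bs + 1)) with hδ
  have hδ0 : 0 < δ0 := by positivity
  have hδg : 12 * ((bs : ℝ) + 1) * δ0 = g := by
    rw [hδ]; field_simp
  set Λ : ℝ := 16 * (C1 ^ 2 * lam / ε * 2 ^ (J - 1)) with hΛ
  have hΛ0 : 0 ≤ Λ := by positivity
  set K4 : ℝ := Real.exp (120 * (C1 * lam / δ0 * Real.exp (15 * (C2 * ε / δ0)))) with hK4
  have hK40 : 0 < K4 := Real.exp_pos _
  set X0 : ℝ := 1 / g + lam / g ^ 2 + 1250 * lam * Real.exp (6 + Λ) with hX0
  have hX00 : 0 < X0 := by positivity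
  set η : ℝ := min (min (δ0 / (16 * C1)) (Real.exp (-(2 * Λ)) / (256 * K4))) (1 / X0) with hη
  have hη0 : 0 < η := by
    rw [hη]
    refine lt_min (lt_min ?_ ?_) ?_ <;> positivity
  have hηa : η ≤ δ0 / (16 * C1) := (min_le_left _ _).trans (min_le_left _ _)
  have hηb : η ≤ Real.exp (-(2 * Λ)) / (256 * K4) := (min_le_left _ _).trans (min_le_right _ _)
  have hηc : η ≤ 1 / X0 := min_le_right _ _
  refine ⟨ε, hε0, hε100, (Real.exp (-Λ) / 2) ^ 2 / (16 * 3 * K4), by positivity, η, hη0, ?_⟩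
  intro N Q k hit LX lq hsys hN hLXη hlq1 hlqη hNlq hlo hhi hph hV hS hinv hsm B M E hM hE hB hME
  have hLXX : X0 ≤ LX := by
    refine le_trans ?_ hLXη
    rw [le_div_iff₀ hη0]
    have := mul_le_mul_of_nonneg_left hηc hX00.le
    rw [mul_one_div_cancel hX00.ne'] at this
    exact this
  have hLX0 : 0 < LX := hX00.trans_le hLXX
  have hNR : (1 : ℝ) ≤ N := by exact_mod_cast hN
  have hNLX : (N : ℝ) ≤ lam * LX := by
    refine le_trans ?_ hNlq
    exact le_mul_of_one_le_right (by linarith) hlq1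
  have hLa : 1 ≤ g * LX := by
    have h1 : 1 / g ≤ LX := by
      refine le_trans ?_ hLXX
      rw [hX0]
      have : 0 ≤ lam / g ^ 2 + 1250 * lam * Real.exp (6 + Λ) := by positivity
      linarith
    rw [div_le_iff₀ hg0] at h1
    linarith
  have hLb : lam ≤ g ^ 2 * LX := by
    have h1 : lam / g ^ 2 ≤ LX := by
      refine le_trans ?_ hLXX
      rw [hX0]
      have : 0 ≤ 1 / g + 1250 * lam * Real.exp (6 + Λ) := by positivity
      linarith
    rw [div_le_iff₀ (by positivity)] at h1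
    linarith
  have hLc : 1250 * lam * Real.exp (6 + Λ) ≤ LX := by
    refine le_trans ?_ hLXX
    rw [hX0]
    have : 0 ≤ 1 / g + lam / g ^ 2 := by positivity
    linarith
  have hlqδ : 16 * C1 * lq ≤ δ0 * LX := by
    have h1 := mul_le_mul_of_nonneg_right hηa hLX0.le
    have h2 : lq ≤ δ0 / (16 * C1) * LX := hlqη.trans h1
    have h3 := mul_le_mul_of_nonneg_left h2 (show 0 ≤ 16 * C1 by positivity)
    have h4 : 16 * C1 * (δ0 / (16 * C1) * LX) = δ0 * LX := by field_simp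
    linarith
  have hlqδ' : lq ≤ δ0 * LX := by
    refine le_trans ?_ hlqδ
    exact le_mul_of_one_le_left (by linarith) (by linarith)
  have hp0 : ∀ q ∈ Q, 0 ≤ pp N k q := fun q hq => pp_nonneg hsys hN hq
  -- the two sets of primes
  set Q1 := Q.filter fun q : ℕ => Real.log q ≤ δ0 * LX with hQ1
  set Q2 := Q.filter fun q : ℕ => ¬ Real.log q ≤ δ0 * LX with hQ2
  have hU : Q1 ∪ Q2 = Q := filter_union_filter_not_eq _ _
  have hδε : δ0 * LX ≤ ε * LX := by
    refine mul_le_mul_of_nonneg_right ?_ hLX0.le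
    have h1 : δ0 ≤ 12 * ((bs : ℝ) + 1) * δ0 := by
      have : (1 : ℝ) ≤ 12 * ((bs : ℝ) + 1) := by
        have : (0 : ℝ) ≤ bs := Nat.cast_nonneg bs
        linarith
      exact le_mul_of_one_le_left hδ0.le this
    linarith
  have hhz : hz δ0 LX bs = g * LX + 1 := by
    unfold hz
    rw [← hδg]
    ring
  have hPar : Par Q1 Q2 k hit C1 C2 lam LX lq ε δ0 J bs :=
    { sys := by rw [hU]; exact hsys
      N0 := hN
      hC1 := hC1
      hC2 := hC2
      hlam := hlam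
      hlq := hlq1
      hLX := hLX0
      hε := hε0
      hδ := hδ0
      Nlq := hNlq
      lo1 := fun q hq => hlo q (mem_filter.1 hq).1
      hi1 := fun q hq => (mem_filter.1 hq).2
      lo2 := fun q hq => not_le.1 (mem_filter.1 hq).2
      hi2 := fun q hq => hhi q (mem_filter.1 hq).1
      ph := by rw [hU]; exact hph
      V1 := by
        have h1 := hV lq (δ0 * LX) (le_refl _) hlqδ' hδε
        have h2 : Q.filter (fun q : ℕ => lq < Real.log q ∧ Real.log q ≤ δ0 * LX) = Q1 := by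
          rw [hQ1]
          refine filter_congr fun q hq => ?_
          exact ⟨fun h => h.2, fun h => ⟨hlo q hq, h⟩⟩
        rw [h2] at h1
        exact h1
      V2 := by
        intro v hv hv'
        have h1 := hV (δ0 * LX) v hlqδ' hv hv'
        have h2 : Q2.filter (fun q : ℕ => Real.log q ≤ v) =
            Q.filter (fun q : ℕ => δ0 * LX < Real.log q ∧ Real.log q ≤ v) := by
          rw [hQ2, filter_filter]
          refine filter_congr fun q _ => ?_
          rw [not_le]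
        rw [h2]
        exact h1
      S1 := by
        intro v hv hv'
        refine le_trans (sum_le_sum_of_subset_of_nonneg ?_ fun q hq _ => ?_) (hS v hv hv')
        · exact filter_subset_filter _ (filter_subset _ _)
        · exact mul_nonneg (hp0 q (mem_filter.1 hq).1) (Real.log_natCast_nonneg q)
      S2 := by
        intro v hv hv'
        refine le_trans (sum_le_sum_of_subset_of_nonneg ?_ fun q hq _ => ?_) (hS v hv hv')
        · exact filter_subset_filter _ (filter_subset _ _)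
        · exact mul_nonneg (hp0 q (mem_filter.1 hq).1) (Real.log_natCast_nonneg q)
      inv := by rw [hU]; exact hinv
      hbs := hbs
      hJ0 := hJ0
      hJ := hJ
      hδJ := by
        have h1 : δ0 ≤ g := by
          have : (1 : ℝ) ≤ 12 * ((bs : ℝ) + 1) := by
            have : (0 : ℝ) ≤ bs := Nat.cast_nonneg bs
            linarith
          rw [← hδg]
          exact le_mul_of_one_le_left hδ0.le this
        calc δ0 * 2 ^ (J - 1) ≤ g * 2 ^ (J - 1) := by gcongr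
          _ = ε := by rw [hg]; field_simp
      hα := by
        have hl0 : 0 < δ0 * LX := mul_pos hδ0 hLX0
        rw [← mul_div_assoc, div_le_iff₀ hl0]
        linarith
      hh0 := by
        have h1 : 12 * ((bs : ℝ) + 1) * (δ0 * LX) = g * LX := by rw [← hδg]; ring
        have h2 : ε * LX / 2 ^ (J - 1) = g * LX := by rw [hg]; ring
        rw [h1, h2]
        have h3 : 1 * (g * LX) ≤ C2 * (g * LX) := mul_le_mul_of_nonneg_right hC2 (by linarith)
        linarith }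
  have hcore := posdens_core hPar hΛ hK4 hε1 (by rw [hU]; exact hsm.trans hηb) ?_ ?_ ?_
    (B := B) (M := M) (E := E) hM hE (by rw [hU]; exact hB) hME
  · rw [hU] at hcore
    exact hcore
  · -- hN2
    rw [hhz]
    have h1 : Real.exp (1 - 2 * (g * LX + 1)) ≤ Real.exp (-(2 * (g * LX))) :=
      Real.exp_le_exp.2 (by linarith)
    have h2 := exp_neg_le_two_div (y := 2 * (g * LX)) (by linarith)
    have h3 : 2 / (2 * (g * LX)) ^ 2 = 1 / (2 * (g ^ 2 * LX * LX)) := by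
      field_simp
    rw [h3] at h2
    calc N * (2 * Real.exp (1 - 2 * (g * LX + 1)))
        ≤ (lam * LX) * (2 * (1 / (2 * (g ^ 2 * LX * LX)))) := by
          refine mul_le_mul hNLX (by linarith) (by positivity) (by positivity)
      _ = lam / (g ^ 2 * LX) := by field_simp
      _ ≤ 1 := by rw [div_le_one (by positivity)]; exact hLb
  · -- hbig
    rw [hhz]
    exact hbig_aux hLX0 hgε hε100 hεC hNR hNLX hlam hLc
  · -- hbig4
    rw [← Real.exp_nat_mul]
    apply Real.exp_le_exp.2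
    have h1 : 1 ≤ Real.exp (6 + Λ) := Real.one_le_exp (by linarith)
    have h2 : 1250 ≤ LX := by
      have : 1 ≤ lam * Real.exp (6 + Λ) := one_le_mul_of_one_le_of_one_le hlam h1
      linarith
    push_cast
    linarith

open Classical in
/-- the conclusion of the positive proportion theorem -/
def PD (C1 C2 lam ε c η : ℝ) : Prop :=
    ∀ (N : ℕ) (Q : Finset ℕ) (k : ℕ → ℕ) (hit : ℕ → Fin N → ℕ → Prop) (LX lq : ℝ),
      HitSys Q k hit → 0 < N → 1 / η ≤ LX → 1 ≤ lq → lq ≤ η * LX → N * lq ≤ lam * LX →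
      (∀ q ∈ Q, lq < Real.log (q : ℕ)) → (∀ q ∈ Q, Real.log (q : ℕ) ≤ ε * LX) →
      (∀ q ∈ Q, pp N k q ≤ 1 / 2) →
      (∀ u v, lq ≤ u → u ≤ v → v ≤ ε * LX →
        ∏ q ∈ Q with u < Real.log (q : ℕ) ∧ Real.log (q : ℕ) ≤ v, (1 - pp N k q) ≤ C1 * u / v) →
      (∀ v, 0 ≤ v → v ≤ ε * LX →
        ∑ q ∈ Q with Real.log (q : ℕ) ≤ v, pp N k q * Real.log q ≤ C2 * v) →
      ∑ q ∈ Q, ((q : ℝ) ^ 2)⁻¹ ≤ 1 → (N : ℝ) ^ 2 * ∑ q ∈ Q, pp N k q ^ 2 ≤ η →
      ∀ (B : Finset ℕ) (M E : ℝ), 0 ≤ M → 0 ≤ E → EquiD (∏ q ∈ Q, q) B M E →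
        E * Real.exp (LX / 2) ≤ M →
        c * M ≤ ((B.filter fun t => ∀ i : Fin N, ∃ q ∈ Q, hit q i t).card : ℝ)

theorem exists_PD {C1 C2 lam : ℝ} (hC1 : 1 ≤ C1) (hC2 : 1 ≤ C2) (hlam : 1 ≤ lam) :
    ∃ ε : ℝ, 0 < ε ∧ ε ≤ 1 / 100 ∧ ∃ c : ℝ, 0 < c ∧ ∃ η : ℝ, 0 < η ∧ PD C1 C2 lam ε c η :=
  posdens hC1 hC2 hlam

end Pool.Agent.PosProp
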