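import Pool.Agent.Lib.PosProp.Unif3
import Pool.Agent.Lib.GapSieve.SqAddOne
import Pool.Agent.Lib.GapSieve.Mertens4
import Pool.Agent.Lib.MP_5b0a7e_nt.Wtrick

/-!
# Application to `n ^ 2 + 1`: one class
-/

open Finset Pool.Agent.GapSieve

namespace Pool.Agent.PosProp

/-- the primes used by the sieve -/
noncomputable def Q4 (Z : ℕ) (y : ℝ) : Finset ℕ :=
  (Ioc Z ⌊Real.exp y⌋₊).filter (fun q => q.Prime ∧ q % 4 = 1)

lemma mem_Q4 {Z : ℕ} {y : ℝ} {q : ℕ} :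
    q ∈ Q4 Z y ↔ Z < q ∧ (q : ℝ) ≤ Real.exp y ∧ q.Prime ∧ q % 4 = 1 := by
  unfold Q4
  rw [mem_filter, mem_Ioc, Nat.le_floor_iff (Real.exp_pos _).le, and_assoc]

lemma hitSys_sq {a P Z U : ℕ} {y : ℝ} (hUZ : U ^ 2 + 4 ≤ Z) (hP : ∀ q, q.Prime → Z < q → ¬ q ∣ P)
    {N : ℕ} (hN : 2 * N ≤ Z) (n : Fin N → ℕ) (hinj : Function.Injective n) (hn : ∀ i, n i ≤ U) :
    HitSys (Q4 Z y) (fun _ => 2) (fun q (i : Fin N) t => q ∣ (a + P * t + n i) ^ 2 + 1) := by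
  refine ⟨?_, ?_, ?_, ?_, ?_, ?_⟩
  · intro q hq
    exact (mem_Q4.1 hq).2.2.1.pos
  · intro q hq q' hq' hne
    exact (Nat.coprime_primes (mem_Q4.1 hq).2.2.1 (mem_Q4.1 hq').2.2.1).2 hne
  · intro q _ i t
    exact hit_per a P t (n i)
  · intro q hq i
    unfold hitCount
    obtain ⟨hZ, _, hp, h4⟩ := mem_Q4.1 hq
    have h1 := hit_card hp h4 a P (n i) (hP q hp hZ)
    refine Eq.trans ?_ h1
    congr
  · intro q hq i j t h1 h2
    obtain ⟨hZ, _, hp, _⟩ := mem_Q4.1 hq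
    apply hinj
    exact hit_excl hp (by omega) (a + P * t) (n i) (n j) (hn i) (hn j) h1 h2
  · intro q hq
    have := (mem_Q4.1 hq).1
    show N * 2 < q
    omega

lemma pp_two (N q : ℕ) : pp N (fun _ => 2) q = 2 / ((q : ℝ) - (N - 1) * 2) := by
  unfold pp
  simp

lemma pp_two_ge {N q : ℕ} (hN : 0 < N) (hq : 2 * N < q) : 2 / (q : ℝ) ≤ pp N (fun _ => 2) q := by
  rw [pp_two]
  have h1 : (1 : ℝ) ≤ N := by exact_mod_cast hN
  have h2 : 2 * (N : ℝ) < q := by exact_mod_cast hq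
  exact div_le_div_of_nonneg_left (by norm_num) (by linarith) (by linarith)

lemma pp_two_le {N q : ℕ} (hN : 0 < N) (hq : 4 * N < q) : pp N (fun _ => 2) q ≤ 4 / (q : ℝ) := by
  rw [pp_two]
  have h1 : (1 : ℝ) ≤ N := by exact_mod_cast hN
  have h2 : 4 * (N : ℝ) < q := by exact_mod_cast hq
  rw [div_le_div_iff₀ (by linarith) (by linarith)]
  linarith

lemma Q4_inv_sq {Z : ℕ} {y : ℝ} (hZ : Z ≠ 0) : ∑ q ∈ Q4 Z y, ((q : ℝ) ^ 2)⁻¹ ≤ 1 / Z := by
  rcases le_or_gt Z ⌊Real.exp y⌋₊ with h | h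
  · calc ∑ q ∈ Q4 Z y, ((q : ℝ) ^ 2)⁻¹ ≤ ∑ q ∈ Ioc Z ⌊Real.exp y⌋₊, ((q : ℝ) ^ 2)⁻¹ :=
          sum_le_sum_of_subset_of_nonneg (filter_subset _ _) fun q _ _ => by positivity
      _ ≤ (Z : ℝ)⁻¹ - (⌊Real.exp y⌋₊ : ℝ)⁻¹ := sum_Ioc_inv_sq_le_sub (α := ℝ) hZ h
      _ ≤ 1 / Z := by
          have : (0 : ℝ) ≤ (⌊Real.exp y⌋₊ : ℝ)⁻¹ := by positivity
          rw [one_div]
          linarith
  · have h1 : Q4 Z y = ∅ := by
      unfold Q4
      rw [Ioc_eq_empty (by omega), filter_empty]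
    rw [h1, sum_empty]
    positivity

lemma Q4_pp_sq {Z : ℕ} {y : ℝ} (hZ : Z ≠ 0) {N : ℕ} (hN : 0 < N) (hNZ : 4 * N ≤ Z) :
    ∑ q ∈ Q4 Z y, pp N (fun _ => 2) q ^ 2 ≤ 16 / Z := by
  calc ∑ q ∈ Q4 Z y, pp N (fun _ => 2) q ^ 2 ≤ ∑ q ∈ Q4 Z y, 16 * ((q : ℝ) ^ 2)⁻¹ := by
        refine sum_le_sum fun q hq => ?_
        have hq1 := (mem_Q4.1 hq).1
        have h1 := pp_two_le (N := N) (q := q) hN (by omega)
        have h2 := pp_two_ge (N := N) (q := q) hN (by omega)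
        have h3 : (0 : ℝ) ≤ 2 / q := by positivity
        calc pp N (fun _ => 2) q ^ 2 ≤ (4 / (q : ℝ)) ^ 2 := pow_le_pow_left₀ (h3.trans h2) h1 2
          _ = _ := by rw [div_pow]; norm_num; rfl
    _ = 16 * ∑ q ∈ Q4 Z y, ((q : ℝ) ^ 2)⁻¹ := by rw [mul_sum]
    _ ≤ 16 * (1 / Z) := mul_le_mul_of_nonneg_left (Q4_inv_sq hZ) (by norm_num)
    _ = _ := by ring

lemma half_le_log_floor {v : ℝ} (hv : 2 ≤ v) : v / 2 ≤ Real.log (⌊Real.exp v⌋₊ : ℕ) := by
  have h1 : (3 : ℝ) ≤ Real.exp v := by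
    have := Real.add_one_le_exp v
    linarith
  have h2 : Real.exp v - 1 < (⌊Real.exp v⌋₊ : ℕ) := by
    have := Nat.lt_floor_add_one (Real.exp v)
    linarith
  have h3 : Real.exp v = Real.exp (v / 2) * Real.exp (v / 2) := by
    rw [← Real.exp_add]
    ring_nf
  have h4 : 2 ≤ Real.exp (v / 2) := by
    have := Real.add_one_le_exp (v / 2)
    linarith
  rw [Real.le_log_iff_exp_le (by linarith)]
  have h5 : 2 * Real.exp (v / 2) ≤ Real.exp (v / 2) * Real.exp (v / 2) :=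
    mul_le_mul_of_nonneg_right h4 (Real.exp_pos _).le
  linarith

lemma Q4_H1 {C : ℝ} (hC : ∀ M K : ℕ, 2 ≤ M → M ≤ K →
    Real.log (Real.log K) - Real.log (Real.log M) - C ≤
      ∑ p ∈ Ioc M K with p.Prime ∧ p % 4 = 1, 2 / (p : ℝ))
    {Z : ℕ} {y : ℝ} (hZ : 8 ≤ Z) {N : ℕ}
    (hN : 0 < N) (hNZ : 4 * N ≤ Z) (u v : ℝ) (hu : Real.log Z ≤ u) (huv : u ≤ v) (hv : v ≤ y) :
    ∏ q ∈ Q4 Z y with u < Real.log (q : ℕ) ∧ Real.log (q : ℕ) ≤ v,
      (1 - pp N (fun _ => 2) q) ≤ 2 * Real.exp C * u / v := by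
  have hZR : (8 : ℝ) ≤ Z := by exact_mod_cast hZ
  have hlZ : 2 ≤ Real.log Z := by
    rw [Real.le_log_iff_exp_le (by linarith)]
    have h1 := Real.exp_one_lt_d9
    have h2 : Real.exp 2 = Real.exp 1 * Real.exp 1 := by rw [← Real.exp_add]; norm_num
    have h3 : Real.exp 1 * Real.exp 1 ≤ 2.7182818286 * 2.7182818286 :=
      mul_le_mul h1.le h1.le (Real.exp_pos _).le (by norm_num)
    rw [h2]
    norm_num at h3
    linarith
  have hu1 : 2 ≤ u := hlZ.trans hu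
  have hZu : (Z : ℝ) ≤ Real.exp u := (Real.log_le_iff_le_exp (by linarith)).1 hu
  have hZx : Z ≤ ⌊Real.exp u⌋₊ := Nat.le_floor hZu
  have hxy : ⌊Real.exp u⌋₊ ≤ ⌊Real.exp v⌋₊ := Nat.floor_le_floor (Real.exp_le_exp.2 huv)
  have hset : (Q4 Z y).filter (fun q : ℕ => u < Real.log (q : ℕ) ∧ Real.log (q : ℕ) ≤ v) =
      (Ioc ⌊Real.exp u⌋₊ ⌊Real.exp v⌋₊).filter (fun q => q.Prime ∧ q % 4 = 1) := by
    ext q
    rw [mem_filter, mem_Q4, mem_filter, mem_Ioc, Nat.le_floor_iff (Real.exp_pos _).le,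
      Nat.floor_lt (Real.exp_pos _).le]
    constructor
    · rintro ⟨⟨_, _, h3, h4⟩, h5, h6⟩
      have hq0 : (0 : ℝ) < q := by exact_mod_cast h3.pos
      exact ⟨⟨(Real.lt_log_iff_exp_lt hq0).1 h5, (Real.log_le_iff_le_exp hq0).1 h6⟩, h3, h4⟩
    · rintro ⟨⟨h1, h2⟩, h3, h4⟩
      have hq0 : (0 : ℝ) < q := by exact_mod_cast h3.pos
      refine ⟨⟨?_, h2.trans (Real.exp_le_exp.2 hv), h3, h4⟩, (Real.lt_log_iff_exp_lt hq0).2 h1,
        (Real.log_le_iff_le_exp hq0).2 h2⟩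
      have : (Z : ℝ) < q := hZu.trans_lt h1
      exact_mod_cast this
  rw [hset]
  have hlv := half_le_log_floor (v := v) (by linarith)
  have hlu0 : 0 < Real.log (⌊Real.exp u⌋₊ : ℕ) := by
    have := half_le_log_floor (v := u) (by linarith)
    linarith
  have hlv0 : 0 < Real.log (⌊Real.exp v⌋₊ : ℕ) := by linarith
  have hm := hC ⌊Real.exp u⌋₊ ⌊Real.exp v⌋₊ (by omega) hxy
  calc ∏ q ∈ (Ioc ⌊Real.exp u⌋₊ ⌊Real.exp v⌋₊).filter (fun q => q.Prime ∧ q % 4 = 1),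
        (1 - pp N (fun _ => 2) q)
      ≤ ∏ q ∈ (Ioc ⌊Real.exp u⌋₊ ⌊Real.exp v⌋₊).filter (fun q => q.Prime ∧ q % 4 = 1),
        Real.exp (-(2 / (q : ℝ))) := by
        refine prod_le_prod (fun q hq => ?_) fun q hq => ?_
        · have h1 := (mem_Ioc.1 (mem_filter.1 hq).1).1
          have h2 := pp_two_le (N := N) (q := q) hN (by omega)
          have h3 : (4 : ℝ) / q ≤ 1 := by
            have h4 : 4 ≤ q := by omega
            have h5 : (4 : ℝ) ≤ q := by exact_mod_cast h4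
            rw [div_le_one (by linarith)]
            exact h5
          linarith
        · have h1 := (mem_Ioc.1 (mem_filter.1 hq).1).1
          have h2 := pp_two_ge (N := N) (q := q) hN (by omega)
          have h3 := Real.add_one_le_exp (-(2 / (q : ℝ)))
          linarith
    _ = Real.exp (-∑ q ∈ (Ioc ⌊Real.exp u⌋₊ ⌊Real.exp v⌋₊).filter
          (fun q => q.Prime ∧ q % 4 = 1), 2 / (q : ℝ)) := by
        rw [← sum_neg_distrib, Real.exp_sum]
    _ ≤ Real.exp (C + Real.log (Real.log (⌊Real.exp u⌋₊ : ℕ)) -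
          Real.log (Real.log (⌊Real.exp v⌋₊ : ℕ))) := Real.exp_le_exp.2 (by linarith)
    _ = Real.exp C * Real.log (⌊Real.exp u⌋₊ : ℕ) / Real.log (⌊Real.exp v⌋₊ : ℕ) := by
        rw [Real.exp_sub, Real.exp_add, Real.exp_log hlu0, Real.exp_log hlv0]
    _ ≤ Real.exp C * u / (v / 2) := by
        have h1 : Real.log (⌊Real.exp u⌋₊ : ℕ) ≤ u := by
          rw [Real.log_le_iff_le_exp (by
            have : (Z : ℝ) ≤ (⌊Real.exp u⌋₊ : ℕ) := by exact_mod_cast hZx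
            linarith)]
          exact Nat.floor_le (Real.exp_pos _).le
        have hv0 : 0 < v / 2 := by linarith
        have h2 : Real.exp C * Real.log (⌊Real.exp u⌋₊ : ℕ) ≤ Real.exp C * u :=
          mul_le_mul_of_nonneg_left h1 (Real.exp_pos _).le
        exact div_le_div₀ (mul_nonneg (Real.exp_pos _).le (by linarith)) h2 hv0 hlv
    _ = _ := by field_simp

lemma Q4_H2 {Z : ℕ} {y : ℝ} {N : ℕ} (hN : 0 < N) (hNZ : 4 * N ≤ Z) (v : ℝ) (hv0 : 0 ≤ v) :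
    ∑ q ∈ Q4 Z y with Real.log (q : ℕ) ≤ v, pp N (fun _ => 2) q * Real.log q ≤ 12 * v := by
  rcases lt_or_ge v (Real.log 2) with hv | hv
  · have h1 : (Q4 Z y).filter (fun q : ℕ => Real.log (q : ℕ) ≤ v) = ∅ := by
      rw [filter_eq_empty_iff]
      intro q hq
      have h2 := (mem_Q4.1 hq).2.2.1.two_le
      have h3 : (2 : ℝ) ≤ q := by exact_mod_cast h2
      have h4 := Real.log_le_log (by norm_num) h3
      rw [not_le]
      linarith
    rw [h1, sum_empty]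
    linarith
  · calc ∑ q ∈ Q4 Z y with Real.log (q : ℕ) ≤ v, pp N (fun _ => 2) q * Real.log q
        ≤ ∑ q ∈ Q4 Z y with Real.log (q : ℕ) ≤ v, 4 * (Real.log q / q) := by
          refine sum_le_sum fun q hq => ?_
          have hq1 := (mem_Q4.1 (mem_filter.1 hq).1).1
          have h1 := pp_two_le (N := N) (q := q) hN (by omega)
          have h2 := mul_le_mul_of_nonneg_right h1 (Real.log_natCast_nonneg q)
          calc _ ≤ _ := h2
            _ = _ := by ring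
      _ ≤ ∑ q ∈ (Ioc 0 ⌊Real.exp v⌋₊).filter Nat.Prime, 4 * (Real.log q / q) := by
          refine sum_le_sum_of_subset_of_nonneg ?_ fun q _ _ => ?_
          · intro q hq
            obtain ⟨h1, h2⟩ := mem_filter.1 hq
            have h3 := (mem_Q4.1 h1).2.2.1
            have hq0 : (0 : ℝ) < q := by exact_mod_cast h3.pos
            exact mem_filter.2 ⟨mem_Ioc.2 ⟨h3.pos, Nat.le_floor
              ((Real.log_le_iff_le_exp hq0).1 h2)⟩, h3⟩
          · have := Real.log_natCast_nonneg q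
            positivity
      _ = 4 * ∑ q ∈ (Ioc 0 ⌊Real.exp v⌋₊).filter Nat.Prime, Real.log q / q := by rw [mul_sum]
      _ ≤ 4 * (Real.log (⌊Real.exp v⌋₊ : ℕ) + Real.log 4) := by
          refine mul_le_mul_of_nonneg_left (LPAP.sum_log_div_le _ ?_) (by norm_num)
          exact Nat.floor_pos.2 (Real.one_le_exp hv0)
      _ ≤ 4 * (v + 2 * v) := by
          have h1 : 0 < ⌊Real.exp v⌋₊ := Nat.floor_pos.2 (Real.one_le_exp hv0)
          have h2 : Real.log (⌊Real.exp v⌋₊ : ℕ) ≤ v := by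
            rw [Real.log_le_iff_le_exp (by exact_mod_cast h1)]
            exact Nat.floor_le (Real.exp_pos _).le
          have h3 : Real.log 4 = 2 * Real.log 2 := by
            rw [show (4 : ℝ) = 2 ^ 2 by norm_num, Real.log_pow]
            norm_num
          linarith
      _ = _ := by ring

lemma equiD_Ioc {T0 T1 : ℕ} (h : T0 ≤ T1) (P : ℕ) :
    EquiD P (Ioc T0 T1) ((T1 : ℝ) - T0) 1 := by
  intro m _ hm1 c hc
  have h1 : (Ioc T0 T1).filter (fun t => t % m = c) =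
      (Ioc T0 T1).filter (fun b => b ≡ c [MOD m]) := by
    refine filter_congr fun b _ => ?_
    unfold Nat.ModEq
    rw [Nat.mod_eq_of_lt hc]
  rw [h1]
  exact LPAP.count_mod T0 T1 m c hm1 h

open Classical in
/-- one class -/
lemma class_count_sq {lam K0 K C : ℝ} (hC : ∀ M K : ℕ, 2 ≤ M → M ≤ K →
    Real.log (Real.log K) - Real.log (Real.log M) - C ≤
      ∑ p ∈ Ioc M K with p.Prime ∧ p % 4 = 1, 2 / (p : ℝ))
    (hUD : UD (2 * Real.exp C) 12 K0 K) (hlam : 1 ≤ lam)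
    {LX : ℝ} {Z U T0 T1 P : ℕ} (a : ℕ) (hZ : 8 ≤ Z)
    (hlZ : Real.exp (K * lam) * Real.log Z ≤ LX) (hUZ : U ^ 2 + 4 ≤ Z)
    (hP : ∀ q, q.Prime → Z < q → ¬ q ∣ P)
    (S : Finset ℕ) (hS : ∀ j ∈ S, j ≤ U) (hS0 : S.Nonempty) (hN1 : 4 * S.card ≤ Z)
    (hN2 : S.card * Real.log Z ≤ lam * LX) (hN3 : (S.card : ℝ) ^ 2 * (16 / Z) ≤ 1 / 80000)
    (hT : T0 ≤ T1) (hE : Real.exp (LX / 2) ≤ (T1 : ℝ) - T0) :
    Real.exp (-Real.exp (K * lam)) * ((T1 : ℝ) - T0) ≤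
      (((Ioc T0 T1).filter (fun t => ∀ n ∈ S, ∃ q : ℕ, q.Prime ∧
        (q : ℝ) ≤ Real.exp (LX / (K0 * lam)) ∧ q ∣ (a + P * t + n) ^ 2 + 1)).card : ℝ) := by
  classical
  set N := S.card with hN
  have hN0 : 0 < N := card_pos.2 hS0
  set n : Fin N → ℕ := fun i => S.orderEmbOfFin rfl i with hn
  have hnS : ∀ i, n i ∈ S := fun i => orderEmbOfFin_mem S rfl i
  have hinj : Function.Injective n := (S.orderEmbOfFin rfl).injective
  have hZR : (8 : ℝ) ≤ Z := by exact_mod_cast hZ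
  have hlZ1 : 1 ≤ Real.log Z := by
    rw [Real.le_log_iff_exp_le (by linarith)]
    have := Real.exp_one_lt_d9
    linarith
  have hsys := hitSys_sq (a := a) (P := P) (Z := Z) (U := U) (y := LX / (K0 * lam)) hUZ hP
    (N := N) (by omega) n hinj (fun i => hS _ (hnS i))
  have key := hUD lam hlam N (Q4 Z (LX / (K0 * lam))) (fun _ => 2)
    (fun q (i : Fin N) t => q ∣ (a + P * t + n i) ^ 2 + 1) LX
    (Real.log Z) hsys hN0 hlZ1 hlZ hN2 ?_ ?_ ?_ ?_ ?_ ?_ ?_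
    (Ioc T0 T1) ((T1 : ℝ) - T0) 1 ?_ zero_le_one (equiD_Ioc hT _) (by rw [one_mul]; exact hE)
  · refine key.trans ?_
    refine Nat.cast_le.2 (card_le_card ?_)
    intro b hb
    simp only [mem_filter] at hb ⊢
    obtain ⟨h1, h2⟩ := hb
    refine ⟨h1, fun m hm => ?_⟩
    obtain ⟨i, hi⟩ : ∃ i, n i = m := by
      have h3 : m ∈ Set.range (S.orderEmbOfFin rfl) := by
        rw [range_orderEmbOfFin]
        exact hm
      exact h3
    obtain ⟨q, hq, hqd⟩ := h2 i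
    obtain ⟨_, hq2, hq3, _⟩ := mem_Q4.1 hq
    rw [hi] at hqd
    exact ⟨q, hq3, hq2, hqd⟩
  · intro q hq
    exact Real.log_lt_log (by linarith) (by exact_mod_cast (mem_Q4.1 hq).1)
  · intro q hq
    obtain ⟨_, h2, h3, _⟩ := mem_Q4.1 hq
    rw [Real.log_le_iff_le_exp (by exact_mod_cast h3.pos)]
    exact h2
  · intro q hq
    have h1 := (mem_Q4.1 hq).1
    have h2 := pp_two_le (N := N) (q := q) hN0 (by omega)
    refine h2.trans ?_
    have h4 : 8 ≤ q := by omega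
    have h5 : (8 : ℝ) ≤ q := by exact_mod_cast h4
    rw [div_le_div_iff₀ (by linarith) (by norm_num)]
    linarith
  · intro u v hu huv hv
    exact Q4_H1 hC hZ hN0 hN1 u v hu huv hv
  · intro v hv _
    exact Q4_H2 hN0 hN1 v hv
  · refine (Q4_inv_sq (by omega)).trans ?_
    rw [div_le_one (by linarith)]
    linarith
  · have h1 := Q4_pp_sq (Z := Z) (y := LX / (K0 * lam)) (by omega) hN0 hN1
    exact (mul_le_mul_of_nonneg_left h1 (by positivity)).trans hN3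
  · have h1 : (T0 : ℝ) ≤ T1 := by exact_mod_cast hT
    linarith

end Pool.Agent.PosProp
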