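import Pool.Agent.Lib.PosProp.Sq1
import Pool.Agent.Lib.PosProp.App4

/-!
# Application to `n ^ 2 + 1`: positive proportion of long intervals without primes, uniformly
-/

open Finset Pool.Agent.GapSieve

namespace Pool.Agent.PosProp

/-- the average number of survivors, upper bound -/
lemma surv_avg_le {C : ℝ} (hC : ∀ M K : ℕ, 2 ≤ M → M ≤ K →
    Real.log (Real.log K) - Real.log (Real.log M) - C ≤
      ∑ p ∈ Ioc M K with p.Prime ∧ p % 4 = 1, 2 / (p : ℝ)) (z U : ℕ) (hz : 2 ≤ z) :
    ∑ a ∈ range (∏ p ∈ smallP z, p), ((surv z U a).card : ℝ) ≤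
      ((∏ p ∈ smallP z, p : ℕ) : ℝ) * (U * Real.exp C / Real.log z) := by
  have hpr : ∀ p ∈ smallP z, p.Prime ∧ p % 4 = 1 := fun p hp => (mem_filter.1 hp).2
  set P := ∏ p ∈ smallP z, p with hP
  have hPpos : 0 < P := prod_pos fun p hp => (hpr p hp).1.pos
  have hPR : (0 : ℝ) < P := by exact_mod_cast hPpos
  have hlz : 0 < Real.log z := Real.log_pos (by exact_mod_cast hz)
  have h1 := surv_avg z U
  have h2 : ∏ p ∈ smallP z, ((p : ℝ) - 2) = P * ∏ p ∈ smallP z, (1 - 2 / (p : ℝ)) := by
    rw [hP, Nat.cast_prod, ← prod_mul_distrib]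
    refine prod_congr rfl fun p hp => ?_
    have : (p : ℝ) ≠ 0 := by exact_mod_cast (hpr p hp).1.ne_zero
    field_simp
  have h3 : ∏ p ∈ smallP z, (1 - 2 / (p : ℝ)) ≤ Real.exp C / Real.log z := by
    have h4 : ∏ p ∈ smallP z, (1 - 2 / (p : ℝ)) ≤ Real.exp (-∑ p ∈ smallP z, 2 / (p : ℝ)) := by
      rw [← sum_neg_distrib, Real.exp_sum]
      refine prod_le_prod (fun p hp => ?_) fun p _ => ?_
      · have h5 : (2 : ℝ) ≤ p := by exact_mod_cast (hpr p hp).1.two_le
        have : (2 : ℝ) / p ≤ 1 := by rw [div_le_one (by linarith)]; exact h5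
        linarith
      · have := Real.add_one_le_exp (-(2 / (p : ℝ)))
        linarith
    refine h4.trans ?_
    have h6 : Real.log (Real.log z) - Real.log (Real.log ((2 : ℕ) : ℝ)) - C ≤
        ∑ p ∈ smallP z, 2 / (p : ℝ) := hC 2 z le_rfl hz
    have h7 : Real.log (Real.log ((2 : ℕ) : ℝ)) ≤ 0 := by
      have := Real.log_two_lt_d9
      have := Real.log_two_gt_d9
      refine Real.log_nonpos (by push_cast; linarith) (by push_cast; linarith)
    have h8 : Real.exp C / Real.log z = Real.exp (C - Real.log (Real.log z)) := by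
      rw [Real.exp_sub, Real.exp_log hlz]
    rw [h8]
    refine Real.exp_le_exp.2 ?_
    generalize ∑ p ∈ smallP z, 2 / (p : ℝ) = S at h6 ⊢
    generalize Real.log (Real.log z) = A at h6 ⊢
    generalize Real.log (Real.log ((2 : ℕ) : ℝ)) = B at h6 h7
    linarith
  rw [h1, h2]
  have h11 := mul_le_mul_of_nonneg_left h3 (show (0 : ℝ) ≤ U * P by positivity)
  calc (U : ℝ) * (P * ∏ p ∈ smallP z, (1 - 2 / (p : ℝ))) =
        U * P * ∏ p ∈ smallP z, (1 - 2 / (p : ℝ)) := by ring
    _ ≤ U * P * (Real.exp C / Real.log z) := h11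
    _ = P * (U * Real.exp C / Real.log z) := by ring

/-- half of the classes are good -/
lemma half_good {z U P : ℕ} {A : ℝ} (hA : 0 < A)
    (h : ∑ a ∈ range P, ((surv z U a).card : ℝ) ≤ P * A) :
    (P : ℝ) ≤ 2 * (((range P).filter fun a => ((surv z U a).card : ℝ) ≤ 2 * A).card : ℝ) := by
  classical
  set G := (range P).filter fun a => ((surv z U a).card : ℝ) ≤ 2 * A with hG
  set Bd := (range P).filter fun a => ¬ ((surv z U a).card : ℝ) ≤ 2 * A with hBd
  have h1 : (G.card : ℝ) + Bd.card = P := by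
    have := card_filter_add_card_filter_not (s := range P)
      (fun a => ((surv z U a).card : ℝ) ≤ 2 * A)
    rw [card_range] at this
    exact_mod_cast this
  have h2 : (Bd.card : ℝ) * (2 * A) ≤ ∑ a ∈ range P, ((surv z U a).card : ℝ) := by
    calc (Bd.card : ℝ) * (2 * A) = ∑ a ∈ Bd, 2 * A := by rw [sum_const, nsmul_eq_mul]
      _ ≤ ∑ a ∈ Bd, ((surv z U a).card : ℝ) :=
          sum_le_sum fun a ha => (not_le.1 (mem_filter.1 ha).2).le
      _ ≤ _ := sum_le_sum_of_subset_of_nonneg (filter_subset _ _) fun _ _ _ => Nat.cast_nonneg _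
  have h3 : (Bd.card : ℝ) * 2 ≤ P := by
    have h4 : (Bd.card : ℝ) * 2 * A ≤ P * A := by linarith
    exact le_of_mul_le_mul_right h4 hA
  linarith

/-- counting along classes -/
lemma classes_inj {P : ℕ} (hP : 0 < P) (G : Finset ℕ) (hG : G ⊆ range P)
    (F : ℕ → Finset ℕ) {κ : ℝ}
    (hκ : ∀ a ∈ G, κ ≤ ((F a).card : ℝ)) (R : Finset ℕ)
    (hR : ∀ a ∈ G, ∀ t ∈ F a, a + P * t ∈ R) : (G.card : ℝ) * κ ≤ (R.card : ℝ) := by
  classical
  have h1 : (G.sigma F).card ≤ R.card := by
    refine card_le_card_of_injOn (fun x => x.1 + P * x.2) ?_ ?_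
    · intro x hx
      rw [mem_coe, mem_sigma] at hx
      exact hR _ hx.1 _ hx.2
    · intro x hx y hy hxy
      rw [mem_coe, mem_sigma] at hx hy
      have hx1 := mem_range.1 (hG hx.1)
      have hy1 := mem_range.1 (hG hy.1)
      simp only at hxy
      have h2 : x.1 = y.1 := by
        have h3 : (x.1 + P * x.2) % P = (y.1 + P * y.2) % P := by rw [hxy]
        rwa [Nat.add_mul_mod_self_left, Nat.add_mul_mod_self_left, Nat.mod_eq_of_lt hx1,
          Nat.mod_eq_of_lt hy1] at h3
      have h4 : x.2 = y.2 := by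
        rw [h2] at hxy
        have h5 : P * x.2 = P * y.2 := by omega
        exact Nat.eq_of_mul_eq_mul_left hP h5
      exact Sigma.ext h2 (heq_of_eq h4)
  rw [card_sigma] at h1
  calc (G.card : ℝ) * κ = ∑ a ∈ G, κ := by rw [sum_const, nsmul_eq_mul]
    _ ≤ ∑ a ∈ G, ((F a).card : ℝ) := sum_le_sum hκ
    _ ≤ R.card := by exact_mod_cast h1

lemma not_prime_sq {q m : ℕ} (hq : q.Prime) (hqm : q ≤ m) (h : q ∣ m ^ 2 + 1) :
    ¬ (m ^ 2 + 1).Prime := by
  intro hp
  have h1 := (Nat.prime_dvd_prime_iff_eq hq hp).1 h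
  have h2 : m ≤ m ^ 2 := Nat.le_self_pow (by norm_num) m
  omega

/-- numerics in `L` -/
lemma exp_big {L : ℝ} (hL : 10000 ≤ L) :
    L ^ 2 + Real.exp (L / 4) + 4 ≤ Real.exp (L / 2) ∧
      4 * Real.exp (L / 25) * Real.exp (L / 2) ≤ Real.exp L := by
  have h0 : 0 < L := by linarith
  have h1 : 1 + L / 4 + (L / 4) ^ 2 / 2 ≤ Real.exp (L / 4) :=
    Real.quadratic_le_exp_of_nonneg (by positivity)
  have h2 : Real.exp (L / 2) = Real.exp (L / 4) * Real.exp (L / 4) := by
    rw [← Real.exp_add]; congr 1; ring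
  have h3 : (L / 4) ^ 2 / 2 = L ^ 2 / 32 := by ring
  rw [h3] at h1
  have h4 : 0 ≤ L ^ 2 := by positivity
  constructor
  · have h5 : 100 ≤ Real.exp (L / 4) := by linarith
    have h6 : 100 * Real.exp (L / 4) ≤ Real.exp (L / 4) * Real.exp (L / 4) :=
      mul_le_mul_of_nonneg_right h5 (Real.exp_pos _).le
    linarith
  · have h5 : 4 ≤ Real.exp (L / 4) := by linarith
    calc 4 * Real.exp (L / 25) * Real.exp (L / 2)
        ≤ Real.exp (L / 4) * Real.exp (L / 25) * Real.exp (L / 2) := by gcongr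
      _ = Real.exp (L / 4 + L / 25 + L / 2) := by rw [Real.exp_add, Real.exp_add]
      _ ≤ Real.exp L := Real.exp_le_exp.2 (by linarith)

open Classical in
theorem sq_main : ∃ c : ℝ, 0 < c ∧ ∃ C X₀ : ℝ, ∀ X : ℝ, X₀ ≤ X → ∀ lam : ℝ, 1 ≤ lam →
    lam ≤ c * Real.log (Real.log X) →
    Real.exp (-Real.exp (C * lam)) * X ≤ (((range (⌊X⌋₊ + 1)).filter fun n : ℕ =>
      (n : ℝ) + lam * Real.log X ≤ X ∧
      ∀ m : ℕ, n < m → (m : ℝ) ≤ n + lam * Real.log X → ¬ (m ^ 2 + 1).Prime).card : ℝ) := by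
  obtain ⟨C4, hC40, hC4⟩ := mertens4
  set E := Real.exp C4 with hE
  have hE1 : 1 ≤ E := Real.one_le_exp hC40
  obtain ⟨K0, K, hK0, hK1, hUD⟩ := exists_UD (C1 := 2 * Real.exp C4) (C2 := 12)
    (by rw [← hE]; linarith) (by norm_num)
  obtain ⟨L0, hL0⟩ := exists_largeL
  refine ⟨1 / (60 * E * K), by positivity, 30 * E * K + 3, Real.exp L0, ?_⟩
  intro X hX lam hlam hlamu
  have hX0 : 0 < X := (Real.exp_pos _).trans_le hX
  have hL : L0 ≤ Real.log X := (Real.le_log_iff_exp_le hX0).2 hX
  obtain ⟨n1, n4, n5⟩ := hL0 _ hL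
  set L := Real.log X with hLdef
  have hLX : Real.exp L = X := Real.exp_log hX0
  have hLpos : 0 < L := by linarith
  set ll := Real.log L with hll
  have hll1 : 1 ≤ ll := by
    rw [hll, Real.le_log_iff_exp_le hLpos]
    have := Real.exp_one_lt_d9
    linarith
  have hll0 : 0 < ll := by linarith
  have hexpll : Real.exp ll = L := Real.exp_log hLpos
  have hllL : 240 * ll ≤ L := by
    have h1 : 1 * ll ≤ ll * ll := mul_le_mul_of_nonneg_right hll1 hll0.le
    rw [pow_two] at n5
    linarith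
  have hlam0 : 0 < lam := by linarith
  have hlamll : 60 * (K * (E * lam)) ≤ ll := by
    have h1 := mul_le_mul_of_nonneg_left hlamu (show 0 ≤ 60 * E * K by positivity)
    have h2 : 60 * E * K * (1 / (60 * E * K) * ll) = ll := by field_simp
    linarith
  have hElam : lam ≤ E * lam := le_mul_of_one_le_left hlam0.le hE1
  have hKElam : E * lam ≤ K * (E * lam) := le_mul_of_one_le_left (by linarith) hK1
  have hEl : 60 * (E * lam) ≤ ll := by linarith
  -- the parameters
  set z := ⌈L / 100⌉₊ with hz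
  have hzL : L / 100 ≤ (z : ℝ) := Nat.le_ceil _
  have hzL' : (z : ℝ) ≤ L / 50 := by
    have := (Nat.ceil_lt_add_one (show 0 ≤ L / 100 by positivity)).le
    linarith
  have hz2 : 2 ≤ z := by
    have : (2 : ℝ) ≤ z := by linarith
    exact_mod_cast this
  have hlz : ll / 2 ≤ Real.log z := (half_log_le n1).trans (Real.log_le_log (by positivity) hzL)
  set P := ∏ p ∈ smallP z, p with hPdef
  have hpr : ∀ p ∈ smallP z, p.Prime ∧ p % 4 = 1 := fun p hp => (mem_filter.1 hp).2
  have hP0 : 0 < P := prod_pos fun p hp => (hpr p hp).1.pos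
  have hPR : (0 : ℝ) < P := by exact_mod_cast hP0
  have hPle : (P : ℝ) ≤ Real.exp (L / 25) :=
    (prod_smallP_le z).trans (Real.exp_le_exp.2 (by linarith))
  set Z := ⌈L⌉₊ ^ 3 with hZdef
  have hceil : L ≤ (⌈L⌉₊ : ℝ) := Nat.le_ceil _
  have hceil' : (⌈L⌉₊ : ℝ) ≤ L + 1 := (Nat.ceil_lt_add_one hLpos.le).le
  have hZL : L ^ 3 ≤ Z := by
    rw [hZdef]; push_cast
    exact pow_le_pow_left₀ hLpos.le hceil 3
  have hL2 : L ^ 2 * 10000 ≤ L ^ 3 := by
    have h1 : L ^ 3 = L ^ 2 * L := by ring
    rw [h1]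
    exact mul_le_mul_of_nonneg_left n1 (by positivity)
  have hL1 : L * 10000 ≤ L ^ 2 := by
    rw [pow_two]
    exact mul_le_mul_of_nonneg_left n1 hLpos.le
  have hZ8 : 8 ≤ Z := by
    have : (8 : ℝ) ≤ Z := by linarith
    exact_mod_cast this
  have hlZ : Real.log Z ≤ 6 * ll := by
    have h1 : (⌈L⌉₊ : ℝ) ≤ L ^ 2 := by linarith
    have h2 : (Z : ℝ) ≤ (L ^ 2) ^ 3 := by
      rw [hZdef]; push_cast
      exact pow_le_pow_left₀ (by positivity) h1 3
    calc Real.log Z ≤ Real.log ((L ^ 2) ^ 3) := Real.log_le_log (by positivity) h2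
      _ = 6 * ll := by
          rw [← pow_mul, Real.log_pow]
          norm_num
          rfl
  have hlZ0 : 0 ≤ Real.log Z := Real.log_natCast_nonneg Z
  set U := ⌊lam * L⌋₊ with hU
  have hUle : (U : ℝ) ≤ lam * L := Nat.floor_le (by positivity)
  have hU0 : 0 < U := by
    refine Nat.floor_pos.2 ?_
    have : 1 * 1 ≤ lam * L := mul_le_mul hlam (by linarith) zero_le_one (by linarith)
    linarith
  have hUR : (1 : ℝ) ≤ U := by exact_mod_cast hU0
  have hlamll' : lam ≤ ll := by linarith
  have hlamL : lam * L ≤ L ^ 2 / 240 := by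
    have h1 : lam * L ≤ ll * L := mul_le_mul_of_nonneg_right hlamll' hLpos.le
    have h2 : 240 * ll * L ≤ L * L := mul_le_mul_of_nonneg_right hllL hLpos.le
    rw [pow_two]
    linarith
  have hUZ : U ^ 2 + 4 ≤ Z := by
    have h1 : (U : ℝ) ^ 2 ≤ (lam * L) ^ 2 := pow_le_pow_left₀ (Nat.cast_nonneg _) hUle 2
    have h2 : (lam * L) ^ 2 ≤ (ll * L) ^ 2 :=
      pow_le_pow_left₀ (by positivity) (mul_le_mul_of_nonneg_right hlamll' hLpos.le) 2
    have h3 : (ll * L) ^ 2 ≤ L ^ 3 / 2 := by
      have h4 : 2 * ll ^ 2 ≤ L := by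
        have : 0 ≤ ll ^ 2 := by positivity
        linarith
      have h5 : 2 * ll ^ 2 * L ^ 2 ≤ L * L ^ 2 := mul_le_mul_of_nonneg_right h4 (by positivity)
      have h6 : (ll * L) ^ 2 = ll ^ 2 * L ^ 2 := by ring
      have h7 : L ^ 3 = L * L ^ 2 := by ring
      rw [h6, h7]
      linarith
    have h8 : (U : ℝ) ^ 2 + 4 ≤ Z := by linarith
    exact_mod_cast h8
  set A := U * E / Real.log z with hA
  have hlz0 : 0 < Real.log z := by linarith
  have hA0 : 0 < A := by positivity
  have hAle : A ≤ 2 * E * lam * L / ll := by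
    calc A ≤ (lam * L) * E / (ll / 2) := by
          refine div_le_div₀ (by positivity) ?_ (by positivity) hlz
          exact mul_le_mul_of_nonneg_right hUle (by positivity)
      _ = _ := by field_simp
  have havg := surv_avg_le hC4 z U hz2
  have hhalf := half_good (z := z) (U := U) (P := P) hA0 havg
  -- the ranges
  obtain ⟨b1, b2⟩ := exp_big n1
  set T0 := ⌈Real.exp (L / 4)⌉₊ with hT0
  set T1 := ⌊(X - lam * L) / P⌋₊ - 1 with hT1
  have hT0le : (T0 : ℝ) ≤ Real.exp (L / 4) + 1 := (Nat.ceil_lt_add_one (Real.exp_pos _).le).le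
  have hT0ge : Real.exp (L / 4) ≤ (T0 : ℝ) := Nat.le_ceil _
  have hXP : 4 * Real.exp (L / 2) ≤ X / P := by
    rw [le_div_iff₀ hPR, ← hLX]
    calc 4 * Real.exp (L / 2) * P ≤ 4 * Real.exp (L / 2) * Real.exp (L / 25) :=
          mul_le_mul_of_nonneg_left hPle (by positivity)
      _ = 4 * Real.exp (L / 25) * Real.exp (L / 2) := by ring
      _ ≤ _ := b2
  have hP1R : (1 : ℝ) ≤ P := by exact_mod_cast hP0
  have hlP : lam * L / P ≤ L ^ 2 := by
    refine (div_le_self (by positivity) hP1R).trans ?_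
    have : 0 ≤ L ^ 2 := by positivity
    linarith
  have hfl : X / P - L ^ 2 - 1 ≤ (⌊(X - lam * L) / P⌋₊ : ℝ) := by
    have h1 := (Nat.lt_floor_add_one ((X - lam * L) / P)).le
    rw [sub_div] at h1 ⊢
    linarith
  have hexp1 : 1 ≤ Real.exp (L / 4) := Real.one_le_exp (by positivity)
  have hfl1 : 1 ≤ ⌊(X - lam * L) / P⌋₊ := by
    have : (1 : ℝ) ≤ (⌊(X - lam * L) / P⌋₊ : ℝ) := by linarith
    exact_mod_cast this
  have hT1R : (T1 : ℝ) = (⌊(X - lam * L) / P⌋₊ : ℝ) - 1 := by
    rw [hT1]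
    push_cast [Nat.cast_sub hfl1]
    ring
  have hM : X / (2 * P) ≤ (T1 : ℝ) - T0 := by
    have h1 : X / (2 * P) = X / P / 2 := by rw [div_div, mul_comm]
    rw [h1, hT1R]
    linarith
  have hMexp : Real.exp (L / 2) ≤ (T1 : ℝ) - T0 := by
    have h1 : X / (2 * P) = X / P / 2 := by rw [div_div, mul_comm]
    rw [h1] at hM
    have := Real.exp_pos (L / 2)
    linarith
  have hT01 : T0 ≤ T1 := by
    have : (T0 : ℝ) ≤ T1 := by
      have := Real.exp_pos (L / 2)
      linarith
    exact_mod_cast this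
  -- good classes
  set G := (range P).filter fun a => ((surv z U a).card : ℝ) ≤ 2 * A with hG
  set F : ℕ → Finset ℕ := fun a => (Ioc T0 T1).filter (fun t => ∀ n ∈ insert 1 (surv z U a),
    ∃ q : ℕ, q.Prime ∧ (q : ℝ) ≤ Real.exp (L / (K0 * (30 * E * lam))) ∧
      q ∣ (a + P * t + n) ^ 2 + 1) with hF
  have hκ : ∀ a ∈ G, Real.exp (-Real.exp (K * (30 * E * lam))) * (X / (2 * P)) ≤
      ((F a).card : ℝ) := by
    intro a ha
    have hsa := (mem_filter.1 ha).2
    have hcard : (((insert 1 (surv z U a) : Finset ℕ).card : ℕ) : ℝ) ≤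
        4 * E * lam * L / ll + 1 := by
      have h1 : (insert 1 (surv z U a) : Finset ℕ).card ≤ (surv z U a).card + 1 :=
        card_insert_le _ _
      have h2 : (((insert 1 (surv z U a) : Finset ℕ).card : ℕ) : ℝ) ≤
          ((surv z U a).card : ℝ) + 1 := by exact_mod_cast h1
      have h3 : 2 * A ≤ 4 * E * lam * L / ll := by
        calc 2 * A ≤ 2 * (2 * E * lam * L / ll) := by linarith
          _ = _ := by ring
      linarith
    have hElL : 1 ≤ E * lam * L := by
      have h1 : 1 * 1 ≤ E * lam := mul_le_mul hE1 hlam zero_le_one (by linarith)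
      have h2 : 1 * 1 ≤ E * lam * L := mul_le_mul (by linarith) (by linarith) zero_le_one
        (by linarith)
      linarith
    have hcard2 : (((insert 1 (surv z U a) : Finset ℕ).card : ℕ) : ℝ) ≤ 5 * (E * lam * L) := by
      refine hcard.trans ?_
      have h1 : 4 * E * lam * L / ll ≤ 4 * E * lam * L := div_le_self (by positivity) hll1
      linarith
    have hElL2 : E * lam * L ≤ L ^ 2 / 240 := by
      have h1 : E * lam * L ≤ ll * L := mul_le_mul_of_nonneg_right (by linarith) hLpos.le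
      have h2 : 240 * ll * L ≤ L * L := mul_le_mul_of_nonneg_right hllL hLpos.le
      rw [pow_two]
      linarith
    have hmain := class_count_sq hC4 hUD (lam := 30 * E * lam) (by linarith) (LX := L) (Z := Z)
      (U := U) (T0 := T0) (T1 := T1) (P := P) a hZ8 ?_ hUZ ?_ (insert 1 (surv z U a)) ?_
      (insert_nonempty _ _) ?_ ?_ ?_ hT01 hMexp
    · refine le_trans ?_ hmain
      exact mul_le_mul_of_nonneg_left hM (Real.exp_pos _).le
    · -- exp * log Z ≤ LX
      have h1 : Real.exp (K * (30 * E * lam)) ≤ Real.sqrt L := by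
        have h2 : Real.sqrt L = Real.exp (ll / 2) := by
          rw [← hexpll, Real.exp_half]
        rw [h2]
        exact Real.exp_le_exp.2 (by linarith)
      have h3 : Real.sqrt L * Real.sqrt L = L := Real.mul_self_sqrt hLpos.le
      have h4 : 0 ≤ Real.sqrt L := Real.sqrt_nonneg L
      calc Real.exp (K * (30 * E * lam)) * Real.log Z ≤ Real.sqrt L * (6 * ll) :=
            mul_le_mul h1 hlZ hlZ0 h4
        _ = 6 * (Real.sqrt L * ll) := by ring
        _ ≤ 6 * (Real.sqrt L * (Real.sqrt L / 24)) := by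
            have h5 : ll ≤ Real.sqrt L / 24 := n4
            have h6 := mul_le_mul_of_nonneg_left h5 h4
            linarith
        _ = L / 4 := by
            have h7 : 6 * (Real.sqrt L * (Real.sqrt L / 24)) =
              (Real.sqrt L * Real.sqrt L) / 4 := by ring
            rw [h7, h3]
        _ ≤ L := by linarith
    · -- no large prime divides P
      intro q hq hZq hd
      rw [hPdef, Prime.dvd_finsetProd_iff hq.prime] at hd
      obtain ⟨p, hp, hqp⟩ := hd
      have h1 := (Nat.prime_dvd_prime_iff_eq hq (hpr p hp).1).1 hqp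
      have h2 := (mem_Ioc.1 (mem_filter.1 hp).1).2
      have h3 : (z : ℝ) ≤ Z := by linarith
      have h4 : z ≤ Z := by exact_mod_cast h3
      omega
    · intro j hj
      rw [mem_insert] at hj
      rcases hj with rfl | hj
      · exact hU0
      · exact (mem_Ioc.1 (mem_filter.1 hj).1).2
    · -- 4 card ≤ Z
      have h1 : (4 : ℝ) * ((insert 1 (surv z U a) : Finset ℕ).card : ℕ) ≤ Z := by linarith
      exact_mod_cast h1
    · -- card * log Z
      calc (((insert 1 (surv z U a) : Finset ℕ).card : ℕ) : ℝ) * Real.log Z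
          ≤ (4 * E * lam * L / ll + 1) * (6 * ll) :=
            mul_le_mul hcard hlZ hlZ0 (by positivity)
        _ = 24 * (E * lam * L) + 6 * ll := by field_simp; ring
        _ ≤ 30 * E * lam * L := by
          have h1 : 1 * L ≤ E * lam * L := by
            refine mul_le_mul_of_nonneg_right ?_ hLpos.le
            linarith
          linarith
    · -- card ^ 2
      have h1 : (((insert 1 (surv z U a) : Finset ℕ).card : ℕ) : ℝ) ^ 2 ≤
          (5 * (E * lam * L)) ^ 2 := pow_le_pow_left₀ (Nat.cast_nonneg _) hcard2 2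
      have hL3 : 0 < L ^ 3 := by positivity
      have h2 : (16 : ℝ) / Z ≤ 16 / L ^ 3 := div_le_div_of_nonneg_left (by norm_num) hL3 hZL
      calc (((insert 1 (surv z U a) : Finset ℕ).card : ℕ) : ℝ) ^ 2 * (16 / Z)
          ≤ (5 * (E * lam * L)) ^ 2 * (16 / L ^ 3) :=
            mul_le_mul h1 h2 (by positivity) (by positivity)
        _ = 400 * (E * lam) ^ 2 / L := by field_simp; ring
        _ ≤ 1 / 80000 := by
            rw [div_le_div_iff₀ hLpos (by norm_num)]
            have h3 : (60 * (E * lam)) ^ 2 ≤ ll ^ 2 := pow_le_pow_left₀ (by positivity) hEl 2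
            have h4 : (60 * (E * lam)) ^ 2 = 3600 * (E * lam) ^ 2 := by ring
            have h5 : 0 ≤ ll ^ 2 := by positivity
            rw [h4] at h3
            linarith
  -- the final count
  have hfin := classes_inj hP0 G (filter_subset _ _) F hκ ((range (⌊X⌋₊ + 1)).filter fun n : ℕ =>
      (n : ℝ) + lam * L ≤ X ∧
      ∀ m : ℕ, n < m → (m : ℝ) ≤ n + lam * L → ¬ (m ^ 2 + 1).Prime) ?_
  · refine le_trans ?_ hfin
    have h1 : (P : ℝ) / 2 * (Real.exp (-Real.exp (K * (30 * E * lam))) * (X / (2 * P))) ≤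
        G.card * (Real.exp (-Real.exp (K * (30 * E * lam))) * (X / (2 * P))) := by
      refine mul_le_mul_of_nonneg_right ?_ (by positivity)
      linarith
    refine le_trans ?_ h1
    have h2 : (P : ℝ) / 2 * (Real.exp (-Real.exp (K * (30 * E * lam))) * (X / (2 * P))) =
        Real.exp (-Real.exp (K * (30 * E * lam))) / 4 * X := by
      field_simp
      ring
    rw [h2]
    refine mul_le_mul_of_nonneg_right ?_ hX0.le
    have h5 : Real.exp (K * (30 * E * lam)) + 2 ≤ Real.exp ((30 * E * K + 3) * lam) := by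
      have h6 : Real.exp ((30 * E * K + 3) * lam) =
          Real.exp (3 * lam) * Real.exp (K * (30 * E * lam)) := by
        rw [← Real.exp_add]; ring_nf
      have h7 : 3 ≤ Real.exp (3 * lam) := by
        have := Real.add_one_le_exp (3 * lam); linarith
      have h8 : 1 ≤ Real.exp (K * (30 * E * lam)) := Real.one_le_exp (by positivity)
      rw [h6]
      have h9 := mul_le_mul_of_nonneg_right h7 (Real.exp_pos (K * (30 * E * lam))).le
      linarith
    calc Real.exp (-Real.exp ((30 * E * K + 3) * lam))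
        ≤ Real.exp (-Real.exp (K * (30 * E * lam)) + -2) := Real.exp_le_exp.2 (by linarith)
      _ = Real.exp (-Real.exp (K * (30 * E * lam))) * Real.exp (-2) := Real.exp_add _ _
      _ ≤ Real.exp (-Real.exp (K * (30 * E * lam))) * (1 / 4) := by
          refine mul_le_mul_of_nonneg_left ?_ (Real.exp_pos _).le
          rw [Real.exp_neg, inv_eq_one_div]
          refine one_div_le_one_div_of_le (by norm_num) ?_
          have h10 : Real.exp 2 = Real.exp 1 * Real.exp 1 := by rw [← Real.exp_add]; norm_num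
          have h11 := Real.exp_one_gt_d9
          have h12 : 2 * 2 ≤ Real.exp 1 * Real.exp 1 :=
            mul_le_mul (by linarith) (by linarith) (by norm_num) (Real.exp_pos _).le
          linarith
      _ = _ := by ring
  · intro a ha t ht
    have haP : a < P := mem_range.1 (mem_filter.1 ha).1
    rw [hF, mem_filter, mem_Ioc] at ht
    obtain ⟨⟨ht0, ht1⟩, hts⟩ := ht
    have hnX : ((a + P * t : ℕ) : ℝ) + lam * L ≤ X := by
      have h1 : a + P * t ≤ P * (t + 1) := by
        rw [Nat.mul_add, Nat.mul_one]; omega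
      have h2 : t + 1 ≤ ⌊(X - lam * L) / P⌋₊ := by omega
      have h3 : ((a + P * t : ℕ) : ℝ) ≤ P * ((X - lam * L) / P) := by
        have h4 : ((t + 1 : ℕ) : ℝ) ≤ (X - lam * L) / P := by
          refine (Nat.le_floor_iff ?_).1 h2
          by_contra hneg
          push Not at hneg
          rw [Nat.floor_of_nonpos hneg.le] at hfl1
          omega
        calc ((a + P * t : ℕ) : ℝ) ≤ ((P * (t + 1) : ℕ) : ℝ) := by exact_mod_cast h1
          _ = P * ((t + 1 : ℕ) : ℝ) := by push_cast; ring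
          _ ≤ _ := mul_le_mul_of_nonneg_left h4 hPR.le
      rw [mul_div_cancel₀ _ hPR.ne'] at h3
      linarith
    have hTn : T0 ≤ a + P * t := by
      have h1 : 1 * t ≤ P * t := Nat.mul_le_mul_right t hP0
      omega
    refine mem_filter.2 ⟨mem_range.2 ?_, hnX, ?_⟩
    · have h1 : a + P * t ≤ ⌊X⌋₊ := by
        refine Nat.le_floor ?_
        have : 0 ≤ lam * L := by positivity
        linarith
      omega
    · intro m hm hmu
      obtain ⟨j, rfl⟩ : ∃ j, m = a + P * t + j := ⟨m - (a + P * t), by omega⟩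
      have hj0 : 0 < j := by omega
      have hjU : j ≤ U := by
        refine Nat.le_floor ?_
        push_cast at hmu
        linarith
      by_cases hjs : j ∈ surv z U a
      · obtain ⟨q, hq, hq2, hqd⟩ := hts j (mem_insert_of_mem hjs)
        refine not_prime_sq hq ?_ hqd
        have h1 : (q : ℝ) ≤ T0 := by
          refine le_trans (hq2.trans (Real.exp_le_exp.2 ?_)) hT0ge
          refine div_le_div_of_nonneg_left hLpos.le (by norm_num) ?_
          have h2 : 1 * (30 * E * lam) ≤ K0 * (30 * E * lam) :=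
            mul_le_mul_of_nonneg_right hK0 (by positivity)
          linarith
        have h2 : q ≤ T0 := by exact_mod_cast h1
        omega
      · have h2 : ∃ p ∈ smallP z, p ∣ (a + j) ^ 2 + 1 := by
          by_contra hcon
          push Not at hcon
          exact hjs (mem_filter.2 ⟨mem_Ioc.2 ⟨hj0, hjU⟩, hcon⟩)
        obtain ⟨p, hp, hpd⟩ := h2
        have hpP : p ∣ P := dvd_prod_of_mem _ hp
        have hpd2 : p ∣ (a + P * t + j) ^ 2 + 1 := by
          have h3 : (a + P * t + j) ≡ (a + j) [MOD p] := by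
            have h4 : P * t ≡ 0 [MOD p] := (Nat.modEq_zero_iff_dvd).2 (hpP.mul_right t)
            calc a + P * t + j ≡ a + 0 + j [MOD p] := (h4.add_left a).add_right j
              _ = a + j := by ring
          exact (((h3.pow 2).add_right 1).dvd_iff (dvd_refl p)).2 hpd
        refine not_prime_sq (hpr p hp).1 ?_ hpd2
        have h5 : p ≤ z := (mem_Ioc.1 (mem_filter.1 hp).1).2
        have h6 : (z : ℝ) ≤ T0 := by
          have h7 := Real.add_one_le_exp (L / 4)
          linarith
        have h8 : z ≤ T0 := by exact_mod_cast h6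
        omega

end Pool.Agent.PosProp
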