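import Pool.Agent.Lib.PosProp.XPart

/-!
# The one-site system `1 - β x`
-/

open Finset Pool.Agent.GapSieve

namespace Pool.Agent.PosProp

/-- data of the one-site function `1 - β x` -/
structure SD (p : ℕ → ℝ) (Q1 Q2 : Finset ℕ) (β : Finset ℕ → ℝ) (B : ℕ → Finset ℕ) (J : ℕ)
    (α : ℝ) : Prop where
  disj : Disjoint Q1 Q2
  p0 : ∀ q ∈ Q1 ∪ Q2, 0 ≤ p q
  p1 : ∀ q ∈ Q1 ∪ Q2, p q ≤ 1
  bint : ∀ ω, β (ω ∩ Q1) = β ω
  b0 : ∀ ω, 0 ≤ β ω
  be : β ∅ = 1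
  m1 : E1 p Q1 β ≤ α
  m2 : E1 p Q1 (fun ω => β ω ^ 2) ≤ α
  m4 : E1 p Q1 (fun ω => β ω ^ 4) ≤ α
  a1 : α ≤ 1 / 4
  J0 : 0 < J
  mono : Monotone B
  sub : ∀ m < J, B m ⊆ Q2

/-- index set -/
def TT (Q2 : Finset ℕ) : Finset (Option (Finset ℕ)) := insertNone Q2.powerset

/-- the factor depending on the small primes -/
noncomputable def bb (p : ℕ → ℝ) (Q1 : Finset ℕ) (β : Finset ℕ → ℝ) (A ω : Finset ℕ) : ℝ :=
  β ω - if A = ∅ then E1 p Q1 β else 0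

/-- components -/
noncomputable def ee (p : ℕ → ℝ) (Q1 : Finset ℕ) (β : Finset ℕ → ℝ) (B : ℕ → Finset ℕ) (J : ℕ) :
    Option (Finset ℕ) → Finset ℕ → ℝ
  | none, _ => 1 - E1 p Q1 β * xh p B J ∅
  | some A, ω => -(bb p Q1 β A ω * (xh p B J A * chi p A ω))

/-- costs -/
noncomputable def dd (h0 : ℝ) : Option (Finset ℕ) → ℝ
  | none => 0
  | some A => h0 + lw A

/-- norms -/
noncomputable def ww (Wb : ℝ) : Option (Finset ℕ) → ℝ
  | none => 1
  | some A => 2 * Wb * ∏ q ∈ A, (q : ℝ)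

lemma E1_ind {p : ℕ → ℝ} {Q1 Q2 : Finset ℕ} (hd : Disjoint Q1 Q2) {f g : Finset ℕ → ℝ}
    (hf : ∀ ω, f (ω ∩ Q1) = f ω) (hg : ∀ ω, g (ω ∩ Q2) = g ω) :
    E1 p (Q1 ∪ Q2) (fun ω => f ω * g ω) = E1 p Q1 f * E1 p Q2 g := by
  rw [← E1_union p hd]
  exact E1_congr fun ω _ => by rw [hf, hg]

lemma chi_empty_set (p : ℕ → ℝ) (ω : Finset ℕ) : chi p ∅ ω = 1 := by simp [chi]

section

variable {p : ℕ → ℝ} {Q1 Q2 : Finset ℕ} {β : Finset ℕ → ℝ} {B : ℕ → Finset ℕ} {J : ℕ} {α : ℝ}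

lemma SD.p0' (h : SD p Q1 Q2 β B J α) : ∀ q ∈ Q2, 0 ≤ p q := fun q hq =>
  h.p0 q (mem_union_right _ hq)

lemma SD.p1' (h : SD p Q1 Q2 β B J α) : ∀ q ∈ Q2, p q ≤ 1 := fun q hq =>
  h.p1 q (mem_union_right _ hq)

lemma SD.p0l (h : SD p Q1 Q2 β B J α) : ∀ q ∈ Q1, 0 ≤ p q := fun q hq =>
  h.p0 q (mem_union_left _ hq)

lemma SD.p1l (h : SD p Q1 Q2 β B J α) : ∀ q ∈ Q1, p q ≤ 1 := fun q hq =>
  h.p1 q (mem_union_left _ hq)

lemma SD.ab0 (h : SD p Q1 Q2 β B J α) : 0 ≤ E1 p Q1 β :=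
  E1_nonneg h.p0l h.p1l fun ω _ => h.b0 ω

lemma SD.x0 (h : SD p Q1 Q2 β B J α) : 0 ≤ xh p B J ∅ := by
  have := xh_chi_empty_nonneg h.sub h.p0' h.p1' ∅
  rwa [chi_empty_set, mul_one] at this

lemma SD.x1 (h : SD p Q1 Q2 β B J α) : xh p B J ∅ ≤ 1 :=
  (le_abs_self _).trans (abs_xh_le h.sub h.p0' h.p1' ∅)

lemma SD.ax0 (h : SD p Q1 Q2 β B J α) : 0 ≤ E1 p Q1 β * xh p B J ∅ := mul_nonneg h.ab0 h.x0

lemma SD.ax1 (h : SD p Q1 Q2 β B J α) : E1 p Q1 β * xh p B J ∅ ≤ 1 / 4 := by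
  have h1 := h.ab0
  have h2 := h.x0
  have h3 := h.x1
  have h4 := h.m1.trans h.a1
  nlinarith

lemma bb_inter (h : SD p Q1 Q2 β B J α) (A ω : Finset ℕ) :
    bb p Q1 β A (ω ∩ Q1) = bb p Q1 β A ω := by
  unfold bb
  rw [h.bint]

lemma sum_ee (h : SD p Q1 Q2 β B J α) (ω : Finset ℕ) :
    ∑ s ∈ TT Q2, ee p Q1 β B J s ω = 1 - β ω * xf B J ω := by
  unfold TT
  rw [sum_insertNone]
  have h1 : ∑ A ∈ Q2.powerset, ee p Q1 β B J (some A) ω =
      ∑ A ∈ Q2.powerset, (-(β ω * (xh p B J A * chi p A ω)) +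
        if A = ∅ then E1 p Q1 β * xh p B J ∅ else 0) := by
    refine sum_congr rfl fun A _ => ?_
    show -(bb p Q1 β A ω * (xh p B J A * chi p A ω)) = _
    unfold bb
    split_ifs with hA
    · subst hA
      rw [chi_empty_set]
      ring
    · ring
  rw [h1, sum_add_distrib, sum_ite_eq', if_pos (empty_mem_powerset Q2), sum_neg_distrib, ← mul_sum,
    ← xf_expand p h.sub]
  show 1 - E1 p Q1 β * xh p B J ∅ + _ = _
  ring

lemma sum_ee_empty (h : SD p Q1 Q2 β B J α) : ∑ s ∈ TT Q2, ee p Q1 β B J s ∅ = 0 := by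
  rw [sum_ee h, h.be, xf_empty h.J0]
  ring

lemma ee_empty_nonpos (h : SD p Q1 Q2 β B J α) : ∀ s ∈ TT Q2, s ≠ none →
    ee p Q1 β B J s ∅ ≤ 0 := by
  intro s _ hs
  obtain ⟨A, rfl⟩ := Option.ne_none_iff_exists'.1 hs
  show -(bb p Q1 β A ∅ * (xh p B J A * chi p A ∅)) ≤ 0
  have h1 := xh_chi_empty_nonneg h.sub h.p0' h.p1' A
  have h2 : 0 ≤ bb p Q1 β A ∅ := by
    unfold bb
    rw [h.be]
    split_ifs
    · have := h.m1.trans h.a1; linarith
    · linarith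
  have := mul_nonneg h2 h1
  linarith

lemma ee_orth (h : SD p Q1 Q2 β B J α) : ∀ s ∈ TT Q2, ∀ t ∈ TT Q2, s ≠ t →
    E1 p (Q1 ∪ Q2) (fun ω => ee p Q1 β B J s ω * ee p Q1 β B J t ω) = 0 := by
  have key : ∀ A ⊆ Q2, E1 p (Q1 ∪ Q2) (fun ω => ee p Q1 β B J (some A) ω) = 0 := by
    intro A hA
    have h1 : E1 p (Q1 ∪ Q2) (fun ω => ee p Q1 β B J (some A) ω) =
        E1 p (Q1 ∪ Q2) (fun ω => (-xh p B J A) * (bb p Q1 β A ω * chi p A ω)) :=
      E1_congr fun ω _ => by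
        show -(bb p Q1 β A ω * (xh p B J A * chi p A ω)) = _
        ring
    rw [h1, E1_mul_left, E1_ind h.disj (bb_inter h A) fun ω => chi_inter hA]
    by_cases hA' : A = ∅
    · have h2 : E1 p Q1 (bb p Q1 β A) = 0 := by
        have h3 : E1 p Q1 (bb p Q1 β A) = E1 p Q1 (fun ω => β ω - E1 p Q1 β) :=
          E1_congr fun ω _ => by
            unfold bb
            rw [if_pos hA']
        rw [h3, E1_sub, E1_const]
        ring
      rw [h2]; ring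
    · have h2 := E1_chi (p := p) hA hA'
      rw [h2]; ring
  have key2 : ∀ A ⊆ Q2, E1 p (Q1 ∪ Q2)
      (fun ω => ee p Q1 β B J none ω * ee p Q1 β B J (some A) ω) = 0 := by
    intro A hA
    have h1 : E1 p (Q1 ∪ Q2) (fun ω => ee p Q1 β B J none ω * ee p Q1 β B J (some A) ω) =
        (1 - E1 p Q1 β * xh p B J ∅) * E1 p (Q1 ∪ Q2) (fun ω => ee p Q1 β B J (some A) ω) := by
      rw [← E1_mul_left]
      rfl
    rw [h1, key A hA, mul_zero]
  intro s hs t ht hst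
  unfold TT at hs ht
  rcases s with _ | A <;> rcases t with _ | A'
  · exact absurd rfl hst
  · rw [some_mem_insertNone, mem_powerset] at ht
    exact key2 A' ht
  · rw [some_mem_insertNone, mem_powerset] at hs
    have h1 : E1 p (Q1 ∪ Q2) (fun ω => ee p Q1 β B J (some A) ω * ee p Q1 β B J none ω) =
        E1 p (Q1 ∪ Q2) (fun ω => ee p Q1 β B J none ω * ee p Q1 β B J (some A) ω) :=
      E1_congr fun ω _ => mul_comm _ _
    rw [h1]
    exact key2 A hs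
  · rw [some_mem_insertNone, mem_powerset] at hs ht
    have hne : A ≠ A' := fun h' => hst (by rw [h'])
    have h1 : E1 p (Q1 ∪ Q2) (fun ω => ee p Q1 β B J (some A) ω * ee p Q1 β B J (some A') ω) =
        E1 p (Q1 ∪ Q2) (fun ω => (xh p B J A * xh p B J A') *
          ((bb p Q1 β A ω * bb p Q1 β A' ω) * (chi p A ω * chi p A' ω))) :=
      E1_congr fun ω _ => by
        show -(bb p Q1 β A ω * (xh p B J A * chi p A ω)) *
          -(bb p Q1 β A' ω * (xh p B J A' * chi p A' ω)) = _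
        ring
    rw [h1, E1_mul_left, E1_ind (f := fun ω => bb p Q1 β A ω * bb p Q1 β A' ω)
      (g := fun ω => chi p A ω * chi p A' ω) h.disj
      (fun ω => by rw [bb_inter h, bb_inter h]) fun ω => by rw [chi_inter hs, chi_inter ht]]
    rw [E1_chi_mul hs ht, if_neg hne, mul_zero, mul_zero]

lemma nn_none (h : SD p Q1 Q2 β B J α) :
    nn p (Q1 ∪ Q2) (ee p Q1 β B J) none = (1 - E1 p Q1 β * xh p B J ∅) ^ 2 := by
  unfold nn
  exact E1_const p (Q1 ∪ Q2) ((1 - E1 p Q1 β * xh p B J ∅) ^ 2)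

lemma nn_some (h : SD p Q1 Q2 β B J α) {A : Finset ℕ} (hA : A ⊆ Q2) :
    nn p (Q1 ∪ Q2) (ee p Q1 β B J) (some A) =
      (E1 p Q1 (fun ω => β ω ^ 2) - if A = ∅ then E1 p Q1 β ^ 2 else 0) *
        (xh p B J A ^ 2 * ∏ q ∈ A, (p q * (1 - p q))) := by
  unfold nn
  have h1 : E1 p (Q1 ∪ Q2) (fun ω => ee p Q1 β B J (some A) ω ^ 2) =
      E1 p (Q1 ∪ Q2) (fun ω => (xh p B J A ^ 2) *
        ((bb p Q1 β A ω ^ 2) * (chi p A ω * chi p A ω))) :=
    E1_congr fun ω _ => by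
      show (-(bb p Q1 β A ω * (xh p B J A * chi p A ω))) ^ 2 = _
      ring
  rw [h1, E1_mul_left, E1_ind (f := fun ω => bb p Q1 β A ω ^ 2)
      (g := fun ω => chi p A ω * chi p A ω) h.disj
      (fun ω => by rw [bb_inter h]) fun ω => by rw [chi_inter hA]]
  rw [E1_chi_mul hA hA, if_pos rfl]
  have h2 : E1 p Q1 (fun ω => bb p Q1 β A ω ^ 2) =
      E1 p Q1 (fun ω => β ω ^ 2) - if A = ∅ then E1 p Q1 β ^ 2 else 0 := by
    unfold bb
    split_ifs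
    · have h3 : E1 p Q1 (fun ω => (β ω - E1 p Q1 β) ^ 2) =
          E1 p Q1 (fun ω => (β ω ^ 2 - (2 * E1 p Q1 β) * β ω) + E1 p Q1 β ^ 2) :=
        E1_congr fun ω _ => by ring
      rw [h3, E1_add, E1_sub, E1_mul_left, E1_const]
      ring
    · simp only [sub_zero]
  rw [h2]
  ring

/-- the weighted sum of the squared norms -/
lemma sum_nn (h : SD p Q1 Q2 β B J α) (θ h0 : ℝ) :
    ∑ s ∈ TT Q2, nn p (Q1 ∪ Q2) (ee p Q1 β B J) s * Real.exp (θ * dd h0 s) =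
      (1 - E1 p Q1 β * xh p B J ∅) ^ 2 + Real.exp (θ * h0) *
        (E1 p Q1 (fun ω => β ω ^ 2) * XX p (fun q => Real.exp (θ * Real.log q)) B J Q2 -
          E1 p Q1 β ^ 2 * xh p B J ∅ ^ 2) := by
  unfold TT
  rw [sum_insertNone, nn_none h]
  have h1 : ∑ A ∈ Q2.powerset, nn p (Q1 ∪ Q2) (ee p Q1 β B J) (some A) *
      Real.exp (θ * dd h0 (some A)) =
      ∑ A ∈ Q2.powerset, (Real.exp (θ * h0) * (E1 p Q1 (fun ω => β ω ^ 2) *
        (xh p B J A ^ 2 * ∏ q ∈ A, (p q * (1 - p q) * Real.exp (θ * Real.log q)))) -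
        if A = ∅ then Real.exp (θ * h0) * (E1 p Q1 β ^ 2 * xh p B J ∅ ^ 2) else 0) := by
    refine sum_congr rfl fun A hA => ?_
    rw [nn_some h (mem_powerset.1 hA)]
    have h2 : Real.exp (θ * dd h0 (some A)) =
        Real.exp (θ * h0) * ∏ q ∈ A, Real.exp (θ * Real.log q) := by
      rw [← exp_lw, ← Real.exp_add]
      congr 1
      show θ * (h0 + lw A) = _
      ring
    rw [h2, prod_mul_distrib (f := fun q => p q * (1 - p q))]
    split_ifs with hA'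
    · subst hA'
      simp only [prod_empty]
      ring
    · ring
  rw [h1, sum_sub_distrib, sum_ite_eq', if_pos (empty_mem_powerset Q2), ← mul_sum, ← mul_sum]
  have h3 : Real.exp (θ * dd h0 none) = 1 := by
    show Real.exp (θ * 0) = 1
    rw [mul_zero, Real.exp_zero]
  rw [h3]
  unfold XX
  ring

/-- the total mass -/
lemma sum_nn_one (h : SD p Q1 Q2 β B J α) :
    ∑ s ∈ TT Q2, nn p (Q1 ∪ Q2) (ee p Q1 β B J) s =
      1 - 2 * (E1 p Q1 β * xh p B J ∅) +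
        E1 p Q1 (fun ω => β ω ^ 2) * XX p (fun _ => 1) B J Q2 := by
  have h1 := sum_nn h 0 0
  simp only [zero_mul, Real.exp_zero, mul_one, one_mul] at h1
  rw [h1]
  ring

lemma XX_nonneg (h : SD p Q1 Q2 β B J α) {w : ℕ → ℝ} (hw : ∀ q, 0 ≤ w q) :
    0 ≤ XX p w B J Q2 := by
  unfold XX
  refine sum_nonneg fun A hA => mul_nonneg (sq_nonneg _) (prod_nonneg fun q hq => ?_)
  have h1 := h.p0' q (mem_powerset.1 hA hq)
  have h2 := h.p1' q (mem_powerset.1 hA hq)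
  exact mul_nonneg (mul_nonneg h1 (by linarith)) (hw q)

lemma SD.b20 (h : SD p Q1 Q2 β B J α) : 0 ≤ E1 p Q1 (fun ω => β ω ^ 2) :=
  E1_nonneg h.p0l h.p1l fun _ _ => sq_nonneg _

lemma SD.al0 (h : SD p Q1 Q2 β B J α) : 0 ≤ α := h.ab0.trans h.m1

lemma half_le_A0 (h : SD p Q1 Q2 β B J α) :
    1 / 2 ≤ ∑ s ∈ TT Q2, nn p (Q1 ∪ Q2) (ee p Q1 β B J) s := by
  rw [sum_nn_one h]
  have h1 := h.ax1
  have h2 := mul_nonneg h.b20 (XX_nonneg h (w := fun _ => 1) fun _ => zero_le_one)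
  linarith

/-- lower bound for the total mass -/
lemma exp_le_A0 (h : SD p Q1 Q2 β B J α) :
    Real.exp (-(4 * (α * xh p B J ∅))) ≤ ∑ s ∈ TT Q2, nn p (Q1 ∪ Q2) (ee p Q1 β B J) s := by
  rw [sum_nn_one h]
  have h1 := h.ax1
  have h0 := h.ax0
  have h2 := mul_nonneg h.b20 (XX_nonneg h (w := fun _ => 1) fun _ => zero_le_one)
  have h3 := exp_neg_two_mul_le (x := 2 * (E1 p Q1 β * xh p B J ∅)) (by linarith) (by linarith)
  have h4 : Real.exp (-(4 * (α * xh p B J ∅))) ≤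
      Real.exp (-(2 * (2 * (E1 p Q1 β * xh p B J ∅)))) := by
    apply Real.exp_le_exp.2
    have := mul_le_mul_of_nonneg_right h.m1 h.x0
    linarith
  linarith

/-- upper bound for the weighted mass -/
lemma weighted_le (h : SD p Q1 Q2 β B J α) {θ h0 : ℝ} (hθ : 0 ≤ θ) (hh : 0 ≤ h0) :
    ∑ s ∈ TT Q2, nn p (Q1 ∪ Q2) (ee p Q1 β B J) s * Real.exp (θ * dd h0 s) ≤
      (∑ s ∈ TT Q2, nn p (Q1 ∪ Q2) (ee p Q1 β B J) s) *
        Real.exp (2 * (α * (Real.exp (θ * h0) *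
          XX p (fun q => Real.exp (θ * Real.log q)) B J Q2 - XX p (fun _ => 1) B J Q2))) := by
  set A0 := ∑ s ∈ TT Q2, nn p (Q1 ∪ Q2) (ee p Q1 β B J) s with hA0
  have hhalf : 1 / 2 ≤ A0 := half_le_A0 h
  set Xθ := XX p (fun q => Real.exp (θ * Real.log q)) B J Q2 with hXθ
  set X0 := XX p (fun _ => 1) B J Q2 with hX0
  have hX : X0 ≤ Xθ := by
    rw [hX0, hXθ]
    unfold XX
    refine sum_le_sum fun A hA => mul_le_mul_of_nonneg_left ?_ (sq_nonneg _)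
    refine prod_le_prod (fun q hq => ?_) fun q hq => ?_
    · have h1 := h.p0' q (mem_powerset.1 hA hq)
      have h2 := h.p1' q (mem_powerset.1 hA hq)
      have : 0 ≤ p q * (1 - p q) := mul_nonneg h1 (by linarith)
      linarith
    · have h1 := h.p0' q (mem_powerset.1 hA hq)
      have h2 := h.p1' q (mem_powerset.1 hA hq)
      have h3 : 0 ≤ p q * (1 - p q) := mul_nonneg h1 (by linarith)
      refine mul_le_mul_of_nonneg_left (Real.one_le_exp ?_) h3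
      exact mul_nonneg hθ (Real.log_natCast_nonneg q)
  have hX00 : 0 ≤ X0 := XX_nonneg h fun _ => zero_le_one
  have hexp : 1 ≤ Real.exp (θ * h0) := Real.one_le_exp (mul_nonneg hθ hh)
  have hD : 0 ≤ Real.exp (θ * h0) * Xθ - X0 := by nlinarith
  have hb2 := h.b20
  have hb2' := h.m2
  rw [sum_nn h θ h0, ← hXθ]
  have h1 : (1 - E1 p Q1 β * xh p B J ∅) ^ 2 + Real.exp (θ * h0) *
        (E1 p Q1 (fun ω => β ω ^ 2) * Xθ - E1 p Q1 β ^ 2 * xh p B J ∅ ^ 2) ≤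
      A0 + α * (Real.exp (θ * h0) * Xθ - X0) := by
    have h2 : A0 = 1 - 2 * (E1 p Q1 β * xh p B J ∅) + E1 p Q1 (fun ω => β ω ^ 2) * X0 :=
      sum_nn_one h
    rw [h2]
    have h3 := mul_le_mul_of_nonneg_right hb2' hD
    have h4 : 0 ≤ (Real.exp (θ * h0) - 1) * (E1 p Q1 β ^ 2 * xh p B J ∅ ^ 2) :=
      mul_nonneg (by linarith) (by positivity)
    nlinarith
  refine h1.trans ?_
  have h5 := Real.add_one_le_exp (2 * (α * (Real.exp (θ * h0) * Xθ - X0)))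
  have h6 : 0 ≤ α * (Real.exp (θ * h0) * Xθ - X0) := mul_nonneg h.al0 hD
  calc A0 + α * (Real.exp (θ * h0) * Xθ - X0)
      ≤ A0 * (2 * (α * (Real.exp (θ * h0) * Xθ - X0)) + 1) := by nlinarith
    _ ≤ _ := mul_le_mul_of_nonneg_left h5 (by linarith)

end

end Pool.Agent.PosProp
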