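import Pool.Agent.Lib.PosProp.Sys

/-!
# Moments and norms of the one-site system
-/

open Finset Pool.Agent.GapSieve

namespace Pool.Agent.PosProp

section

variable {p : ℕ → ℝ} {Q1 Q2 : Finset ℕ} {β : Finset ℕ → ℝ} {B : ℕ → Finset ℕ} {J : ℕ} {α : ℝ}

lemma sum_abs_ee (h : SD p Q1 Q2 β B J α) (ω : Finset ℕ) :
    ∑ s ∈ TT Q2, |ee p Q1 β B J s ω| ≤ 1 + β ω * 2 ^ (ω ∩ Q2).card := by
  unfold TT
  rw [sum_insertNone]
  have h0 : |ee p Q1 β B J none ω| = 1 - E1 p Q1 β * xh p B J ∅ := by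
    show |1 - E1 p Q1 β * xh p B J ∅| = _
    rw [abs_of_nonneg]
    have := h.ax1
    linarith
  have h1 : ∀ A ∈ Q2.powerset, |ee p Q1 β B J (some A) ω| ≤
      β ω * (|xh p B J A| * |chi p A ω|) +
        if A = ∅ then E1 p Q1 β * xh p B J ∅ else 0 := by
    intro A _
    show |-(bb p Q1 β A ω * (xh p B J A * chi p A ω))| ≤ _
    rw [abs_neg, abs_mul, abs_mul]
    unfold bb
    have hb := h.b0 ω
    have hx := mul_nonneg (abs_nonneg (xh p B J A)) (abs_nonneg (chi p A ω))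
    split_ifs with hA
    · subst hA
      have h2 : |β ω - E1 p Q1 β| ≤ β ω + E1 p Q1 β := by
        rw [abs_le]
        have := h.ab0
        constructor <;> linarith
      calc |β ω - E1 p Q1 β| * (|xh p B J ∅| * |chi p ∅ ω|)
          ≤ (β ω + E1 p Q1 β) * (|xh p B J ∅| * |chi p ∅ ω|) :=
            mul_le_mul_of_nonneg_right h2 hx
        _ = _ := by
            rw [chi_empty_set, abs_one, mul_one, abs_of_nonneg h.x0]
            ring
    · rw [sub_zero, abs_of_nonneg hb, add_zero]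
  have h2 := sum_le_sum h1
  rw [sum_add_distrib, sum_ite_eq', if_pos (empty_mem_powerset Q2), ← mul_sum] at h2
  have h3 := mul_le_mul_of_nonneg_left (sum_abs_xh_chi h.J0 h.sub h.p0' h.p1' ω) (h.b0 ω)
  rw [h0]
  linarith

lemma pow_four_le {z : ℝ} (hz : 0 ≤ z) : (1 + z) ^ 4 ≤ 1 + 15 * (z + z ^ 4) := by
  have h2 : z ^ 2 ≤ z + z ^ 4 := by
    rcases le_total z 1 with h | h
    · have : z ^ 2 ≤ z := by nlinarith
      have : 0 ≤ z ^ 4 := by positivity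
      linarith
    · have : z ^ 2 ≤ z ^ 4 := pow_le_pow_right₀ h (by norm_num)
      linarith
  have h3 : z ^ 3 ≤ z + z ^ 4 := by
    rcases le_total z 1 with h | h
    · have : z ^ 3 ≤ z := by
        calc z ^ 3 = z * z ^ 2 := by ring
          _ ≤ z * 1 := mul_le_mul_of_nonneg_left (pow_le_one₀ hz h) hz
          _ = z := mul_one z
      have : 0 ≤ z ^ 4 := by positivity
      linarith
    · have : z ^ 3 ≤ z ^ 4 := pow_le_pow_right₀ h (by norm_num)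
      linarith
  have h4 : 0 ≤ z ^ 4 := by positivity
  nlinarith

/-- fourth moment of the absolute sum -/
lemma fourth_le (h : SD p Q1 Q2 β B J α) :
    E1 p (Q1 ∪ Q2) (fun ω => (∑ s ∈ TT Q2, |ee p Q1 β B J s ω|) ^ 4) ≤
      Real.exp (30 * (α * Real.exp (15 * ∑ q ∈ Q2, p q))) := by
  have hP : ∀ y : ℝ, 1 ≤ y → y ≤ 16 →
      E1 p Q2 (fun ω => y ^ (ω ∩ Q2).card) ≤ Real.exp (15 * ∑ q ∈ Q2, p q) := by
    intro y hy1 hy
    have h1 : E1 p Q2 (fun ω => y ^ (ω ∩ Q2).card) = E1 p Q2 (fun ω => y ^ ω.card) :=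
      E1_congr fun ω hω => by rw [inter_eq_left.2 hω]
    rw [h1, E1_pow_card]
    refine (prod_one_add_mul_le_exp h.p0' (by linarith)).trans (Real.exp_le_exp.2 ?_)
    exact mul_le_mul_of_nonneg_right (by linarith) (sum_nonneg h.p0')
  have h1 : E1 p (Q1 ∪ Q2) (fun ω => (∑ s ∈ TT Q2, |ee p Q1 β B J s ω|) ^ 4) ≤
      E1 p (Q1 ∪ Q2) (fun ω => 1 + 15 * (β ω * 2 ^ (ω ∩ Q2).card +
        β ω ^ 4 * 16 ^ (ω ∩ Q2).card)) := by
    refine E1_mono h.p0 h.p1 fun ω _ => ?_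
    have hz : 0 ≤ β ω * 2 ^ (ω ∩ Q2).card := mul_nonneg (h.b0 ω) (by positivity)
    calc (∑ s ∈ TT Q2, |ee p Q1 β B J s ω|) ^ 4
        ≤ (1 + β ω * 2 ^ (ω ∩ Q2).card) ^ 4 :=
          pow_le_pow_left₀ (sum_nonneg fun _ _ => abs_nonneg _) (sum_abs_ee h ω) 4
      _ ≤ _ := pow_four_le hz
      _ = _ := by
          rw [mul_pow, ← pow_mul, mul_comm (ω ∩ Q2).card 4, pow_mul]
          norm_num
  refine h1.trans ?_
  have hint : ∀ (y : ℝ) (ω : Finset ℕ), y ^ (ω ∩ Q2 ∩ Q2).card = y ^ (ω ∩ Q2).card := by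
    intro y ω
    rw [inter_assoc, inter_self]
  have e2 : E1 p (Q1 ∪ Q2) (fun ω => β ω * 2 ^ (ω ∩ Q2).card) =
      E1 p Q1 β * E1 p Q2 (fun ω => 2 ^ (ω ∩ Q2).card) :=
    E1_ind (f := β) (g := fun ω => (2 : ℝ) ^ (ω ∩ Q2).card) h.disj h.bint (hint 2)
  have e3 : E1 p (Q1 ∪ Q2) (fun ω => β ω ^ 4 * 16 ^ (ω ∩ Q2).card) =
      E1 p Q1 (fun ω => β ω ^ 4) * E1 p Q2 (fun ω => 16 ^ (ω ∩ Q2).card) :=
    E1_ind (f := fun ω => β ω ^ 4) (g := fun ω => (16 : ℝ) ^ (ω ∩ Q2).card) h.disj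
      (fun ω => by rw [h.bint]) (hint 16)
  rw [E1_add, E1_const, E1_mul_left, E1_add, e2, e3]
  have hα := h.al0
  have h4 : E1 p Q1 β * E1 p Q2 (fun ω => (2 : ℝ) ^ (ω ∩ Q2).card) ≤
      α * Real.exp (15 * ∑ q ∈ Q2, p q) :=
    mul_le_mul h.m1 (hP 2 (by norm_num) (by norm_num))
      (E1_nonneg h.p0' h.p1' fun _ _ => by positivity) hα
  have h5 : E1 p Q1 (fun ω => β ω ^ 4) * E1 p Q2 (fun ω => (16 : ℝ) ^ (ω ∩ Q2).card) ≤
      α * Real.exp (15 * ∑ q ∈ Q2, p q) :=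
    mul_le_mul h.m4 (hP 16 (by norm_num) (by norm_num))
      (E1_nonneg h.p0' h.p1' fun _ _ => by positivity) hα
  have h6 := Real.add_one_le_exp (30 * (α * Real.exp (15 * ∑ q ∈ Q2, p q)))
  linarith

/-- the total size at the empty configuration -/
lemma rho_le (h : SD p Q1 Q2 β B J α) {θ h0 : ℝ} :
    ∑ s ∈ (TT Q2).erase none, |ee p Q1 β B J s ∅| * Real.exp (θ * dd h0 s) ≤
      Real.exp (θ * h0) * ((∑ m ∈ range J, ∏ q ∈ B m,
        (1 + p q * (Real.exp (θ * Real.log q) - 1))) / J) := by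
  have h1 : (TT Q2).erase none = Q2.powerset.map Function.Embedding.some := by
    unfold TT
    rw [insertNone]
    ext x
    rcases x with _ | x <;> simp
  rw [h1, sum_map, ← sum_xh_chi_empty h.sub, mul_sum]
  refine sum_le_sum fun A hA => ?_
  have h2 : Real.exp (θ * dd h0 (some A)) =
      Real.exp (θ * h0) * ∏ q ∈ A, Real.exp (θ * Real.log q) := by
    rw [← exp_lw, ← Real.exp_add]
    congr 1
    show θ * (h0 + lw A) = _
    ring
  show |ee p Q1 β B J (some A) ∅| * Real.exp (θ * dd h0 (some A)) ≤ _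
  rw [h2]
  have h3 : |ee p Q1 β B J (some A) ∅| ≤ xh p B J A * chi p A ∅ := by
    show |-(bb p Q1 β A ∅ * (xh p B J A * chi p A ∅))| ≤ _
    have hx := xh_chi_empty_nonneg h.sub h.p0' h.p1' A
    rw [abs_neg, abs_mul, abs_of_nonneg hx]
    have h4 : |bb p Q1 β A ∅| ≤ 1 := by
      unfold bb
      rw [h.be]
      have := h.ab0
      have := h.m1.trans h.a1
      rw [abs_le]
      split_ifs <;> constructor <;> linarith
    nlinarith
  have h5 : 0 ≤ Real.exp (θ * h0) * ∏ q ∈ A, Real.exp (θ * Real.log q) :=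
    mul_nonneg (Real.exp_pos _).le (prod_nonneg fun q _ => (Real.exp_pos _).le)
  calc |ee p Q1 β B J (some A) ∅| * (Real.exp (θ * h0) * ∏ q ∈ A, Real.exp (θ * Real.log q))
      ≤ (xh p B J A * chi p A ∅) * (Real.exp (θ * h0) * ∏ q ∈ A, Real.exp (θ * Real.log q)) :=
        mul_le_mul_of_nonneg_right h3 h5
    _ = _ := by ring

/-- the test function -/
noncomputable def uu (p : ℕ → ℝ) (Q2 : Finset ℕ) (β : Finset ℕ → ℝ) (hh : ℝ) (ω : Finset ℕ) : ℝ :=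
  4 * (β ω ^ 2 * Dh p Q2 hh ω ^ 2)

lemma uu_nonneg (hh : ℝ) (ω : Finset ℕ) : 0 ≤ uu p Q2 β hh ω := by
  unfold uu
  positivity

lemma E1_uu (h : SD p Q1 Q2 β B J α) (hh : ℝ) :
    E1 p (Q1 ∪ Q2) (uu p Q2 β hh) ≤ 4 * (α * ∏ q ∈ Q2, (1 - p q)) := by
  have h1 : E1 p (Q1 ∪ Q2) (uu p Q2 β hh) =
      4 * (E1 p Q1 (fun ω => β ω ^ 2) * E1 p Q2 (fun ω => Dh p Q2 hh ω ^ 2)) := by
    rw [← E1_ind (f := fun ω => β ω ^ 2) (g := fun ω => Dh p Q2 hh ω ^ 2) h.disj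
      (fun ω => by rw [h.bint]) (fun ω => by rw [Dh_inter]), ← E1_mul_left]
    rfl
  rw [h1]
  refine mul_le_mul_of_nonneg_left ?_ (by norm_num)
  exact mul_le_mul h.m2 (E1_Dh_sq h.p0' h.p1' hh)
    (E1_nonneg h.p0' h.p1' fun _ _ => sq_nonneg _) h.al0

lemma one_le_uu (h : SD p Q1 Q2 β B J α) {hh θ : ℝ} (hθ : 0 ≤ θ)
    (hs : Real.exp (-(θ * hh)) * ∏ q ∈ Q2, (1 + p q * (Real.exp (θ * Real.log q) - 1)) ≤ 1 / 2) :
    1 ≤ uu p Q2 β hh ∅ := by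
  have h1 := Dh_empty_ge h.p0' h.p1' hθ hh
  unfold uu
  rw [h.be]
  have h2 : 1 / 2 ≤ Dh p Q2 hh ∅ := by linarith
  nlinarith

end

section rep

variable {p : ℕ → ℝ} {Q1 Q2 : Finset ℕ} {β : Finset ℕ → ℝ} {B : ℕ → Finset ℕ} {J : ℕ} {α : ℝ}
variable {N : ℕ} {k : ℕ → ℕ} {hit : ℕ → Fin N → ℕ → Prop}

lemma rep_ee (h : SD p Q1 Q2 β B J α) (hsys : HitSys (Q1 ∪ Q2) k hit) {Wb : ℝ} (hWb : 1 ≤ Wb)
    (hb : ∀ i, PRep (∏ q ∈ Q1 ∪ Q2, q) (fun t => β (conf (Q1 ∪ Q2) hit t i)) Wb) (i : Fin N) :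
    ∀ s ∈ TT Q2, PRep (∏ q ∈ Q1 ∪ Q2, q)
      (fun t => ee p Q1 β B J s (conf (Q1 ∪ Q2) hit t i)) (ww Wb s) := by
  intro s hs
  unfold TT at hs
  rcases s with _ | A
  · show PRep _ (fun _ => 1 - E1 p Q1 β * xh p B J ∅) 1
    refine (PRep.const _).weaken ?_
    have := h.ax0
    have := h.ax1
    rw [abs_le]
    constructor <;> linarith
  · rw [some_mem_insertNone, mem_powerset] at hs
    show PRep _ (fun t => -(bb p Q1 β A (conf (Q1 ∪ Q2) hit t i) *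
      (xh p B J A * chi p A (conf (Q1 ∪ Q2) hit t i)))) (2 * Wb * ∏ q ∈ A, (q : ℝ))
    have h1 : PRep (∏ q ∈ Q1 ∪ Q2, q) (fun t => bb p Q1 β A (conf (Q1 ∪ Q2) hit t i))
        (Wb + |if A = ∅ then E1 p Q1 β else 0|) :=
      (hb i).sub (PRep.const (if A = ∅ then E1 p Q1 β else 0))
    have h2 := (rep_chi hsys h.p0 h.p1 (hs.trans subset_union_right) i).smul (xh p B J A)
    have h3 := (h1.mul h2).smul (-1)
    refine (h3.congr fun t => ?_).weaken ?_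
    · ring
    · rw [abs_neg, abs_one, one_mul]
      have h4 : |if A = ∅ then E1 p Q1 β else 0| ≤ 1 := by
        have := h.ab0
        have := h.m1.trans h.a1
        rw [abs_le]
        split_ifs <;> constructor <;> linarith
      have h5 := abs_xh_le h.sub h.p0' h.p1' A
      have h6 : 0 ≤ ∏ q ∈ A, (q : ℝ) := prod_nonneg fun q _ => Nat.cast_nonneg q
      refine mul_le_mul (by linarith) ?_ (by positivity) (by linarith)
      calc |xh p B J A| * ∏ q ∈ A, (q : ℝ) ≤ 1 * ∏ q ∈ A, (q : ℝ) :=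
            mul_le_mul_of_nonneg_right h5 h6
        _ = _ := one_mul _

lemma rep_ee_empty (h : SD p Q1 Q2 β B J α) (hpos : ∀ q ∈ Q2, 0 < q) {Wb : ℝ} (hWb : 1 ≤ Wb) :
    ∀ s ∈ TT Q2, |ee p Q1 β B J s ∅| ≤ ww Wb s := by
  intro s hs
  unfold TT at hs
  rcases s with _ | A
  · show |1 - E1 p Q1 β * xh p B J ∅| ≤ 1
    have := h.ax0
    have := h.ax1
    rw [abs_le]
    constructor <;> linarith
  · rw [some_mem_insertNone, mem_powerset] at hs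
    show |-(bb p Q1 β A ∅ * (xh p B J A * chi p A ∅))| ≤ 2 * Wb * ∏ q ∈ A, (q : ℝ)
    rw [abs_neg, abs_mul, abs_mul]
    have h4 : |bb p Q1 β A ∅| ≤ 1 := by
      unfold bb
      rw [h.be]
      have := h.ab0
      have := h.m1.trans h.a1
      rw [abs_le]
      split_ifs <;> constructor <;> linarith
    have h5 := abs_xh_le h.sub h.p0' h.p1' A
    have h6 := abs_chi_le (fun q hq => h.p0' q (hs hq)) (fun q hq => h.p1' q (hs hq)) ∅
    have h7 : (1 : ℝ) ≤ ∏ q ∈ A, (q : ℝ) := by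
      refine Finset.prod_induction _ (fun x : ℝ => 1 ≤ x)
        (fun a b ha hb => one_le_mul_of_one_le_of_one_le ha hb) (le_refl 1) fun q hq => ?_
      exact_mod_cast hpos q (hs hq)
    have h8 : |bb p Q1 β A ∅| * (|xh p B J A| * |chi p A ∅|) ≤ 1 * (1 * 1) :=
      mul_le_mul h4 (mul_le_mul h5 h6 (abs_nonneg _) zero_le_one) (by positivity) zero_le_one
    nlinarith

lemma ww_nonneg {Wb : ℝ} (hWb : 0 ≤ Wb) : ∀ s ∈ TT Q2, 0 ≤ ww Wb s := by
  intro s _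
  rcases s with _ | A
  · exact zero_le_one
  · exact mul_nonneg (by linarith) (prod_nonneg fun q _ => Nat.cast_nonneg q)

lemma sum_ww (hpos : ∀ q ∈ Q2, 0 < q) (hs : ∑ q ∈ Q2, ((q : ℝ) ^ 2)⁻¹ ≤ 1) {Wb h0 : ℝ}
    (hWb : 0 ≤ Wb) :
    ∑ s ∈ TT Q2, ww Wb s * Real.exp (-(3 * dd h0 s)) ≤
      1 + 2 * Wb * Real.exp (1 - 3 * h0) := by
  unfold TT
  rw [sum_insertNone]
  have h0' : ww Wb none * Real.exp (-(3 * dd h0 none)) = 1 := by
    show 1 * Real.exp (-(3 * 0)) = 1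
    simp
  rw [h0']
  have h1 : ∑ A ∈ Q2.powerset, ww Wb (some A) * Real.exp (-(3 * dd h0 (some A))) =
      2 * Wb * Real.exp (-(3 * h0)) * ∏ q ∈ Q2, (1 + ((q : ℝ) ^ 2)⁻¹) := by
    rw [prod_congr rfl fun q _ => add_comm (1 : ℝ) _, prod_add, mul_sum]
    refine sum_congr rfl fun A hA => ?_
    have hA' := mem_powerset.1 hA
    show 2 * Wb * (∏ q ∈ A, (q : ℝ)) * Real.exp (-(3 * (h0 + lw A))) = _
    have h2 : Real.exp (-(3 * (h0 + lw A))) =
        Real.exp (-(3 * h0)) * ∏ q ∈ A, ((q : ℝ) ^ 3)⁻¹ := by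
      have h3 : -(3 * (h0 + lw A)) = -(3 * h0) + (-3) * lw A := by ring
      rw [h3, Real.exp_add, exp_lw]
      congr 1
      refine prod_congr rfl fun q hq => ?_
      have hq0 : (0 : ℝ) < q := by exact_mod_cast hpos q (hA' hq)
      have h4 : (-3) * Real.log q = -(3 * Real.log q) := by ring
      rw [h4, Real.exp_neg, mul_comm 3, Real.exp_mul, Real.exp_log hq0]
      norm_num
    rw [h2, prod_const_one, mul_one]
    have h5 : (∏ q ∈ A, (q : ℝ)) * ∏ q ∈ A, ((q : ℝ) ^ 3)⁻¹ = ∏ q ∈ A, ((q : ℝ) ^ 2)⁻¹ := by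
      rw [← prod_mul_distrib]
      refine prod_congr rfl fun q hq => ?_
      have hq0 : (q : ℝ) ≠ 0 := by
        have := hpos q (hA' hq)
        exact_mod_cast this.ne'
      field_simp
    rw [← h5]
    ring
  rw [h1]
  have h2 := prod_inv_sq_le hs
  have h3 : 0 ≤ 2 * Wb * Real.exp (-(3 * h0)) := by positivity
  have h4 := mul_le_mul_of_nonneg_left h2 h3
  have h5 : 2 * Wb * Real.exp (-(3 * h0)) * Real.exp 1 = 2 * Wb * Real.exp (1 - 3 * h0) := by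
    rw [mul_assoc, ← Real.exp_add]
    ring_nf
  linarith

lemma rep_uu (h : SD p Q1 Q2 β B J α) (hsys : HitSys (Q1 ∪ Q2) k hit)
    (hs : ∑ q ∈ Q2, ((q : ℝ) ^ 2)⁻¹ ≤ 1) {Wb : ℝ}
    (hb : ∀ i, PRep (∏ q ∈ Q1 ∪ Q2, q) (fun t => β (conf (Q1 ∪ Q2) hit t i)) Wb) (hh : ℝ)
    (i : Fin N) :
    PRep (∏ q ∈ Q1 ∪ Q2, q) (fun t => uu p Q2 β hh (conf (Q1 ∪ Q2) hit t i))
      (4 * (Wb ^ 2 * Real.exp (3 * hh + 1) ^ 2)) := by
  have h1 := rep_Dh hsys h.p0 h.p1 (Q2 := Q2) subset_union_right hs hh i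
  have h2 := (((hb i).pow 2).mul (h1.pow 2)).smul 4
  refine h2.weaken ?_
  rw [abs_of_nonneg (by norm_num : (0 : ℝ) ≤ 4)]

end rep

end Pool.Agent.PosProp
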