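import Pool.Agent.Lib.PosProp.Core2
import Pool.Agent.Lib.PosProp.PosDens

/-!
# The uniform counting theorem
-/

open Finset Pool.Agent.GapSieve

namespace Pool.Agent.PosProp

lemma le_exp_mul {x lam : ℝ} (hx : 0 ≤ x) (h : 1 ≤ lam) : x ≤ Real.exp (x * lam) := by
  have h1 := Real.add_one_le_exp (x * lam)
  have h2 : x * 1 ≤ x * lam := mul_le_mul_of_nonneg_left h hx
  linarith

lemma mul_le_exp {x lam : ℝ} : x * lam ≤ Real.exp (x * lam) := by
  have h1 := Real.add_one_le_exp (x * lam)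
  linarith

lemma hbig_aux2 {N g ε C2 LX lam Λ : ℝ} (hLX : 100000 ≤ LX) (hgε : g ≤ ε) (hε100 : ε ≤ 1 / 100)
    (hεC : (2 * C2 + 1) * ε ≤ 1 / 100) (hNR : 1 ≤ N) (hNLX : N ≤ lam * LX)
    (hlam : lam ≤ LX) (hΛ : 10 * Λ ≤ LX) :
    Real.exp (6 * (LX / 100) + 2) * (1 + N * (4 * (Real.exp (g * LX + 1) ^ 2 *
      Real.exp (3 * ((2 * C2 + 1) * (ε * LX)) + 1) ^ 2))) ≤ Real.exp (LX / 2) *
      (Real.exp (-Λ) / 32) := by
  have hLX0 : 0 < LX := by linarith
  have e1 : Real.exp (g * LX + 1) ^ 2 * Real.exp (3 * ((2 * C2 + 1) * (ε * LX)) + 1) ^ 2 =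
      Real.exp (2 * (g * LX) + 6 * ((2 * C2 + 1) * ε * LX) + 4) := by
    rw [← mul_pow, ← Real.exp_add, ← Real.exp_nat_mul]
    congr 1
    push_cast
    ring
  rw [e1]
  set Z := Real.exp (2 * (g * LX) + 6 * ((2 * C2 + 1) * ε * LX) + 4) with hZ
  have hZ0 : 0 < Z := Real.exp_pos _
  set Y := Real.exp (8 / 100 * LX + 4) with hY
  have e2 : Z ≤ Y := by
    apply Real.exp_le_exp.2
    have h1 : g * LX ≤ 1 / 100 * LX := mul_le_mul_of_nonneg_right (hgε.trans hε100) hLX0.le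
    have h2 : (2 * C2 + 1) * ε * LX ≤ 1 / 100 * LX := mul_le_mul_of_nonneg_right hεC hLX0.le
    linarith
  have hY1 : 1 ≤ Y := Real.one_le_exp (by positivity)
  have hN0 : 0 ≤ N := by linarith
  have hlX1 : 1 ≤ lam * LX := hNR.trans hNLX
  have e3 : 1 + N * (4 * Z) ≤ 5 * (lam * LX) * Y := by
    have h2 : N * (4 * Z) ≤ (lam * LX) * (4 * Y) :=
      mul_le_mul hNLX (by linarith) (by positivity) (by linarith)
    have h3 : 1 * 1 ≤ (lam * LX) * Y := mul_le_mul hlX1 hY1 zero_le_one (by linarith)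
    linarith
  have e4 : 160 * (lam * LX) * Real.exp 6 ≤ Real.exp (26 / 100 * LX) := by
    have h1 : 1 + 13 / 100 * LX + (13 / 100 * LX) ^ 2 / 2 ≤ Real.exp (13 / 100 * LX) :=
      Real.quadratic_le_exp_of_nonneg (by positivity)
    have h2 : 169 / 20000 * (LX * LX) ≤ Real.exp (13 / 100 * LX) := by
      have h3 : (13 / 100 * LX) ^ 2 / 2 = 169 / 20000 * (LX * LX) := by ring
      rw [h3] at h1
      linarith
    have h4 : Real.exp (26 / 100 * LX) = Real.exp (13 / 100 * LX) * Real.exp (13 / 100 * LX) := by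
      rw [← Real.exp_add]; ring_nf
    have h5 : Real.exp 6 ≤ 729 := by
      have h6 : Real.exp 6 = Real.exp 1 ^ 6 := by rw [← Real.exp_nat_mul]; norm_num
      rw [h6]
      calc Real.exp 1 ^ 6 ≤ 3 ^ 6 := by
            refine pow_le_pow_left₀ (Real.exp_pos _).le ?_ 6
            have := Real.exp_one_lt_d9
            linarith
        _ = 729 := by norm_num
    have h7 : (169 / 20000 * (LX * LX)) * (169 / 20000 * (LX * LX)) ≤
        Real.exp (13 / 100 * LX) * Real.exp (13 / 100 * LX) :=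
      mul_le_mul h2 h2 (by positivity) (Real.exp_pos _).le
    rw [h4]
    refine le_trans ?_ h7
    have h8 : 10000000000 ≤ LX * LX := by
      have : 100000 * 100000 ≤ LX * LX := mul_le_mul hLX hLX (by norm_num) hLX0.le
      linarith
    have h9 : lam * LX ≤ LX * LX := mul_le_mul_of_nonneg_right hlam hLX0.le
    have h10 : 10000000000 * (LX * LX) ≤ (LX * LX) * (LX * LX) :=
      mul_le_mul_of_nonneg_right h8 (by positivity)
    calc 160 * (lam * LX) * Real.exp 6 ≤ 160 * (LX * LX) * 729 := by gcongr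
      _ ≤ 28561 / 400000000 * ((LX * LX) * (LX * LX)) := by linarith
      _ = _ := by ring
  have e5 : Real.exp Λ ≤ Real.exp (10 / 100 * LX) := Real.exp_le_exp.2 (by linarith)
  calc Real.exp (6 * (LX / 100) + 2) * (1 + N * (4 * Z))
      ≤ Real.exp (6 * (LX / 100) + 2) * (5 * (lam * LX) * Y) :=
        mul_le_mul_of_nonneg_left e3 (Real.exp_pos _).le
    _ = (160 * (lam * LX) * Real.exp 6) * Real.exp Λ *
        (Real.exp (14 / 100 * LX) * Real.exp (-Λ) / 32) := by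
        have h1 : Real.exp (6 * (LX / 100) + 2) * Y =
            Real.exp 6 * Real.exp Λ * (Real.exp (14 / 100 * LX) * Real.exp (-Λ)) := by
          rw [hY, ← Real.exp_add, ← Real.exp_add, ← Real.exp_add, ← Real.exp_add]
          congr 1
          ring
        calc _ = 5 * (lam * LX) * (Real.exp (6 * (LX / 100) + 2) * Y) := by ring
          _ = _ := by rw [h1]; ring
    _ ≤ Real.exp (26 / 100 * LX) * Real.exp (10 / 100 * LX) *
        (Real.exp (14 / 100 * LX) * Real.exp (-Λ) / 32) := by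
        refine mul_le_mul_of_nonneg_right ?_ (by positivity)
        exact mul_le_mul e4 e5 (Real.exp_pos _).le (Real.exp_pos _).le
    _ = Real.exp (LX / 2) * (Real.exp (-Λ) / 32) := by
        have h1 : Real.exp (26 / 100 * LX) * Real.exp (10 / 100 * LX) *
            Real.exp (14 / 100 * LX) = Real.exp (LX / 2) := by
          rw [← Real.exp_add, ← Real.exp_add]
          congr 1
          ring
        rw [← h1]
        ring

open Classical in
/-- the conclusion of the uniform theorem -/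
def UD (C1 C2 K0 K : ℝ) : Prop :=
    ∀ (lam : ℝ), 1 ≤ lam → ∀ (N : ℕ) (Q : Finset ℕ) (k : ℕ → ℕ) (hit : ℕ → Fin N → ℕ → Prop)
      (LX lq : ℝ),
      HitSys Q k hit → 0 < N → 1 ≤ lq → Real.exp (K * lam) * lq ≤ LX → N * lq ≤ lam * LX →
      (∀ q ∈ Q, lq < Real.log (q : ℕ)) → (∀ q ∈ Q, Real.log (q : ℕ) ≤ LX / (K0 * lam)) →
      (∀ q ∈ Q, pp N k q ≤ 1 / 2) →
      (∀ u v, lq ≤ u → u ≤ v → v ≤ LX / (K0 * lam) →
        ∏ q ∈ Q with u < Real.log (q : ℕ) ∧ Real.log (q : ℕ) ≤ v, (1 - pp N k q) ≤ C1 * u / v) →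
      (∀ v, 0 ≤ v → v ≤ LX / (K0 * lam) →
        ∑ q ∈ Q with Real.log (q : ℕ) ≤ v, pp N k q * Real.log q ≤ C2 * v) →
      ∑ q ∈ Q, ((q : ℝ) ^ 2)⁻¹ ≤ 1 → (N : ℝ) ^ 2 * ∑ q ∈ Q, pp N k q ^ 2 ≤ 1 / 80000 →
      ∀ (B : Finset ℕ) (M E : ℝ), 0 ≤ M → 0 ≤ E → EquiD (∏ q ∈ Q, q) B M E →
        E * Real.exp (LX / 2) ≤ M →
        Real.exp (-Real.exp (K * lam)) * M ≤
          ((B.filter fun t => ∀ i : Fin N, ∃ q ∈ Q, hit q i t).card : ℝ)

end Pool.Agent.PosProp
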