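import Pool.Agent.Lib.PosProp.Unif

/-!
# The uniform counting theorem: constants
-/

open Finset Pool.Agent.GapSieve

namespace Pool.Agent.PosProp

/-- the parameters for a given `lam` -/
structure Cst (C1 C2 K0 K lam ε g δ0 Λ K4 : ℝ) (J bs D : ℕ) : Prop where
  hε : ε = 1 / (K0 * lam)
  hε0 : 0 < ε
  hεC : (2 * C2 + 1) * ε ≤ 1 / 100
  hε100 : ε ≤ 1 / 100
  hε1 : 655360000 * (C1 ^ 2 * lam * (Real.exp (8 * C2) + 1)) * ε ≤ 1
  hJ0 : 0 < J
  hJ : 51200 * (C1 ^ 2 * C2 * Real.exp (4 * C2) * lam) ≤ J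
  hbs : Real.exp (66 * C2) ≤ 4 ^ bs
  hg : g = ε / 2 ^ (J - 1)
  hg0 : 0 < g
  hgε : g ≤ ε
  hδ0 : 0 < δ0
  hδg : 12 * ((bs : ℝ) + 1) * δ0 = g
  hD : ε ≤ δ0 * 2 ^ D
  hΛ : Λ = 16 * (C1 ^ 2 * lam / ε * 2 ^ (J - 1))
  hK4 : K4 = Real.exp (120 * (C1 * lam / δ0 * Real.exp (15 * (2 * C2 * D))))
  k1 : 16 * C1 ≤ Real.exp (K * lam) * δ0
  k2 : 1 ≤ Real.exp (K * lam) * g
  k3 : lam ≤ Real.exp (K * lam) * g ^ 2
  k4 : 10 * Λ ≤ Real.exp (K * lam)
  k5 : 100000 ≤ Real.exp (K * lam)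
  k6 : lam ≤ Real.exp (K * lam)
  k7 : Real.exp (-Real.exp (K * lam)) ≤ (Real.exp (-Λ) / 4) ^ 2 / (16 * 3 * K4)

lemma exists_Cst {C1 C2 : ℝ} (hC1 : 1 ≤ C1) (hC2 : 1 ≤ C2) :
    ∃ K0 K : ℝ, 1 ≤ K0 ∧ 1 ≤ K ∧ ∀ lam : ℝ, 1 ≤ lam → ∃ (ε g δ0 Λ K4 : ℝ) (J bs D : ℕ),
      Cst C1 C2 K0 K lam ε g δ0 Λ K4 J bs D := by
  obtain ⟨bs, hbsdef⟩ : ∃ bs : ℕ, bs = ⌈66 * C2⌉₊ := ⟨_, rfl⟩
  have hbs : Real.exp (66 * C2) ≤ 4 ^ bs := by
    have h1 : 66 * C2 ≤ bs := by rw [hbsdef]; exact Nat.le_ceil _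
    calc Real.exp (66 * C2) ≤ Real.exp bs := Real.exp_le_exp.2 h1
      _ = Real.exp 1 ^ bs := by rw [← Real.exp_nat_mul, mul_one]
      _ ≤ 4 ^ bs := by
          refine pow_le_pow_left₀ (Real.exp_pos _).le ?_ bs
          have := Real.exp_one_lt_d9
          linarith
  obtain ⟨bb, hbb⟩ : ∃ bb : ℕ, bb = 12 * (bs + 1) := ⟨_, rfl⟩
  have hbbR : (bb : ℝ) = 12 * ((bs : ℝ) + 1) := by rw [hbb]; push_cast; ring
  have hbb0 : (0 : ℝ) ≤ bb := Nat.cast_nonneg _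
  have hC1sq : 1 ≤ C1 ^ 2 := one_le_pow₀ hC1
  obtain ⟨A, hA⟩ : ∃ A : ℝ, A = 51200 * (C1 ^ 2 * C2 * Real.exp (4 * C2)) := ⟨_, rfl⟩
  have hA0 : 0 ≤ A := by rw [hA]; positivity
  obtain ⟨K0, hK0⟩ : ∃ K0 : ℝ, K0 = 655360000 * (C1 ^ 2 * (Real.exp (8 * C2) + 1)) := ⟨_, rfl⟩
  have hK01 : 2 * C2 + 1 ≤ C1 ^ 2 * (Real.exp (8 * C2) + 1) := by
    have h1 := Real.add_one_le_exp (8 * C2)
    have h2 : 2 * C2 + 1 ≤ Real.exp (8 * C2) + 1 := by linarith
    have h3 : 1 * (Real.exp (8 * C2) + 1) ≤ C1 ^ 2 * (Real.exp (8 * C2) + 1) :=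
      mul_le_mul_of_nonneg_right hC1sq (by positivity)
    linarith
  have hK01' : 100 * (2 * C2 + 1) ≤ K0 := by rw [hK0]; linarith
  have hK00 : 1 ≤ K0 := by linarith
  have hK00' : 0 < K0 := by linarith
  obtain ⟨G, hG⟩ : ∃ G : ℝ, G = A + K0 + bb := ⟨_, rfl⟩
  have hG0 : 0 ≤ G := by rw [hG]; positivity
  obtain ⟨K, hK⟩ : ∃ K : ℝ, K = 20 + 16 * C1 ^ 2 + 16 * C1 + 120 * C1 + 4 * G +
    30 * C2 * (A + bb) := ⟨_, rfl⟩
  have hT0 : 0 ≤ 30 * C2 * (A + bb) := by positivity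
  have hK1 : 1 ≤ K := by rw [hK]; linarith
  refine ⟨K0, K, hK00, hK1, fun lam hlam => ?_⟩
  have hlam0 : 0 < lam := by linarith
  obtain ⟨J, hJdef⟩ : ∃ J : ℕ, J = ⌈A * lam⌉₊ := ⟨_, rfl⟩
  have hJ : A * lam ≤ J := by rw [hJdef]; exact Nat.le_ceil _
  have hApos : 0 < A := by rw [hA]; positivity
  have hJ0 : 0 < J := by
    have h2 : (0 : ℝ) < J := (mul_pos hApos hlam0).trans_le hJ
    exact_mod_cast h2
  have hJ1 : ((J - 1 : ℕ) : ℝ) ≤ A * lam := by
    have h1 : (J : ℝ) < A * lam + 1 := by rw [hJdef]; exact Nat.ceil_lt_add_one (by positivity)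
    rw [Nat.cast_sub hJ0]
    push_cast
    linarith
  obtain ⟨ε, hε⟩ : ∃ ε : ℝ, ε = 1 / (K0 * lam) := ⟨_, rfl⟩
  have hε0 : 0 < ε := by rw [hε]; positivity
  obtain ⟨g, hg⟩ : ∃ g : ℝ, g = ε / 2 ^ (J - 1) := ⟨_, rfl⟩
  have hg0 : 0 < g := by rw [hg]; positivity
  obtain ⟨δ0, hδ⟩ : ∃ δ0 : ℝ, δ0 = g / (12 * (bs + 1)) := ⟨_, rfl⟩
  have hδ0 : 0 < δ0 := by rw [hδ]; positivity
  have hδg : 12 * ((bs : ℝ) + 1) * δ0 = g := by rw [hδ]; field_simp
  have h2J : (2 : ℝ) ^ (J - 1) ≤ Real.exp (A * lam) := by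
    calc (2 : ℝ) ^ (J - 1) ≤ Real.exp 1 ^ (J - 1) := by
          refine pow_le_pow_left₀ (by norm_num) ?_ _
          have := Real.exp_one_gt_d9
          linarith
      _ = Real.exp ((J - 1 : ℕ) : ℝ) := by rw [← Real.exp_nat_mul, mul_one]
      _ ≤ _ := Real.exp_le_exp.2 hJ1
  have h1g : 1 / g = 2 ^ (J - 1) * (K0 * lam) := by rw [hg, hε]; field_simp
  have h1g' : 1 / g ≤ Real.exp ((A + K0) * lam) := by
    rw [h1g, add_mul, Real.exp_add]
    exact mul_le_mul h2J mul_le_exp (by positivity) (Real.exp_pos _).le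
  have hgG : 1 ≤ Real.exp (G * lam) * g := by
    have h1 : Real.exp ((A + K0) * lam) ≤ Real.exp (G * lam) := by
      apply Real.exp_le_exp.2
      exact mul_le_mul_of_nonneg_right (by rw [hG]; linarith) hlam0.le
    rw [div_le_iff₀ hg0] at h1g'
    have h2 := mul_le_mul_of_nonneg_right h1 hg0.le
    linarith
  have hδG : 1 ≤ Real.exp (G * lam) * δ0 := by
    have h1 : 1 / δ0 = bb * (1 / g) := by
      rw [hδ, hbbR]; field_simp
    have h2 : 1 / δ0 ≤ Real.exp (G * lam) := by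
      rw [h1, hG, add_mul, Real.exp_add, mul_comm]
      exact mul_le_mul h1g' (le_exp_mul hbb0 hlam) hbb0 (Real.exp_pos _).le
    rwa [div_le_iff₀ hδ0] at h2
  obtain ⟨D, hDdef⟩ : ∃ D : ℕ, D = (J - 1) + bb := ⟨_, rfl⟩
  have hD : ε ≤ δ0 * 2 ^ D := by
    have h1 : ε = δ0 * (bb * 2 ^ (J - 1)) := by
      rw [hbbR, ← mul_assoc, mul_comm δ0, hδg, hg]; field_simp
    have h2 : (bb : ℝ) ≤ 2 ^ bb := by exact_mod_cast Nat.lt_two_pow_self.le
    rw [hDdef, pow_add]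
    calc ε = δ0 * (bb * 2 ^ (J - 1)) := h1
      _ ≤ δ0 * (2 ^ bb * 2 ^ (J - 1)) := by gcongr
      _ = _ := by ring
  obtain ⟨Λ, hΛ⟩ : ∃ Λ : ℝ, Λ = 16 * (C1 ^ 2 * lam / ε * 2 ^ (J - 1)) := ⟨_, rfl⟩
  have hΛ' : Λ = 16 * C1 ^ 2 * lam * (1 / g) := by
    rw [hΛ, hg]; field_simp
  have hΛle : Λ ≤ Real.exp ((16 * C1 ^ 2 + G) * lam) := by
    rw [hΛ', add_mul, Real.exp_add]
    refine mul_le_mul mul_le_exp ?_ (by positivity) (Real.exp_pos _).le
    refine h1g'.trans (Real.exp_le_exp.2 ?_)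
    exact mul_le_mul_of_nonneg_right (by rw [hG]; linarith) hlam0.le
  obtain ⟨K4, hK4⟩ : ∃ K4 : ℝ,
    K4 = Real.exp (120 * (C1 * lam / δ0 * Real.exp (15 * (2 * C2 * D)))) := ⟨_, rfl⟩
  have hK4log : 120 * (C1 * lam / δ0 * Real.exp (15 * (2 * C2 * D))) ≤
      Real.exp ((120 * C1 + G + 30 * C2 * (A + bb)) * lam) := by
    have h1 : Real.exp (15 * (2 * C2 * D)) ≤ Real.exp (30 * C2 * (A + bb) * lam) := by
      apply Real.exp_le_exp.2
      have h2 : (D : ℝ) ≤ (A + bb) * lam := by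
        rw [hDdef]
        push_cast
        have h6 : (bb : ℝ) * 1 ≤ bb * lam := mul_le_mul_of_nonneg_left hlam hbb0
        have h7 : ((J - 1 : ℕ) : ℝ) ≤ A * lam := hJ1
        linarith
      have h3 := mul_le_mul_of_nonneg_left h2 (show 0 ≤ 30 * C2 by linarith)
      linarith
    have h4 : 1 / δ0 ≤ Real.exp (G * lam) := by
      rw [div_le_iff₀ hδ0]
      exact hδG
    have h5 : 120 * (C1 * lam / δ0 * Real.exp (15 * (2 * C2 * D))) =
        (120 * C1 * lam) * (1 / δ0) * Real.exp (15 * (2 * C2 * D)) := by ring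
    rw [h5, add_mul, add_mul, Real.exp_add, Real.exp_add]
    refine mul_le_mul ?_ h1 (Real.exp_pos _).le (by positivity)
    exact mul_le_mul mul_le_exp h4 (by positivity) (Real.exp_pos _).le
  have hmono : ∀ x, x ≤ K → Real.exp (x * lam) ≤ Real.exp (K * lam) := fun x hx =>
    Real.exp_le_exp.2 (mul_le_mul_of_nonneg_right hx hlam0.le)
  have hcst : ∀ x : ℝ, 0 ≤ x → x ≤ Real.exp (x * lam) := fun x hx => le_exp_mul hx hlam
  refine ⟨ε, g, δ0, Λ, K4, J, bs, D, hε, hε0, ?_, ?_, ?_, hJ0, ?_, hbs, hg, hg0, ?_, hδ0, hδg, hD,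
    hΛ, hK4, ?_, ?_, ?_, ?_, ?_, ?_, ?_⟩
  · rw [hε, mul_one_div, div_le_div_iff₀ (by positivity) (by norm_num)]
    have h1 : K0 * 1 ≤ K0 * lam := mul_le_mul_of_nonneg_left hlam hK00'.le
    linarith
  · rw [hε, div_le_div_iff₀ (by positivity) (by norm_num)]
    have h1 : K0 * 1 ≤ K0 * lam := mul_le_mul_of_nonneg_left hlam hK00'.le
    linarith
  · rw [hε, hK0, mul_one_div, div_le_one (by positivity)]
    apply le_of_eq
    ring
  · rw [← mul_assoc, ← hA]; exact hJ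
  · rw [hg]; exact div_le_self hε0.le (one_le_pow₀ (by norm_num))
  · -- k1
    have h1 : 16 * C1 ≤ Real.exp (16 * C1 * lam) := hcst _ (by positivity)
    have h2 : Real.exp ((16 * C1 + G) * lam) ≤ Real.exp (K * lam) := hmono _ (by rw [hK]; linarith)
    calc 16 * C1 = 16 * C1 * 1 := (mul_one _).symm
      _ ≤ Real.exp (16 * C1 * lam) * (Real.exp (G * lam) * δ0) :=
          mul_le_mul h1 hδG zero_le_one (Real.exp_pos _).le
      _ = Real.exp ((16 * C1 + G) * lam) * δ0 := by rw [add_mul, Real.exp_add]; ring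
      _ ≤ _ := mul_le_mul_of_nonneg_right h2 hδ0.le
  · -- k2
    refine hgG.trans (mul_le_mul_of_nonneg_right (hmono _ ?_) hg0.le)
    rw [hK]; linarith
  · -- k3
    have h1 : lam ≤ Real.exp (1 * lam) := by
      have := Real.add_one_le_exp (1 * lam); linarith
    have h2 : Real.exp ((1 + 2 * G) * lam) ≤ Real.exp (K * lam) := hmono _ (by rw [hK]; linarith)
    have h3 : 1 ≤ (Real.exp (G * lam) * g) ^ 2 := one_le_pow₀ hgG
    calc lam = lam * 1 := (mul_one _).symm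
      _ ≤ Real.exp (1 * lam) * (Real.exp (G * lam) * g) ^ 2 :=
          mul_le_mul h1 h3 zero_le_one (Real.exp_pos _).le
      _ = Real.exp ((1 + 2 * G) * lam) * g ^ 2 := by
          rw [add_mul, Real.exp_add, mul_pow, ← Real.exp_nat_mul]
          push_cast
          rw [← mul_assoc (2 : ℝ) G lam]
          ring
      _ ≤ _ := mul_le_mul_of_nonneg_right h2 (by positivity)
  · -- k4
    have h1 : (10 : ℝ) ≤ Real.exp (10 * lam) := hcst _ (by norm_num)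
    have h2 : Real.exp ((10 + (16 * C1 ^ 2 + G)) * lam) ≤ Real.exp (K * lam) :=
      hmono _ (by rw [hK]; linarith)
    refine le_trans ?_ h2
    rw [add_mul, Real.exp_add]
    refine mul_le_mul h1 hΛle ?_ (Real.exp_pos _).le
    rw [hΛ']
    positivity
  · -- k5
    have h1 : Real.exp (20 * lam) ≤ Real.exp (K * lam) := hmono _ (by rw [hK]; linarith)
    refine le_trans ?_ h1
    have h2 : Real.exp (20 * 1) ≤ Real.exp (20 * lam) := Real.exp_le_exp.2 (by linarith)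
    refine le_trans ?_ h2
    have h3 : Real.exp (20 * 1) = Real.exp 1 ^ 20 := by rw [← Real.exp_nat_mul]; norm_num
    rw [h3]
    calc (100000 : ℝ) ≤ 2 ^ 20 := by norm_num
      _ ≤ Real.exp 1 ^ 20 := by
          refine pow_le_pow_left₀ (by norm_num) ?_ _
          have := Real.exp_one_gt_d9
          linarith
  · -- k6
    have h1 : lam ≤ Real.exp (1 * lam) := by
      have := Real.add_one_le_exp (1 * lam); linarith
    exact h1.trans (hmono _ hK1)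
  · -- k7
    have hx : 1 ≤ Real.exp ((16 * C1 ^ 2 + G) * lam) := Real.one_le_exp (by positivity)
    have hy : 1 ≤ Real.exp ((120 * C1 + G + 30 * C2 * (A + bb)) * lam) :=
      Real.one_le_exp (by positivity)
    set x := Real.exp ((16 * C1 ^ 2 + G) * lam) with hxd
    set y := Real.exp ((120 * C1 + G + 30 * C2 * (A + bb)) * lam) with hyd
    have h10 : 2 * x + 7 + y ≤ Real.exp (K * lam) := by
      have h1 : Real.exp ((10 + ((16 * C1 ^ 2 + G) + (120 * C1 + G + 30 * C2 * (A + bb)))) * lam) ≤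
        Real.exp (K * lam) := hmono _ (by rw [hK]; linarith)
      refine le_trans ?_ h1
      rw [add_mul, add_mul, Real.exp_add, Real.exp_add, ← hxd, ← hyd]
      have h2 : (10 : ℝ) ≤ Real.exp (10 * lam) := hcst _ (by norm_num)
      have h3 : 1 ≤ x * y := one_le_mul_of_one_le_of_one_le hx hy
      have h4 : x ≤ x * y := le_mul_of_one_le_right (by linarith) hy
      have h5 : y ≤ x * y := le_mul_of_one_le_left (by linarith) hx
      have h6 : 10 * (x * y) ≤ Real.exp (10 * lam) * (x * y) :=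
        mul_le_mul_of_nonneg_right h2 (by linarith)
      linarith
    have h7 : Real.exp (-Real.exp (K * lam)) ≤ Real.exp (-(2 * Λ + 7 +
        120 * (C1 * lam / δ0 * Real.exp (15 * (2 * C2 * D))))) := by
      apply Real.exp_le_exp.2
      linarith
    refine h7.trans ?_
    rw [hK4, le_div_iff₀ (by positivity)]
    have h8 : (768 : ℝ) ≤ Real.exp 7 := by
      have h3 : Real.exp 7 = Real.exp 1 ^ 7 := by rw [← Real.exp_nat_mul]; norm_num
      rw [h3]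
      calc (768 : ℝ) ≤ (27 / 10) ^ 7 := by norm_num
        _ ≤ Real.exp 1 ^ 7 := by
            refine pow_le_pow_left₀ (by norm_num) ?_ _
            have := Real.exp_one_gt_d9
            linarith
    set E4 := 120 * (C1 * lam / δ0 * Real.exp (15 * (2 * C2 * D))) with hE4
    calc Real.exp (-(2 * Λ + 7 + E4)) * (16 * 3 * Real.exp E4)
        = 48 * Real.exp (-(2 * Λ) - 7) := by
          have : Real.exp (-(2 * Λ) - 7) = Real.exp (-(2 * Λ + 7 + E4)) * Real.exp E4 := by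
            rw [← Real.exp_add]; ring_nf
          rw [this]; ring
      _ = 48 * (Real.exp (-Λ) ^ 2 * Real.exp (-7)) := by
          rw [← Real.exp_nat_mul, ← Real.exp_add]
          congr 2
          push_cast
          ring
      _ ≤ (Real.exp (-Λ) / 4) ^ 2 := by
          have h9 : Real.exp (-7) ≤ 1 / 768 := by
            rw [Real.exp_neg, inv_eq_one_div]
            exact one_div_le_one_div_of_le (by norm_num) h8
          have h11 : 0 ≤ Real.exp (-Λ) ^ 2 := by positivity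
          have h12 := mul_le_mul_of_nonneg_left h9 h11
          have h13 : (Real.exp (-Λ) / 4) ^ 2 = Real.exp (-Λ) ^ 2 / 16 := by ring
          rw [h13]
          linarith

end Pool.Agent.PosProp
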