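import Pool.Agent.Lib.PosProp.Unif2

/-!
# The uniform counting theorem
-/

open Finset Pool.Agent.GapSieve

namespace Pool.Agent.PosProp

lemma unif_aux {C1 C2 K0 K lam ε g δ0 Λ K4 : ℝ} {J bs D : ℕ} (hC1 : 1 ≤ C1) (hC2 : 1 ≤ C2)
    (hlam : 1 ≤ lam) (c : Cst C1 C2 K0 K lam ε g δ0 Λ K4 J bs D)
    {N : ℕ} {Q : Finset ℕ} {k : ℕ → ℕ} {hit : ℕ → Fin N → ℕ → Prop} {LX lq : ℝ}
    (hsys : HitSys Q k hit) (hN : 0 < N) (hlq1 : 1 ≤ lq) (hK : Real.exp (K * lam) * lq ≤ LX)
    (hNlq : N * lq ≤ lam * LX) (hlo : ∀ q ∈ Q, lq < Real.log (q : ℕ))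
    (hhi : ∀ q ∈ Q, Real.log (q : ℕ) ≤ ε * LX) (hph : ∀ q ∈ Q, pp N k q ≤ 1 / 2)
    (hV : ∀ u v, lq ≤ u → u ≤ v → v ≤ ε * LX →
      ∏ q ∈ Q with u < Real.log (q : ℕ) ∧ Real.log (q : ℕ) ≤ v, (1 - pp N k q) ≤ C1 * u / v)
    (hS : ∀ v, 0 ≤ v → v ≤ ε * LX →
      ∑ q ∈ Q with Real.log (q : ℕ) ≤ v, pp N k q * Real.log q ≤ C2 * v)
    (hinv : ∑ q ∈ Q, ((q : ℝ) ^ 2)⁻¹ ≤ 1) :
    ∃ Q1 Q2 : Finset ℕ, Q1 ∪ Q2 = Q ∧ Par Q1 Q2 k hit C1 C2 lam LX lq ε δ0 J bs := by
  have hgpos := c.hg0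
  have hLXK : Real.exp (K * lam) ≤ LX := by
    refine le_trans ?_ hK
    exact le_mul_of_one_le_right (Real.exp_pos _).le hlq1
  have hLX0 : 0 < LX := (Real.exp_pos _).trans_le hLXK
  have hlqδ : 16 * C1 * lq ≤ δ0 * LX := by
    have h1 := mul_le_mul_of_nonneg_right c.k1 (show 0 ≤ lq by linarith)
    have h2 := mul_le_mul_of_nonneg_left hK c.hδ0.le
    linarith
  have hlqδ' : lq ≤ δ0 * LX := by
    refine le_trans ?_ hlqδ
    exact le_mul_of_one_le_left (by linarith) (by linarith)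
  have hp0 : ∀ q ∈ Q, 0 ≤ pp N k q := fun q hq => pp_nonneg hsys hN hq
  set Q1 := Q.filter fun q : ℕ => Real.log q ≤ δ0 * LX with hQ1
  set Q2 := Q.filter fun q : ℕ => ¬ Real.log q ≤ δ0 * LX with hQ2
  have hU : Q1 ∪ Q2 = Q := filter_union_filter_not_eq _ _
  have hbs0 : (0 : ℝ) ≤ bs := Nat.cast_nonneg bs
  have hδg' : δ0 ≤ g := by
    rw [← c.hδg]
    exact le_mul_of_one_le_left c.hδ0.le (by linarith)
  have hδε : δ0 * LX ≤ ε * LX :=
    mul_le_mul_of_nonneg_right (hδg'.trans c.hgε) hLX0.le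
  refine ⟨Q1, Q2, hU, ?_⟩
  exact
    { sys := by rw [hU]; exact hsys
      N0 := hN
      hC1 := hC1
      hC2 := hC2
      hlam := hlam
      hlq := hlq1
      hLX := hLX0
      hε := c.hε0
      hδ := c.hδ0
      Nlq := hNlq
      lo1 := fun q hq => hlo q (mem_filter.1 hq).1
      hi1 := fun q hq => (mem_filter.1 hq).2
      lo2 := fun q hq => not_le.1 (mem_filter.1 hq).2
      hi2 := fun q hq => hhi q (mem_filter.1 hq).1
      ph := by rw [hU]; exact hph
      V1 := by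
        have h1 := hV lq (δ0 * LX) (le_refl _) hlqδ' hδε
        have h2 : Q.filter (fun q : ℕ => lq < Real.log q ∧ Real.log q ≤ δ0 * LX) = Q1 := by
          rw [hQ1]
          refine filter_congr fun q hq => ?_
          exact ⟨fun h => h.2, fun h => ⟨hlo q hq, h⟩⟩
        rw [h2] at h1
        exact h1
      V2 := by
        intro v hv hv'
        have h1 := hV (δ0 * LX) v hlqδ' hv hv'
        have h2 : Q2.filter (fun q : ℕ => Real.log q ≤ v) =
            Q.filter (fun q : ℕ => δ0 * LX < Real.log q ∧ Real.log q ≤ v) := by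
          rw [hQ2, filter_filter]
          refine filter_congr fun q _ => ?_
          rw [not_le]
        rw [h2]
        exact h1
      S1 := by
        intro v hv hv'
        refine le_trans (sum_le_sum_of_subset_of_nonneg ?_ fun q hq _ => ?_) (hS v hv hv')
        · exact filter_subset_filter _ (filter_subset _ _)
        · exact mul_nonneg (hp0 q (mem_filter.1 hq).1) (Real.log_natCast_nonneg q)
      S2 := by
        intro v hv hv'
        refine le_trans (sum_le_sum_of_subset_of_nonneg ?_ fun q hq _ => ?_) (hS v hv hv')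
        · exact filter_subset_filter _ (filter_subset _ _)
        · exact mul_nonneg (hp0 q (mem_filter.1 hq).1) (Real.log_natCast_nonneg q)
      inv := by rw [hU]; exact hinv
      hbs := c.hbs
      hJ0 := c.hJ0
      hJ := c.hJ
      hδJ := by
        have hg := c.hg
        calc δ0 * 2 ^ (J - 1) ≤ g * 2 ^ (J - 1) := by gcongr
          _ = ε := by rw [hg]; field_simp
      hα := by
        have hl0 : 0 < δ0 * LX := mul_pos c.hδ0 hLX0
        rw [← mul_div_assoc, div_le_iff₀ hl0]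
        linarith
      hh0 := by
        have hg := c.hg
        have h1 : 12 * ((bs : ℝ) + 1) * (δ0 * LX) = g * LX := by rw [← c.hδg]; ring
        have h2 : ε * LX / 2 ^ (J - 1) = g * LX := by rw [hg]; ring
        have h4 : 1 ≤ g * LX := by
          have h5 := mul_le_mul_of_nonneg_left hLXK hgpos.le
          have h6 := c.k2
          linarith
        rw [h1, h2]
        have h3 : 1 * (g * LX) ≤ C2 * (g * LX) := mul_le_mul_of_nonneg_right hC2 (by linarith)
        linarith }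

/-- **Uniform counting theorem.** -/
theorem exists_UD {C1 C2 : ℝ} (hC1 : 1 ≤ C1) (hC2 : 1 ≤ C2) :
    ∃ K0 K : ℝ, 1 ≤ K0 ∧ 1 ≤ K ∧ UD C1 C2 K0 K := by
  classical
  obtain ⟨K0, K, hK0, hK1, hcst⟩ := exists_Cst hC1 hC2
  refine ⟨K0, K, hK0, hK1, ?_⟩
  intro lam hlam N Q k hit LX lq hsys hN hlq1 hK hNlq hlo hhi hph hV hS hinv hsm B M E hM hE hB hME
  obtain ⟨ε, g, δ0, Λ, K4, J, bs, D, c⟩ := hcst lam hlam
  have hlam0 : 0 < lam := by linarith
  have hεLX : LX / (K0 * lam) = ε * LX := by rw [c.hε]; ring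
  simp only [hεLX] at hhi hV hS
  obtain ⟨Q1, Q2, hU, hPar⟩ := unif_aux hC1 hC2 hlam c hsys hN hlq1 hK hNlq hlo hhi hph hV hS
    hinv
  have hLXK : Real.exp (K * lam) ≤ LX := by
    refine le_trans ?_ hK
    exact le_mul_of_one_le_right (Real.exp_pos _).le hlq1
  have hLX0 : 0 < LX := (Real.exp_pos _).trans_le hLXK
  have hNR : (1 : ℝ) ≤ N := by exact_mod_cast hN
  have hNLX : (N : ℝ) ≤ lam * LX := by
    refine le_trans ?_ hNlq
    exact le_mul_of_one_le_right (by linarith) hlq1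
  have hg0 := c.hg0
  have hhz : hz δ0 LX bs = g * LX + 1 := by
    unfold hz
    rw [← c.hδg]
    ring
  have hLa : 1 ≤ g * LX := by
    have h5 := mul_le_mul_of_nonneg_left hLXK hg0.le
    have h6 := c.k2
    linarith
  have hLb : lam ≤ g ^ 2 * LX := by
    have h5 := mul_le_mul_of_nonneg_left hLXK (show 0 ≤ g ^ 2 by positivity)
    have h6 := c.k3
    linarith
  have hcore := posdens_core2 hPar c.hΛ c.hD c.hK4 c.hε1 (by rw [hU]; exact hsm) ?_ ?_ ?_
    (B := B) (M := M) (E := E) hM hE (by rw [hU]; exact hB) hME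
  · rw [hU] at hcore
    refine le_trans ?_ hcore
    exact mul_le_mul_of_nonneg_right c.k7 hM
  · -- hN2
    rw [hhz]
    have h1 : Real.exp (1 - 2 * (g * LX + 1)) ≤ Real.exp (-(2 * (g * LX))) :=
      Real.exp_le_exp.2 (by linarith)
    have h2 := exp_neg_le_two_div (y := 2 * (g * LX)) (by linarith)
    have h3 : 2 / (2 * (g * LX)) ^ 2 = 1 / (2 * (g ^ 2 * LX * LX)) := by
      field_simp
    rw [h3] at h2
    calc N * (2 * Real.exp (1 - 2 * (g * LX + 1)))
        ≤ (lam * LX) * (2 * (1 / (2 * (g ^ 2 * LX * LX)))) := by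
          refine mul_le_mul hNLX (by linarith) (by positivity) (by positivity)
      _ = lam / (g ^ 2 * LX) := by field_simp
      _ ≤ 1 := by rw [div_le_one (by positivity)]; exact hLb
  · -- hbig
    rw [hhz]
    exact hbig_aux2 (c.k5.trans hLXK) c.hgε c.hε100 c.hεC hNR hNLX (c.k6.trans hLXK)
      (c.k4.trans hLXK)
  · -- hbig4
    rw [← Real.exp_nat_mul]
    apply Real.exp_le_exp.2
    have h2 : 100000 ≤ LX := c.k5.trans hLXK
    push_cast
    linarith

end Pool.Agent.PosProp
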