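import Pool.Agent.Lib.PosProp.Abs

/-!
# Emptying one site
-/

open Finset Pool.Agent.GapSieve

namespace Pool.Agent.PosProp

section system

variable {S : Type*} [DecidableEq S] {N : ℕ}

omit [DecidableEq S] in
lemma prod_update_erase {e : S → Finset ℕ → ℝ} (i : Fin N) (τ : Fin N → S)
    (s : S) (ω : Fin N → Finset ℕ) :
    ePi e (Function.update τ i s) (Function.update ω i ∅) =
      e s ∅ * ∏ j ∈ univ.erase i, e (τ j) (ω j) := by
  unfold ePi
  rw [← mul_prod_erase univ _ (mem_univ i)]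
  simp only [Function.update_self]
  congr 1
  refine prod_congr rfl fun j hj => ?_
  have hji : j ≠ i := (mem_erase.1 hj).1
  rw [Function.update_of_ne hji, Function.update_of_ne hji]

omit [DecidableEq S] in
lemma ePi_split {e : S → Finset ℕ → ℝ} (i : Fin N) (τ : Fin N → S) (ω : Fin N → Finset ℕ) :
    ePi e τ ω = e (τ i) (ω i) * ∏ j ∈ univ.erase i, e (τ j) (ω j) := by
  unfold ePi
  rw [← mul_prod_erase univ _ (mem_univ i)]

omit [DecidableEq S] in
lemma cost_update {d : S → ℝ} (i : Fin N) (τ : Fin N → S) (s : S) :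
    cost d (Function.update τ i s) = cost d τ - d (τ i) + d s := by
  unfold cost
  rw [← add_sum_erase univ _ (mem_univ i), ← add_sum_erase univ (fun j => d (τ j)) (mem_univ i)]
  simp only [Function.update_self]
  have : ∑ j ∈ univ.erase i, d (Function.update τ i s j) = ∑ j ∈ univ.erase i, d (τ j) := by
    refine sum_congr rfl fun j hj => ?_
    rw [Function.update_of_ne (mem_erase.1 hj).1]
  rw [this]
  ring

open Classical in
lemma GG_update {T : Finset S} {s0 : S} {e : S → Finset ℕ → ℝ} {d : S → ℝ} (hs0 : s0 ∈ T)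
    (hd0 : d s0 = 0) {c0 : ℝ} (hc0 : c0 ≠ 0) (he0 : ∀ ω, e s0 ω = c0) (L : ℝ) (i : Fin N)
    (ω : Fin N → Finset ℕ) :
    GG T e d L (Function.update ω i ∅) =
      ∑ τ ∈ (Pi N T).filter (fun τ => τ i = s0), (rr T e d (L - cost d τ) / c0) * ePi e τ ω := by
  unfold GG
  rw [← sum_fiberwise_of_maps_to (t := (Pi N T).filter (fun τ => τ i = s0))
    (g := fun σ => Function.update σ i s0)]
  · refine sum_congr rfl fun τ hτ => ?_
    obtain ⟨hτ1, hτ2⟩ := mem_filter.1 hτ
    have h1 : ePi e τ ω = c0 * ∏ j ∈ univ.erase i, e (τ j) (ω j) := by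
      rw [ePi_split i τ ω, hτ2, he0]
    have h2 : rr T e d (L - cost d τ) / c0 * ePi e τ ω =
        ∑ s ∈ T with d s ≤ L - cost d τ, e s ∅ * ∏ j ∈ univ.erase i, e (τ j) (ω j) := by
      rw [h1]
      unfold rr
      rw [← sum_mul]
      field_simp
    rw [h2]
    refine sum_bij' (fun σ _ => σ i) (fun s _ => Function.update τ i s) ?_ ?_ ?_ ?_ ?_
    · intro σ hσ
      rw [mem_filter, mem_filter] at hσ
      obtain ⟨⟨hσ1, hσ2⟩, hσ3⟩ := hσ
      refine mem_filter.2 ⟨mem_Pi.1 hσ1 i, ?_⟩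
      have h3 : cost d τ = cost d σ - d (σ i) := by
        rw [← hσ3, cost_update, hd0]; ring
      linarith
    · intro s hs
      obtain ⟨hs1, hs2⟩ := mem_filter.1 hs
      rw [mem_filter, mem_filter]
      refine ⟨⟨mem_Pi.2 fun j => ?_, ?_⟩, ?_⟩
      · by_cases hj : j = i
        · subst hj; rw [Function.update_self]; exact hs1
        · rw [Function.update_of_ne hj]; exact mem_Pi.1 hτ1 j
      · rw [cost_update, hτ2, hd0]; linarith
      · rw [Function.update_idem, ← hτ2, Function.update_eq_self]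
    · intro σ hσ
      rw [mem_filter, mem_filter] at hσ
      rw [← hσ.2, Function.update_idem, Function.update_eq_self]
    · intro s _
      simp
    · intro σ hσ
      rw [mem_filter, mem_filter] at hσ
      have h4 : σ = Function.update τ i (σ i) := by
        rw [← hσ.2, Function.update_idem, Function.update_eq_self]
      conv_lhs => rw [h4]
      rw [prod_update_erase]
  · intro σ hσ
    rw [mem_filter] at hσ
    rw [mem_filter]
    refine ⟨mem_Pi.2 fun j => ?_, by simp⟩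
    by_cases hj : j = i
    · subst hj; rw [Function.update_self]; exact hs0
    · rw [Function.update_of_ne hj]; exact mem_Pi.1 hσ.1 j

/-- second moment after emptying the site `i` -/
lemma GG_update_sq {p : ℕ → ℝ} {Q : Finset ℕ} (h0 : ∀ q ∈ Q, 0 ≤ p q) (h1 : ∀ q ∈ Q, p q ≤ 1)
    {T : Finset S} {e : S → Finset ℕ → ℝ} {s0 : S} {d : S → ℝ}
    (horth : ∀ s ∈ T, ∀ t ∈ T, s ≠ t → E1 p Q (fun ω => e s ω * e t ω) = 0)
    (hs0 : s0 ∈ T) (hd : ∀ s ∈ T, 0 ≤ d s)
    (hd0 : d s0 = 0) {c0 : ℝ} (hc0 : 1 / 2 ≤ c0) (hc1 : c0 ≤ 1) (he0 : ∀ ω, e s0 ω = c0)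
    (hneg : ∀ s ∈ T, s ≠ s0 → e s ∅ ≤ 0) (hsum : ∑ s ∈ T, e s ∅ = 0)
    {L θ : ℝ} (hL : 0 ≤ L) (hθ : 0 ≤ θ) (i : Fin N) :
    EN p Q (fun ω : Fin N → Finset ℕ => GG T e d L (Function.update ω i ∅) ^ 2) ≤
      4 * ((Real.exp (-(θ * (L / 2))) * ∑ s ∈ T.erase s0, |e s ∅| * Real.exp (θ * d s)) ^ 2 *
        (∑ s ∈ T, nn p Q e s) ^ N +
        Real.exp (-(θ * (L / 2))) * (∑ s ∈ T, nn p Q e s * Real.exp (θ * d s)) ^ N) := by
  classical
  have hc : c0 ≠ 0 := by linarith
  have hU : (fun ω : Fin N → Finset ℕ => GG T e d L (Function.update ω i ∅) ^ 2) =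
      fun ω => (∑ τ ∈ (Pi N T).filter (fun τ => τ i = s0),
        (rr T e d (L - cost d τ) / c0) * ePi e τ ω) ^ 2 := by
    funext ω
    rw [GG_update hs0 hd0 hc he0]
  rw [hU, parsevalS horth _ (filter_subset _ _)]
  set ρ := ∑ s ∈ T.erase s0, |e s ∅| * Real.exp (θ * d s) with hρ
  have hρ0 : 0 ≤ ρ := sum_nonneg fun s _ => by positivity
  have hnn : ∀ s ∈ T, 0 ≤ nn p Q e s := fun s _ => E1_nonneg h0 h1 fun _ _ => sq_nonneg _
  have hW : ∀ τ ∈ Pi N T, 0 ≤ ∏ j, nn p Q e (τ j) := fun τ hτ =>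
    prod_nonneg fun j _ => hnn _ (mem_Pi.1 hτ j)
  have hb : ∀ h, rr T e d h ^ 2 ≤ 1 ∧ (0 ≤ h → rr T e d h ^ 2 ≤
      (Real.exp (-(θ * h)) * ρ) ^ 2) := fun h =>
    rr_bounds hd hd0 hneg hsum hs0 (by rw [he0]; exact hc1) hθ h
  have hterm : ∀ τ ∈ Pi N T, (rr T e d (L - cost d τ) / c0) ^ 2 * ∏ j, nn p Q e (τ j) ≤
      4 * ((if cost d τ ≤ L / 2 then (Real.exp (-(θ * (L / 2))) * ρ) ^ 2 else 1) *
        ∏ j, nn p Q e (τ j)) := by
    intro τ hτ
    rw [← mul_assoc]
    refine mul_le_mul_of_nonneg_right ?_ (hW τ hτ)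
    have h2 : (rr T e d (L - cost d τ) / c0) ^ 2 ≤ 4 * rr T e d (L - cost d τ) ^ 2 := by
      rw [div_pow, div_le_iff₀ (by positivity)]
      have h3 : 1 ≤ 4 * c0 ^ 2 := by nlinarith
      nlinarith [sq_nonneg (rr T e d (L - cost d τ))]
    refine h2.trans (mul_le_mul_of_nonneg_left ?_ (by norm_num))
    split_ifs with hcase
    · have h4 : 0 ≤ L - cost d τ := by linarith
      refine ((hb _).2 h4).trans (pow_le_pow_left₀ (by positivity) ?_ 2)
      refine mul_le_mul_of_nonneg_right (Real.exp_le_exp.2 ?_) hρ0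
      nlinarith
    · exact (hb _).1
  calc ∑ τ ∈ (Pi N T).filter (fun τ => τ i = s0),
        (rr T e d (L - cost d τ) / c0) ^ 2 * ∏ j, nn p Q e (τ j)
      ≤ ∑ τ ∈ Pi N T, (rr T e d (L - cost d τ) / c0) ^ 2 * ∏ j, nn p Q e (τ j) := by
        refine sum_le_sum_of_subset_of_nonneg (filter_subset _ _) fun τ hτ _ => ?_
        exact mul_nonneg (sq_nonneg _) (hW τ hτ)
    _ ≤ ∑ τ ∈ Pi N T, 4 * ((if cost d τ ≤ L / 2 then (Real.exp (-(θ * (L / 2))) * ρ) ^ 2
        else 1) * ∏ j, nn p Q e (τ j)) := sum_le_sum hterm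
    _ = 4 * (∑ τ ∈ (Pi N T).filter (fun τ => cost d τ ≤ L / 2),
          (Real.exp (-(θ * (L / 2))) * ρ) ^ 2 * ∏ j, nn p Q e (τ j) +
          ∑ τ ∈ (Pi N T).filter (fun τ => L / 2 < cost d τ), ∏ j, nn p Q e (τ j)) := by
        rw [← mul_sum, ← sum_filter_add_sum_filter_not (Pi N T) (fun τ => cost d τ ≤ L / 2)]
        congr 2
        · refine sum_congr rfl fun τ hτ => ?_
          rw [if_pos (mem_filter.1 hτ).2]
        · have h5 : (Pi N T).filter (fun τ => ¬ cost d τ ≤ L / 2) =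
              (Pi N T).filter (fun τ => L / 2 < cost d τ) := by
            ext τ; simp [not_le]
          rw [h5]
          refine sum_congr rfl fun τ hτ => ?_
          rw [if_neg (not_le.2 (mem_filter.1 hτ).2), one_mul]
    _ ≤ _ := by
        refine mul_le_mul_of_nonneg_left (add_le_add ?_ ?_) (by norm_num)
        · rw [← mul_sum]
          refine mul_le_mul_of_nonneg_left ?_ (by positivity)
          rw [← sum_Pi_prod]
          exact sum_le_sum_of_subset_of_nonneg (filter_subset _ _) fun τ hτ _ => hW τ hτ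
        · exact tailS T _ hnn d (L / 2) θ hθ

end system

end Pool.Agent.PosProp
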