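import Pool.Agent.Lib.PosProp.Beta

/-!
# The energy function of the large primes
-/

open Finset Pool.Agent.GapSieve

namespace Pool.Agent.PosProp

/-- logarithmic size of a set of primes -/
noncomputable def lw (A : Finset ℕ) : ℝ := ∑ q ∈ A, Real.log q

/-- Fourier coefficients of the average of the indicators of `ω ∩ B m = ∅` -/
noncomputable def xh (p : ℕ → ℝ) (B : ℕ → Finset ℕ) (J : ℕ) (A : Finset ℕ) : ℝ :=
  (∑ m ∈ range J, dco p B m A) / J

/-- average of the indicators of `ω ∩ B m = ∅` -/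
noncomputable def xf (B : ℕ → Finset ℕ) (J : ℕ) (ω : Finset ℕ) : ℝ :=
  (∑ m ∈ range J, if Disjoint ω (B m) then (1 : ℝ) else 0) / J

lemma xf_expand (p : ℕ → ℝ) {B : ℕ → Finset ℕ} {Q : Finset ℕ} {J : ℕ}
    (hB : ∀ m < J, B m ⊆ Q) (ω : Finset ℕ) :
    xf B J ω = ∑ A ∈ Q.powerset, xh p B J A * chi p A ω := by
  unfold xf xh
  rw [sum_congr rfl fun m hm => disj_expand p (hB m (mem_range.1 hm)) ω, sum_comm, sum_div]
  refine sum_congr rfl fun A _ => ?_
  rw [← sum_mul]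
  ring

lemma xf_empty {B : ℕ → Finset ℕ} {J : ℕ} (hJ : 0 < J) : xf B J ∅ = 1 := by
  unfold xf
  have hJ' : (J : ℝ) ≠ 0 := by exact_mod_cast hJ.ne'
  simp [hJ']

/-- weighted squared norm -/
noncomputable def XX (p w : ℕ → ℝ) (B : ℕ → Finset ℕ) (J : ℕ) (Q : Finset ℕ) : ℝ :=
  ∑ A ∈ Q.powerset, xh p B J A ^ 2 * ∏ q ∈ A, (p q * (1 - p q) * w q)

lemma XX_eq (p w : ℕ → ℝ) {B : ℕ → Finset ℕ} {Q : Finset ℕ} {J : ℕ}
    (hmono : Monotone B) (hB : ∀ m < J, B m ⊆ Q) :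
    XX p w B J Q = (∑ m ∈ range J, ∑ m' ∈ range J, V p B (max m m') *
      ∏ q ∈ B (min m m'), (1 + p q * (w q - 1))) / (J : ℝ) ^ 2 := by
  have h1 : ∑ m ∈ range J, ∑ m' ∈ range J, V p B (max m m') *
        ∏ q ∈ B (min m m'), (1 + p q * (w q - 1)) =
      ∑ S ∈ Q.powerset, (∑ m ∈ range J, dco p B m S) ^ 2 *
        ∏ q ∈ S, (p q * (1 - p q) * w q) := by
    have h2 : ∀ m ∈ range J, ∑ m' ∈ range J, V p B (max m m') *
        ∏ q ∈ B (min m m'), (1 + p q * (w q - 1)) =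
        ∑ S ∈ Q.powerset, (dco p B m S * ∑ m' ∈ range J, dco p B m' S) *
          ∏ q ∈ S, (p q * (1 - p q) * w q) := by
      intro m hm
      rw [mem_range] at hm
      have h3 : ∀ m' ∈ range J, V p B (max m m') *
        ∏ q ∈ B (min m m'), (1 + p q * (w q - 1)) =
        ∑ S ∈ Q.powerset, dco p B m S * dco p B m' S * ∏ q ∈ S, (p q * (1 - p q) * w q) := by
        intro m' hm'
        rw [mem_range] at hm'
        rw [dco_pair' p w hm hm' hmono hB]
      rw [sum_congr rfl h3, sum_comm]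
      refine sum_congr rfl fun S _ => ?_
      rw [mul_sum, sum_mul]
    rw [sum_congr rfl h2, sum_comm]
    refine sum_congr rfl fun S _ => ?_
    rw [← sum_mul, ← sum_mul, pow_two]
  rw [h1, sum_div]
  unfold XX xh
  refine sum_congr rfl fun S _ => ?_
  ring

lemma dco_chi_empty (p : ℕ → ℝ) (B : ℕ → Finset ℕ) (m : ℕ) (A : Finset ℕ) :
    dco p B m A * chi p A ∅ =
      if A ⊆ B m then (∏ q ∈ A, p q) * ∏ q ∈ B m \ A, (1 - p q) else 0 := by
  unfold dco chi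
  split_ifs with h
  · have h1 : ∏ q ∈ A, ((if q ∈ (∅ : Finset ℕ) then (1 : ℝ) else 0) - p q) =
        (-1) ^ A.card * ∏ q ∈ A, p q := by
      rw [← prod_neg]
      refine prod_congr rfl fun q _ => ?_
      simp
    rw [h1]
    have h2 : ((-1 : ℝ) ^ A.card) * (-1) ^ A.card = 1 := by rw [← mul_pow]; norm_num
    linear_combination ((∏ q ∈ A, p q) * ∏ q ∈ B m \ A, (1 - p q)) * h2
  · rw [zero_mul]

lemma xh_chi_empty_nonneg {p : ℕ → ℝ} {B : ℕ → Finset ℕ} {J : ℕ} {Q : Finset ℕ}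
    (hB : ∀ m < J, B m ⊆ Q) (h0 : ∀ q ∈ Q, 0 ≤ p q) (h1 : ∀ q ∈ Q, p q ≤ 1) (A : Finset ℕ) :
    0 ≤ xh p B J A * chi p A ∅ := by
  unfold xh
  rw [div_mul_eq_mul_div, sum_mul]
  refine div_nonneg (sum_nonneg fun m hm => ?_) (Nat.cast_nonneg _)
  rw [dco_chi_empty]
  split_ifs with h
  · have hs := hB m (mem_range.1 hm)
    refine mul_nonneg (prod_nonneg fun q hq => h0 q (hs (h hq))) (prod_nonneg fun q hq => ?_)
    have := h1 q (hs (mem_sdiff.1 hq).1)
    linarith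
  · exact le_refl 0

/-- generating function at the empty configuration -/
lemma sum_xh_chi_empty {p : ℕ → ℝ} {B : ℕ → Finset ℕ} {J : ℕ} {Q : Finset ℕ}
    (hB : ∀ m < J, B m ⊆ Q) (w : ℕ → ℝ) :
    ∑ A ∈ Q.powerset, (xh p B J A * chi p A ∅) * ∏ q ∈ A, w q =
      (∑ m ∈ range J, ∏ q ∈ B m, (1 + p q * (w q - 1))) / J := by
  have h1 : ∀ m ∈ range J, ∏ q ∈ B m, (1 + p q * (w q - 1)) =
      ∑ A ∈ Q.powerset, (dco p B m A * chi p A ∅) * ∏ q ∈ A, w q := by
    intro m hm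
    have hs := hB m (mem_range.1 hm)
    have h2 : ∑ A ∈ Q.powerset, (dco p B m A * chi p A ∅) * ∏ q ∈ A, w q =
        ∑ A ∈ (B m).powerset, (dco p B m A * chi p A ∅) * ∏ q ∈ A, w q := by
      symm
      refine sum_subset (powerset_mono.2 hs) fun A _ hA => ?_
      rw [mem_powerset] at hA
      rw [dco_chi_empty, if_neg hA, zero_mul]
    rw [h2]
    have h3 : ∏ q ∈ B m, (1 + p q * (w q - 1)) = ∏ q ∈ B m, (p q * w q + (1 - p q)) :=
      prod_congr rfl fun q _ => by ring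
    rw [h3, prod_add]
    refine sum_congr rfl fun A hA => ?_
    rw [mem_powerset] at hA
    rw [dco_chi_empty, if_pos hA, prod_mul_distrib]
    ring
  rw [sum_congr rfl h1, sum_comm, sum_div]
  refine sum_congr rfl fun A _ => ?_
  unfold xh
  rw [← sum_mul, ← sum_mul]
  ring

lemma abs_dco_eq {p : ℕ → ℝ} {B : ℕ → Finset ℕ} {m : ℕ} (h1 : ∀ q ∈ B m, p q ≤ 1)
    (A : Finset ℕ) :
    |dco p B m A| = if A ⊆ B m then ∏ q ∈ B m \ A, (1 - p q) else 0 := by
  unfold dco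
  split_ifs
  · rw [abs_mul, abs_pow, abs_neg, abs_one, one_pow, one_mul, abs_of_nonneg]
    refine prod_nonneg fun q hq => ?_
    have := h1 q (mem_sdiff.1 hq).1
    linarith
  · exact abs_zero

lemma abs_xh_le {p : ℕ → ℝ} {B : ℕ → Finset ℕ} {J : ℕ} {Q : Finset ℕ}
    (hB : ∀ m < J, B m ⊆ Q) (h0 : ∀ q ∈ Q, 0 ≤ p q) (h1 : ∀ q ∈ Q, p q ≤ 1) (A : Finset ℕ) :
    |xh p B J A| ≤ 1 := by
  unfold xh
  rw [abs_div, Nat.abs_cast]
  refine div_le_one_of_le₀ ?_ (Nat.cast_nonneg _)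
  calc |∑ m ∈ range J, dco p B m A| ≤ ∑ m ∈ range J, |dco p B m A| := abs_sum_le_sum_abs _ _
    _ ≤ ∑ _m ∈ range J, (1 : ℝ) := by
        refine sum_le_sum fun m hm => ?_
        have hs := hB m (mem_range.1 hm)
        rw [abs_dco_eq (fun q hq => h1 q (hs hq))]
        split_ifs
        · refine prod_le_one (fun q hq => ?_) fun q hq => ?_
          · have := h1 q (hs (mem_sdiff.1 hq).1); linarith
          · have := h0 q (hs (mem_sdiff.1 hq).1); linarith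
        · norm_num
    _ = J := by simp

lemma sum_abs_xh_chi {p : ℕ → ℝ} {B : ℕ → Finset ℕ} {J : ℕ} {Q : Finset ℕ} (hJ : 0 < J)
    (hB : ∀ m < J, B m ⊆ Q) (h0 : ∀ q ∈ Q, 0 ≤ p q) (h1 : ∀ q ∈ Q, p q ≤ 1) (ω : Finset ℕ) :
    ∑ A ∈ Q.powerset, |xh p B J A| * |chi p A ω| ≤ 2 ^ (ω ∩ Q).card := by
  have hJ' : (0 : ℝ) < J := by exact_mod_cast hJ
  have hone : ∀ m < J, ∑ A ∈ Q.powerset, |dco p B m A| * |chi p A ω| ≤ 2 ^ (ω ∩ Q).card := by
    intro m hm
    have hs := hB m hm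
    have h2 : ∑ A ∈ Q.powerset, |dco p B m A| * |chi p A ω| =
        ∑ A ∈ (B m).powerset, |dco p B m A| * |chi p A ω| := by
      symm
      refine sum_subset (powerset_mono.2 hs) fun A _ hA => ?_
      rw [mem_powerset] at hA
      rw [abs_dco_eq (fun q hq => h1 q (hs hq)), if_neg hA, zero_mul]
    rw [h2]
    have h3 : ∑ A ∈ (B m).powerset, |dco p B m A| * |chi p A ω| =
        ∏ q ∈ B m, (|(if q ∈ ω then 1 else 0) - p q| + (1 - p q)) := by
      rw [prod_add]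
      refine sum_congr rfl fun A hA => ?_
      rw [mem_powerset] at hA
      rw [abs_dco_eq (fun q hq => h1 q (hs hq)), if_pos hA]
      unfold chi
      rw [abs_prod]
      ring
    rw [h3]
    calc ∏ q ∈ B m, (|(if q ∈ ω then (1 : ℝ) else 0) - p q| + (1 - p q))
        ≤ ∏ q ∈ B m, (if q ∈ ω then (2 : ℝ) else 1) := by
          refine prod_le_prod (fun q hq => ?_) fun q hq => ?_
          · have := h1 q (hs hq)
            have := abs_nonneg ((if q ∈ ω then (1 : ℝ) else 0) - p q)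
            linarith
          · have a0 := h0 q (hs hq)
            have a1 := h1 q (hs hq)
            split_ifs
            · rw [abs_of_nonneg (by linarith)]; linarith
            · rw [zero_sub, abs_neg, abs_of_nonneg a0]; linarith
      _ ≤ ∏ q ∈ Q, (if q ∈ ω then (2 : ℝ) else 1) := by
          rw [← prod_sdiff hs]
          have hA : (1 : ℝ) ≤ ∏ q ∈ Q \ B m, (if q ∈ ω then (2 : ℝ) else 1) := by
            refine Finset.prod_induction _ (fun x : ℝ => 1 ≤ x)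
              (fun a b ha hb => one_le_mul_of_one_le_of_one_le ha hb) (le_refl 1) fun q _ => ?_
            split_ifs <;> norm_num
          have hB' : (0 : ℝ) ≤ ∏ q ∈ B m, (if q ∈ ω then (2 : ℝ) else 1) :=
            prod_nonneg fun q _ => by split_ifs <;> norm_num
          nlinarith
      _ = 2 ^ (ω ∩ Q).card := by
          rw [← prod_filter, prod_const, inter_comm, filter_mem_eq_inter]
  have h4 : ∀ A ∈ Q.powerset, |xh p B J A| * |chi p A ω| ≤
      (∑ m ∈ range J, |dco p B m A| * |chi p A ω|) / J := by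
    intro A _
    unfold xh
    rw [abs_div, Nat.abs_cast, div_mul_eq_mul_div, ← sum_mul]
    refine div_le_div_of_nonneg_right ?_ hJ'.le
    exact mul_le_mul_of_nonneg_right (abs_sum_le_sum_abs _ _) (abs_nonneg _)
  calc ∑ A ∈ Q.powerset, |xh p B J A| * |chi p A ω|
      ≤ ∑ A ∈ Q.powerset, (∑ m ∈ range J, |dco p B m A| * |chi p A ω|) / J := sum_le_sum h4
    _ = (∑ m ∈ range J, ∑ A ∈ Q.powerset, |dco p B m A| * |chi p A ω|) / J := by
        rw [← sum_div, sum_comm]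
    _ ≤ (∑ _m ∈ range J, (2 : ℝ) ^ (ω ∩ Q).card) / J :=
        div_le_div_of_nonneg_right (sum_le_sum fun m hm => hone m (mem_range.1 hm)) hJ'.le
    _ = _ := by
        rw [sum_const, card_range, nsmul_eq_mul]
        field_simp

section top

/-- the part of cost `≤ h` of the indicator of `ω ∩ Q = ∅` -/
noncomputable def Dh (p : ℕ → ℝ) (Q : Finset ℕ) (h : ℝ) (ω : Finset ℕ) : ℝ :=
  ∑ A ∈ Q.powerset with lw A ≤ h, dco p (fun _ => Q) 0 A * chi p A ω

lemma Dh_inter {p : ℕ → ℝ} {Q : Finset ℕ} {h : ℝ} (ω : Finset ℕ) :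
    Dh p Q h (ω ∩ Q) = Dh p Q h ω := by
  unfold Dh
  refine sum_congr rfl fun A hA => ?_
  rw [chi_inter (mem_powerset.1 (mem_filter.1 hA).1)]

lemma E1_Dh_sq {p : ℕ → ℝ} {Q : Finset ℕ} (h0 : ∀ q ∈ Q, 0 ≤ p q) (h1 : ∀ q ∈ Q, p q ≤ 1)
    (h : ℝ) : E1 p Q (fun ω => Dh p Q h ω ^ 2) ≤ ∏ q ∈ Q, (1 - p q) := by
  classical
  have e1 : E1 p Q (fun ω => Dh p Q h ω ^ 2) =
      ∑ A ∈ Q.powerset with lw A ≤ h, dco p (fun _ => Q) 0 A ^ 2 * ∏ q ∈ A, (p q * (1 - p q)) := by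
    unfold E1 Dh
    simp only [pow_two, sum_mul_sum]
    simp only [mul_sum]
    rw [sum_comm]
    refine sum_congr rfl fun A hA => ?_
    rw [sum_comm]
    have h2 : ∀ A' ∈ (Q.powerset.filter fun A => lw A ≤ h), ∑ ω ∈ Q.powerset, mu p Q ω *
        (dco p (fun _ => Q) 0 A * chi p A ω * (dco p (fun _ => Q) 0 A' * chi p A' ω)) =
        if A = A' then dco p (fun _ => Q) 0 A * dco p (fun _ => Q) 0 A *
          ∏ q ∈ A, (p q * (1 - p q)) else 0 := by
      intro A' hA'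
      have h3 := E_chi (p := p) (mem_powerset.1 (mem_filter.1 hA).1)
        (mem_powerset.1 (mem_filter.1 hA').1)
      have h4 : ∑ ω ∈ Q.powerset, mu p Q ω *
          (dco p (fun _ => Q) 0 A * chi p A ω * (dco p (fun _ => Q) 0 A' * chi p A' ω)) =
          (dco p (fun _ => Q) 0 A * dco p (fun _ => Q) 0 A') *
            ∑ ω ∈ Q.powerset, mu p Q ω * (chi p A ω * chi p A' ω) := by
        rw [mul_sum]; exact sum_congr rfl fun ω _ => by ring
      rw [h4, h3]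
      split_ifs with hc
      · subst hc; ring
      · ring
    rw [sum_congr rfl h2, sum_ite_eq, if_pos hA]
  rw [e1]
  have hpair := dco_pair p (fun _ => 1) (B := fun _ => Q) (Q := Q) (m := 0) (m' := 0) (le_refl 0)
    (fun _ _ _ => le_refl _) (subset_refl Q)
  simp only [sub_self, mul_zero, add_zero, prod_const_one, mul_one] at hpair
  have hV : V p (fun _ => Q) 0 = ∏ q ∈ Q, (1 - p q) := rfl
  rw [← hV, ← hpair]
  calc ∑ A ∈ Q.powerset with lw A ≤ h, dco p (fun _ => Q) 0 A ^ 2 * ∏ q ∈ A, (p q * (1 - p q))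
      ≤ ∑ A ∈ Q.powerset, dco p (fun _ => Q) 0 A ^ 2 * ∏ q ∈ A, (p q * (1 - p q)) := by
        refine sum_le_sum_of_subset_of_nonneg (filter_subset _ _) fun A hA _ => ?_
        refine mul_nonneg (sq_nonneg _) (prod_nonneg fun q hq => ?_)
        have hq' := mem_powerset.1 hA hq
        have := h0 q hq'
        have := h1 q hq'
        exact mul_nonneg (by assumption) (by linarith)
    _ = _ := sum_congr rfl fun A _ => by ring

lemma exp_lw (θ : ℝ) (A : Finset ℕ) : Real.exp (θ * lw A) = ∏ q ∈ A, Real.exp (θ * Real.log q) := by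
  unfold lw
  rw [mul_sum, Real.exp_sum]

lemma Dh_empty_ge {p : ℕ → ℝ} {Q : Finset ℕ} (h0 : ∀ q ∈ Q, 0 ≤ p q) (h1 : ∀ q ∈ Q, p q ≤ 1)
    {θ : ℝ} (hθ : 0 ≤ θ) (h : ℝ) :
    1 - Real.exp (-(θ * h)) * ∏ q ∈ Q, (1 + p q * (Real.exp (θ * Real.log q) - 1)) ≤
      Dh p Q h ∅ := by
  have hpos : ∀ A ⊆ Q, 0 ≤ (∏ q ∈ A, p q) * ∏ q ∈ Q \ A, (1 - p q) := by
    intro A hA
    refine mul_nonneg (prod_nonneg fun q hq => h0 q (hA hq)) (prod_nonneg fun q hq => ?_)
    have := h1 q (mem_sdiff.1 hq).1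
    linarith
  have e1 : Dh p Q h ∅ = ∑ A ∈ Q.powerset with lw A ≤ h,
      (∏ q ∈ A, p q) * ∏ q ∈ Q \ A, (1 - p q) := by
    unfold Dh
    refine sum_congr rfl fun A hA => ?_
    rw [dco_chi_empty, if_pos (mem_powerset.1 (mem_filter.1 hA).1)]
  have e2 : ∑ A ∈ Q.powerset, (∏ q ∈ A, p q) * ∏ q ∈ Q \ A, (1 - p q) = 1 := by
    rw [← prod_add]
    exact prod_eq_one fun q _ => by ring
  have e3 := sum_filter_add_sum_filter_not Q.powerset (fun A => lw A ≤ h)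
    (fun A => (∏ q ∈ A, p q) * ∏ q ∈ Q \ A, (1 - p q))
  rw [e2, ← e1] at e3
  have e4 : ∑ A ∈ Q.powerset with ¬ lw A ≤ h, (∏ q ∈ A, p q) * ∏ q ∈ Q \ A, (1 - p q) ≤
      Real.exp (-(θ * h)) * ∏ q ∈ Q, (1 + p q * (Real.exp (θ * Real.log q) - 1)) := by
    have h3 : ∏ q ∈ Q, (1 + p q * (Real.exp (θ * Real.log q) - 1)) =
        ∏ q ∈ Q, (p q * Real.exp (θ * Real.log q) + (1 - p q)) :=
      prod_congr rfl fun q _ => by ring
    rw [h3, prod_add, mul_sum]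
    calc ∑ A ∈ Q.powerset with ¬ lw A ≤ h, (∏ q ∈ A, p q) * ∏ q ∈ Q \ A, (1 - p q)
        ≤ ∑ A ∈ Q.powerset with ¬ lw A ≤ h, Real.exp (-(θ * h)) *
          ((∏ q ∈ A, p q * Real.exp (θ * Real.log q)) * ∏ q ∈ Q \ A, (1 - p q)) := by
          refine sum_le_sum fun A hA => ?_
          rw [mem_filter, mem_powerset, not_le] at hA
          rw [prod_mul_distrib, ← exp_lw]
          have h5 : 1 ≤ Real.exp (-(θ * h)) * Real.exp (θ * lw A) := by
            rw [← Real.exp_add]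
            apply Real.one_le_exp
            nlinarith [hA.2]
          have h6 := hpos A hA.1
          calc (∏ q ∈ A, p q) * ∏ q ∈ Q \ A, (1 - p q)
              = ((∏ q ∈ A, p q) * ∏ q ∈ Q \ A, (1 - p q)) * 1 := (mul_one _).symm
            _ ≤ ((∏ q ∈ A, p q) * ∏ q ∈ Q \ A, (1 - p q)) *
                (Real.exp (-(θ * h)) * Real.exp (θ * lw A)) := mul_le_mul_of_nonneg_left h5 h6
            _ = _ := by ring
      _ ≤ _ := by
          refine sum_le_sum_of_subset_of_nonneg (filter_subset _ _) fun A hA _ => ?_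
          rw [mem_powerset] at hA
          refine mul_nonneg (Real.exp_pos _).le (mul_nonneg (prod_nonneg fun q hq => ?_)
            (prod_nonneg fun q hq => ?_))
          · exact mul_nonneg (h0 q (hA hq)) (Real.exp_pos _).le
          · have := h1 q (mem_sdiff.1 hq).1
            linarith
  linarith

end top

section rep

variable {N : ℕ} {Q : Finset ℕ} {k : ℕ → ℕ} {hit : ℕ → Fin N → ℕ → Prop}

/-- sum of the sizes of the sets of small cost -/
lemma sum_prod_le {Q2 : Finset ℕ} (hpos : ∀ q ∈ Q2, 0 < q) (h : ℝ) :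
    ∑ A ∈ Q2.powerset with lw A ≤ h, ∏ q ∈ A, (q : ℝ) ≤
      Real.exp (3 * h) * ∏ q ∈ Q2, (1 + ((q : ℝ) ^ 2)⁻¹) := by
  have h2 : ∏ q ∈ Q2, (1 + ((q : ℝ) ^ 2)⁻¹) = ∑ D ∈ Q2.powerset, ∏ q ∈ D, ((q : ℝ) ^ 2)⁻¹ := by
    rw [prod_congr rfl fun q _ => add_comm (1 : ℝ) _, prod_add]
    refine sum_congr rfl fun D _ => ?_
    simp
  rw [h2, mul_sum]
  calc ∑ A ∈ Q2.powerset with lw A ≤ h, ∏ q ∈ A, (q : ℝ)
      ≤ ∑ A ∈ Q2.powerset with lw A ≤ h, Real.exp (3 * h) * ∏ q ∈ A, ((q : ℝ) ^ 2)⁻¹ := by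
        refine sum_le_sum fun A hA => ?_
        rw [mem_filter, mem_powerset] at hA
        have h3 : ∏ q ∈ A, (q : ℝ) = Real.exp (3 * lw A) * ∏ q ∈ A, ((q : ℝ) ^ 2)⁻¹ := by
          rw [exp_lw, ← prod_mul_distrib]
          refine prod_congr rfl fun q hq => ?_
          have hq0 : (0 : ℝ) < q := by exact_mod_cast hpos q (hA.1 hq)
          rw [mul_comm 3, Real.exp_mul, Real.exp_log hq0]
          norm_num
          field_simp
        rw [h3]
        refine mul_le_mul_of_nonneg_right (Real.exp_le_exp.2 (by linarith [hA.2])) ?_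
        exact prod_nonneg fun q _ => by positivity
    _ ≤ _ := by
        refine sum_le_sum_of_subset_of_nonneg (filter_subset _ _) fun A _ _ => ?_
        exact mul_nonneg (Real.exp_pos _).le (prod_nonneg fun q _ => by positivity)

lemma prod_inv_sq_le {Q2 : Finset ℕ} (hQ : ∑ q ∈ Q2, ((q : ℝ) ^ 2)⁻¹ ≤ 1) :
    ∏ q ∈ Q2, (1 + ((q : ℝ) ^ 2)⁻¹) ≤ Real.exp 1 := by
  calc ∏ q ∈ Q2, (1 + ((q : ℝ) ^ 2)⁻¹) ≤ ∏ q ∈ Q2, Real.exp (((q : ℝ) ^ 2)⁻¹) := by
        refine prod_le_prod (fun q _ => by positivity) fun q _ => ?_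
        have := Real.add_one_le_exp (((q : ℝ) ^ 2)⁻¹); linarith
    _ = Real.exp (∑ q ∈ Q2, ((q : ℝ) ^ 2)⁻¹) := by rw [Real.exp_sum]
    _ ≤ Real.exp 1 := Real.exp_le_exp.2 hQ

lemma rep_Dh (h : HitSys Q k hit) {p : ℕ → ℝ} (h0 : ∀ q ∈ Q, 0 ≤ p q) (h1 : ∀ q ∈ Q, p q ≤ 1)
    {Q2 : Finset ℕ} (hQ2 : Q2 ⊆ Q) (hs : ∑ q ∈ Q2, ((q : ℝ) ^ 2)⁻¹ ≤ 1) (hh : ℝ) (i : Fin N) :
    PRep (∏ q ∈ Q, q) (fun t => Dh p Q2 hh (conf Q hit t i)) (Real.exp (3 * hh + 1)) := by
  classical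
  have e1 : PRep (∏ q ∈ Q, q) (fun t => Dh p Q2 hh (conf Q hit t i))
      (∑ A ∈ Q2.powerset with lw A ≤ hh, |dco p (fun _ => Q2) 0 A| * ∏ q ∈ A, (q : ℝ)) := by
    unfold Dh
    refine PRep.sum _ (fun A t => dco p (fun _ => Q2) 0 A * chi p A (conf Q hit t i)) _
      fun A hA => ?_
    exact (rep_chi h h0 h1 ((mem_powerset.1 (mem_filter.1 hA).1).trans hQ2) i).smul _
  refine e1.weaken ?_
  calc ∑ A ∈ Q2.powerset with lw A ≤ hh, |dco p (fun _ => Q2) 0 A| * ∏ q ∈ A, (q : ℝ)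
      ≤ ∑ A ∈ Q2.powerset with lw A ≤ hh, ∏ q ∈ A, (q : ℝ) := by
        refine sum_le_sum fun A hA => ?_
        have hA' := mem_powerset.1 (mem_filter.1 hA).1
        have h5 : |dco p (fun _ => Q2) 0 A| ≤ 1 := by
          rw [abs_dco_eq (fun q hq => h1 q (hQ2 hq)), if_pos hA']
          refine prod_le_one (fun q hq => ?_) fun q hq => ?_
          · have := h1 q (hQ2 (mem_sdiff.1 hq).1); linarith
          · have := h0 q (hQ2 (mem_sdiff.1 hq).1); linarith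
        have h6 : 0 ≤ ∏ q ∈ A, (q : ℝ) := prod_nonneg fun q _ => Nat.cast_nonneg q
        nlinarith
    _ ≤ Real.exp (3 * hh) * ∏ q ∈ Q2, (1 + ((q : ℝ) ^ 2)⁻¹) :=
        sum_prod_le (fun q hq => h.pos q (hQ2 hq)) hh
    _ ≤ Real.exp (3 * hh) * Real.exp 1 :=
        mul_le_mul_of_nonneg_left (prod_inv_sq_le hs) (Real.exp_pos _).le
    _ = _ := by rw [← Real.exp_add]

end rep

end Pool.Agent.PosProp
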